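import Pool.Agent.MP_3ee8cb_gt.RS.SpecC

/-! Rank one symmetric targets: the barycentre map. Definitions and statements of the rows. -/

namespace Pool.Agent.MP_3ee8cb_gt.CR

open Set MeasureTheory
open scoped RealInnerProductSpace

variable {n : ℕ}

/-- Weak Busemann data. -/
structure WD (g : Met n) (β : E n → E n → ℝ) (v : E n → E n → E n) : Prop where
  riem : Riem g
  pos : ∀ x k, k ≠ 0 → 0 < β x k
  hom : ∀ x k (t : ℝ), k ≠ 0 → 0 < t → β x (t • k) = t * β x k ∧ v x (t • k) = v x k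
  cb : ContinuousOn (fun w : E n × E n => β w.1 w.2) {w | w.2 ≠ 0}
  cv : ContinuousOn (fun w : E n × E n => v w.1 w.2) {w | w.2 ≠ 0}
  unit : ∀ x k, k ≠ 0 → g x (v x k) (v x k) = 1
  tay : ∀ R : ℝ, ∃ C : ℝ, ∀ x x' k, ‖x‖ ≤ R → ‖x'‖ ≤ R → k ≠ 0 →
    |Real.log (β x' k) - Real.log (β x k) + g x (v x k) (x' - x)| ≤ C * ‖x' - x‖ ^ 2

structure YbP (d : ℕ) (β : E n → E n → ℝ) : Prop where
  low : ∀ R : ℝ, ∃ c : ℝ, 0 < c ∧ ∀ x k, ‖x‖ ≤ R → k ≠ 0 →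
    c * ‖k‖ ≤ β x k ∧ β x k ≤ c⁻¹ * ‖k‖
  ne : ∀ᵐ k ∂nd n d, k ≠ 0
  ac : (volume : Measure (E n)) ≪ nd n d
  dom : ∀ (c : ℝ) (j : ℕ), 0 < c → Integrable (fun k : E n => ‖k‖ ^ (j + 2) *
    Real.exp (-(c * ‖k‖))) (nd n d)

noncomputable def Y2 (D : Tri n) (d : ℕ) (β : E n → E n → ℝ) (x : E n) : J3 n :=
  ∫ k, Real.exp (-β x k) • ver D ‖k‖ k ∂nd n d

structure MoP (g : Met n) (D : Tri n) (d : ℕ) (β : E n → E n → ℝ) (v : E n → E n → E n) :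
    Prop where
  int : ∀ x, Integrable (fun k => Real.exp (-β x k) • ver D ‖k‖ k) (nd n d)
  int' : ∀ x u, Integrable
    (fun k => (β x k * Real.exp (-β x k) * g x (v x k) u) • ver D ‖k‖ k) (nd n d)
  smooth : ContDiff ℝ 1 (Y2 D d β)
  der : ∀ x u, fderiv ℝ (Y2 D d β) x u =
    ∫ k, (β x k * Real.exp (-β x k) * g x (v x k) u) • ver D ‖k‖ k ∂nd n d

def HoP (d : ℕ) (β : E n → E n → ℝ) : Prop := ∀ (x : E n) (f : E n → ℝ),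
  ContinuousOn f {k | k ≠ 0} → (∀ k (t : ℝ), k ≠ 0 → 0 < t → f (t • k) = t ^ 2 * f k) →
  ∫ k, β x k * Real.exp (-β x k) * f k ∂nd n d =
    (n + d) * ∫ k, Real.exp (-β x k) * f k ∂nd n d

/-- Positive elements. -/
structure Ps (z : J3 n) : Prop where
  pos : 0 < z.1
  sym : ∀ a b, ⟪z.2.2 a, b⟫ = ⟪a, z.2.2 b⟫
  psd : ∀ a, 0 ≤ ⟪z.2.2 a, a⟫

def MaP (D : Tri n) (d : ℕ) (β : E n → E n → ℝ) : Prop :=
  ∀ x, Ps (Y2 D d β x) ∧ ∃ y, ∀ y', pr (Y2 D d β x) y ≤ pr (Y2 D d β x) y'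

/-- All analytic facts on weak data. -/
structure AnP (g : Met n) (D : Tri n) (d : ℕ) (β : E n → E n → ℝ) (v : E n → E n → E n) :
    Prop where
  wd : WD g β v
  yb : YbP d β
  mo : MoP g D d β v
  ho : HoP d β
  ma : MaP D d β

def AllAn (g : Met n) (D : Tri n) (d : ℕ) : Prop := ∀ β v, WD g β v → AnP g D d β v

def WsP (g : Met n) (D : Tri n) (d : ℕ) (h : Met n) : Prop := ∀ β v T a T' a', WD g β v →
  Sy2 D d h T a T' a' → WD g (fun x k => β x (a k)) (fun x k => v x (a k)) ∧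
    ∀ x y, pr (Y2 D d β x) (T y) = pr (Y2 D d (fun x k => β x (a k)) x) y

/-- The barycentre. -/
noncomputable def Fb (D : Tri n) (d : ℕ) (β : E n → E n → ℝ) (x : E n) : E n :=
  Classical.epsilon fun y => ∀ y', pr (Y2 D d β x) y ≤ pr (Y2 D d β x) y'

structure PrP (n : ℕ) : Prop where
  smooth : ∀ z : J3 n, ContDiff ℝ 1 (pr z)
  crit : ∀ z : J3 n, fderiv ℝ (pr z) 0 = 0 → z.2.1 = 0
  min : ∀ z : J3 n, Ps z → z.2.1 = 0 → ∀ y, y ≠ 0 → pr z 0 < pr z y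

def MbP (g : Met n) (D : Tri n) (d : ℕ) : Prop := ∀ β v, WD g β v → ∀ x y,
  (Fb D d β x = y ↔ fderiv ℝ (pr (Y2 D d β x)) y = 0)

def IfP (n : ℕ) : Prop := ∀ (z : E n → J3 n) (x₀ : E n), ContDiff ℝ 1 z → (∀ x, Ps (z x)) →
  (z x₀).2.1 = 0 → ∃ y : E n → E n, ContDiffAt ℝ 1 y x₀ ∧ y x₀ = 0 ∧
    (∀ᶠ x in nhds x₀, fderiv ℝ (pr (z x)) (y x) = 0) ∧ ∀ u,
      (z x₀).1 • fderiv ℝ y x₀ u + (z x₀).2.2 (fderiv ℝ y x₀ u) = (fderiv ℝ z x₀ u).2.1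

/-- The derivative of the barycentre in a frame. -/
def FrP (D : Tri n) (d : ℕ) (h : Met n) (β : E n → E n → ℝ) : Prop := ∀ x T a T' a',
  Sy2 D d h T a T' a' → T 0 = Fb D d β x → ∃ L : E n →L[ℝ] E n,
    fderiv ℝ (Fb D d β) x = (fderiv ℝ T 0).comp L ∧ ∀ u,
      (Y2 D d (fun x k => β x (a k)) x).1 • L u + (Y2 D d (fun x k => β x (a k)) x).2.2 (L u) =
        (fderiv ℝ (Y2 D d fun x k => β x (a k)) x u).2.1

/-- All data. -/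
structure KD (g : Met n) (D : Tri n) (d : ℕ) (h : Met n) {Γ : Type} [Group Γ]
    [MulAction Γ (E n)] (T a : Γ → E n → E n) (β : E n → E n → ℝ) (v m u : E n → E n → E n)
    (X : E n × E n → E n) : Prop where
  sd : SD D d h
  riem : Riem g
  rieh : Riem h
  deck : Deck g Γ
  alg : AlgP D d
  bas : BasP D
  tra : TraP D d h
  mod : ModP D d h u
  act : Act (lD D) a
  sy : ∀ γ, Sy2 D d h (T γ) (a γ) (T γ⁻¹) (a γ⁻¹)
  bd : BD g (lD D) a β v m X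
  wd : WD g β v

structure EqG {Γ : Type} [Group Γ] [MulAction Γ (E n)] (T : Γ → E n → E n) (F : E n → E n) :
    Prop where
  smooth : ContDiff ℝ 1 F
  equi : ∀ (γ : Γ) x, F (γ • x) = T γ (F x)

noncomputable def I2 (h : Met n) (F : E n → E n) (x : E n) : ENNReal :=
  ENNReal.ofReal |(fderiv ℝ F x).det| * W h (F x)

def Good2 (F : E n → E n) (v u : E n → E n → E n) (x : E n) : Prop :=
  ∀ k, k ≠ 0 → fderiv ℝ F x (v x k) = u (F x) k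

def JaQ (g h : Met n) (F : E n → E n) (v u : E n → E n → E n) : Prop :=
  ∀ x, I2 h F x ≤ W g x ∧ (W g x ≤ I2 h F x → Good2 F v u x)

def E3 (D : Tri n) (F : E n → E n) (S : Set (E n)) : Set (E n × E n) :=
  (fun a : E n × E n => (a.2, gradient (el D (F a.1)) a.2)) ''
    {a | a.1 ∈ S ∧ a.2 ≠ 0 ∧ el D (F a.1) a.2 ≤ 1}

def RiP (D : Tri n) (h : Met n) : Prop := ∀ y : E n,
  ∫⁻ k in {k : E n | k ≠ 0 ∧ el D y k ≤ 1},
    ENNReal.ofReal |(fderiv ℝ (fun y => gradient (el D y) k) y).det| ≤ W h y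

def OnWD (P : ∀ (n : ℕ) (_ : Met n) (_ : Tri n) (_ : ℕ) (_ : E n → E n → ℝ)
    (_ : E n → E n → E n), Prop) : Prop :=
  ∀ (n : ℕ) (g h : Met n) (D : Tri n) (d : ℕ) (β : E n → E n → ℝ) (v : E n → E n → E n),
    SD D d h → AlgP D d → BasP D → WD g β v → P n g D d β v

def OnKD (P : ∀ (n : ℕ) (_ : Met n) (_ : Tri n) (_ : ℕ) (_ : Met n) (Γ : Type) [Group Γ]
    [MulAction Γ (E n)] (_ : Γ → E n → E n) (_ : E n → E n → ℝ) (_ _ _ : E n → E n → E n),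
    Prop) : Prop :=
  ∀ (n : ℕ) (g : Met n) (D : Tri n) (d : ℕ) (h : Met n) (Γ : Type) [Group Γ] [MulAction Γ (E n)]
    (T a : Γ → E n → E n) (β : E n → E n → ℝ) (v m u : E n → E n → E n) (X : E n × E n → E n),
    KD g D d h T a β v m u X → P n g D d h Γ T β v m u

def SYB : Prop := OnWD fun _ _ _ d β _ => YbP d β
def SMO : Prop := OnWD fun _ g D d β v => YbP d β → MoP g D d β v
def SHO : Prop := OnWD fun _ _ _ d β _ => YbP d β → HoP d β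
def SMA : Prop := OnWD fun _ g D d β v => YbP d β → MoP g D d β v → MaP D d β
def SWS : Prop := OnSD fun n D d h => BasP D → CoP D d h → ∀ g : Met n, AllAn g D d →
  WsP g D d h
def SPR : Prop := ∀ n : ℕ, PrP n
def SMB : Prop := OnSD fun n D d h => PrP n → TraP D d h → ∀ g : Met n, AllAn g D d →
  WsP g D d h → MbP g D d
def SIF : Prop := ∀ n : ℕ, IfP n
def SFB : Prop := OnKD fun n g D d h _ _ _ T β _ _ _ => PrP n → IfP n → AllAn g D d →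
  WsP g D d h → MbP g D d → EqG T (Fb D d β) ∧ FrP D d h β

def SSCA : Prop := ∀ (n : ℕ) (d : ℝ) (p : Fin n → ℝ), 0 < n → 0 < d → (∀ i, 0 ≤ p i ∧ p i ≤ 1) →
  ∑ i, p i = d → (((n + d) / n) ^ 2 * (d⁻¹ * ∑ i, p i / (1 + p i))) ^ n ≤ ∏ i, (1 + p i) ∧
    (∏ i, (1 + p i) ≤ (((n + d) / n) ^ 2 * (d⁻¹ * ∑ i, p i / (1 + p i))) ^ n →
      ∀ i, p i = d / n)

def TkP (D : Tri n) (d : ℕ) : Prop := ∀ K Ki : E n →L[ℝ] E n, (∀ a b, ⟪K a, b⟫ = ⟪a, K b⟫) →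
  (∀ a, 0 ≤ ⟪K a, a⟫) → (∀ a, K (Ki a) = a) →
  (∀ e z, D e e z = ‖e‖ ^ 2 • z → e ≠ 0 → ‖e‖ ^ 2 * ⟪K z, z⟫ = ‖z‖ ^ 2 * ⟪K e, e⟫) →
  ∀ a, ‖a‖ = 1 → d * ⟪Ki a, a⟫ ≤
    LinearMap.trace ℝ (E n) (Ki.comp (D a a) : E n →L[ℝ] E n)

def NuP (D : Tri n) (d : ℕ) : Prop := ∀ (μ : Measure (E n)) [IsProbabilityMeasure μ]
  (a b : E n → E n) (P J : E n →L[ℝ] E n), AEStronglyMeasurable a μ → AEStronglyMeasurable b μ →
  (∀ᵐ x ∂μ, ‖a x‖ = 1 ∧ ‖b x‖ = 1) → (∀ w, P w = ∫ x, D (a x) (a x) w ∂μ) →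
  (∀ w, J w + P (J w) = ((n : ℝ) + d) • ∫ x, ⟪b x, w⟫ • a x ∂μ) →
    |J.det| ≤ 1 ∧ (1 ≤ |J.det| → ∀ᵐ x ∂μ, J (b x) = a x)

def WfP (n : ℕ) : Prop := ∀ (g : Met n) (x : E n) (R : E n →L[ℝ] E n),
  (∀ a b, g x (R a) (R b) = ⟪a, b⟫) →
    W g x * ENNReal.ofReal |R.det| = volume (Metric.closedBall (0 : E n) 1)

def STK : Prop := OnSD fun _ D d _ => AlgP D d → TkP D d
def SNU : Prop := OnSD fun _ D d _ => AlgP D d → TkP D d → NuP D d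
def SWF : Prop := ∀ n : ℕ, WfP n
def SJQ : Prop := OnKD fun n g D d h _ _ _ _ β v _ u => NuP D d → WfP n → AllAn g D d →
  WsP g D d h → FrP D d h β → JaQ g h (Fb D d β) v u
def SRI : Prop := OnSD fun _ D d h => BasP D → Riem h → ∀ u, ModP D d h u → RiP D h
def SRJ : Prop := OnSD fun n D _ h => BasP D → RiP D h → ∀ (F : E n → E n) (S : Set (E n)),
  ContDiff ℝ 1 F → MeasurableSet S → volume (E3 D F S) ≤ ∫⁻ x in S, I2 h F x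
def SSU : Prop := OnKD fun _ _ D d h _ _ _ T β _ _ u => YbP d β → ∀ φ ψ, PhiP D h u φ ψ →
  ∀ F, EqG T F → Function.Surjective F
def SCV : Prop := OnKD fun n _ D d h Γ _ _ T β _ m _ => CtP n → QeP D d h → Countable Γ →
  ∀ F S, EqG T F → Function.Surjective F → (∀ x : E n, ∃ γ : Γ, γ • x ∈ S) →
  (∀ (γ : Γ) (x : E n), x ∈ S → γ • x ∈ S → γ = 1) → MeasurableSet (E1 β m (qD D) S) →
  volume (E1 β m (qD D) S) ≤ volume (E3 D F S)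
def SGD : Prop := OnKD fun n g _ _ h _ _ _ _ _ v _ u => ∀ (F : E n → E n) (S : Set (E n))
  (x : E n), ContDiff ℝ 1 F → JaQ g h F v u → MeasurableSet S → S ∈ nhds x → Measurable (W g) →
  ∫⁻ x in S, W g x ≠ ⊤ → ∫⁻ x in S, W g x ≤ ∫⁻ x in S, I2 h F x → Good2 F v u x
def SEN : Prop := OnKD fun n g _ _ h _ _ _ _ _ v _ u => ∀ F : E n → E n, ContDiff ℝ 1 F →
  (∀ x, Good2 F v u x) → Function.Injective F ∧
    ∀ x a b, h (F x) (fderiv ℝ F x a) (fderiv ℝ F x b) = g x a b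

/-- The theorem for the metric scaled by `c`. -/
def Main2 (c : ℝ) : Prop := ∀ (n : ℕ) (D : Tri n) (d : ℕ) (g h : Met n) (Γ Λ : Type) [Group Γ]
  [Group Λ] [MulAction Γ (E n)] [MulAction Λ (E n)] (Φ : ℝ → UT g → UT g) (Ψ : ℝ → UT h → UT h)
  (f : UM g Γ ≃ₜ UM h Λ), 3 ≤ n → Hopf D d → Riem g → IsSym c D h → Deck g Γ → Deck h Λ →
  IsFlow g Φ → IsFlow h Ψ →
  (∀ t p q, f (Quot.mk _ p) = Quot.mk _ q → f (Quot.mk _ (Φ t p)) = Quot.mk _ (Ψ t q)) →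
  ∃ (F : E n → E n) (ρ : Γ ≃* Λ), Function.Bijective F ∧ ContDiff ℝ 1 F ∧
    (∀ x u v, h (F x) (fderiv ℝ F x u) (fderiv ℝ F x v) = g x u v) ∧
    ∀ (γ : Γ) x, F (γ • x) = ρ γ • F x

def SSC2 : Prop := Main2 1 → ∀ c : ℝ, 0 < c → Main2 c

/-- Real, complex and quaternionic structures. -/
def SINJ : Prop := ∀ (n k : ℕ) (J : Fin k → E n →L[ℝ] E n),
  (∀ i u v, ⟪J i u, v⟫ = -⟪u, J i v⟫) → (∀ i u, J i (J i u) = -u) →
  (∀ i j u, i ≠ j → J i (J j u) = -J j (J i u) ∧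
    J i (J j u) ∈ Submodule.span ℝ (range fun l => J l u)) →
  ∃ D : Tri n, Hopf D (k + 1) ∧ ∀ y u, D y y u = ⟪y, u⟫ • y + ∑ i, ⟪J i y, u⟫ • J i y

/-- Clifford systems. -/
def SINI : Prop := ∀ (n d k : ℕ) (I : Fin k → E n →L[ℝ] E n), n = 2 * d →
  (∀ i u v, ⟪I i u, v⟫ = ⟪u, I i v⟫) → (∀ i u, I i (I i u) = u) →
  (∀ i j u, i ≠ j → I i (I j u) = -I j (I i u)) → 2 ≤ k →
  (∀ w, ∑ i, ⟪I i w, w⟫ ^ 2 = ‖w‖ ^ 4) → ∃ D : Tri n, Hopf D d ∧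
    ∀ y u, D y y u = (1 / 2 : ℝ) • (‖y‖ ^ 2 • u + ∑ i, ⟪I i y, y⟫ • I i u)

/-- The Clifford system of the Cayley plane. -/
def SINO : Prop := ∃ I : Fin 9 → E 16 →L[ℝ] E 16,
  (∀ i u v, ⟪I i u, v⟫ = ⟪u, I i v⟫) ∧ (∀ i u, I i (I i u) = u) ∧
  (∀ i j u, i ≠ j → I i (I j u) = -I j (I i u)) ∧ ∀ w, ∑ i, ⟪I i w, w⟫ ^ 2 = ‖w‖ ^ 4

end Pool.Agent.MP_3ee8cb_gt.CR
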