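import Pool.Agent.MP_3ee8cb_gt.RS.Model
import Pool.Agent.MP_3ee8cb_gt.RS.SpecD

namespace Pool.Agent.MP_3ee8cb_gt.CR

open scoped RealInnerProductSpace

theorem bridge (hj : SINJ) (hi : SINI) {n : ℕ} {h : Met n} (H : RankOne h) :
    ∃ (c : ℝ) (D : Tri n) (d : ℕ), 0 < c ∧ Hopf D d ∧ IsSym c D h := by
  obtain ⟨c, P, hc, hP, hh⟩ := H
  rcases hP with ⟨k, J, h1, h2, h3, h4⟩ | ⟨hn, I, h1, h2, h3, h4, h5⟩
  · obtain ⟨D, hD, e⟩ := hj n k J h1 h2 h3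
    refine ⟨c, D, _, hc, hD, fun y u v => ?_⟩
    rw [hh, h4, e, inner_add_left, sum_inner]
    simp only [real_inner_smul_left]
  · obtain ⟨D, hD, e⟩ := hi n 8 9 I (by omega) h1 h2 h3 (by omega) h4
    refine ⟨c, D, _, hc, hD, fun y u v => ?_⟩
    rw [hh, h5, e, real_inner_smul_left, inner_add_left, sum_inner]
    simp only [real_inner_smul_left]
    ring

end Pool.Agent.MP_3ee8cb_gt.CR
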