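import Pool.Agent.MP_3ee8cb_gt.RS.SpecD

/-! Assembly of the rows for rank one symmetric targets. -/

namespace Pool.Agent.MP_3ee8cb_gt.CR

open Set MeasureTheory

theorem finc_an (yb : SYB) (mo : SMO) (ho : SHO) (ma : SMA) {n : ℕ} {D : Tri n} {d : ℕ}
    {h : Met n} (s : SD D d h) (al : AlgP D d) (ba : BasP D) (g : Met n) : AllAn g D d := by
  intro β v w
  have h1 := yb n g h D d β v s al ba w
  have h2 := mo n g h D d β v s al ba w h1
  exact ⟨w, h1, h2, ho n g h D d β v s al ba w h1, ma n g h D d β v s al ba w h1 h2⟩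

theorem finc_kd (yb : SYB) (mo : SMO) (ho : SHO) (ma : SMA) (fd : SFD) (w : SW) (left : SLEFT)
    (qa : SQA) (nf : SNF) (qe : SQE) (ct : SCT) (co : SCO) (ws : SWS) (pr : SPR) (mb : SMB)
    (sif : SIF) (fb : SFB) (tk : STK) (nu : SNU) (wf : SWF) (jq : SJQ) (ri : SRI) (rj : SRJ)
    (su : SSU) (cv : SCV) (gd : SGD) (en : SEN) :
    OnKD fun _ g D _ h _ _ _ T _ _ _ u => ∀ φ ψ, PhiP D h u φ ψ → ∃ F, EqG T F ∧
      Function.Bijective F ∧ ∀ x a b, h (F x) (fderiv ℝ F x a) (fderiv ℝ F x b) = g x a b := by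
  intro n g D d h Γ _ _ T a β v m u X H φ ψ hφ
  have an := finc_an yb mo ho ma H.sd H.alg H.bas g
  have s1 := ws n D d h H.sd H.bas (co n D d h H.sd) g an
  have s2 := mb n D d h H.sd (pr n) H.tra g an s1
  obtain ⟨f1, f2⟩ := fb n g D d h Γ T a β v m u X H (pr n) (sif n) an s1 s2
  have j := jq n g D d h Γ T a β v m u X H (nu n D d h H.sd H.alg (tk n D d h H.sd H.alg)) (wf n)
    an s1 f2
  have s := su n g D d h Γ T a β v m u X H (an β v H.wd).yb φ ψ hφ _ f1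
  have q := qe n D d h H.sd H.bas (qa n D d h H.sd H.alg H.bas) (nf n D d h H.sd H.alg H.bas H.tra)
  obtain ⟨hc, hD⟩ := fd n g Γ H.deck
  obtain ⟨w1, w2, w3⟩ := w n g H.riem
  have G : ∀ x, Good2 (Fb D d β) v u x := by
    intro x
    obtain ⟨S, m1, m2, m3, m4, m5⟩ := hD x
    obtain ⟨l1, l2⟩ := left n g Γ (lD D) a β v m (qD D) X S H.riem H.bd q.qd m1 m2
    refine gd n g D d h Γ T a β v m u X H _ S x f1.smooth j m1 m3 w1 (w2 S m2) ?_
    exact (w3 S m1 H.sd.pos).trans (l2.trans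
      ((cv n g D d h Γ T a β v m u X H (ct n H.sd.pos) q hc _ S f1 s m4 m5 l1).trans
        (rj n D d h H.sd H.bas (ri n D d h H.sd H.bas H.rieh u H.mod) _ S f1.smooth m1)))
  obtain ⟨i1, i2⟩ := en n g D d h Γ T a β v m u X H _ f1.smooth G
  exact ⟨_, f1, ⟨i1, s⟩, i2⟩

theorem finc_main
    (rp : ∀ {n : ℕ}, 0 < n → ∀ {g : Met n} {Γ : Type} [Group Γ] [MulAction Γ (E n)]
      {Φ : ℝ → UT g → UT g}, Riem g → Deck g Γ → IsFlow g Φ → RP g Γ Φ)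
    (bd : OnConj fun _ g _ _ _ _ l a _ => ∃ β v m X, BD g l a β v m X)
    (kd : OnKD fun _ g D _ h _ _ _ T _ _ _ u => ∀ φ ψ, PhiP D h u φ ψ → ∃ F, EqG T F ∧
      Function.Bijective F ∧ ∀ x a b, h (F x) (fderiv ℝ F x a) (fderiv ℝ F x b) = g x a b)
    (len : SLEN) (dbr : SDBR) (lift : SLIFT) (alg : SALG) (bas : SBAS) (hrs : SHRS) (sbo : SBO)
    (bn : SBN) (bj : SBJ) (ti : STI) (tra : STRA) (gr : SGR) (mod : SMOD) (nf : SNF)
    (phi : SPHI) (rad : SRAD) (isf : SISF) (iso : SISO2) (conj : SCONJ2) : Main2 1 := by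
  intro n D d g h Γ Λ _ _ _ _ Φ Ψ f hn hD hg hh dg dh fg fh hf
  have h0 : 0 < n := by omega
  have s : SD D d h := ⟨h0, hD, hh⟩
  have al := alg n D d h s
  have ba := bas n D d h s al
  have rh' := hrs n D d h s al
  have b1 := sbo n D d h s al
  have t1 := ti n D d h s al
  have tr := tra n D d h s al b1 (bn n D d h s al b1) (bj n D d h s al b1) t1
  obtain ⟨u, hu⟩ := mod n D d h s al ba rh' tr
  obtain ⟨φ, ψ, hφ⟩ := phi n D d h s ba rh' tr (nf n D d h s al ba tr) u hu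
  have rg := rp h0 hg dg fg
  have rh := rp h0 rh' dh fh
  obtain ⟨ρ, F, F1, F2⟩ := lift n g h Γ Λ Φ Ψ f hn rg rh hf
  have r1 := rad n D d h s al rh' Ψ fh rh.uni rh.fl
  have l1 := len n h rh' rh.db
  have i1 := isf n D d h s Λ Ψ rh l1 (dbr n h rh' rh.db rh.low l1) r1
  obtain ⟨a, a1, a2⟩ := iso n D d h s Λ Ψ ba tr (gr n D d h s al t1) dh r1 i1
  have hc := conj n D d h s g Γ Λ Φ Ψ a ρ F u φ ψ ba rh' tr hu hφ i1 a1 a2 F1 F2
  obtain ⟨β, v, m, X, hb⟩ := bd n g Γ Φ (lD D) _ _ _ rg hc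
  have wd : WD g β v := ⟨hg, hb.pos, fun x k t h1 h2 =>
    ⟨(hb.hom x k t h1 h2).1, (hb.hom x k t h1 h2).2.1⟩, hb.cb, hb.cv, hb.unit, hb.tay⟩
  obtain ⟨G, G1, G2, G3⟩ := kd n g D d h Γ (fun γ y => ρ γ • y) (fun γ => a (ρ γ)) β v m u X
    ⟨s, hg, rh', dg, al, ba, tr, hu, hc.act, fun γ => by rw [map_inv]; exact a2 (ρ γ), hb, wd⟩
    φ ψ hφ
  exact ⟨G, ρ, G2, G1.smooth, G3, G1.equi⟩

end Pool.Agent.MP_3ee8cb_gt.CR
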