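import Pool.Agent.MP_3ee8cb_gt.RS.SpecC

/-! The algebra of the trilinear map of a rank one symmetric space. -/

namespace Pool.Agent.MP_3ee8cb_gt.CR

open scoped RealInnerProductSpace

variable {n : ℕ} {D : Tri n} {d : ℕ}

theorem qalg_ops (H : Hopf D d) (a b c e : E n) : ⟪D a b c, e⟫ = ⟪c, D a b e⟫ := by
  rw [H.pair a b c e, H.symm c e, ← H.pair a b e c, real_inner_comm]

theorem qalg_rsy (H : Hopf D d) (a b : E n) : RR D a b = RR D b a := H.pair a a b b

theorem qalg_self (H : Hopf D d) (w : E n) : D w w w = ⟪w, w⟫ • w := by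
  rw [H.self, real_inner_self_eq_norm_sq]

theorem qalg_p2 (H : Hopf D d) (w z : E n) :
    D w w z + (2 : ℝ) • D w z w = ⟪w, w⟫ • z + (2 * ⟪w, z⟫) • w := by
  have h1 := qalg_self H (w + z)
  have h2 := qalg_self H (w - z)
  have h3 := qalg_self H z
  simp only [map_add, map_sub, add_apply, sub_apply,
    inner_add_left, inner_add_right, inner_sub_left, inner_sub_right, H.symm z w,
    real_inner_comm w z] at h1 h2
  linear_combination (norm := module) (1 / 2 : ℝ) • h1 - (1 / 2 : ℝ) • h2 - h3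

theorem qalg_full (H : Hopf D d) (a b c : E n) :
    D a b c + D b c a + D c a b = ⟪a, b⟫ • c + ⟪b, c⟫ • a + ⟪c, a⟫ • b := by
  have h1 := qalg_p2 H (a + b) c
  have h2 := qalg_p2 H a c
  have h3 := qalg_p2 H b c
  simp only [map_add, add_apply, inner_add_left, inner_add_right,
    H.symm b a, real_inner_comm a b] at h1
  rw [H.symm c a, real_inner_comm a c]
  linear_combination (norm := module) (1 / 2 : ℝ) • h1 - (1 / 2 : ℝ) • h2 - (1 / 2 : ℝ) • h3

theorem qalg_in (H : Hopf D d) (w p : E n) : ⟪w, D w w p⟫ = ‖w‖ ^ 2 * ⟪w, p⟫ := by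
  rw [← qalg_ops H, H.self, real_inner_smul_left]

theorem qalg_idem (H : Hopf D d) (w p : E n) : D w w (D w w p) = ‖w‖ ^ 2 • D w w p := by
  have h1 := qalg_p2 H w (D w w p)
  rw [H.line, smul_apply, H.self, qalg_in H, real_inner_self_eq_norm_sq] at h1
  linear_combination (norm := module) h1

theorem qalg_nrm (H : Hopf D d) (a b : E n) : ‖D a a b‖ ^ 2 = ‖a‖ ^ 2 * RR D a b := by
  rw [← real_inner_self_eq_norm_sq, ← qalg_ops H, qalg_idem H, real_inner_smul_left, RR]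

theorem qalg_cs (a b : E n) : ⟪a, b⟫ ^ 2 ≤ ‖a‖ ^ 2 * ‖b‖ ^ 2 := by
  rw [← mul_pow, ← sq_abs]
  exact pow_le_pow_left₀ (abs_nonneg _) (abs_real_inner_le_norm a b) 2

theorem qalg_rup (H : Hopf D d) (a b : E n) : RR D a b ≤ ‖a‖ ^ 2 * ‖b‖ ^ 2 := by
  have h1 := qalg_cs (D a a b) b
  rw [qalg_nrm H] at h1
  change RR D a b ^ 2 ≤ _ at h1
  by_cases h : 0 < RR D a b
  · refine le_of_mul_le_mul_left ?_ h
    nlinarith
  · exact (not_lt.1 h).trans (by positivity)

theorem qalg_rlo (H : Hopf D d) (a b : E n) : ⟪a, b⟫ ^ 2 ≤ RR D a b := by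
  by_cases ha : a = 0
  · simp [ha, RR]
  have h0 : 0 < ‖a‖ ^ 2 := by positivity
  have h1 := qalg_cs a (D a a b)
  rw [qalg_nrm H, qalg_in H] at h1
  refine le_of_mul_le_mul_left ?_ (mul_pos h0 h0)
  nlinarith

theorem qalg_l1 (H : Hopf D d) {e z : E n} (h : D e e z = ‖e‖ ^ 2 • z) :
    ‖e‖ ^ 2 • D e z = ⟪e, z⟫ • D e e := by
  rw [← H.line, h, map_smul]

theorem qalg_l2 (H : Hopf D d) {e y : E n} (h : D e e y = ‖e‖ ^ 2 • y) :
    D y y e = ‖y‖ ^ 2 • e := by
  have h1 : RR D y e = ‖e‖ ^ 2 * ‖y‖ ^ 2 := by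
    rw [qalg_rsy H, RR, h, real_inner_smul_left, real_inner_self_eq_norm_sq]
  have h2 : ‖D y y e - ‖y‖ ^ 2 • e‖ ^ 2 = 0 := by
    rw [norm_sub_sq_real, qalg_nrm H, real_inner_smul_right, norm_smul, Real.norm_eq_abs,
      abs_of_nonneg (by positivity)]
    change _ - 2 * (_ * RR D y e) + _ = _
    rw [h1]
    ring
  exact sub_eq_zero.1 (norm_eq_zero.1 (pow_eq_zero_iff two_ne_zero |>.1 h2))

theorem qalg_l3 (H : Hopf D d) {e y : E n} (h : D e e y = ‖e‖ ^ 2 • y) (h0 : ⟪e, y⟫ ≠ 0) :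
    ‖e‖ ^ 2 • D y y = ‖y‖ ^ 2 • D e e := by
  have h1 := qalg_l1 H h
  have h2 := qalg_l1 H (qalg_l2 H h)
  rw [H.symm y e, real_inner_comm e y] at h2
  refine smul_right_injective _ h0 ?_
  linear_combination (norm := module) ‖y‖ ^ 2 • h1 - ‖e‖ ^ 2 • h2

theorem qalg_same (H : Hopf D d) (e z : E n) (he : e ≠ 0) (h : D e e z = ‖e‖ ^ 2 • z) :
    ‖e‖ ^ 2 • D z z = ‖z‖ ^ 2 • D e e := by
  by_cases h0 : ⟪e, z⟫ = 0
  · have h1 := qalg_l1 H h
    have h2 : D e e (e + z) = ‖e‖ ^ 2 • (e + z) := by rw [map_add, h, H.self, smul_add]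
    have h3 := qalg_l3 H h2 (by
      rw [inner_add_right, h0, add_zero, real_inner_self_eq_norm_sq]
      positivity)
    rw [norm_add_sq_real, h0] at h3
    rw [h0] at h1
    simp only [map_add, add_apply, H.symm z e] at h3
    linear_combination (norm := module) h3 - (2 : ℝ) • h1
  · exact qalg_l3 H h h0

theorem qalg_tr (L : E n →L[ℝ] E n) : LinearMap.trace ℝ (E n) (L : E n →ₗ[ℝ] E n) =
    ∑ i, ⟪L (EuclideanSpace.basisFun (Fin n) ℝ i), EuclideanSpace.basisFun (Fin n) ℝ i⟫ := by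
  rw [LinearMap.trace_eq_sum_inner _ (EuclideanSpace.basisFun (Fin n) ℝ)]
  exact Finset.sum_congr rfl fun i _ => real_inner_comm _ _

theorem qalg_sum (a b : E n) : ∑ i, ⟪a, EuclideanSpace.basisFun (Fin n) ℝ i⟫ *
    ⟪EuclideanSpace.basisFun (Fin n) ℝ i, b⟫ = ⟪a, b⟫ :=
  (EuclideanSpace.basisFun (Fin n) ℝ).sum_inner_mul_inner a b

theorem qalg_deg (hn : 0 < n) (H : Hopf D d) : 1 ≤ d ∧ d ≤ n := by
  have hb := (EuclideanSpace.basisFun (Fin n) ℝ).orthonormal.1
  set w := EuclideanSpace.basisFun (Fin n) ℝ ⟨0, hn⟩ with hw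
  have h1 := H.tr w
  rw [qalg_tr, hb, one_pow, mul_one] at h1
  constructor
  · have h2 := qalg_sum w w
    rw [real_inner_self_eq_norm_sq, hb, one_pow] at h2
    have : (1 : ℝ) ≤ d := by
      rw [← h1, ← h2]
      refine Finset.sum_le_sum fun i _ => ?_
      rw [real_inner_comm w, ← sq]
      exact qalg_rlo H _ _
    exact_mod_cast this
  · have : (d : ℝ) ≤ n := by
      rw [← h1]
      calc _ ≤ ∑ _i : Fin n, (1 : ℝ) := Finset.sum_le_sum fun i _ => by
            have := qalg_rup H w (EuclideanSpace.basisFun (Fin n) ℝ i)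
            rwa [hb, hb, one_pow, mul_one] at this
        _ = n := by simp
    exact_mod_cast this

theorem qalg_trp (H : Hopf D d) (p k : E n) :
    LinearMap.trace ℝ (E n) (D p k : E n →ₗ[ℝ] E n) = d * ⟪p, k⟫ := by
  have h1 := H.tr (p + k)
  have h2 := H.tr p
  have h3 := H.tr k
  simp only [map_add, add_apply, H.symm k p, ContinuousLinearMap.toLinearMap_add,
    norm_add_sq_real] at h1
  linear_combination (1 / 2) * h1 - (1 / 2) * h2 - (1 / 2) * h3

theorem qalg_trc (H : Hopf D d) (k p : E n) (L : E n →L[ℝ] E n) (hL : ∀ u, L u = D k u p) :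
    2 * LinearMap.trace ℝ (E n) (L : E n →ₗ[ℝ] E n) = (n + 2 - d) * ⟪k, p⟫ := by
  have hb := (EuclideanSpace.basisFun (Fin n) ℝ).orthonormal.1
  have h1 := qalg_trp H p k
  rw [qalg_tr] at h1
  have h2 := qalg_sum k p
  have h3 : ∀ e : E n, ‖e‖ = 1 → 2 * ⟪L e, e⟫ + ⟪D p k e, e⟫ =
      2 * (⟪k, e⟫ * ⟪e, p⟫) + ⟪k, p⟫ := by
    intro e he
    have h4 := congrArg (fun v => ⟪v, e⟫) (qalg_full H k e p)
    simp only [inner_add_left, real_inner_smul_left, real_inner_self_eq_norm_sq, he] at h4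
    rw [H.pair e p k e, qalg_ops H k e e p, real_inner_comm (D k e p) e, real_inner_comm e p,
      real_inner_comm k p] at h4
    rw [hL]
    linear_combination h4
  have h5 := Finset.sum_congr (s₁ := Finset.univ) rfl fun i _ => h3 _ (hb i)
  rw [Finset.sum_add_distrib, Finset.sum_add_distrib, ← Finset.mul_sum, ← Finset.mul_sum, h1, h2,
    ← qalg_tr, Finset.sum_const, Finset.card_univ, Fintype.card_fin, nsmul_eq_mul,
    real_inner_comm k p] at h5
  linear_combination h5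

theorem qalg : SALG := fun _ _ _ _ s =>
  { ops := qalg_ops s.hopf
    rsy := qalg_rsy s.hopf
    idem := qalg_idem s.hopf
    rlo := qalg_rlo s.hopf
    rup := qalg_rup s.hopf
    full := qalg_full s.hopf
    same := qalg_same s.hopf
    one := (qalg_deg s.pos s.hopf).1
    le := (qalg_deg s.pos s.hopf).2
    trc := qalg_trc s.hopf }

end Pool.Agent.MP_3ee8cb_gt.CR
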