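import Pool.Agent.MP_3ee8cb_gt.RS.SpecC

/-! Basic properties of the boundary pairing and of the Busemann function of the model. -/

namespace Pool.Agent.MP_3ee8cb_gt.CR

open Set
open scoped RealInnerProductSpace

variable {n d : ℕ} {D : Tri n}

theorem qbas_rr (D : Tri n) (a b : E n) (t : ℝ) : RR D a (t • b) = t ^ 2 * RR D a b := by
  simp only [RR, map_smul, real_inner_smul_left, real_inner_smul_right]
  ring

theorem qbas_rl (D : Tri n) (a b : E n) (t : ℝ) : RR D (t • a) b = t ^ 2 * RR D a b := by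
  simp only [RR, map_smul, smul_apply, real_inner_smul_left]
  ring

theorem qbas_self (H : Hopf D d) (a : E n) : RR D a a = ‖a‖ ^ 4 := by
  rw [RR, H.self, real_inner_smul_left, real_inner_self_eq_norm_sq]
  ring

theorem qbas_nn (D : Tri n) (s r t : ℝ) (a b : E n) :
    NN D s a (t * r) (t • b) = t ^ 2 * NN D s a r b := by
  simp only [NN, qbas_rr, real_inner_smul_right]
  ring

theorem qbas_nlo (A : AlgP D d) (s : ℝ) (a : E n) (t : ℝ) (b : E n) :
    (s * t - ⟪a, b⟫) ^ 2 ≤ NN D s a t b := by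
  have := A.rlo a b
  unfold NN
  nlinarith

theorem qbas_nsy (A : AlgP D d) (s : ℝ) (a : E n) (t : ℝ) (b : E n) :
    NN D s a t b = NN D t b s a := by
  unfold NN
  rw [A.rsy a b, real_inner_comm a b, mul_comm s t]

theorem qbas_sq (y : E n) : (up y).1 ^ 2 = 1 + ‖y‖ ^ 2 := Real.sq_sqrt (by positivity)

theorem qbas_lt (y : E n) : ‖y‖ < (up y).1 := Real.lt_sqrt_of_sq_lt (by linarith)

theorem qbas_cR (D : Tri n) (m : WithTop ℕ∞) : ContDiff ℝ m fun w : E n × E n => RR D w.1 w.2 := by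
  have h1 : ContDiff ℝ m fun w : E n × E n => D w.1 :=
    (ContinuousLinearMap.contDiff (𝕜 := ℝ) (E := E n) (F := E n →L[ℝ] E n →L[ℝ] E n) D).comp
      contDiff_fst
  exact ((h1.clm_apply contDiff_fst).clm_apply contDiff_snd).inner ℝ contDiff_snd

theorem qbas_cN (D : Tri n) (m : WithTop ℕ∞) {S : Set (E n × E n)} {s t : E n × E n → ℝ}
    (hs : ContDiffOn ℝ m s S) (ht : ContDiffOn ℝ m t S) :
    ContDiffOn ℝ m (fun w => NN D (s w) w.1 (t w) w.2) S :=
  (((hs.mul ht).pow 2).sub ((contDiffOn_const.mul (hs.mul ht)).mul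
    (contDiff_fst.inner ℝ contDiff_snd).contDiffOn)).add (qbas_cR D m).contDiffOn

theorem qbas_cu (m : WithTop ℕ∞) : ContDiff ℝ m fun y : E n => (up y).1 :=
  (contDiff_const.add (contDiff_norm_sq ℝ)).sqrt fun y => by positivity

theorem qbas_hom (D : Tri n) (s t : ℝ) (a b : E n) (ht : 0 ≤ t) :
    √(NN D s a ‖t • b‖ (t • b)) = t * √(NN D s a ‖b‖ b) := by
  rw [norm_smul, Real.norm_of_nonneg ht, qbas_nn, Real.sqrt_mul (sq_nonneg t), Real.sqrt_sq ht]

theorem qbas_bd (H : Hopf D d) (A : AlgP D d) : Bd (lD D) := by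
  have hsy : ∀ a b, lD D a b = lD D b a := fun a b => by unfold lD; rw [qbas_nsy A]
  refine ⟨?_, hsy, fun a b => Real.sqrt_nonneg _, fun t a b ht => ?_, fun a => ?_,
    fun a b ha hb h => ?_, fun a => ?_⟩
  · have := (qbas_cR D 0).continuous
    unfold lD NN
    fun_prop
  · rw [hsy, hsy a]
    exact qbas_hom D _ t b a ht
  · unfold lD NN
    rw [qbas_self H, real_inner_self_eq_norm_sq, Real.sqrt_eq_zero']
    nlinarith
  · have h1 := (qbas_nlo A ‖a‖ a ‖b‖ b).trans (Real.sqrt_eq_zero'.1 h)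
    have h2 : ⟪a, b⟫ = ‖a‖ * ‖b‖ := by nlinarith [sq_nonneg (‖a‖ * ‖b‖ - ⟪a, b⟫)]
    have h3 := inner_eq_norm_mul_iff_real.1 h2
    have h4 : 0 < ‖a‖ := norm_pos_iff.2 ha
    refine ⟨‖a‖⁻¹ * ‖b‖, mul_pos (inv_pos.2 h4) (norm_pos_iff.2 hb), ?_⟩
    rw [mul_smul, h3, smul_smul, inv_mul_cancel₀ h4.ne', one_smul]
  · have h1 : NN D ‖a‖ a ‖-a‖ (-a) = (2 * ‖a‖ ^ 2) ^ 2 := by
      unfold NN
      rw [norm_neg, inner_neg_right, real_inner_self_eq_norm_sq, ← neg_one_smul ℝ a, qbas_rr,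
        qbas_self H]
      ring
    unfold lD
    rw [h1, Real.sqrt_sq (by positivity)]

theorem qbas : SBAS := by
  intro n D d h S A
  have H := S.hopf
  have bd := qbas_bd H A
  have low : ∀ y k, (up y).1 * ‖k‖ - ⟪y, k⟫ ≤ el D y k := fun y k =>
    Real.le_sqrt_of_sq_le (qbas_nlo A _ _ _ _)
  have pos : ∀ y k, k ≠ 0 → 0 < el D y k := fun y k hk => by
    have h1 := real_inner_le_norm y k
    have h2 := mul_lt_mul_of_pos_right (qbas_lt y) (norm_pos_iff.2 hk)
    linarith [low y k]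
  have sq : ∀ y k, el D y k ^ 2 = NN D (up y).1 y ‖k‖ k := fun y k =>
    Real.sq_sqrt ((sq_nonneg _).trans (qbas_nlo A _ _ _ _))
  have zero : ∀ k, el D 0 k = ‖k‖ := fun k => by
    simp [el, NN, RR, up]
  refine ⟨bd, qbas_nlo A, qbas_nsy A, low, fun y k => ?_, pos,
    fun y k t ht => qbas_hom D _ t y k ht, fun y k => ?_, zero, ?_, ?_, ?_, fun k k' hk => ?_⟩
  · have h1 := qbas_lt y
    have h2 := norm_nonneg y
    have h3 := norm_nonneg k
    refine Real.sqrt_le_iff.2 ⟨mul_nonneg (by linarith) h3, ?_⟩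
    have h4 := A.rup y k
    have h5 : -⟪y, k⟫ ≤ ‖y‖ * ‖k‖ := (neg_le_abs _).trans (abs_real_inner_le_norm y k)
    have h6 : ‖y‖ * ‖k‖ ≤ (up y).1 * ‖k‖ := mul_le_mul_of_nonneg_right h1.le h3
    have h7 : 0 ≤ ‖y‖ * ‖k‖ := mul_nonneg h2 h3
    unfold NN
    nlinarith
  · rw [sq]
    simp only [NN, pr, ver, real_inner_smul_left]
    rw [A.rsy y k, mul_pow, qbas_sq, real_inner_comm y k, RR]
    ring
  · have h1 := (qbas_cR D 0).continuous
    have h2 := (qbas_cu (n := n) 0).continuous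
    unfold el NN
    fun_prop
  · exact (qbas_cN D 2 ((qbas_cu 2).comp contDiff_fst).contDiffOn
      (contDiffOn_snd.norm ℝ fun w hw => hw)).sqrt fun w hw => (Real.sqrt_pos.1 (pos _ _ hw)).ne'
  · have h1 : ∀ a b, 0 < lD D a b → a ≠ 0 := fun a b hab ha => by
      have := bd.hom 0 a b le_rfl
      rw [zero_smul, zero_mul, ← ha] at this
      exact hab.ne' this
    exact (qbas_cN D 1 (contDiffOn_fst.norm ℝ fun w hw => h1 _ _ hw)
      (contDiffOn_snd.norm ℝ fun w hw => h1 _ _ (lt_of_lt_of_eq hw (bd.symm _ _)))).sqrt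
        fun w hw => (Real.sqrt_pos.1 hw).ne'
  · have h0 : ‖k‖ = ‖k'‖ := by rw [← zero, ← zero, hk]
    by_cases hz : ‖k‖ = 0
    · rw [norm_eq_zero.1 hz, norm_eq_zero.1 (h0.symm.trans hz)]
    refine ext_inner_left ℝ fun y => ?_
    have e : ∀ k, el D (-y) k ^ 2 - el D y k ^ 2 = 4 * ((up y).1 * ‖k‖) * ⟪y, k⟫ := fun k => by
      have h1 : (up (-y)).1 = (up y).1 := by simp [up]
      rw [sq, sq, h1]
      unfold NN
      rw [inner_neg_left, ← neg_one_smul ℝ y, qbas_rl]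
      ring
    have h2 := e k
    rw [hk, hk, e k', ← h0] at h2
    have h3 : (up y).1 ≠ 0 := ((norm_nonneg y).trans_lt (qbas_lt y)).ne'
    exact (mul_left_cancel₀ (by positivity) h2).symm

end Pool.Agent.MP_3ee8cb_gt.CR
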