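import Pool.Agent.MP_3ee8cb_gt.RS.SpecC

/-! The Jacobian of the boosts on boundary vectors. -/

namespace Pool.Agent.MP_3ee8cb_gt.CR

open Set
open scoped RealInnerProductSpace

variable {n : ℕ}

theorem qbj_mdet {ι : Type} [Fintype ι] [DecidableEq ι] (m : ℝ → ι → ι → ℝ) (A : ι → ι → ℝ)
    (h0 : Matrix.of (m 0) = 1) (hd : ∀ i j, HasDerivAt (fun s => m s i j) (A i j) 0) :
    HasDerivAt (fun s => (Matrix.of (m s)).det) (Matrix.of A).trace 0 := by
  have hF : Differentiable ℝ fun N : ι → ι → ℝ => (Matrix.of N).det := by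
    simp only [Matrix.det_apply', Matrix.of_apply]
    fun_prop
  have hm : HasDerivAt m A 0 := hasDerivAt_pi.2 fun i => hasDerivAt_pi.2 fun j => hd i j
  have hl : HasDerivAt (fun s : ℝ => m 0 + s • A) A 0 := by
    simpa using ((hasDerivAt_id (0 : ℝ)).smul_const A).const_add (m 0)
  have h1 := (hF (m 0)).hasFDerivAt.comp_hasDerivAt (0 : ℝ) hm
  have h2 := (hF (m 0)).hasFDerivAt.comp_hasDerivAt_of_eq (0 : ℝ) hl (by simp)
  obtain ⟨P, hP⟩ : ∃ P : Polynomial ℝ, ∀ s : ℝ, (1 + s • Matrix.of A).det =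
      1 + (Matrix.of A).trace * s + P.eval s * s ^ 2 :=
    ⟨_, fun s => Matrix.det_one_add_smul s (Matrix.of A)⟩
  have h3 : HasDerivAt (fun s : ℝ => 1 + (Matrix.of A).trace * s + P.eval s * s ^ 2)
      (Matrix.of A).trace 0 := by
    refine HasDerivAt.congr_deriv ((((hasDerivAt_id (0 : ℝ)).const_mul (Matrix.of A).trace).const_add
      1).add ((P.hasDerivAt 0).mul (hasDerivAt_pow 2 (0 : ℝ)))) ?_
    simp
  have e : ((fun N : ι → ι → ℝ => (Matrix.of N).det) ∘ fun s : ℝ => m 0 + s • A) =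
      fun s : ℝ => 1 + (Matrix.of A).trace * s + P.eval s * s ^ 2 := by
    funext s
    rw [← hP s, ← h0]
    rfl
  rw [e] at h2
  rw [← h2.unique h3]
  exact h1

theorem qbj_det (M : ℝ → E n →L[ℝ] E n) (A : E n →ₗ[ℝ] E n) (h0 : M 0 = ContinuousLinearMap.id ℝ _)
    (hd : ∀ u, HasDerivAt (fun s => M s u) (A u) 0) :
    HasDerivAt (fun s => (M s).det) (LinearMap.trace ℝ (E n) A) 0 := by
  let b := (EuclideanSpace.basisFun (Fin n) ℝ).toBasis
  have h := qbj_mdet (fun s i j => LinearMap.toMatrix b b (M s : E n →ₗ[ℝ] E n) i j)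
    (fun i j => LinearMap.toMatrix b b A i j) (by
      rw [h0]
      ext i j
      simp) (fun i j => by
      simp only [LinearMap.toMatrix_apply]
      exact (EuclideanSpace.proj (𝕜 := ℝ) i).hasFDerivAt.comp_hasDerivAt (0 : ℝ) (hd (b j)))
  rw [LinearMap.trace_eq_matrix_trace ℝ b A]
  refine HasDerivAt.congr_of_eventuallyEq h (Filter.Eventually.of_forall fun s => ?_)
  exact (LinearMap.det_toMatrix b (M s : E n →ₗ[ℝ] E n)).symm

theorem qbj_zero (D : Tri n) (p : E n) (z : J3 n) : GG D p 0 z = z := by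
  simp [GG, ex1]

theorem qbj_add1 {U : Type} [NormedAddCommGroup U] [NormedSpace ℝ U] [CompleteSpace U]
    (X : U →L[ℝ] U) (t s : ℝ) (z : U) : ex1 X (s + t) z = ex1 X s (ex1 X t z) := by
  let _ : NormedAlgebra ℚ (U →L[ℝ] U) := NormedAlgebra.restrictScalars ℚ ℝ _
  unfold ex1
  rw [add_smul, NormedSpace.exp_add_of_commute (((Commute.refl X).smul_left s).smul_right t)]
  rfl

theorem qbj_d1 {U : Type} [NormedAddCommGroup U] [NormedSpace ℝ U] [CompleteSpace U]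
    (X : U →L[ℝ] U) (z : U) : HasDerivAt (fun s => ex1 X s z) (X z) 0 := by
  have h := (hasDerivAt_exp_smul_const (𝕂 := ℝ) X (0 : ℝ)).clm_apply (hasDerivAt_const 0 z)
  refine HasDerivAt.congr_deriv h ?_
  simp

theorem qbj_add (D : Tri n) (p : E n) (t s : ℝ) (z : J3 n) :
    GG D p (s + t) z = GG D p s (GG D p t z) := qbj_add1 (XX D p) t s z

theorem qbj_dG (D : Tri n) (p : E n) (z : J3 n) :
    HasDerivAt (fun s => GG D p s z) (XX D p z) 0 := qbj_d1 (XX D p) z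

theorem qbj_ver {D : Tri n} (hb : BoP D) (p : E n) (t : ℝ) (k : E n) (hk : k ≠ 0) :
    bo D p t ‖k‖ k ≠ 0 ∧ GG D p t (ver D ‖k‖ k) = ver D ‖bo D p t ‖k‖ k‖ (bo D p t ‖k‖ k) := by
  obtain ⟨s', a', h1, h2, h3⟩ := hb p t ‖k‖ k (norm_pos_iff.2 hk) le_rfl
  have h4 : s' = ‖a'‖ := by
    rw [← sq_eq_sq₀ h1.le (norm_nonneg _)]
    linarith
  have h5 : bo D p t ‖k‖ k = a' := by
    unfold bo
    rw [h3]
    simp only [ver, Real.sqrt_sq h1.le, smul_smul, inv_mul_cancel₀ h1.ne', one_smul]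
  rw [h5, ← h4]
  refine ⟨fun h => ?_, h3⟩
  rw [h, norm_zero] at h4
  exact h1.ne' h4

theorem qbj_dV {D : Tri n} (hs : ∀ a b, D a b = D b a) (y : E n) (hy : y ≠ 0) :
    ∃ L : E n →L[ℝ] J3 n, HasFDerivAt (fun k => ver D ‖k‖ k) L y ∧
      ∀ u, L u = (2 * ⟪y, u⟫, ‖y‖ • u + (⟪y, u⟫ / ‖y‖) • y, (2 : ℝ) • D y u) := by
  have hr : 0 < ‖y‖ := norm_pos_iff.2 hy
  have h1 := (hasStrictFDerivAt_norm_sq y).hasFDerivAt
  have h2 : HasFDerivAt (fun k : E n => ‖k‖) _ y :=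
    (h1.sqrt (by positivity)).congr_of_eventuallyEq (Filter.Eventually.of_forall fun k =>
      (Real.sqrt_sq (norm_nonneg k)).symm)
  have h3 := D.hasFDerivAt_of_bilinear (hasFDerivAt_id y) (hasFDerivAt_id y)
  refine ⟨_, h1.prodMk ((h2.smul (hasFDerivAt_id y)).prodMk h3), fun u => ?_⟩
  refine Prod.ext ?_ (Prod.ext ?_ ?_)
  · simp
  · simp only [ContinuousLinearMap.prod_apply, add_apply, smul_apply,
      ContinuousLinearMap.id_apply, ContinuousLinearMap.smulRight_apply, id,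
      Real.sqrt_sq hr.le, innerSL_apply_apply, smul_eq_mul, nsmul_eq_mul]
    congr 2
    push_cast
    field_simp
  · ext1 v
    simp [hs u y, two_smul]

theorem qbj_da {D : Tri n} (hb : BoP D) (p : E n) (s : ℝ) (y : E n) (hy : y ≠ 0)
    (L : E n →L[ℝ] J3 n) (hL : HasFDerivAt (fun k => ver D ‖k‖ k) L y) :
    DifferentiableAt ℝ (fun k => bo D p s ‖k‖ k) y ∧
      ∀ u, fderiv ℝ (fun k => bo D p s ‖k‖ k) y u =
        (√(GG D p s (ver D ‖y‖ y)).1)⁻¹ • (GG D p s (L u)).2.1 -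
          ((√(GG D p s (ver D ‖y‖ y)).1)⁻¹ ^ 3 / 2 * (GG D p s (L u)).1) •
            (GG D p s (ver D ‖y‖ y)).2.1 := by
  have h1 := (GG D p s).hasFDerivAt.comp y hL
  have hpos : 0 < (GG D p s (ver D ‖y‖ y)).1 := by
    obtain ⟨a, b⟩ := qbj_ver hb p s y hy
    rw [b]
    exact pow_pos (norm_pos_iff.2 a) 2
  have hq := Real.sqrt_pos.2 hpos
  have h2 := h1.fst.sqrt hpos.ne'
  have h3 := (hasDerivAt_inv hq.ne').comp_hasFDerivAt y h2
  have h4 : HasFDerivAt (fun k => bo D p s ‖k‖ k) _ y := h3.smul h1.snd.fst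
  refine ⟨h4.differentiableAt, fun u => ?_⟩
  rw [h4.fderiv]
  simp only [add_apply, smul_apply, ContinuousLinearMap.comp_apply,
    ContinuousLinearMap.smulRight_apply, Function.comp, smul_eq_mul,
    ContinuousLinearMap.coe_fst', ContinuousLinearMap.coe_snd', sub_eq_add_neg, ← neg_smul]
  congr 2
  field_simp

theorem qbj_id (D : Tri n) (p : E n) (y : E n) (hy : y ≠ 0) :
    bo D p 0 ‖y‖ y = y := by
  have hr : 0 < ‖y‖ := norm_pos_iff.2 hy
  unfold bo
  rw [qbj_zero]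
  simp only [ver, Real.sqrt_sq hr.le, smul_smul, inv_mul_cancel₀ hr.ne', one_smul]

theorem qbj_J0 (D : Tri n) (p : E n) (y : E n) (hy : y ≠ 0) :
    fderiv ℝ (fun k => bo D p 0 ‖k‖ k) y = ContinuousLinearMap.id ℝ _ := by
  have : (fun k => bo D p 0 ‖k‖ k) =ᶠ[nhds y] id :=
    (eventually_ne_nhds hy).mono fun k hk => qbj_id D p k hk
  rw [this.fderiv_eq, fderiv_id]

theorem qbj_sq (D : Tri n) (p y : E n) (hy : y ≠ 0) :
    HasDerivAt (fun s => √(GG D p s (ver D ‖y‖ y)).1) ⟪p, y⟫ 0 := by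
  have hr : 0 < ‖y‖ := norm_pos_iff.2 hy
  have h1 : HasDerivAt (fun s => (GG D p s (ver D ‖y‖ y)).1) (XX D p (ver D ‖y‖ y)).1 0 :=
    (qbj_dG D p (ver D ‖y‖ y)).fst
  have h2 := h1.sqrt (by rw [qbj_zero]; exact (pow_pos hr 2).ne')
  refine HasDerivAt.congr_deriv h2 ?_
  simp only [qbj_zero, XX_apply, ver, Real.sqrt_sq hr.le, real_inner_smul_right]
  field_simp

theorem qbj_tr {D : Tri n} {d : ℕ} (hh : Hopf D d) (ha : AlgP D d) (hb : BoP D) (p y : E n)
    (hy : y ≠ 0) : HasDerivAt (fun s => (fderiv ℝ (fun k => bo D p s ‖k‖ k) y).det)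
      ((2 - d) * ⟪p, y⟫ / ‖y‖) 0 := by
  have hr : 0 < ‖y‖ := norm_pos_iff.2 hy
  obtain ⟨L, hL, hLu⟩ := qbj_dV hh.symm y hy
  let Lp : E n →L[ℝ] E n := (D y).flip p
  let A : E n →ₗ[ℝ] E n := (-⟪p, y⟫ / ‖y‖) • LinearMap.id + (2 / ‖y‖) • (Lp : E n →ₗ[ℝ] E n) +
    (innerₗ (E n) y).smulRight ((⟪p, y⟫ / ‖y‖ ^ 3) • y + (1 / ‖y‖) • p -
      (1 / ‖y‖ ^ 3) • D y y p) + (innerₗ (E n) p).smulRight ((-1 / ‖y‖) • y)
  have hA : LinearMap.trace ℝ (E n) A = (2 - d) * ⟪p, y⟫ / ‖y‖ := by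
    have h1 := ha.trc y p Lp fun u => rfl
    have h2 : ⟪y, D y y p⟫ = ‖y‖ ^ 2 * ⟪p, y⟫ := by
      rw [← ha.ops, hh.self, real_inner_smul_left, real_inner_comm]
    have h3 : LinearMap.trace ℝ (E n) (Lp : E n →ₗ[ℝ] E n) = (n + 2 - d) * ⟪p, y⟫ / 2 := by
      rw [real_inner_comm]; linarith
    simp only [A, map_add, map_smul, LinearMap.trace_id, LinearMap.trace_smulRight, h3, map_sub,
      innerₗ_apply_apply, h2, real_inner_self_eq_norm_sq, smul_eq_mul, finrank_euclideanSpace,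
      Fintype.card_fin, real_inner_comm p y]
    field_simp
    ring
  rw [← hA]
  refine qbj_det _ A (qbj_J0 D p y hy) fun u => ?_
  have e := fun s => (qbj_da hb p s y hy L hL).2 u
  simp only [e]
  have hq : √(GG D p 0 (ver D ‖y‖ y)).1 = ‖y‖ := by
    rw [qbj_zero]; exact Real.sqrt_sq hr.le
  have h1 := (qbj_sq D p y hy).inv (by rw [hq]; exact hr.ne')
  have h2 := qbj_dG D p (L u)
  have h3 := qbj_dG D p (ver D ‖y‖ y)
  have h4 := (h1.smul h2.snd.fst).sub ((((h1.pow 3).div_const 2).mul h2.fst).smul h3.snd.fst)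
  refine HasDerivAt.congr_deriv h4 ?_
  simp only [qbj_zero, XX_apply, hLu, ver, Real.sqrt_sq hr.le, A, LinearMap.add_apply,
    LinearMap.smul_apply, LinearMap.id_apply, LinearMap.smulRight_apply, innerₗ_apply_apply,
    ContinuousLinearMap.coe_coe, Lp, ContinuousLinearMap.flip_apply, smul_apply, Pi.inv_apply,
    Pi.pow_apply, Pi.mul_apply, inner_add_right, real_inner_smul_right, Nat.add_one_sub_one]
  match_scalars <;> field_simp <;> ring

theorem qbj_psi {D : Tri n} {d : ℕ} (hh : Hopf D d) (ha : AlgP D d) (hb : BoP D) (p y : E n)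
    (hy : y ≠ 0) : HasDerivAt (fun s => (fderiv ℝ (fun k => bo D p s ‖k‖ k) y).det *
      (‖bo D p s ‖y‖ y‖ ^ d / ‖bo D p s ‖y‖ y‖ ^ 2)) 0 0 := by
  have hr : 0 < ‖y‖ := norm_pos_iff.2 hy
  have h1 : HasDerivAt (fun s => ‖bo D p s ‖y‖ y‖) ⟪p, y⟫ 0 := by
    refine (qbj_sq D p y hy).congr_of_eventuallyEq (Filter.Eventually.of_forall fun s => ?_)
    show _ = √(GG D p s (ver D ‖y‖ y)).1
    rw [(qbj_ver hb p s y hy).2]
    exact (Real.sqrt_sq (norm_nonneg _)).symm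
  have h2 := (qbj_tr hh ha hb p y hy).mul ((h1.pow d).div (h1.pow 2) (by
    simp only [Pi.pow_apply, qbj_id D p y hy]; positivity))
  refine HasDerivAt.congr_deriv h2 ?_
  obtain ⟨e, rfl⟩ : ∃ e, d = e + 1 := ⟨d - 1, by have := ha.one; omega⟩
  simp only [Pi.pow_apply, Pi.div_apply, qbj_id D p y hy, qbj_J0 D p y hy, Nat.add_sub_cancel,
    ContinuousLinearMap.det, ContinuousLinearMap.coe_id, LinearMap.det_id]
  push_cast
  field_simp
  ring

theorem qbj : SBJ := by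
  intro n D d h hs ha hb p t k hk
  obtain ⟨L, hL, -⟩ := qbj_dV hs.hopf.symm k hk
  have hco : ∀ (s t : ℝ) (k : E n), k ≠ 0 → bo D p (s + t) ‖k‖ k =
      bo D p s ‖bo D p t ‖k‖ k‖ (bo D p t ‖k‖ k) := by
    intro s t k hk
    rw [bo, qbj_add, (qbj_ver hb p t k hk).2]
    rfl
  have key : ∀ t, HasDerivAt (fun s => (fderiv ℝ (fun k => bo D p s ‖k‖ k) k).det *
      (‖bo D p s ‖k‖ k‖ ^ d / ‖bo D p s ‖k‖ k‖ ^ 2)) 0 t := by
    intro t
    have hy := (qbj_ver hb p t k hk).1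
    obtain ⟨L', hL', -⟩ := qbj_dV hs.hopf.symm _ hy
    have h1 := qbj_psi hs.hopf ha hb p _ hy
    have h2 := (HasDerivAt.comp_sub_const t t ((sub_self t).symm ▸ h1)).mul_const
      (fderiv ℝ (fun k => bo D p t ‖k‖ k) k).det
    rw [sub_self, zero_mul] at h2
    refine h2.congr_of_eventuallyEq (Filter.Eventually.of_forall fun s => ?_)
    have e1 : (fun k => bo D p s ‖k‖ k) =ᶠ[nhds k]
        (fun k => bo D p (s - t) ‖k‖ k) ∘ fun k => bo D p t ‖k‖ k :=
      (eventually_ne_nhds hk).mono fun k hk => by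
        have := hco (s - t) t k hk
        rwa [sub_add_cancel] at this
    have e2 := hco (s - t) t k hk
    rw [sub_add_cancel] at e2
    beta_reduce
    rw [e1.fderiv_eq, fderiv_comp (f := fun k => bo D p t ‖k‖ k) k
      (qbj_da hb p (s - t) _ hy L' hL').1 (qbj_da hb p t k hk L hL).1, ← e2]
    have e3 : ∀ A B : E n →L[ℝ] E n, (A.comp B).det = A.det * B.det := fun A B =>
      LinearMap.det_comp (A : E n →ₗ[ℝ] E n) (B : E n →ₗ[ℝ] E n)
    rw [e3]
    ring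
  have hc := is_const_of_deriv_eq_zero (fun s => (key s).differentiableAt)
    (fun s => (key s).deriv) t 0
  simp only [qbj_id D p k hk, qbj_J0 D p k hk, ContinuousLinearMap.det, ContinuousLinearMap.coe_id,
    LinearMap.det_id, one_mul] at hc
  have h3 := congrArg abs hc
  rw [abs_mul, abs_of_nonneg (a := _ / _) (by positivity),
    abs_of_nonneg (a := _ / _) (by positivity)] at h3
  exact h3

end Pool.Agent.MP_3ee8cb_gt.CR
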