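import Pool.Agent.MP_3ee8cb_gt.RS.SpecC

namespace Pool.Agent.MP_3ee8cb_gt.CR

open Set MeasureTheory
open scoped RealInnerProductSpace

variable {n : ℕ}

theorem qbn_der (D : Tri n) (p : E n) (z : J3 n) (t : ℝ) :
    HasDerivAt (fun τ => GG D p τ z) (XX D p (GG D p t z)) t := by
  have c1 : CompleteSpace (J3 n) := inferInstance
  have c2 : CompleteSpace (J3 n →L[ℝ] J3 n) := FiniteDimensional.complete ℝ _
  have h := hasDerivAt_exp_smul_const' (𝕂 := ℝ) (XX D p) t
  have h2 := h.clm_apply (hasDerivAt_const t z)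
  simpa [GG, ex1] using h2

theorem qbn_fst {A B : Type} [NormedAddCommGroup A] [NormedSpace ℝ A] [NormedAddCommGroup B]
    [NormedSpace ℝ B] {f : ℝ → A × B} {f' : A × B} {t : ℝ} (h : HasDerivAt f f' t) :
    HasDerivAt (fun τ => (f τ).1) f'.1 t :=
  (ContinuousLinearMap.fst ℝ A B).hasFDerivAt.comp_hasDerivAt t h

theorem qbn_snd {A B : Type} [NormedAddCommGroup A] [NormedSpace ℝ A] [NormedAddCommGroup B]
    [NormedSpace ℝ B] {f : ℝ → A × B} {f' : A × B} {t : ℝ} (h : HasDerivAt f f' t) :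
    HasDerivAt (fun τ => (f τ).2) f'.2 t :=
  (ContinuousLinearMap.snd ℝ A B).hasFDerivAt.comp_hasDerivAt t h

theorem qbn_zero (D : Tri n) (p : E n) (z : J3 n) : GG D p 0 z = z := by
  simp [GG, ex1]

/-- The invariant pairing. -/
noncomputable def qbnPi (z w : J3 n) : ℝ :=
  z.1 * w.1 - 2 * ⟪z.2.1, w.2.1⟫ + ⟪z.2.2 w.2.1, w.2.1⟫ / w.1

theorem qbn_ver (D : Tri n) (s r : ℝ) (a b : E n) (hr : 0 < r) :
    qbnPi (ver D s a) (ver D r b) = NN D s a r b := by
  simp only [qbnPi, ver, NN, RR, map_smul, real_inner_smul_left, real_inner_smul_right]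
  field_simp

theorem qbn : SBN := by
  intro n D d h sd al bo p t s s' r r' a a' b b' hs ha hr hb hs' hr' e1 e2
  have key : ∀ τ, HasDerivAt
      (fun τ => qbnPi (GG D p τ (ver D s a)) (GG D p τ (ver D r b))) 0 τ := by
    intro τ
    obtain ⟨σ, x, hσ, -, f1⟩ := bo p τ s a hs ha
    obtain ⟨ρ, y, hρ, -, f2⟩ := bo p τ r b hr hb
    have d1 := qbn_der D p (ver D s a) τ
    have d2 := qbn_der D p (ver D r b) τ
    have ne : (GG D p τ (ver D r b)).1 ≠ 0 := by
      rw [f2]; exact (pow_pos hρ 2).ne'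
    have u1 := qbn_fst (qbn_snd d1)
    have u2 := qbn_fst (qbn_snd d2)
    have d3 := (((qbn_fst d1).fun_mul (qbn_fst d2)).fun_sub ((u1.inner ℝ u2).const_mul 2)).fun_add
      ((((qbn_snd (qbn_snd d1)).clm_apply u2).inner ℝ u2).fun_div (qbn_fst d2) ne)
    refine d3.congr_deriv ?_
    rw [f1, f2]
    have a1 : ⟪D p x y, y⟫ = ⟪x, D y y p⟫ := by rw [sd.hopf.pair, real_inner_comm]
    have a2 : ⟪D x x y, p⟫ = ⟪D x x p, y⟫ := by rw [al.ops, real_inner_comm]
    have a3 : ⟪D x x y, D y y p⟫ = ⟪p, y⟫ * ⟪D x x y, y⟫ := by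
      have := al.rsy x y
      unfold RR at this
      rw [sd.hopf.pair, sd.hopf.line, this, real_inner_comm y p]
      simp [real_inner_smul_left]
    have a4 : ⟪D x x (D y y p), y⟫ = ⟪p, y⟫ * ⟪D x x y, y⟫ := by
      rw [al.ops, real_inner_comm, a3]
    have a5 : ⟪x, p⟫ = ⟪p, x⟫ := real_inner_comm _ _
    simp only [XX_apply, ver, map_smul, map_add, smul_apply, inner_add_left, inner_add_right,
      real_inner_smul_left, real_inner_smul_right, a1, a2, a3, a4, a5]
    field_simp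
    ring
  have h1 := is_const_of_deriv_eq_zero (fun τ => (key τ).differentiableAt)
    (fun τ => (key τ).deriv) t 0
  simp only [e1, e2, qbn_zero] at h1
  rwa [qbn_ver D s' r' a' b' hr', qbn_ver D s r a b hr] at h1

end Pool.Agent.MP_3ee8cb_gt.CR
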