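import Pool.Agent.MP_3ee8cb_gt.RS.SpecC

namespace Pool.Agent.MP_3ee8cb_gt.CR

open Set MeasureTheory Filter Topology
open scoped RealInnerProductSpace

section
variable {U F : Type} [NormedAddCommGroup U] [NormedSpace ℝ U] [NormedAddCommGroup F]
  [NormedSpace ℝ F]

theorem qbo_der [CompleteSpace U] (X : U →L[ℝ] U) (z : U) (t : ℝ) :
    HasDerivAt (fun t => ex1 X t z) (X (ex1 X t z)) t := by
  have h := (hasDerivAt_exp_smul_const' (𝕂 := ℝ) X t).clm_apply (hasDerivAt_const t z)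
  simpa [ex1] using h

theorem qbo_zero (X : U →L[ℝ] U) (z : U) : ex1 X 0 z = z := by
  simp [ex1]

theorem qbo_bil (B : U →L[ℝ] U →L[ℝ] F) {z : ℝ → U} {z' : U} {t : ℝ} (h : HasDerivAt z z' t) :
    HasDerivAt (fun t => B (z t) (z t)) (B z' (z t) + B (z t) z') t :=
  (B.hasFDerivAt.comp_hasDerivAt t h).clm_apply h

theorem qbo_inv0 {W : Type} [NormedAddCommGroup W] [NormedSpace ℝ W]
    (e : W →L[ℝ] U →L[ℝ] U →L[ℝ] F) (L : W →L[ℝ] W) (X : U →L[ℝ] U)
    (hL : ∀ B x, e (L B) x x = e B (X x) x + e B x (X x)) (C : Set U)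
    (hC : ∀ z ∈ C, ∃ γ : ℝ → U, γ 0 = z ∧ HasDerivAt γ (X z) 0 ∧ ∀ᶠ t in 𝓝 (0 : ℝ), γ t ∈ C)
    (z : ℝ → U) (hz : ∀ t, HasDerivAt z (X (z t)) t) (h0 : z 0 ∈ C) (B : W)
    (hB : ∀ x ∈ C, e B x x = 0) (t : ℝ) : e B (z t) (z t) = 0 := by
  let Q : Submodule ℝ W :=
    { carrier := {B | ∀ x ∈ C, e B x x = 0}
      zero_mem' := fun _ _ => by simp
      add_mem' := fun {a b} ha hb x hx => by simp [ha x hx, hb x hx]
      smul_mem' := fun c a ha x hx => by simp [ha x hx] }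
  have hQ : ∀ B : Q, (L.comp Q.subtypeL) B ∈ Q := fun B x hx => by
    obtain ⟨γ, g0, g1, g2⟩ := hC x hx
    have h1 := qbo_bil (e B.1) g1
    have h2 : HasDerivAt (fun t => e B.1 (γ t) (γ t)) 0 0 :=
      (hasDerivAt_const (0 : ℝ) (0 : F)).congr_of_eventuallyEq (g2.mono fun t ht => B.2 _ ht)
    have h3 := h1.unique h2
    rw [g0] at h3
    exact (hL B.1 x).trans h3
  let LQ : Q →L[ℝ] Q := (L.comp Q.subtypeL).codRestrict Q hQ
  let Ev : U →L[ℝ] U →L[ℝ] Q →L[ℝ] F :=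
    (ContinuousLinearMap.flipₗᵢ ℝ Q U F).toContinuousLinearEquiv.toContinuousLinearMap.comp
      (e.comp Q.subtypeL).flip
  let v : (Q →L[ℝ] F) → (Q →L[ℝ] F) := fun N => N.comp LQ
  have hv : LipschitzWith ‖LQ‖₊ v := LipschitzWith.of_dist_le_mul fun x y => by
    rw [dist_eq_norm, dist_eq_norm, ← ContinuousLinearMap.sub_comp, mul_comm]
    exact ContinuousLinearMap.opNorm_comp_le _ _
  have h1 : (fun t => Ev (z t) (z t)) = fun _ => 0 := by
    refine ODE_solution_unique_univ (v := fun _ => v) (s := fun _ => univ) (t₀ := 0)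
      (fun _ => hv.lipschitzOnWith) (fun t => ⟨?_, trivial⟩) (fun t => ⟨?_, trivial⟩) ?_
    · refine (qbo_bil (F := Q →L[ℝ] F) Ev (hz t)).congr_deriv ?_
      ext B
      exact (hL B.1 (z t)).symm
    · exact (hasDerivAt_const t (0 : Q →L[ℝ] F)).congr_deriv
        (ContinuousLinearMap.zero_comp LQ).symm
    · ext B
      exact B.2 _ h0
  exact congrArg (fun N : Q →L[ℝ] F => N ⟨B, hB⟩) (congrFun h1 t)

/-- Quadratic equations of a set to which a linear field is tangent are preserved. -/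
theorem qbo_inv (X : U →L[ℝ] U) (C : Set U)
    (hC : ∀ z ∈ C, ∃ γ : ℝ → U, γ 0 = z ∧ HasDerivAt γ (X z) 0 ∧ ∀ᶠ t in 𝓝 (0 : ℝ), γ t ∈ C)
    (z : ℝ → U) (hz : ∀ t, HasDerivAt z (X (z t)) t) (h0 : z 0 ∈ C) (B B' : U →L[ℝ] U →L[ℝ] F)
    (hB : ∀ x ∈ C, B x x = B' x x) (t : ℝ) : B (z t) (z t) = B' (z t) (z t) :=
  sub_eq_zero.1 (qbo_inv0 (ContinuousLinearMap.id ℝ _)
    ((ContinuousLinearMap.compL ℝ U U (U →L[ℝ] F)).flip X +
      ContinuousLinearMap.compL ℝ U (U →L[ℝ] F) (U →L[ℝ] F)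
        ((ContinuousLinearMap.compL ℝ U U F).flip X)) X (fun _ _ => rfl) C hC z hz h0 (B - B')
    (fun x hx => sub_eq_zero.2 (hB x hx)) t)

end

theorem qbo_pos (α α' w : ℝ → ℝ) (c K : ℝ) (hα : ∀ t, HasDerivAt α (α' t) t) (hc : 0 ≤ c)
    (h0 : 0 < α 0) (h1 : c ≤ α 0) (hw : ∀ t, α t * (α t - c) = w t ^ 2) (hK : 0 ≤ K)
    (hw0 : ∀ t, 0 ≤ w t) (hd : ∀ t, |α' t| ≤ K * w t) (t : ℝ) : 0 < α t := by
  have hcont : Continuous α := continuous_iff_continuousAt.2 fun t => (hα t).continuousAt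
  by_contra h
  rw [not_lt] at h
  rcases hc.eq_or_lt with rfl | hc
  · obtain ⟨t₀, ht₀⟩ := intermediate_value_univ t 0 hcont (⟨h, h0.le⟩ : (0 : ℝ) ∈ Icc _ _)
    have h2 : ∀ t, w t = |α t| := fun t => by
      rw [← abs_of_nonneg (hw0 t), ← sq_eq_sq_iff_abs_eq_abs, ← hw t]; ring
    have h3 : α = fun _ => 0 := by
      refine ODE_solution_unique_univ (K := ⟨K, hK⟩) (v := fun t x => α' t / α t * x)
        (s := fun _ => univ) (t₀ := t₀) (fun t => LipschitzWith.lipschitzOnWith ?_)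
        (fun t => ⟨?_, trivial⟩) (fun t => ⟨?_, trivial⟩) ht₀
      · refine LipschitzWith.of_dist_le_mul fun x y => ?_
        rw [Real.dist_eq, Real.dist_eq, ← mul_sub, abs_mul]
        refine mul_le_mul_of_nonneg_right ?_ (abs_nonneg _)
        rw [abs_div]
        refine div_le_of_le_mul₀ (abs_nonneg _) hK ?_
        rw [← h2]
        exact hd t
      · refine (hα t).congr_deriv (Eq.symm ?_)
        by_cases e : α t = 0
        · have := hd t
          rw [h2, e, abs_zero, mul_zero] at this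
          rw [e, mul_zero, abs_nonpos_iff.1 this]
        · exact div_mul_cancel₀ _ e
      · rw [mul_zero]
        exact hasDerivAt_const t (0 : ℝ)
    rw [h3] at h0
    exact lt_irrefl _ h0
  · obtain ⟨t₀, ht₀⟩ := intermediate_value_univ t 0 hcont
      (⟨by linarith, by linarith⟩ : c / 2 ∈ Icc _ _)
    have := hw t₀
    rw [ht₀] at this
    nlinarith [sq_nonneg (w t₀)]

variable {n : ℕ}

/-- The trace as a continuous map. -/
noncomputable def qbo_tr (n : ℕ) : (E n →L[ℝ] E n) →L[ℝ] ℝ :=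
  LinearMap.toContinuousLinearMap ((LinearMap.trace ℝ (E n)).comp (ContinuousLinearMap.coeLM ℝ))

theorem qbo_tr_self {D : Tri n} {d : ℕ} (H : Hopf D d) (w : E n) :
    qbo_tr n (D w w) = d * ‖w‖ ^ 2 := H.tr w

theorem qbo_tr_pol {D : Tri n} {d : ℕ} (H : Hopf D d) (p w : E n) :
    qbo_tr n (D p w) = d * ⟪p, w⟫ := by
  have h := qbo_tr_self H (p + w)
  simp only [map_add, add_apply] at h
  rw [qbo_tr_self H, qbo_tr_self H, H.symm w p, norm_add_sq_real] at h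
  linarith

theorem qbo_tan {D : Tri n} {d : ℕ} (H : Hopf D d) (p : E n) (s : ℝ) (a : E n) (hs : 0 < s) :
    HasDerivAt (fun t : ℝ => ver D (s + t * ⟪p, a⟫)
      (a + t • (s • p + s⁻¹ • (D a a p - ⟪p, a⟫ • a)))) (XX D p (ver D s a)) 0 := by
  set a₁ := s • p + s⁻¹ • (D a a p - ⟪p, a⟫ • a) with ha₁
  have h1 : HasDerivAt (fun t : ℝ => s + t * ⟪p, a⟫) ⟪p, a⟫ 0 := by
    simpa using ((hasDerivAt_id (0 : ℝ)).mul_const ⟪p, a⟫).const_add s
  have h2 : HasDerivAt (fun t : ℝ => a + t • a₁) a₁ 0 := by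
    simpa using ((hasDerivAt_id (0 : ℝ)).smul_const a₁).const_add a
  have h3 := (h1.pow 2).prodMk ((h1.smul h2).prodMk (qbo_bil D h2))
  refine h3.congr_deriv (Eq.symm ?_)
  rw [XX_apply]
  have h4 : D a a₁ = s • D p a := by
    rw [ha₁, map_add, map_smul, map_smul, map_sub, map_smul, H.line, real_inner_comm, sub_self,
      smul_zero, add_zero, H.symm]
  refine Prod.ext ?_ (Prod.ext ?_ ?_)
  · simp [ver, inner_smul_right]
    ring
  · simp only [ver, zero_mul, add_zero, zero_smul, ha₁, smul_add, smul_smul,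
      mul_inv_cancel₀ hs.ne', one_smul]
    module
  · simp only [ver, zero_smul, add_zero, map_smul]
    rw [H.symm a₁ a, h4]
    module

theorem qbo : SBO := by
  intro n D d h S A p t s a hs ha
  have H := S.hopf
  let z : ℝ → J3 n := fun t => GG D p t (ver D s a)
  have hz : ∀ t, HasDerivAt z (XX D p (z t)) t := fun t => qbo_der _ _ t
  have z0 : z 0 = ver D s a := qbo_zero _ _
  let w : J3 n →L[ℝ] E n := (ContinuousLinearMap.fst ℝ (E n) (E n →L[ℝ] E n)).comp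
    (ContinuousLinearMap.snd ℝ ℝ (E n × (E n →L[ℝ] E n)))
  let T : J3 n →L[ℝ] E n →L[ℝ] E n := (ContinuousLinearMap.snd ℝ (E n) (E n →L[ℝ] E n)).comp
    (ContinuousLinearMap.snd ℝ ℝ (E n × (E n →L[ℝ] E n)))
  let α : J3 n →L[ℝ] ℝ := ContinuousLinearMap.fst ℝ ℝ (E n × (E n →L[ℝ] E n))
  have hf : ∀ t, (z t).1 • (z t).2.2 = D (z t).2.1 (z t).2.1 := fun t => by
    have := qbo_inv (XX D p) {x | ∃ s a, 0 < s ∧ x = ver D s a} ?_ z hz ⟨s, a, hs, z0⟩
      (α.smulRight T) (D.bilinearComp w w) ?_ t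
    · exact this
    · rintro _ ⟨s, a, hs, rfl⟩
      refine ⟨_, by simp, qbo_tan H p s a hs, ?_⟩
      have h1 : ContinuousAt (fun t : ℝ => s + t * ⟪p, a⟫) 0 := by fun_prop
      filter_upwards [h1.eventually (lt_mem_nhds (by simpa using hs))] with t ht
      exact ⟨_, _, ht, rfl⟩
    · rintro _ ⟨s, a, -, rfl⟩
      change s ^ 2 • D a a = D (s • a) (s • a)
      simp only [map_smul, smul_apply, smul_smul]
      rw [sq]
  have hd : (0 : ℝ) < d := by exact_mod_cast A.one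
  have hα : ∀ t, HasDerivAt (fun t => (z t).1) (2 * ⟪p, (z t).2.1⟫) t := fun t =>
    α.hasFDerivAt.comp_hasDerivAt t (hz t)
  have hT : ∀ t, HasDerivAt (fun t => qbo_tr n (z t).2.2) (d * (2 * ⟪p, (z t).2.1⟫)) t :=
    fun t => by
    have := ((qbo_tr n).comp T).hasFDerivAt.comp_hasDerivAt t (hz t)
    refine this.congr_deriv ?_
    change qbo_tr n ((2 : ℝ) • D p (z t).2.1) = _
    rw [map_smul, qbo_tr_pol H, smul_eq_mul]
    ring
  have hc : ∀ t, d * (z t).1 - qbo_tr n (z t).2.2 = d * (s ^ 2 - ‖a‖ ^ 2) := fun t => by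
    have h1 : ∀ t, HasDerivAt (fun t => d * (z t).1 - qbo_tr n (z t).2.2) 0 t := fun t =>
      (((hα t).const_mul (d : ℝ)).sub (hT t)).congr_deriv (sub_self _)
    have h2 := is_const_of_deriv_eq_zero (fun t => (h1 t).differentiableAt)
      (fun t => (h1 t).deriv) t 0
    rw [h2, z0]
    change d * s ^ 2 - qbo_tr n (D a a) = _
    rw [qbo_tr_self H]
    ring
  have hw : ∀ t, (z t).1 * ((z t).1 - (s ^ 2 - ‖a‖ ^ 2)) = ‖(z t).2.1‖ ^ 2 := fun t => by
    have h1 := congrArg (qbo_tr n) (hf t)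
    rw [map_smul, qbo_tr_self H, smul_eq_mul] at h1
    refine mul_left_cancel₀ hd.ne' ?_
    linear_combination h1 + (z t).1 * hc t
  have hp : 0 < (z t).1 := by
    refine qbo_pos (fun t => (z t).1) _ (fun t => ‖(z t).2.1‖) _ (2 * ‖p‖) hα
      (by nlinarith [norm_nonneg a]) ?_ ?_ hw (by positivity) (fun t => norm_nonneg _)
      (fun t => ?_) t
    · rw [z0]; exact pow_pos hs 2
    · rw [z0]
      change _ ≤ s ^ 2
      nlinarith [norm_nonneg a]
    · rw [abs_mul, abs_two, mul_assoc]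
      exact mul_le_mul_of_nonneg_left (abs_real_inner_le_norm _ _) zero_le_two
  have hq : 0 < √(z t).1 := Real.sqrt_pos.2 hp
  have hq2 : √(z t).1 ^ 2 = (z t).1 := Real.sq_sqrt hp.le
  refine ⟨√(z t).1, (√(z t).1)⁻¹ • (z t).2.1, hq, ?_, ?_⟩
  · rw [norm_smul, mul_pow, norm_inv, Real.norm_eq_abs, abs_of_pos hq, inv_pow, hq2, ← hw t]
    field_simp
    ring
  · change z t = _
    refine Prod.ext hq2.symm (Prod.ext ?_ ?_)
    · change _ = √(z t).1 • (√(z t).1)⁻¹ • (z t).2.1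
      rw [smul_inv_smul₀ hq.ne']
    · change _ = D ((√(z t).1)⁻¹ • (z t).2.1) ((√(z t).1)⁻¹ • (z t).2.1)
      simp only [map_smul, smul_apply, smul_smul]
      rw [← hf t, smul_smul, ← mul_inv, ← sq, hq2, inv_mul_cancel₀ hp.ne', one_smul]

end Pool.Agent.MP_3ee8cb_gt.CR
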