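import Pool.Agent.MP_3ee8cb_gt.RS.SpecC

/-! Symmetries preserve the measure on boundary vectors. -/

namespace Pool.Agent.MP_3ee8cb_gt.CR

open Set MeasureTheory

theorem qco_nd {n : ℕ} (d : ℕ) (hn : 0 < n) {s : Set (E n)} (hs : MeasurableSet s) :
    nd n d s = ∫⁻ k in s \ {0}, ENNReal.ofReal (‖k‖ ^ d / ‖k‖ ^ 2) := by
  have : Nonempty (Fin n) := ⟨⟨0, hn⟩⟩
  rw [nd, withDensity_apply _ hs]
  exact setLIntegral_congr (sdiff_null_ae_eq_self (measure_singleton _)).symm

theorem qco : SCO := by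
  intro n D d h S T a T' a' H
  have hm : Measurable a := measurable_of_continuousOn_compl_singleton 0 H.fw.sma.continuousOn
  refine ⟨hm, Measure.ext fun s hs => ?_⟩
  have ht : MeasurableSet (a ⁻¹' s \ {0}) := (hm hs).diff (measurableSet_singleton _)
  have him : a '' (a ⁻¹' s \ {0}) = s \ {0} := by
    refine Subset.antisymm ?_ fun y hy => ⟨a' y, ⟨?_, H.bw.ne y hy.2⟩, H.ar y⟩
    · rintro _ ⟨k, hk, rfl⟩
      exact ⟨hk.1, H.fw.ne k hk.2⟩
    · rw [mem_preimage, H.ar]; exact hy.1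
  rw [Measure.map_apply hm hs, qco_nd d S.pos (hm hs), qco_nd d S.pos hs, ← him,
    lintegral_image_eq_lintegral_abs_det_fderiv_mul volume ht (f' := fderiv ℝ a)
      (fun k hk => ?_) (Function.LeftInverse.injective H.al).injOn]
  · refine setLIntegral_congr_fun ht fun k hk => ?_
    rw [← ENNReal.ofReal_mul (abs_nonneg _), H.fw.det k hk.2]
  · exact ((H.fw.sma.differentiableOn one_ne_zero).differentiableAt
      (isOpen_ne.mem_nhds hk.2)).hasFDerivAt.hasFDerivWithinAt

end Pool.Agent.MP_3ee8cb_gt.CR
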