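import Pool.Agent.MP_3ee8cb_gt.RS.SpecC

/-! The conjugacy with the flow on pairs of boundary vectors, rank one symmetric target. -/

namespace Pool.Agent.MP_3ee8cb_gt.CR

open Set MeasureTheory
open scoped RealInnerProductSpace

variable {n : ℕ}

theorem qconj_equi {D : Tri n} {d : ℕ} {h : Met n} {u : E n → E n → E n}
    {φ : UT h → E n × E n} {ψ : E n × E n → UT h} (hu : ModP D d h u) (hφ : PhiP D h u φ ψ)
    {T a : E n → E n} (hT : Sym D d h T a) (q q' : UT h)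
    (hq : q'.1 = (T q.1.1, fderiv ℝ T q.1.1 q.1.2)) :
    φ q' = (a (φ q).1, a (φ q).2) := by
  obtain ⟨k0, m0, e1, e2, u1, u2⟩ := (hφ.char q (φ q).1 (φ q).2).1 rfl
  rw [hφ.char, hq]
  refine ⟨hT.ne _ k0, hT.ne _ m0, (hT.el _ _).trans e1, (hT.el _ _).trans e2, ?_, ?_⟩
  · show u (T q.1.1) (a (φ q).1) = fderiv ℝ T q.1.1 q.1.2
    rw [hu.equi T a hT _ _ k0, u1]
  · show u (T q.1.1) (a (φ q).2) = -fderiv ℝ T q.1.1 q.1.2
    rw [hu.equi T a hT _ _ m0, u2, map_neg]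

theorem qconj_rad {D : Tri n} {d : ℕ} {h : Met n} {u : E n → E n → E n}
    {φ : UT h → E n × E n} {ψ : E n × E n → UT h} (hB : BasP D) (hu : ModP D d h u)
    (hφ : PhiP D h u φ ψ) {T a : E n → E n} (hT : Sym D d h T a) {θ : E n} (hθ : ‖θ‖ = 1)
    (t : ℝ) (q : UT h)
    (hq : q.1 = (T (Real.sinh t • θ), fderiv ℝ T (Real.sinh t • θ) (Real.cosh t • θ))) :
    φ q = (Real.exp t • a θ, Real.exp (-t) • a (-θ)) := by
  have t0 : θ ≠ 0 := fun h0 => by simp [h0] at hθ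
  have t1 : -θ ≠ 0 := neg_ne_zero.2 t0
  obtain ⟨r1, r2⟩ := hu.rad θ t hθ
  obtain ⟨r3, r4⟩ := hu.rad (-θ) (-t) (by rw [norm_neg, hθ])
  have s1 : Real.sinh (-t) • (-θ) = Real.sinh t • θ := by
    rw [Real.sinh_neg, neg_smul, smul_neg, neg_neg]
  rw [s1, neg_neg] at r3
  rw [s1, Real.cosh_neg, smul_neg] at r4
  have hun : h (Real.sinh t • θ) (Real.cosh t • θ) (Real.cosh t • θ) = 1 := by
    rw [← r2]
    exact hu.unit _ _ t0
  have h0 : φ ⟨(Real.sinh t • θ, Real.cosh t • θ), hun⟩ =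
      (Real.exp t • θ, Real.exp (-t) • (-θ)) := by
    rw [hφ.char]
    refine ⟨smul_ne_zero (Real.exp_pos _).ne' t0, smul_ne_zero (Real.exp_pos _).ne' t1,
      ?_, ?_, ?_, ?_⟩
    · show el D (Real.sinh t • θ) (Real.exp t • θ) = 1
      rw [hB.hom _ _ _ (Real.exp_pos _).le, r1, ← Real.exp_add, add_neg_cancel, Real.exp_zero]
    · show el D (Real.sinh t • θ) (Real.exp (-t) • (-θ)) = 1
      rw [hB.hom _ _ _ (Real.exp_pos _).le, r3, ← Real.exp_add, neg_add_cancel, Real.exp_zero]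
    · show u (Real.sinh t • θ) (Real.exp t • θ) = Real.cosh t • θ
      rw [hu.hom _ _ _ t0 (Real.exp_pos _), r2]
    · show u (Real.sinh t • θ) (Real.exp (-t) • (-θ)) = -(Real.cosh t • θ)
      rw [hu.hom _ _ _ t1 (Real.exp_pos _), r4]
  rw [qconj_equi hu hφ hT ⟨(Real.sinh t • θ, Real.cosh t • θ), hun⟩ q hq, h0,
    hT.hom _ _ (Real.exp_pos _), hT.hom _ _ (Real.exp_pos _)]

theorem qconj_flow {D : Tri n} {d : ℕ} {h : Met n} {u : E n → E n → E n}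
    {φ : UT h → E n × E n} {ψ : E n × E n → UT h} {Ψ : ℝ → UT h → UT h} (hS : SD D d h)
    (hB : BasP D) (hR : TraP D d h) (hu : ModP D d h u) (hφ : PhiP D h u φ ψ) (hΨ : IsfP h Ψ)
    (t : ℝ) (q : UT h) :
    φ (Ψ t q) = (Real.exp t • (φ q).1, Real.exp (-t) • (φ q).2) := by
  obtain ⟨T, a, T', a', hT, h0⟩ := hR q.1.1
  have z0 : T' q.1.1 = 0 := by rw [← h0, hT.tl]
  obtain ⟨θ, hθ⟩ : ∃ θ, θ = fderiv ℝ T' q.1.1 q.1.2 := ⟨_, rfl⟩
  have n1 : ‖θ‖ = 1 := by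
    have h1 := (hT.bw.iso q.1.1 q.1.2 q.1.2).trans q.2
    rw [z0, ← hθ, hS.sym] at h1
    simp only [map_zero, zero_apply, inner_zero_left, mul_zero, add_zero,
      sub_zero, one_mul, real_inner_self_eq_norm_sq] at h1
    have := norm_nonneg θ
    nlinarith
  have d1 : fderiv ℝ T 0 θ = q.1.2 := by
    have h1 : HasFDerivAt T (fderiv ℝ T 0) (T' q.1.1) := by
      rw [z0]
      exact (hT.fw.smT.differentiable one_ne_zero 0).hasFDerivAt
    have h2 := h1.comp q.1.1 (hT.bw.smT.differentiable one_ne_zero q.1.1).hasFDerivAt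
    have h3 : T ∘ T' = id := funext hT.tr
    rw [h3] at h2
    have h4 := h2.unique (hasFDerivAt_id q.1.1)
    have h5 := congrArg (fun L : E n →L[ℝ] E n => L q.1.2) h4
    rw [hθ]
    exact h5
  have hq : q.1 = (T 0, fderiv ℝ T 0 θ) := Prod.ext h0.symm d1.symm
  have e0 := qconj_rad hB hu hφ hT.fw n1 0 q (by
    rw [Real.sinh_zero, Real.cosh_zero, zero_smul, one_smul]
    exact hq)
  rw [neg_zero, Real.exp_zero, one_smul, one_smul] at e0
  rw [qconj_rad hB hu hφ hT.fw n1 t (Ψ t q) (hΨ T T' hT.fw.smT hT.bw.smT hT.tl hT.tr hT.fw.iso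
    hT.bw.iso q θ n1 hq t), e0]

theorem qconj : SCONJ2 := by
  intro n D d h hS g Γ Λ _ _ _ _ Φ Ψ a ρ F u φ ψ hB _ hR hu hφ hΨ hA hL hfl heq
  refine ⟨hB.bd, ⟨fun γ => hA.ne _, fun γ => hA.hom _, fun γ => hA.inv _, fun k hk => ?_,
    fun γ δ k hk => ?_⟩, hφ.cont.comp F.continuous, fun p => hφ.mem _,
    F.symm.continuous.comp_continuousOn hφ.icont, fun p => ?_, fun w hw => ?_, fun t p => ?_,
    fun γ p q hq => ?_⟩
  · show a (ρ 1) k = k
    rw [map_one, hA.one k hk]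
  · show a (ρ (γ * δ)) k = a (ρ γ) (a (ρ δ) k)
    rw [map_mul, hA.mul _ _ k hk]
  · show F.symm (ψ (φ (F p))) = p
    rw [hφ.left, F.symm_apply_apply]
  · show φ (F (F.symm (ψ w))) = w
    rw [F.apply_symm_apply, hφ.right w hw]
  · show φ (F (Φ t p)) = (Real.exp t • (φ (F p)).1, Real.exp (-t) • (φ (F p)).2)
    rw [hfl, qconj_flow hS hB hR hu hφ hΨ]
  · exact qconj_equi hu hφ (hL (ρ γ)).fw (F p) (F q) (heq γ p q hq)

end Pool.Agent.MP_3ee8cb_gt.CR
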