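import Pool.Agent.MP_3ee8cb_gt.RS.SpecC

/-! The cotangent lift of a diffeomorphism of the punctured space preserves the volume. -/

namespace Pool.Agent.MP_3ee8cb_gt.CR

open Set MeasureTheory

variable {n : ℕ}

theorem qct_det (f : E n →L[ℝ] E n) :
    LinearMap.det ((ContinuousLinearMap.adjoint f : E n →L[ℝ] E n) : E n →ₗ[ℝ] E n) = f.det := by
  have b := EuclideanSpace.basisFun (Fin n) ℝ
  rw [← ContinuousLinearMap.adjoint_toLinearMap, ← LinearMap.det_toMatrix b.toBasis,
    LinearMap.toMatrix_adjoint, Matrix.det_conjTranspose, LinearMap.det_toMatrix]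
  rfl

theorem qct_meas (a a' : E n → E n) (ha : ContinuousOn a {k | k ≠ 0}) :
    Measurable (cot2 a a') := by
  have h1 : Measurable fun w : E n × E n => a w.1 :=
    (measurable_of_continuousOn_compl_singleton 0 ha).comp measurable_fst
  have h2 : Measurable fun w : E n × E n => fderiv ℝ a' (a w.1) :=
    (measurable_fderiv ℝ a').comp h1
  have h3 : Continuous fun z : (E n →L[ℝ] E n) × E n => ContinuousLinearMap.adjoint z.1 z.2 :=
    (ContinuousLinearMap.adjoint.continuous.comp continuous_fst).clm_apply continuous_snd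
  have h4 : Measurable fun w : E n × E n => (fderiv ℝ a' (a w.1), w.2) := h2.prodMk measurable_snd
  have h5 := h3.measurable.comp h4
  unfold cot2
  exact h1.prodMk h5

theorem qct : SCT := by
  intro n hn a a' ha ha' h1 h2
  have : Nonempty (Fin n) := ⟨⟨0, hn⟩⟩
  have hO : IsOpen {k : E n | k ≠ 0} := isOpen_compl_singleton
  have hS : MeasurableSet {k : E n | k ≠ 0} := hO.measurableSet
  have hae : ∀ᵐ k : E n, k ∈ {k : E n | k ≠ 0} := by
    have := (Set.countable_singleton (0 : E n)).ae_notMem (volume : Measure (E n))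
    exact this
  have hres : (volume : Measure (E n)).restrict {k : E n | k ≠ 0} = volume :=
    Measure.restrict_eq_self_of_ae_mem hae
  have hm := qct_meas a a' ha.continuousOn
  have hd : ∀ k : E n, k ≠ 0 → HasFDerivAt a (fderiv ℝ a k) k := fun k hk =>
    ((ha.contDiffAt (hO.mem_nhds hk)).differentiableAt (by norm_num)).hasFDerivAt
  have hd' : ∀ k : E n, k ≠ 0 → HasFDerivAt a' (fderiv ℝ a' k) k := fun k hk =>
    ((ha'.contDiffAt (hO.mem_nhds hk)).differentiableAt (by norm_num)).hasFDerivAt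
  have hdet : ∀ k : E n, k ≠ 0 → (fderiv ℝ a' (a k)).det * (fderiv ℝ a k).det = 1 := fun k hk => by
    have e1 := (hd' _ (h1 k hk).1).comp k (hd k hk)
    have e2 : HasFDerivAt (a' ∘ a) (ContinuousLinearMap.id ℝ (E n)) k :=
      (hasFDerivAt_id k).congr_of_eventuallyEq
        (Filter.mem_of_superset (hO.mem_nhds hk) fun y hy => (h1 y hy).2)
    have e3 : (fderiv ℝ a' (a k) : E n →ₗ[ℝ] E n).comp (fderiv ℝ a k : E n →ₗ[ℝ] E n) =
        LinearMap.id := LinearMap.ext fun v => DFunLike.congr_fun (e1.unique e2) v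
    rw [← LinearMap.det_comp, e3, LinearMap.det_id]
  have hinj : InjOn a {k | k ≠ 0} := fun k hk k' hk' e => by
    rw [← (h1 k hk).2, e, (h1 k' hk').2]
  have himg : a '' {k | k ≠ 0} = {k | k ≠ 0} := by
    ext k
    constructor
    · rintro ⟨k', hk', rfl⟩
      exact (h1 k' hk').1
    · exact fun hk => ⟨a' k, (h2 k hk).1, (h2 k hk).2⟩
  refine ⟨hm, Measure.ext fun s hs => ?_⟩
  rw [Measure.map_apply hm hs, Measure.volume_eq_prod, Measure.prod_apply (hm hs),
    Measure.prod_apply hs]
  have h3 := lintegral_image_eq_lintegral_abs_det_fderiv_mul (volume : Measure (E n)) hS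
    (fun k hk => (hd k hk).hasFDerivWithinAt) hinj fun k => volume (Prod.mk k ⁻¹' s)
  rw [himg, hres] at h3
  rw [h3]
  refine lintegral_congr_ae (hae.mono fun k hk => ?_)
  have h4 : Prod.mk k ⁻¹' (cot2 a a' ⁻¹' s) =
      ContinuousLinearMap.adjoint (fderiv ℝ a' (a k)) ⁻¹' (Prod.mk (a k) ⁻¹' s) := rfl
  have h5 : LinearMap.det ((ContinuousLinearMap.adjoint (fderiv ℝ a' (a k)) : E n →L[ℝ] E n) :
      E n →ₗ[ℝ] E n) ≠ 0 := by
    rw [qct_det]
    exact left_ne_zero_of_mul_eq_one (hdet k hk)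
  dsimp only
  rw [h4, Measure.addHaar_preimage_continuousLinearMap _ h5, qct_det,
    inv_eq_of_mul_eq_one_right (hdet k hk)]

end Pool.Agent.MP_3ee8cb_gt.CR
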