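import Pool.Agent.MP_3ee8cb_gt.RS.SpecD

/-! The translates of the second set cover the first set, whose translates are disjoint. -/

namespace Pool.Agent.MP_3ee8cb_gt.CR

open Set MeasureTheory
open scoped RealInnerProductSpace

variable {n : ℕ} {Γ : Type} [Group Γ] {l : E n → E n → ℝ} {a : Γ → E n → E n}

theorem qcv_mul (R : Act l a) (hs : ∀ γ, ContDiffOn ℝ 1 (a γ) {k | k ≠ 0}) (γ δ : Γ)
    (z : E n × E n) (hz : z.1 ≠ 0) :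
    cot2 (a γ) (a γ⁻¹) (cot2 (a δ) (a δ⁻¹) z) = cot2 (a (γ * δ)) (a (γ * δ)⁻¹) z := by
  have ho : IsOpen {k : E n | k ≠ 0} := isOpen_ne
  have hd : ∀ γ k, k ≠ 0 → DifferentiableAt ℝ (a γ) k := fun γ k hk =>
    ((hs γ).contDiffAt (ho.mem_nhds hk)).differentiableAt one_ne_zero
  have e : a γ (a δ z.1) = a (γ * δ) z.1 := (R.mul γ δ _ hz).symm
  have h1 : a (γ * δ) z.1 ≠ 0 := R.ne _ _ hz
  have h2 : a γ⁻¹ (a (γ * δ) z.1) = a δ z.1 := by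
    rw [← R.mul _ _ _ hz, inv_mul_cancel_left]
  have h3 : a (γ * δ)⁻¹ =ᶠ[nhds (a (γ * δ) z.1)] a δ⁻¹ ∘ a γ⁻¹ := by
    filter_upwards [ho.mem_nhds h1] with k hk
    rw [mul_inv_rev, R.mul _ _ _ hk, Function.comp_apply]
  have h4 : fderiv ℝ (a (γ * δ)⁻¹) (a (γ * δ) z.1) =
      (fderiv ℝ (a δ⁻¹) (a δ z.1)).comp (fderiv ℝ (a γ⁻¹) (a (γ * δ) z.1)) := by
    rw [h3.fderiv_eq, fderiv_comp _ (by rw [h2]; exact hd _ _ (R.ne _ _ hz)) (hd _ _ h1), h2]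
  simp only [cot2]
  rw [e, h4, ContinuousLinearMap.adjoint_comp, ContinuousLinearMap.comp_apply]

theorem qcv_one (R : Act l a) (z : E n × E n) (hz : z.1 ≠ 0) :
    cot2 (a 1) (a 1⁻¹) z = z := by
  have h3 : a 1 =ᶠ[nhds z.1] id := by
    filter_upwards [(isOpen_ne (x := (0 : E n))).mem_nhds hz] with k hk
    exact R.one k hk
  rw [cot2, inv_one, R.one _ hz, h3.fderiv_eq, fderiv_id, ContinuousLinearMap.adjoint_id]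
  rfl

theorem qcv (hp : SPACK) : SCV := by
  intro n g D d h Γ _ _ T a β v m u X H hc Q hΓ F S hF hs hD hD' hE
  have R := H.act
  have hsm : ∀ γ, ContDiffOn ℝ 1 (a γ) {k | k ≠ 0} := fun γ => (H.sy γ).fw.sma
  have hpos : ∀ x k, k ≠ 0 → 0 < lD D k (m x k) := fun x k hk => by
    rw [H.bd.tou x k hk]
    linarith [H.bd.pos x k hk]
  refine hp (E n × E n) Γ volume (fun γ => cot2 (a γ) (a γ⁻¹)) {w | w.1 ≠ 0} _ _
    (fun γ => hc _ _ (hsm γ) (hsm γ⁻¹) (fun k hk => ⟨R.ne γ k hk, (H.sy γ).al k⟩)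
      fun k hk => ⟨R.ne γ⁻¹ k hk, (H.sy γ).ar k⟩)
    (fun γ z hz => ⟨R.ne γ _ hz, ?_⟩) ?_ hE ?_ ?_ ?_ ?_
  · rw [qcv_mul R hsm _ _ z hz, inv_mul_cancel, qcv_one R z hz]
  · exact (measurable_fst (measurableSet_singleton 0)).compl
  · rintro _ ⟨a, ha, rfl⟩
    exact ha.2.1
  · rintro _ ⟨a, ha, rfl⟩
    exact ha.2.1
  · rintro γ δ z hz ⟨c, ha, h1⟩ ⟨b, hb, h2⟩
    have h3 := qcv_mul R hsm (δ * γ⁻¹) γ z hz
    rw [inv_mul_cancel_right, ← h1, ← h2,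
      Q.eq _ _ _ _ (H.sy (δ * γ⁻¹)) _ _ ha.2.1 (hpos _ _ ha.2.1),
      ← (H.bd.equi (δ * γ⁻¹) c.1 c.2 ha.2.1).2] at h3
    obtain ⟨h4, h5⟩ := Prod.mk.inj h3
    rw [h4] at h5
    have h6 := H.bd.inj _ _ _ hb.2.1
      (Q.qd.inj _ _ _ hb.2.1 (hpos _ _ hb.2.1) (hpos _ _ hb.2.1) h5)
    exact (mul_inv_eq_one.1 (hD' _ _ ha.1 (h6 ▸ hb.1))).symm
  · rintro _ ⟨⟨x, k⟩, ⟨-, hk, hb⟩, rfl⟩
    obtain ⟨y, hy, hy'⟩ := Q.cov k (m x k) hk (hpos x k hk)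
    obtain ⟨x', rfl⟩ := hs y
    obtain ⟨γ, hγ⟩ := hD x'
    refine ⟨γ⁻¹, _, ⟨(γ • x', a γ k), ⟨hγ, R.ne γ _ hk, ?_⟩, rfl⟩, ?_⟩
    · change el D (F (γ • x')) (a γ k) ≤ 1
      rw [hF.equi, (H.sy γ).fw.el]
      rw [H.bd.tou x k hk] at hy'
      change β x k ≤ 1 at hb
      linarith
    · change (k, qD D k (m x k)) =
        cot2 (a γ⁻¹) (a γ⁻¹⁻¹) (a γ k, gradient (el D (F (γ • x'))) (a γ k))
      rw [hF.equi, ← Q.ep _ _ _ _ (H.sy γ) _ k hk, qcv_mul R hsm _ _ _ hk, inv_mul_cancel,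
        qcv_one R _ hk, hy]

end Pool.Agent.MP_3ee8cb_gt.CR
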