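import Pool.Agent.MP_3ee8cb_gt.RS.SpecD

/-! A map that sends Busemann directions to Busemann directions is an injective isometry. -/

namespace Pool.Agent.MP_3ee8cb_gt.CR

open Set
open scoped RealInnerProductSpace

theorem qen : SEN := by
  intro n g D d h Γ _ _ T a β v m u X H F hF hG
  have hd : ∀ x, DifferentiableAt ℝ F x := fun x => hF.differentiable one_ne_zero x
  refine ⟨fun x x' e => by_contra fun hn => ?_, fun x => ?_⟩
  · obtain ⟨c, k, t₀, k0, T0, rfl, rfl, hc⟩ := H.bd.join x x' hn
    have h1 : ∀ t, HasDerivAt (fun t => el D (F (c t)) k) (-el D (F (c t)) k) t := fun t => by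
      have h2 := (H.mod.der (F (c t)) k k0).comp_hasDerivAt t
        ((hd (c t)).hasFDerivAt.comp_hasDerivAt t (hc t))
      rw [hG _ k k0, ContinuousLinearMap.smul_apply, H.mod.unit _ k k0, smul_eq_mul,
        mul_one] at h2
      exact h2
    have h3 : StrictAnti fun t => el D (F (c t)) k :=
      strictAnti_of_hasDerivAt_neg h1 fun t => neg_neg_of_pos (H.bas.pos _ k k0)
    have h4 := h3 T0
    simp only [e, lt_self_iff_false] at h4
  · have h1 : ∀ w, g x w w = 1 → h (F x) (fderiv ℝ F x w) (fderiv ℝ F x w) = 1 := fun w hw => by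
      obtain ⟨k, k0, rfl⟩ := H.bd.onto x w hw
      rw [hG x k k0]
      exact H.mod.unit _ k k0
    have h2 : ∀ w, h (F x) (fderiv ℝ F x w) (fderiv ℝ F x w) = g x w w := fun w => by
      by_cases hw : w = 0
      · simp [hw]
      have h3 := H.riem.pos x w hw
      have h5 := Real.mul_self_sqrt h3.le
      have h6 := h1 ((√(g x w w))⁻¹ • w) (by
        simp only [map_smul, ContinuousLinearMap.smul_apply, smul_eq_mul]
        rw [← mul_assoc, ← mul_inv, h5, inv_mul_cancel₀ h3.ne'])
      simp only [map_smul, ContinuousLinearMap.smul_apply, smul_eq_mul] at h6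
      rw [← mul_assoc, ← mul_inv, h5, inv_mul_eq_one₀ h3.ne'] at h6
      exact h6.symm
    intro w w'
    have h3 := h2 (w + w')
    simp only [map_add, ContinuousLinearMap.add_apply] at h3
    rw [h2, h2, H.rieh.symm _ (fderiv ℝ F x w') (fderiv ℝ F x w), H.riem.symm x w' w] at h3
    linarith

end Pool.Agent.MP_3ee8cb_gt.CR
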