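import Pool.Agent.MP_3ee8cb_gt.RS.SpecD

/-! Row FB: the barycentre map is smooth and equivariant; its derivative in a frame. -/

namespace Pool.Agent.MP_3ee8cb_gt.CR

open Set MeasureTheory Filter Topology

variable {n : ℕ} {g h : Met n} {D : Tri n} {d : ℕ} {β : E n → E n → ℝ} {v : E n → E n → E n}

theorem qfb_min (hA : AllAn g D d) (hw : WD g β v) (x y' : E n) :
    pr (Y2 D d β x) (Fb D d β x) ≤ pr (Y2 D d β x) y' :=
  Classical.epsilon_spec ((hA β v hw).ma x).2 y'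

theorem qfb_tr (hA : AllAn g D d) (hW : WsP g D d h) (hM : MbP g D d) (hw : WD g β v)
    {T a T' a' : E n → E n} (hS : Sy2 D d h T a T' a') (x : E n) :
    Fb D d β x = T (Fb D d (fun x k => β x (a k)) x) := by
  obtain ⟨hw', hp⟩ := hW β v T a T' a' hw hS
  refine (hM β v hw x _).2 (IsLocalMin.fderiv_eq_zero (Eventually.of_forall fun y' => ?_))
  change pr _ _ ≤ pr _ y'
  rw [← hS.tr y', hp, hp]
  exact qfb_min hA hw' x _

theorem qfb_loc (hP : PrP n) (hI : IfP n) (hA : AllAn g D d) (hW : WsP g D d h)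
    (hM : MbP g D d) (hw : WD g β v) {T a T' a' : E n → E n} (hS : Sy2 D d h T a T' a')
    (x : E n) (h0 : T 0 = Fb D d β x) : ContDiffAt ℝ 1 (Fb D d β) x ∧ ∃ L : E n →L[ℝ] E n,
      fderiv ℝ (Fb D d β) x = (fderiv ℝ T 0).comp L ∧ ∀ u,
        (Y2 D d (fun x k => β x (a k)) x).1 • L u + (Y2 D d (fun x k => β x (a k)) x).2.2 (L u) =
          (fderiv ℝ (Y2 D d fun x k => β x (a k)) x u).2.1 := by
  have hw' := (hW β v T a T' a' hw hS).1
  have h1 : Fb D d (fun x k => β x (a k)) x = 0 := by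
    have e := congrArg T' (h0.trans (qfb_tr hA hW hM hw hS x))
    rw [hS.tl, hS.tl] at e
    exact e.symm
  obtain ⟨y, hy, hy0, hev, hL⟩ := hI (Y2 D d fun x k => β x (a k)) x (hA _ _ hw').mo.smooth
    (fun x => ((hA _ _ hw').ma x).1) (hP.crit _ ((hM _ _ hw' x 0).1 h1))
  have he : Fb D d β =ᶠ[𝓝 x] T ∘ y := by
    filter_upwards [hev] with x' hx'
    rw [qfb_tr hA hW hM hw hS x', (hM _ _ hw' x' _).2 hx']
    rfl
  refine ⟨(hS.fw.smT.contDiffAt.comp x hy).congr_of_eventuallyEq he, fderiv ℝ y x, ?_, hL⟩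
  rw [he.fderiv_eq, fderiv_comp x (hS.fw.smT.differentiable one_ne_zero _)
    (hy.differentiableAt one_ne_zero), hy0]

theorem qfb : SFB := by
  intro n g D d h Γ _ _ T a β v m u X hK hP hI hA hW hM
  refine ⟨⟨contDiff_iff_contDiffAt.2 fun x => ?_, fun γ x => ?_⟩,
    fun x S b S' b' hS h0 => (qfb_loc hP hI hA hW hM hK.wd hS x h0).2⟩
  · obtain ⟨S, b, S', b', hS, h0⟩ := hK.tra (Fb D d β x)
    exact (qfb_loc hP hI hA hW hM hK.wd hS x h0).1
  · have e : Y2 D d (fun x k => β x (a γ k)) (γ • x) = Y2 D d β x := by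
      refine integral_congr_ae ?_
      filter_upwards [(hA β v hK.wd).yb.ne] with k hk
      rw [(hK.bd.equi γ x k hk).1]
    rw [qfb_tr hA hW hM hK.wd (hK.sy γ) (γ • x)]
    unfold Fb
    rw [e]

end Pool.Agent.MP_3ee8cb_gt.CR
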