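import Pool.Agent.MP_3ee8cb_gt.RS.SpecD

namespace Pool.Agent.MP_3ee8cb_gt.CR

open Set MeasureTheory

theorem qgd : SGD := by
  intro n g D d h Γ _ _ T a β v m u X hd F S x hF hJ hS hx hW hfin hle
  have h1 : (I2 h F) =ᵐ[volume.restrict S] W g := by
    refine ae_eq_of_ae_le_of_lintegral_le (Filter.Eventually.of_forall fun y => (hJ y).1) ?_
      hW.aemeasurable hle
    exact ne_top_of_le_ne_top hfin (lintegral_mono fun y => (hJ y).1)
  have h2 : ∀ᵐ y ∂volume.restrict S, Good2 F v u y := h1.mono fun y hy => (hJ y).2 hy.ge
  intro k hk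
  have hZ : Continuous (fderiv ℝ F) := hF.continuous_fderiv one_ne_zero
  have hv : Continuous fun y => v y k := by
    have : Continuous fun y : E n => ((y, k) : E n × E n) := by fun_prop
    exact hd.bd.cv.comp_continuous this fun y => hk
  have hr : Continuous fun y => u (F y) k := by
    have : Continuous fun y : E n => ((F y, k) : E n × E n) :=
      hF.continuous.prodMk continuous_const
    exact hd.mod.cont.comp_continuous this fun y => hk
  have hl : Continuous fun y => fderiv ℝ F y (v y k) := hZ.clm_apply hv
  have h3 : (fun y => fderiv ℝ F y (v y k)) =ᵐ[volume.restrict (interior S)]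
      fun y => u (F y) k :=
    ae_restrict_of_ae_restrict_of_subset interior_subset (h2.mono fun y hy => hy k hk)
  exact Measure.eqOn_open_of_ae_eq h3 isOpen_interior hl.continuousOn hr.continuousOn
    (mem_interior_iff_mem_nhds.2 hx)

end Pool.Agent.MP_3ee8cb_gt.CR
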