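import Pool.Agent.MP_3ee8cb_gt.RS.SpecC

/-! Rank one symmetric targets: symmetries compose, and linear isometries that keep the modulus
of the Hermitian product are symmetries. -/

namespace Pool.Agent.MP_3ee8cb_gt.CR

open Set MeasureTheory
open scoped RealInnerProductSpace

variable {n : ℕ}

theorem qgr_diff {a : E n → E n} (ha : ContDiffOn ℝ 1 a {k | k ≠ 0}) {k : E n} (hk : k ≠ 0) :
    DifferentiableAt ℝ a k :=
  (ha.contDiffAt (isOpen_ne.mem_nhds hk)).differentiableAt one_ne_zero

theorem qgr_det_comp (A B : E n →L[ℝ] E n) : (A.comp B).det = A.det * B.det := by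
  unfold ContinuousLinearMap.det
  rw [← LinearMap.det_comp]
  rfl

theorem qgr_comp {D : Tri n} {d : ℕ} {h : Met n} {T a S b : E n → E n}
    (hT : Sym D d h T a) (hS : Sym D d h S b) : Sym D d h (T ∘ S) (a ∘ b) where
  smT := hT.smT.comp hS.smT
  iso := fun y u v => by
    have h1 : DifferentiableAt ℝ S y := (hS.smT.differentiable one_ne_zero) y
    have h2 : DifferentiableAt ℝ T (S y) := (hT.smT.differentiable one_ne_zero) (S y)
    rw [fderiv_comp y h2 h1]
    simp only [Function.comp_apply, ContinuousLinearMap.comp_apply]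
    rw [hT.iso, hS.iso]
  sma := hT.sma.comp hS.sma fun k hk => hS.ne k hk
  zero := by simp only [Function.comp_apply, hS.zero, hT.zero]
  ne := fun k hk => hT.ne _ (hS.ne k hk)
  hom := fun t k ht => by simp only [Function.comp_apply, hS.hom t k ht, hT.hom t _ ht]
  ll := fun k k' => by simp only [Function.comp_apply, hT.ll, hS.ll]
  el := fun y k => by simp only [Function.comp_apply, hT.el, hS.el]
  cc := fun y y' => by simp only [Function.comp_apply, hT.cc, hS.cc]
  det := fun k hk => by
    rw [fderiv_comp k (qgr_diff hT.sma (hS.ne k hk)) (qgr_diff hS.sma hk), qgr_det_comp, abs_mul,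
      Function.comp_apply, mul_comm |(fderiv ℝ a (b k)).det|, mul_assoc,
      hT.det _ (hS.ne k hk), hS.det k hk]

theorem qgr_det (O : E n ≃ₗᵢ[ℝ] E n) :
    |(O.toContinuousLinearEquiv : E n →L[ℝ] E n).det| = 1 := by
  let b := EuclideanSpace.basisFun (Fin n) ℝ
  have h1 : b.toBasis.det (b.map O) = 1 ∨ b.toBasis.det (b.map O) = -1 :=
    OrthonormalBasis.det_to_matrix_orthonormalBasis_real b (b.map O)
  have h2 : b.toBasis.det (b.map O) = (O.toContinuousLinearEquiv : E n →L[ℝ] E n).det := by
    have h3 := b.toBasis.det_comp ((O.toContinuousLinearEquiv : E n →L[ℝ] E n) : E n →ₗ[ℝ] E n)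
      b.toBasis
    rw [Module.Basis.det_self, mul_one] at h3
    unfold ContinuousLinearMap.det
    rw [← h3]
    congr 1
  rw [← h2]
  rcases h1 with h1 | h1 <;> rw [h1] <;> simp

theorem qgr_nn {D : Tri n} (O : E n ≃ₗᵢ[ℝ] E n) (hO : ∀ y u, RR D (O y) (O u) = RR D y u)
    (s t : ℝ) (a b : E n) : NN D s (O a) t (O b) = NN D s a t b := by
  unfold NN
  rw [hO, O.inner_map_map]

theorem qgr_up (O : E n ≃ₗᵢ[ℝ] E n) (y : E n) : (up (O y)).1 = (up y).1 := by
  unfold up
  simp only [O.norm_map]

theorem qgr_orth {D : Tri n} {d : ℕ} {h : Met n} (hti : TiP D h) (O : E n ≃ₗᵢ[ℝ] E n)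
    (hO : ∀ y u, RR D (O y) (O u) = RR D y u) : Sym D d h O O := by
  have hc : ∀ y y', CC D (O y) (O y') = CC D y y' := fun y y' => by
    unfold CC
    rw [qgr_up, qgr_up, qgr_nn O hO]
  have hs : ContDiff ℝ 1 O := O.toContinuousLinearEquiv.contDiff
  exact
    { smT := hs
      iso := hti O hs hc
      sma := hs.contDiffOn
      zero := O.map_zero
      ne := fun k hk => by simpa using hk
      hom := fun t k _ => O.map_smul t k
      ll := fun k k' => by
        unfold lD
        rw [O.norm_map, O.norm_map, qgr_nn O hO]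
      el := fun y k => by
        unfold el
        rw [qgr_up, O.norm_map, qgr_nn O hO]
      cc := hc
      det := fun k _ => by
        have h1 : fderiv ℝ O k = (O.toContinuousLinearEquiv : E n →L[ℝ] E n) :=
          O.toContinuousLinearEquiv.fderiv
        rw [h1, qgr_det, O.norm_map, one_mul] }

theorem qgr : SGR := fun _ _ _ _ _ _ hti =>
  { comp := fun _ _ _ _ _ _ _ _ hT hS =>
      { fw := qgr_comp hT.fw hS.fw
        bw := qgr_comp hS.bw hT.bw
        tl := fun y => by simp only [Function.comp_apply, hT.tl, hS.tl]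
        tr := fun y => by simp only [Function.comp_apply, hT.tr, hS.tr]
        al := fun y => by simp only [Function.comp_apply, hT.al, hS.al]
        ar := fun y => by simp only [Function.comp_apply, hT.ar, hS.ar] }
    orth := fun O hO =>
      { fw := qgr_orth hti O hO
        bw := qgr_orth hti O.symm fun y u => by
          rw [← hO (O.symm y) (O.symm u), O.apply_symm_apply, O.apply_symm_apply]
        tl := O.symm_apply_apply
        tr := O.apply_symm_apply
        al := O.symm_apply_apply
        ar := O.apply_symm_apply } }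

end Pool.Agent.MP_3ee8cb_gt.CR
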