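import Pool.Agent.MP_3ee8cb_gt.RS.SpecD

/-! Row HO: the homogeneity identity. -/

namespace Pool.Agent.MP_3ee8cb_gt.CR

open Set MeasureTheory

variable {n : ℕ}

theorem qho_int (d : ℕ) (f : E n → ℝ) : ∫ k, f k ∂nd n d = ∫ k, ‖k‖ ^ d / ‖k‖ ^ 2 * f k := by
  have hm : Measurable fun k : E n => Real.toNNReal (‖k‖ ^ d / ‖k‖ ^ 2) :=
    measurable_real_toNNReal.comp ((measurable_norm.pow_const d).div (measurable_norm.pow_const 2))
  have h : nd n d = volume.withDensity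
      fun k : E n => ((Real.toNNReal (‖k‖ ^ d / ‖k‖ ^ 2) : NNReal) : ENNReal) := rfl
  rw [h, integral_withDensity_eq_integral_smul hm]
  refine integral_congr_ae (Filter.Eventually.of_forall fun k => ?_)
  simp only [NNReal.smul_def, smul_eq_mul]
  rw [Real.coe_toNNReal _ (by positivity)]

theorem qho_intg {d : ℕ} {β : E n → E n → ℝ} (H : YbP d β) {b F : E n → ℝ} {c C : ℝ} (j : ℕ)
    (hc : 0 < c) (hb : ContinuousOn b {k | k ≠ 0}) (hF : ContinuousOn F {k | k ≠ 0})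
    (h1 : ∀ k, k ≠ 0 → c * ‖k‖ ≤ b k) (h2 : ∀ k, k ≠ 0 → |F k| ≤ C * ‖k‖ ^ (j + 2)) :
    Integrable (fun k => Real.exp (-b k) * F k) (nd n d) := by
  refine ((H.dom c j hc).const_mul C).mono' ?_ ?_
  · have h3 : ContinuousOn (fun k => Real.exp (-b k) * F k) {k | k ≠ 0} :=
      (Real.continuous_exp.comp_continuousOn hb.neg).mul hF
    have h4 := h3.aestronglyMeasurable (μ := nd n d) isOpen_ne.measurableSet
    rwa [Measure.restrict_eq_self_of_ae_mem (s := {k | k ≠ 0}) H.ne] at h4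
  · filter_upwards [H.ne] with k hk
    rw [Real.norm_eq_abs, abs_mul, abs_of_pos (Real.exp_pos _), ← mul_assoc, mul_comm]
    exact mul_le_mul (h2 k hk) (Real.exp_le_exp.2 (neg_le_neg (h1 k hk))) (Real.exp_pos _).le
      ((abs_nonneg _).trans (h2 k hk))

theorem qho_bound {f : E n → ℝ} (hf : ContinuousOn f {k | k ≠ 0})
    (hh : ∀ k (t : ℝ), k ≠ 0 → 0 < t → f (t • k) = t ^ 2 * f k) :
    ∃ C : ℝ, ∀ k, k ≠ 0 → |f k| ≤ C * ‖k‖ ^ 2 := by
  obtain ⟨C, hC⟩ := (isCompact_sphere (0 : E n) 1).exists_bound_of_continuousOn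
    (hf.mono fun k hk h0 => by simp [h0] at hk)
  refine ⟨C, fun k hk => ?_⟩
  have h0 : 0 < ‖k‖ := norm_pos_iff.2 hk
  have h1 : ‖k‖⁻¹ • k ∈ Metric.sphere (0 : E n) 1 := by
    simp [norm_smul, h0.ne']
  have h2 := hh (‖k‖⁻¹ • k) ‖k‖ (smul_ne_zero (inv_ne_zero h0.ne') hk) h0
  rw [smul_smul, mul_inv_cancel₀ h0.ne', one_smul] at h2
  rw [h2, abs_mul, abs_of_pos (by positivity), mul_comm]
  exact mul_le_mul_of_nonneg_right (hC _ h1) (by positivity)

theorem qho_lim (I0 I1 : ℝ) (m : ℕ)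
    (h : ∀ t : ℝ, 0 < t → I0 + (1 - t⁻¹) * I1 ≤ t ^ m * I0) : I1 = m * I0 := by
  have h1 : HasDerivAt (fun t : ℝ => t ^ m * I0 - (I0 + (1 - t⁻¹) * I1))
      (m * 1 ^ (m - 1) * I0 - (- -((1 : ℝ) ^ 2)⁻¹) * I1) 1 :=
    ((hasDerivAt_pow m 1).mul_const I0).sub
      ((((hasDerivAt_inv one_ne_zero).const_sub 1).mul_const I1).const_add I0)
  have h2 : IsLocalMin (fun t : ℝ => t ^ m * I0 - (I0 + (1 - t⁻¹) * I1)) 1 := by
    filter_upwards [Ioi_mem_nhds (zero_lt_one' ℝ)] with t ht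
    have := h t ht
    simp only [one_pow, inv_one, sub_self]
    linarith
  have h3 := h2.hasDerivAt_eq_zero h1
  simp only [one_pow, inv_one, neg_neg] at h3
  linarith

section

variable {g : Met n} {d : ℕ} {β : E n → E n → ℝ} {v : E n → E n → E n}

theorem qho_cb (W : WD g β v) (x : E n) : ContinuousOn (β x) {k | k ≠ 0} :=
  W.cb.comp (f := fun k => (x, k)) (by fun_prop) fun _ hk => hk

theorem qho_both (W : WD g β v) (H : YbP d β) (x : E n) {f : E n → ℝ}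
    (hf : ContinuousOn f {k | k ≠ 0})
    (hh : ∀ k (t : ℝ), k ≠ 0 → 0 < t → f (t • k) = t ^ 2 * f k) :
    (∀ s : ℝ, 0 < s → Integrable (fun k => Real.exp (-(s * β x k)) * f k) (nd n d)) ∧
    Integrable (fun k => β x k * Real.exp (-β x k) * f k) (nd n d) := by
  obtain ⟨C, hC⟩ := qho_bound hf hh
  obtain ⟨c, hc, hl⟩ := H.low ‖x‖
  refine ⟨fun s hs => qho_intg H 0 (mul_pos hs hc) (continuousOn_const.mul (qho_cb W x)) hf
    (fun k hk => ?_) hC, ?_⟩
  · rw [mul_assoc]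
    exact mul_le_mul_of_nonneg_left (hl x k le_rfl hk).1 hs.le
  · refine (qho_intg H (C := c⁻¹ * C) 1 hc (qho_cb W x) ((qho_cb W x).mul hf)
      (fun k hk => (hl x k le_rfl hk).1) fun k hk => ?_).congr
      (Filter.Eventually.of_forall fun k => ?_)
    · rw [Pi.mul_apply, abs_mul, abs_of_pos (W.pos x k hk)]
      refine (mul_le_mul (hl x k le_rfl hk).2 (hC k hk) (abs_nonneg _) (by positivity)).trans
        (le_of_eq ?_)
      ring
    · simp only [Pi.mul_apply]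
      ring

theorem qho_pos (W : WD g β v) (H : YbP d β) (x : E n) {f : E n → ℝ}
    (hf : ContinuousOn f {k | k ≠ 0})
    (hh : ∀ k (t : ℝ), k ≠ 0 → 0 < t → f (t • k) = t ^ 2 * f k) (h0 : ∀ k, k ≠ 0 → 0 ≤ f k) :
    ∫ k, β x k * Real.exp (-β x k) * f k ∂nd n d =
      (n + d) * ∫ k, Real.exp (-β x k) * f k ∂nd n d := by
  obtain ⟨g0, g1⟩ := qho_both W H x hf hh
  have g2 : Integrable (fun k => Real.exp (-β x k) * f k) (nd n d) := by
    simpa using g0 1 one_pos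
  rw [← Nat.cast_add]
  refine qho_lim _ _ (n + d) fun t ht => ?_
  have hs : 0 < t⁻¹ := inv_pos.2 ht
  have hsc : t ^ (n + d) * ∫ k, Real.exp (-β x k) * f k ∂nd n d =
      ∫ k, Real.exp (-(t⁻¹ * β x k)) * f k ∂nd n d := by
    rw [qho_int, qho_int]
    set G : E n → ℝ := fun k => ‖k‖ ^ d / ‖k‖ ^ 2 * (Real.exp (-β x k) * f k) with hG
    have h1 : ∫ k, G (t⁻¹ • k) = t ^ n * ∫ k, G k := by
      rw [Measure.integral_comp_smul]
      simp [abs_of_pos (pow_pos ht n)]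
    rw [pow_add, mul_comm (t ^ n), mul_assoc, ← h1, ← integral_const_mul]
    refine integral_congr_ae (Filter.Eventually.of_forall fun k => ?_)
    by_cases hk : k = 0
    · simp [hG, hk]
    have hn : 0 < ‖k‖ := norm_pos_iff.2 hk
    simp only [hG]
    rw [(W.hom x k t⁻¹ hk hs).1, hh k t⁻¹ hk hs, norm_smul, Real.norm_eq_abs, abs_of_pos hs,
      mul_pow, mul_pow, inv_pow, inv_pow]
    field_simp
  rw [hsc, ← integral_const_mul, ← integral_add g2 (g1.const_mul _)]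
  refine integral_mono_ae (g2.add (g1.const_mul _)) (g0 _ hs) ?_
  filter_upwards [H.ne] with k hk
  have e3 : Real.exp (-(t⁻¹ * β x k)) = Real.exp (-β x k) * Real.exp ((1 - t⁻¹) * β x k) := by
    rw [← Real.exp_add]; congr 1; ring
  have e4 := mul_le_mul_of_nonneg_left (Real.add_one_le_exp ((1 - t⁻¹) * β x k))
    (mul_nonneg (Real.exp_pos (-β x k)).le (h0 k hk))
  rw [e3]
  refine le_trans (le_of_eq ?_) (e4.trans (le_of_eq ?_)) <;> ring

end

theorem qho : SHO := by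
  intro n g h D d β v _ _ _ W H x f hf hh
  obtain ⟨C, hC⟩ := qho_bound hf hh
  have hf2 : ContinuousOn (fun k => C * ‖k‖ ^ 2 - f k) {k : E n | k ≠ 0} :=
    ContinuousOn.sub (by fun_prop) hf
  have hh2 : ∀ k (t : ℝ), k ≠ 0 → 0 < t →
      C * ‖t • k‖ ^ 2 - f (t • k) = t ^ 2 * (C * ‖k‖ ^ 2 - f k) := by
    intro k t hk ht
    rw [hh k t hk ht, norm_smul, Real.norm_eq_abs, abs_of_pos ht]
    ring
  have hf1 : ContinuousOn (fun k : E n => C * ‖k‖ ^ 2) {k : E n | k ≠ 0} := by fun_prop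
  have hh1 : ∀ (k : E n) (t : ℝ), k ≠ 0 → 0 < t → C * ‖t • k‖ ^ 2 = t ^ 2 * (C * ‖k‖ ^ 2) := by
    intro k t _ ht
    rw [norm_smul, Real.norm_eq_abs, abs_of_pos ht]
    ring
  have e1 := qho_pos W H x hf1 hh1 fun k hk => (abs_nonneg _).trans (hC k hk)
  have e2 := qho_pos W H x hf2 hh2 fun k hk => sub_nonneg.2 ((le_abs_self _).trans (hC k hk))
  obtain ⟨a0, a1⟩ := qho_both W H x hf hh
  obtain ⟨b0, b1⟩ := qho_both W H x hf1 hh1
  have a2 : Integrable (fun k => Real.exp (-β x k) * f k) (nd n d) := by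
    simpa using a0 1 one_pos
  have b2 : Integrable (fun k => Real.exp (-β x k) * (C * ‖k‖ ^ 2)) (nd n d) := by
    simpa using b0 1 one_pos
  simp only [mul_sub] at e2
  rw [integral_sub b1 a1, integral_sub b2 a2] at e2
  linarith

end Pool.Agent.MP_3ee8cb_gt.CR
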