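import Pool.Agent.MP_3ee8cb_gt.RS.SpecC

/-! The model metric is Riemannian. -/

namespace Pool.Agent.MP_3ee8cb_gt.CR

open scoped RealInnerProductSpace

theorem qhrs : SHRS := by
  intro n D d h sd al
  refine ⟨?_, fun x u v => ?_, fun y v hv => ?_⟩
  · refine contDiff_clm_apply_iff.2 fun u => contDiff_clm_apply_iff.2 fun v => ?_
    have e : (fun y => h y u v) = fun y : E n => 1 * (⟪u, v⟫ + ⟪D y y u, v⟫ -
        (1 + (1 + ‖y‖ ^ 2)⁻¹) * (⟪y, u⟫ * ⟪y, v⟫)) := funext fun y => sd.sym y u v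
    rw [e]
    have h1 : ContDiff ℝ 2 fun y : E n => D y y u :=
      (D.contDiff.clm_apply contDiff_id).clm_apply contDiff_const
    have h2 : ContDiff ℝ 2 fun y : E n => (1 + ‖y‖ ^ 2)⁻¹ :=
      (contDiff_const.add (contDiff_norm_sq ℝ)).inv fun y => by positivity
    exact contDiff_const.mul ((contDiff_const.add (h1.inner ℝ contDiff_const)).sub
      ((contDiff_const.add h2).mul
        ((contDiff_id.inner ℝ contDiff_const).mul (contDiff_id.inner ℝ contDiff_const))))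
  · rw [sd.sym, sd.sym, al.ops x x u v, real_inner_comm u v, real_inner_comm u (D x x v)]
    ring
  · rw [sd.sym, one_mul, real_inner_self_eq_norm_sq]
    have h1 : ⟪y, v⟫ ^ 2 ≤ ⟪D y y v, v⟫ := al.rlo y v
    have h2 : ⟪y, v⟫ ^ 2 ≤ ‖y‖ ^ 2 * ‖v‖ ^ 2 := h1.trans (al.rup y v)
    have h3 : 0 < ‖v‖ ^ 2 := pow_pos (norm_pos_iff.2 hv) 2
    have h4 : 0 < 1 + ‖y‖ ^ 2 := by positivity
    have h5 : (1 + ‖y‖ ^ 2)⁻¹ * ⟪y, v⟫ ^ 2 < ‖v‖ ^ 2 := by
      rw [inv_mul_lt_iff₀ h4]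
      nlinarith
    nlinarith

end Pool.Agent.MP_3ee8cb_gt.CR
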