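import Pool.Agent.MP_3ee8cb_gt.RS.SpecD

/-! The implicit function theorem for the barycentre. -/

namespace Pool.Agent.MP_3ee8cb_gt.CR

open scoped RealInnerProductSpace

variable {n : ℕ}

/-- Half of the gradient of `pr z`. -/
noncomputable def qif_G (z : J3 n) (y : E n) : E n :=
  z.1 • y - √(1 + ‖y‖ ^ 2) • z.2.1 - (⟪z.2.1, y⟫ / √(1 + ‖y‖ ^ 2)) • y + z.2.2 y

theorem qif_grad (z : J3 n) (hz : Ps z) (y : E n) (u : E n) :
    fderiv ℝ (pr z) y u = 2 * ⟪qif_G z y, u⟫ := by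
  have hpos : (0 : ℝ) < 1 + ‖y‖ ^ 2 := by positivity
  have hs : (0 : ℝ) < √(1 + ‖y‖ ^ 2) := Real.sqrt_pos.2 hpos
  have h1 : HasFDerivAt (fun y : E n => 1 + ‖y‖ ^ 2) (2 • innerSL ℝ y) y :=
    (hasStrictFDerivAt_norm_sq y).hasFDerivAt.const_add 1
  have h2 := h1.sqrt hpos.ne'
  have h3 : HasFDerivAt (fun y : E n => ⟪z.2.1, y⟫) (innerSL ℝ z.2.1) y :=
    (innerSL ℝ z.2.1).hasFDerivAt
  have h4 := (z.2.2.hasFDerivAt (x := y)).inner ℝ (hasFDerivAt_id y)
  have h5 := ((h1.const_mul z.1).sub ((h2.const_mul 2).mul h3)).add h4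
  have h6 : HasFDerivAt (pr z) _ y := h5
  rw [h6.fderiv]
  have h7 : ⟪z.2.2 u, y⟫ = ⟪z.2.2 y, u⟫ := by rw [hz.sym, real_inner_comm]
  simp only [qif_G, ContinuousLinearMap.add_apply, ContinuousLinearMap.sub_apply,
    ContinuousLinearMap.smul_apply, innerSL_apply_apply, smul_eq_mul, nsmul_eq_mul,
    ContinuousLinearMap.comp_apply, ContinuousLinearMap.prod_apply, fderivInnerCLM_apply,
    ContinuousLinearMap.id_apply, id, inner_add_left, inner_sub_left, real_inner_smul_left, h7]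
  push_cast
  field_simp
  ring

theorem qif_cd (z : E n → J3 n) (hz : ContDiff ℝ 1 z) :
    ContDiff ℝ 1 fun q : E n × E n => qif_G (z q.1) q.2 := by
  have h0 : ContDiff ℝ 1 fun q : E n × E n => z q.1 := hz.comp contDiff_fst
  have h1 : ContDiff ℝ 1 fun q : E n × E n => √(1 + ‖q.2‖ ^ 2) :=
    (contDiff_const.add (contDiff_snd.norm_sq ℝ)).sqrt fun q => by positivity
  have h2 : ContDiff ℝ 1 fun q : E n × E n => ⟪(z q.1).2.1, q.2⟫ / √(1 + ‖q.2‖ ^ 2) :=
    (h0.snd.fst.inner ℝ contDiff_snd).div h1 fun q => by positivity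
  exact (((h0.fst.smul contDiff_snd).sub (h1.smul h0.snd.fst)).sub (h2.smul contDiff_snd)).add
    (h0.snd.snd.clm_apply contDiff_snd)

theorem qif_inv (z : J3 n) (hz : Ps z) :
    (z.1 • ContinuousLinearMap.id ℝ (E n) + z.2.2).IsInvertible := by
  set A := z.1 • ContinuousLinearMap.id ℝ (E n) + z.2.2 with hA
  have hinj : Function.Injective (A : E n →ₗ[ℝ] E n) := by
    refine (injective_iff_map_eq_zero _).2 fun a ha => ?_
    have h1 : z.1 • a + z.2.2 a = 0 := ha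
    have h2 : z.1 * ‖a‖ ^ 2 + ⟪z.2.2 a, a⟫ = 0 := by
      rw [← real_inner_self_eq_norm_sq, ← real_inner_smul_left, ← inner_add_left, h1,
        inner_zero_left]
    have h3 := hz.psd a
    have h4 := hz.pos
    have h5 : ‖a‖ ^ 2 ≤ 0 := by nlinarith
    exact norm_eq_zero.1 (pow_eq_zero_iff two_ne_zero |>.1 (le_antisymm h5 (sq_nonneg _)))
  exact ⟨(LinearEquiv.ofInjectiveEndo _ hinj).toContinuousLinearEquiv, rfl⟩

theorem qif : SIF := by
  intro n z x₀ hz hP h0
  set f : E n × E n → E n := fun q => qif_G (z q.1) q.2 with hf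
  have hc : ContDiffAt ℝ 1 f (x₀, 0) := (qif_cd z hz).contDiffAt
  have hF : HasFDerivAt f (fderiv ℝ f (x₀, 0)) (x₀, 0) :=
    (hc.differentiableAt one_ne_zero).hasFDerivAt
  have hA : fderiv ℝ f (x₀, 0) ∘L ContinuousLinearMap.inr ℝ (E n) (E n) =
      (z x₀).1 • ContinuousLinearMap.id ℝ (E n) + (z x₀).2.2 := by
    have h1 := hF.comp (0 : E n) (hasFDerivAt_prodMk_right (𝕜 := ℝ) x₀ (0 : E n))
    have h2 : f ∘ (fun y : E n => (x₀, y)) =
        ⇑((z x₀).1 • ContinuousLinearMap.id ℝ (E n) + (z x₀).2.2) := by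
      funext y
      simp [hf, qif_G, h0]
    rw [h2] at h1
    exact h1.unique (ContinuousLinearMap.hasFDerivAt _)
  have hB : ∀ u, (fderiv ℝ f (x₀, 0) ∘L ContinuousLinearMap.inl ℝ (E n) (E n)) u =
      -(fderiv ℝ z x₀ u).2.1 := by
    have h1 := hF.comp x₀ (hasFDerivAt_prodMk_left (𝕜 := ℝ) x₀ (0 : E n))
    have h2 : f ∘ (fun x : E n => (x, (0 : E n))) = fun x => -(z x).2.1 := by
      funext x
      simp [hf, qif_G]
    rw [h2] at h1
    have h3 := ((hz.differentiable one_ne_zero x₀).hasFDerivAt.snd.fst).neg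
    intro u
    rw [h1.unique h3]
    rfl
  have hI : (fderiv ℝ f (x₀, 0) ∘L ContinuousLinearMap.inr ℝ (E n) (E n)).IsInvertible :=
    hA ▸ qif_inv (z x₀) (hP x₀)
  refine ⟨hc.implicitFunction one_ne_zero hI, hc.contDiffAt_implicitFunction one_ne_zero hI,
    hc.implicitFunction_apply_self one_ne_zero hI, ?_, fun u => ?_⟩
  · filter_upwards [hc.eventually_apply_implicitFunction one_ne_zero hI] with x hx
    have h1 : f (x₀, 0) = 0 := by simp [hf, qif_G, h0]
    rw [h1] at hx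
    ext u
    rw [qif_grad _ (hP x)]
    have h2 : qif_G (z x) (hc.implicitFunction one_ne_zero hI x) = 0 := hx
    rw [h2]
    simp
  · have h1 := (hc.hasStrictFDerivAt_implicitFunction one_ne_zero hI).hasFDerivAt.fderiv
    have h2 : fderiv ℝ (hc.implicitFunction one_ne_zero hI) x₀ u =
        (fderiv ℝ f (x₀, 0) ∘L ContinuousLinearMap.inr ℝ (E n) (E n)).inverse
          (fderiv ℝ z x₀ u).2.1 := by
      have h3 : fderiv ℝ (hc.implicitFunction one_ne_zero hI) x₀ = _ := h1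
      rw [h3, ContinuousLinearMap.neg_apply, ContinuousLinearMap.comp_apply, hB, map_neg, neg_neg]
    have h4 := hI.self_apply_inverse (fderiv ℝ z x₀ u).2.1
    rw [← h2, hA] at h4
    exact h4

end Pool.Agent.MP_3ee8cb_gt.CR
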