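import Pool.Agent.MP_3ee8cb_gt.RS.SpecD

/-! Clifford systems give Hopf structures. -/

namespace Pool.Agent.MP_3ee8cb_gt.CR

open scoped RealInnerProductSpace

theorem qini_mk {V U : Type} [NormedAddCommGroup V] [NormedSpace ℝ V] [FiniteDimensional ℝ V]
    [NormedAddCommGroup U] [NormedSpace ℝ U] (f : V →ₗ[ℝ] V →ₗ[ℝ] U) :
    ∃ D : V →L[ℝ] V →L[ℝ] U, ∀ a b, D a b = f a b :=
  ⟨LinearMap.toContinuousLinearMap
    ((LinearMap.toContinuousLinearMap (𝕜 := ℝ) (E := V) (F' := U)).toLinearMap ∘ₗ f),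
    fun _ _ => rfl⟩

theorem qini : SINI := by
  intro n d k I hn hs h1 h2 hk hq
  obtain ⟨D, hD0⟩ : ∃ D : Tri n, ∀ a b, D a b = (1 / 2 : ℝ) •
      (⟪a, b⟫ • ContinuousLinearMap.id ℝ (E n) + ∑ i, ⟪I i a, b⟫ • I i) :=
    qini_mk (LinearMap.mk₂ ℝ (fun a b : E n => (1 / 2 : ℝ) •
      (⟪a, b⟫ • ContinuousLinearMap.id ℝ (E n) + ∑ i, ⟪I i a, b⟫ • I i))
      (fun a a' b => by
        ext1 c
        simp [inner_add_left, add_smul, Finset.sum_add_distrib]
        module)
      (fun c a b => by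
        simp only [map_smul, real_inner_smul_left, mul_smul, ← Finset.smul_sum]; module)
      (fun a b b' => by
        ext1 c
        simp [inner_add_right, add_smul, Finset.sum_add_distrib]
        module)
      (fun c a b => by
        simp only [real_inner_smul_right, mul_smul, ← Finset.smul_sum]; module))
  have hD : ∀ a b c, D a b c = (1 / 2 : ℝ) • (⟪a, b⟫ • c + ∑ i, ⟪I i a, b⟫ • I i c) := by
    intro a b c
    simp [hD0]
  have hM : ∀ w : E n, ∑ i, ⟪I i w, w⟫ • I i w = ‖w‖ ^ 2 • w := by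
    intro w
    have e1 : ⟪∑ i, ⟪I i w, w⟫ • I i w, w⟫ = ‖w‖ ^ 4 := by
      rw [sum_inner, ← hq]
      exact Finset.sum_congr rfl fun i _ => by rw [real_inner_smul_left, sq]
    have e0 : ∀ i j, ⟪I i w, I j w⟫ = if i = j then ‖w‖ ^ 2 else 0 := fun i j => by
      split_ifs with h
      · rw [h, hs, h1, real_inner_self_eq_norm_sq]
      · have a1 := hs i w (I j w)
        have a2 := hs j w (I i w)
        rw [h2 i j w h, inner_neg_right, ← a2, real_inner_comm] at a1
        rw [real_inner_comm]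
        linarith
    have e2 : ‖∑ i, ⟪I i w, w⟫ • I i w‖ ^ 2 = ‖w‖ ^ 6 := by
      rw [← real_inner_self_eq_norm_sq, sum_inner]
      simp only [inner_sum, real_inner_smul_left, real_inner_smul_right, e0, mul_ite, mul_zero,
        Finset.sum_ite_eq, Finset.mem_univ, if_true]
      calc _ = (∑ i, ⟪I i w, w⟫ ^ 2) * ‖w‖ ^ 2 := by
            rw [Finset.sum_mul]; exact Finset.sum_congr rfl fun i _ => by ring
        _ = _ := by rw [hq]; ring
    rw [← sub_eq_zero, ← norm_eq_zero, ← pow_eq_zero_iff two_ne_zero, norm_sub_sq_real, e2,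
      real_inner_smul_right, e1, norm_smul, Real.norm_of_nonneg (sq_nonneg _)]
    ring
  have hsy : ∀ a b c e, ⟪D a b c, e⟫ = ⟪c, D a b e⟫ := fun a b c e => by
    simp only [hD, real_inner_smul_left, real_inner_smul_right, inner_add_left, inner_add_right,
      sum_inner, inner_sum, hs]
  have hself : ∀ w, D w w w = ‖w‖ ^ 2 • w := fun w => by
    rw [hD, hM, real_inner_self_eq_norm_sq]
    module
  have hI : ∀ w i, D w w (I i w) = ⟪I i w, w⟫ • w := fun w i => by
    have e1 : ∀ j, ⟪I j w, w⟫ • I j (I i w) = (if j = i then (2 * ⟪I j w, w⟫) • w else 0) -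
        I i (⟪I j w, w⟫ • I j w) := fun j => by
      split_ifs with h
      · rw [h, map_smul, h1]; module
      · rw [h2 j i w h, map_smul]; module
    rw [hD, Finset.sum_congr rfl fun j _ => e1 j, Finset.sum_sub_distrib, ← map_sum, hM,
      Finset.sum_ite_eq', if_pos (Finset.mem_univ _), map_smul, real_inner_self_eq_norm_sq]
    module
  have htr : ∀ i, LinearMap.trace ℝ (E n) (I i : E n →ₗ[ℝ] E n) = 0 := fun i => by
    have : Nontrivial (Fin k) := Fin.nontrivial_iff_two_le.2 hk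
    obtain ⟨j, hj⟩ := exists_ne i
    have e1 : (I i : E n →ₗ[ℝ] E n) =
        -((I j : E n →ₗ[ℝ] E n) * ((I i : E n →ₗ[ℝ] E n) * (I j : E n →ₗ[ℝ] E n))) := by
      ext1 u
      simp [h2 j i _ hj, h1]
    have e2 : ((I i : E n →ₗ[ℝ] E n) * (I j : E n →ₗ[ℝ] E n)) * (I j : E n →ₗ[ℝ] E n) = I i := by
      ext1 u
      simp [h1]
    have e3 := congrArg (LinearMap.trace ℝ (E n)) e1
    rw [map_neg, LinearMap.trace_mul_comm, e2] at e3
    linarith
  refine ⟨D, ⟨fun a b => ?_, fun a b c e => ?_, hself, fun w p => ?_, fun w => ?_⟩,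
    fun y u => by rw [hD, real_inner_self_eq_norm_sq]⟩
  · ext1 c
    rw [hD, hD, real_inner_comm a b]
    simp only [hs _ a b, real_inner_comm (I _ b) a]
  · simp only [hD, real_inner_smul_left, inner_add_left, sum_inner]
    rw [mul_comm ⟪a, b⟫]
    simp only [mul_comm ⟪I _ a, b⟫]
  · ext1 c
    rw [hD w (D w w p) c, smul_apply, hD w w c, ← hsy, hself]
    simp only [← hsy, hI, real_inner_smul_left, real_inner_self_eq_norm_sq, smul_add,
      Finset.smul_sum, smul_smul]
    congr 1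
    · congr 1; ring
    · exact Finset.sum_congr rfl fun i _ => by congr 1; ring
  · have e1 : (D w w : E n →ₗ[ℝ] E n) = (1 / 2 : ℝ) • (‖w‖ ^ 2 • LinearMap.id +
        ∑ i, ⟪I i w, w⟫ • (I i : E n →ₗ[ℝ] E n)) := by
      ext1 c
      simp [hD]
    rw [e1]
    simp [htr, hn]
    ring

end Pool.Agent.MP_3ee8cb_gt.CR
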