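import Pool.Agent.MP_3ee8cb_gt.RS.SpecD

namespace Pool.Agent.MP_3ee8cb_gt.CR

open Set
open scoped RealInnerProductSpace

theorem qinj_one {n : ℕ} (f : E n →L[ℝ] E n) :
    ∃ T : Tri n, ∀ a b c, T a b c = ⟪f a, c⟫ • f b :=
  ⟨(ContinuousLinearMap.smulRightL ℝ (E n) (E n)).bilinearComp
    ((innerSL ℝ : E n →L[ℝ] E n →L[ℝ] ℝ).comp f) f, fun _ _ _ => rfl⟩

theorem qinj_sum {X U ι : Type} [NormedAddCommGroup X] [NormedSpace ℝ X] [NormedAddCommGroup U]
    [NormedSpace ℝ U] [Fintype ι] (T : ι → X →L[ℝ] X →L[ℝ] U) :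
    ∃ D : X →L[ℝ] X →L[ℝ] U, ∀ a b, D a b = (1 / 2 : ℝ) • ∑ i, (T i a b + T i b a) :=
  ⟨(1 / 2 : ℝ) • ∑ i, (T i + (T i).flip), fun a b => by simp⟩

theorem qinj_skew {ι : Type} [Fintype ι] (M : ι → ι → ℝ) (hM : ∀ f g, M f g + M g f = 0)
    (x y : ι → ℝ) : ∑ f, (x f * ∑ g, M f g * y g + (∑ g, M f g * x g) * y f) = 0 := by
  rw [Finset.sum_add_distrib]
  simp only [Finset.mul_sum, Finset.sum_mul]
  rw [Finset.sum_comm (f := fun f g => M f g * x g * y f), ← Finset.sum_add_distrib]
  refine Finset.sum_eq_zero fun f _ => ?_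
  rw [← Finset.sum_add_distrib]
  refine Finset.sum_eq_zero fun g _ => ?_
  linear_combination (x f * y g) * hM f g

theorem qinj_gen {n : ℕ} {ι : Type} [Fintype ι] [DecidableEq ι] (f : ι → E n →L[ℝ] E n) (o : ι)
    (h0 : ∀ a, f o a = a)
    (h1 : ∀ i a c b e, ⟪f i a, c⟫ * ⟪f i b, e⟫ = ⟪f i c, a⟫ * ⟪f i e, b⟫)
    (h2 : ∀ i j x y, ⟪f i x, f j y⟫ + ⟪f j x, f i y⟫ = if i = j then 2 * ⟪x, y⟫ else 0)
    (h3 : ∀ i j w, f i (f j w) ∈ Submodule.span ℝ (range fun l => f l w)) :
    ∃ D : Tri n, Hopf D (Fintype.card ι) ∧ ∀ y u, D y y u = ∑ i, ⟪f i y, u⟫ • f i y := by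
  choose T hT using fun i => qinj_one (f i)
  obtain ⟨D, hD⟩ : ∃ D : Tri n, ∀ a b c,
      D a b c = (1 / 2 : ℝ) • ∑ i, (⟪f i a, c⟫ • f i b + ⟪f i b, c⟫ • f i a) := by
    obtain ⟨D, hD⟩ := qinj_sum (U := E n →L[ℝ] E n) T
    exact ⟨D, fun a b c => by simp [hD, hT]⟩
  have hd : ∀ y u, D y y u = ∑ i, ⟪f i y, u⟫ • f i y := fun y u => by
    rw [hD, Finset.smul_sum]
    refine Finset.sum_congr rfl fun i _ => ?_
    module
  have ho : ∀ i j w, ⟪f i w, f j w⟫ = if i = j then ‖w‖ ^ 2 else 0 := fun i j w => by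
    have := h2 i j w w
    rw [real_inner_comm (f i w) (f j w), real_inner_self_eq_norm_sq] at this
    split_ifs at this ⊢ <;> linarith
  have hi : ∀ a b c e, ⟪D a b c, e⟫ =
      1 / 2 * ∑ i, (⟪f i a, c⟫ * ⟪f i b, e⟫ + ⟪f i b, c⟫ * ⟪f i a, e⟫) := fun a b c e => by
    simp only [hD, real_inner_smul_left, sum_inner, inner_add_left]
  have hx : ∀ w, ∀ v ∈ Submodule.span ℝ (range fun l => f l w), ∀ e,
      ‖w‖ ^ 2 * ⟪v, e⟫ = ∑ g, ⟪v, f g w⟫ * ⟪f g w, e⟫ := fun w v hv e => by
    induction hv using Submodule.span_induction with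
    | mem x hx =>
      obtain ⟨l, rfl⟩ := hx
      simp [ho]
    | zero => simp
    | add x y _ _ hx hy =>
      simp only [inner_add_left, mul_add, add_mul, Finset.sum_add_distrib, hx, hy]
    | smul c x _ hx =>
      simp only [real_inner_smul_left, mul_assoc, ← Finset.mul_sum, ← hx]
      ring
  have hz : ∀ w j, j ≠ o → D w (f j w) = 0 := fun w j hj => by
    by_cases hw : w = 0
    · simp [hw]
    ext1 c
    refine ext_inner_right ℝ fun e => ?_
    have hw' : ‖w‖ ^ 2 ≠ 0 := pow_ne_zero _ (norm_ne_zero_iff.2 hw)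
    have h4 : ⟪f j w, w⟫ = 0 := by
      have := ho j o w
      rwa [h0, if_neg hj] at this
    have h5 := qinj_skew (fun a b => ⟪f a (f j w), f b w⟫) (fun a b => by
      rw [h2, h4]; simp) (fun a => ⟪f a w, c⟫) fun a => ⟪f a w, e⟫
    simp only [← hx w _ (h3 _ j w)] at h5
    rw [hi, zero_apply, inner_zero_left]
    refine mul_eq_zero_of_right _ (mul_left_cancel₀ hw' ?_)
    rw [mul_zero, ← h5, Finset.mul_sum]
    exact Finset.sum_congr rfl fun i _ => by ring
  refine ⟨D, ⟨fun a b => ?_, fun a b c e => ?_, fun w => ?_, fun w p => ?_, fun w => ?_⟩, hd⟩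
  · ext1 c
    simp only [hD, add_comm]
  · rw [hi, hi]
    refine congrArg _ (Finset.sum_congr rfl fun i _ => ?_)
    rw [h1 i a c b e, h1 i b c a e]; ring
  · rw [hd, Finset.sum_eq_single o]
    · rw [h0, real_inner_self_eq_norm_sq]
    · intro j _ hj
      have := ho j o w
      rw [h0, if_neg hj] at this
      rw [this, zero_smul]
    · simp
  · rw [hd, map_sum, Finset.sum_eq_single o]
    · rw [h0, map_smul]
    · intro j _ hj
      rw [map_smul, hz w j hj]
      ext1
      simp
    · simp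
  · have e1 : (D w w : E n →ₗ[ℝ] E n) =
        ∑ i, (InnerProductSpace.rankOne ℝ (f i w) (f i w) : E n →ₗ[ℝ] E n) := by
      ext1 u
      simp [hd]
    rw [e1, map_sum]
    simp only [InnerProductSpace.trace_rankOne, ho, if_true]
    simp

theorem qinj : SINJ := by
  intro n k J h1 h2 h3
  have h4 : ∀ i u v, ⟪u, J i v⟫ = -⟪J i u, v⟫ := fun i u v => by rw [h1, neg_neg]
  obtain ⟨D, hD, hd⟩ := qinj_gen (ι := Option (Fin k))
    (fun o => o.elim (ContinuousLinearMap.id ℝ (E n)) J) none (fun _ => rfl)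
    (fun i a c b e => by
      cases i with
      | none => simp [real_inner_comm]
      | some i =>
        simp only [Option.elim]
        rw [h1 i a c, h1 i b e, real_inner_comm, real_inner_comm (J i e)]; ring)
    (fun i j x y => by
      cases i with
      | none =>
        cases j with
        | none => simp [two_mul]
        | some j => simp [h1]
      | some i =>
        cases j with
        | none => simp [h1]
        | some j =>
          simp only [Option.elim, Option.some.injEq]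
          rw [h1 i, h1 j]
          split_ifs with h
          · rw [h, h2, inner_neg_right]; ring
          · rw [(h3 i j y h).1, inner_neg_right]; ring)
    (fun i j w => by
      cases i with
      | none => exact Submodule.subset_span ⟨j, rfl⟩
      | some i =>
        cases j with
        | none => exact Submodule.subset_span ⟨some i, rfl⟩
        | some j =>
          by_cases h : i = j
          · subst h
            change J i (J i w) ∈ _
            rw [h2]
            exact Submodule.neg_mem _ (Submodule.subset_span ⟨none, rfl⟩)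
          · refine Submodule.span_mono ?_ (h3 i j w h).2
            rintro _ ⟨l, rfl⟩
            exact ⟨some l, rfl⟩)
  refine ⟨D, by simpa using hD, fun y u => ?_⟩
  rw [hd, Fintype.sum_option]
  rfl

end Pool.Agent.MP_3ee8cb_gt.CR
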