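import Pool.Agent.MP_3ee8cb_gt.RS.SpecC

/-! Isometries map the radial geodesics to orbits of the geodesic flow. -/

namespace Pool.Agent.MP_3ee8cb_gt.CR

open Set MeasureTheory
open scoped RealInnerProductSpace

variable {n : ℕ}

theorem qisf_le {g : Met n} (hB : DBP g) (hL : LenP g) {T : E n → E n} (hs : ContDiff ℝ 1 T)
    (hi : ∀ y u v, g (T y) (fderiv ℝ T y u) (fderiv ℝ T y v) = g y u v) (x y : E n) :
    dd g (T x) (T y) ≤ dd g x y := by
  have hd : Differentiable ℝ T := hs.differentiable (by norm_num)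
  have hc : Continuous (fderiv ℝ T) := hs.continuous_fderiv (by norm_num)
  have h0 : ∀ a b, dd g (T a) (T b) ≤ seg g a b := fun a b => by
    have hl : ∀ t : ℝ, HasDerivAt (fun t : ℝ => a + t • (b - a)) (b - a) t := fun t => by
      simpa using ((hasDerivAt_id t).smul_const (b - a)).const_add a
    have h := hL.2 (fun t => T (a + t • (b - a))) (fun t => fderiv ℝ T (a + t • (b - a)) (b - a))
      0 1 zero_le_one (fun t _ => (hd (a + t • (b - a))).hasFDerivAt.comp_hasDerivAt t (hl t))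
      ((hc.comp (by fun_prop)).clm_apply continuous_const).continuousOn
    simp only [zero_smul, add_zero, one_smul, add_sub_cancel, hi] at h
    exact h
  have h := hB.test (fun w => dd g (T x) (T w)) (fun a b => by
    have h1 := hB.tri (T x) (T a) (T b)
    have h2 := h0 a b
    linarith) x y
  simpa [hB.refl] using h

theorem qisf_zero {D : Tri n} {h : Met n} (hs : IsSym 1 D h) (u : E n) : h 0 u u = ‖u‖ ^ 2 := by
  rw [hs]
  simp

section

variable {D : Tri n} {h : Met n} {Λ : Type} [Group Λ] [MulAction Λ (E n)] {Ψ : ℝ → UT h → UT h}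

theorem qisf_rad (hs : IsSym 1 D h) (r : RP h Λ Ψ) (hR : RadP h Ψ) {θ : E n} (hθ : ‖θ‖ = 1)
    {L : ℝ} (hL : 0 ≤ L) : dd h 0 (Real.sinh L • θ) = L := by
  obtain ⟨p, h1, h2⟩ := r.hr 0 (Real.sinh L • θ)
  have h3 : ‖p.1.2‖ = 1 := by
    have h4 := p.2
    rw [h1, qisf_zero hs] at h4
    exact (pow_eq_one_iff_of_nonneg (norm_nonneg _) two_ne_zero).1 h4
  rw [hR p h1] at h2
  have h5 := congrArg norm h2
  rw [norm_smul, norm_smul, h3, hθ, mul_one, mul_one,
    Real.norm_of_nonneg (Real.sinh_nonneg_iff.2 (r.db.nonneg _ _)),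
    Real.norm_of_nonneg (Real.sinh_nonneg_iff.2 hL)] at h5
  exact Real.sinh_injective h5

theorem qisf_min (hs : IsSym 1 D h) (r : RP h Λ Ψ) (hR : RadP h Ψ) {θ : E n} (hθ : ‖θ‖ = 1)
    {s t : ℝ} (h0 : 0 ≤ s) (h1 : 0 ≤ t) : dd h (Real.sinh s • θ) (Real.sinh t • θ) = |s - t| := by
  have h2 := r.fl.lip ⟨(0, θ), by rw [qisf_zero hs, hθ, one_pow]⟩ s t
  rw [hR _ rfl, hR _ rfl] at h2
  refine le_antisymm h2 (abs_le.2 ⟨?_, ?_⟩)
  · have h3 := r.db.tri 0 (Real.sinh s • θ) (Real.sinh t • θ)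
    rw [qisf_rad hs r hR hθ h0, qisf_rad hs r hR hθ h1] at h3
    linarith
  · have h3 := r.db.tri 0 (Real.sinh t • θ) (Real.sinh s • θ)
    rw [qisf_rad hs r hR hθ h0, qisf_rad hs r hR hθ h1, r.db.symm] at h3
    linarith

theorem qisf_pos (hs : IsSym 1 D h) (r : RP h Λ Ψ) (hD : DbrP h) (hR : RadP h Ψ) {T : E n → E n}
    (hT : ContDiff ℝ 1 T) (hd : ∀ x y, dd h (T x) (T y) = dd h x y) (q : UT h) {θ : E n}
    (hθ : ‖θ‖ = 1) (hq : q.1 = (T 0, fderiv ℝ T 0 θ)) {t : ℝ} (ht : 0 ≤ t) :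
    (Ψ t q).1 = (T (Real.sinh t • θ), fderiv ℝ T (Real.sinh t • θ) (Real.cosh t • θ)) := by
  have hL : (0 : ℝ) < t + 1 := by linarith
  obtain ⟨σ', h1, -⟩ := hD (fun s => T (Real.sinh s • θ)) (t + 1) hL fun s hs' u hu => by
    rw [hd, qisf_min hs r hR hθ hs'.1 hu.1]
  have h2 : ∀ s ∈ Icc 0 (t + 1), σ' s = fderiv ℝ T (Real.sinh s • θ) (Real.cosh s • θ) :=
    fun s hs' => (uniqueDiffOn_Icc hL s hs').eq_deriv _ (h1 s hs').1
      (((hT.differentiable (by norm_num)) _).hasFDerivAt.comp_hasDerivAt s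
        ((Real.hasDerivAt_sinh s).smul_const θ)).hasDerivWithinAt
  have h3 := r.uni (fun s => (Ψ s q).1.1) (fun s => (Ψ s q).1.2) _ σ' 0 (t + 1)
    (fun s _ => ⟨(r.flow.vel q s).hasDerivWithinAt, fun w => (r.flow.geo q s w).hasDerivWithinAt⟩)
    h1 (by simp [r.flow.zero, hq]) (by simp [r.flow.zero, hq, h2 0 ⟨le_rfl, hL.le⟩])
    t ⟨ht, by linarith⟩
  exact Prod.ext h3.1 (h3.2.trans (h2 t ⟨ht, by linarith⟩))

end

theorem qisf : SISF := by
  intro n D d h S Λ _ _ Ψ r hL hD hR T T' hT hT' tl _ iT iT' q θ hθ hq t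
  have hd : ∀ x y, dd h (T x) (T y) = dd h x y := fun x y =>
    le_antisymm (qisf_le r.db hL hT iT x y) (by
      have h1 := qisf_le r.db hL hT' iT' (T x) (T y)
      rwa [tl, tl] at h1)
  rcases le_total 0 t with ht | ht
  · exact qisf_pos S.sym r hD hR hT hd q hθ hq ht
  have h1 := qisf_pos S.sym r hD hR hT hd (ng q) (θ := -θ) (by rw [norm_neg, hθ])
    (by simp [ng, hq]) (neg_nonneg.2 ht)
  rw [r.fl.rev, neg_neg, Real.sinh_neg, Real.cosh_neg, neg_smul_neg, smul_neg, map_neg] at h1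
  have h2 := Prod.ext_iff.1 h1
  exact Prod.ext h2.1 (neg_injective h2.2)

end Pool.Agent.MP_3ee8cb_gt.CR
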