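import Pool.Agent.MP_3ee8cb_gt.RS.SpecC

/-! Deck transformations of the model space are symmetries. -/

namespace Pool.Agent.MP_3ee8cb_gt.CR

open scoped RealInnerProductSpace

variable {n : ℕ}

theorem qiso_comp {h : Met n} {T S : E n → E n} (hT : ContDiff ℝ 1 T) (hS : ContDiff ℝ 1 S)
    (iT : ∀ y u v, h (T y) (fderiv ℝ T y u) (fderiv ℝ T y v) = h y u v)
    (iS : ∀ y u v, h (S y) (fderiv ℝ S y u) (fderiv ℝ S y v) = h y u v) (y u v : E n) :
    h ((T ∘ S) y) (fderiv ℝ (T ∘ S) y u) (fderiv ℝ (T ∘ S) y v) = h y u v := by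
  rw [fderiv_comp y (hT.differentiable one_ne_zero _) (hS.differentiable one_ne_zero _)]
  exact (iT _ _ _).trans (iS y u v)

theorem qiso_lin {D : Tri n} {h : Met n} {Ψ : ℝ → UT h → UT h} (hs : IsSym 1 D h)
    (rad : RadP h Ψ) (isf : IsfP h Ψ) {S S' : E n → E n} (hS : ContDiff ℝ 1 S)
    (hS' : ContDiff ℝ 1 S') (l : ∀ y, S' (S y) = y) (r : ∀ y, S (S' y) = y)
    (iS : ∀ y u v, h (S y) (fderiv ℝ S y u) (fderiv ℝ S y v) = h y u v)
    (iS' : ∀ y u v, h (S' y) (fderiv ℝ S' y u) (fderiv ℝ S' y v) = h y u v) (h0 : S 0 = 0) :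
    ∃ O : E n ≃ₗᵢ[ℝ] E n, (∀ y, O y = S y) ∧ ∀ y u, RR D (O y) (O u) = RR D y u := by
  have z : ∀ u v, h 0 u v = ⟪u, v⟫ := fun u v => by simp [hs 0 u v]
  obtain ⟨L, hL⟩ : ∃ L, L = fderiv ℝ S 0 := ⟨_, rfl⟩
  have i : ∀ u v, ⟪L u, L v⟫ = ⟪u, v⟫ := fun u v => by
    have := iS 0 u v
    rwa [h0, z, z, ← hL] at this
  have e : S = L := funext fun y => by
    by_cases hy : y = 0
    · rw [hy, h0, map_zero]
    have n0 := norm_ne_zero_iff.2 hy
    have n1 : ‖‖y‖⁻¹ • y‖ = 1 := by rw [norm_smul, norm_inv, norm_norm, inv_mul_cancel₀ n0]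
    let q : UT h := ⟨(0, L (‖y‖⁻¹ • y)), by
      change h 0 (L _) (L _) = 1
      rw [z, i, real_inner_self_eq_norm_sq, n1, one_pow]⟩
    have a := congrArg Prod.fst ((isf S S' hS hS' l r iS iS' q _ n1 (by rw [h0, ← hL])
      (Real.arsinh ‖y‖)).symm.trans (rad q rfl _))
    change S _ = _ • L _ at a
    rwa [← map_smul, Real.sinh_arsinh, smul_inv_smul₀ n0] at a
  let O := ((L : E n →ₗ[ℝ] E n).isometryOfInner i).toLinearIsometryEquiv rfl
  have o : ∀ y, O y = L y := fun _ => rfl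
  refine ⟨O, fun y => by rw [o, e], fun y u => ?_⟩
  have a := iS y u u
  have b : ‖L y‖ = ‖y‖ := O.norm_map y
  rw [e, L.fderiv, hs, hs, i, i, b] at a
  rw [o, o, RR, RR]
  linarith

theorem qiso : SISO2 := by
  intro n D d h sd Λ _ _ Ψ bas tra gr dk rad isf
  have H : ∀ γ : Λ, ∃ b b', Sy2 D d h (fun y => γ • y) b (fun y => γ⁻¹ • y) b' := fun γ => by
    obtain ⟨T, a, T', a', s, h0⟩ := tra (γ • 0)
    obtain ⟨O, o1, o2⟩ := qiso_lin sd.sym rad isf (S := T' ∘ fun y => γ • y)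
      (S' := (fun y => γ⁻¹ • y) ∘ T) (s.bw.smT.comp (dk.smooth γ)) ((dk.smooth _).comp s.fw.smT)
      (fun y => by simp [s.tr]) (fun y => by simp [s.tl])
      (qiso_comp s.bw.smT (dk.smooth γ) s.bw.iso (dk.iso γ))
      (qiso_comp (dk.smooth _) s.fw.smT (dk.iso _) s.fw.iso) (by simp [← h0, s.tl])
    have := gr.comp _ _ _ _ _ _ _ _ s (gr.orth O o2)
    have e1 : T ∘ O = fun y => γ • y := funext fun y => by simp [o1, s.tr]
    have e2 : O.symm ∘ T' = fun y => γ⁻¹ • y := funext fun y =>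
      O.symm_apply_eq.2 (by simp [o1])
    exact ⟨_, _, e1 ▸ e2 ▸ this⟩
  choose a a' H using H
  have e : ∀ γ, a' γ = a γ⁻¹ := fun γ => funext fun k => bas.det _ _ fun y => by
    have h1 := (H γ).bw.el (γ • y) k
    have h2 := (H γ⁻¹).fw.el (γ • y) k
    simp only [inv_smul_smul] at h1 h2
    rw [h1, h2]
  refine ⟨a, ⟨fun γ => (H γ).fw.ne, fun γ t k ht _ => (H γ).fw.hom t k ht,
    fun γ k k' _ _ => (H γ).fw.ll k k', fun k _ => bas.det _ _ fun y => ?_,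
    fun γ δ k _ => bas.det _ _ fun y => ?_⟩, fun γ => e γ ▸ H γ⟩
  · simpa using (H 1).fw.el y k
  · have h1 := (H (γ * δ)).fw.el ((γ * δ)⁻¹ • y) k
    have h2 := (H γ).fw.el (γ⁻¹ • y) (a δ k)
    have h3 := (H δ).fw.el ((γ * δ)⁻¹ • y) k
    simp only [smul_inv_smul] at h1 h2
    simp only [mul_inv_rev, mul_smul, smul_inv_smul] at h1 h3
    rw [h1, h2, h3]

end Pool.Agent.MP_3ee8cb_gt.CR
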