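import Pool.Agent.MP_3ee8cb_gt.RS.SpecD

/-! The Jacobian bound for the barycentre map and its equality case. -/

namespace Pool.Agent.MP_3ee8cb_gt.CR

open Set MeasureTheory
open scoped RealInnerProductSpace

variable {n : ℕ}

theorem qjq_meas {G : Type} [TopologicalSpace G] [TopologicalSpace.PseudoMetrizableSpace G]
    {μ : Measure (E n)} (h : ∀ᵐ k ∂μ, k ≠ 0) {a : E n → G} (ha : ContinuousOn a {k | k ≠ 0}) :
    AEStronglyMeasurable a μ := by
  have := ha.aestronglyMeasurable (μ := μ) isOpen_ne.measurableSet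
  rwa [Measure.restrict_eq_self_of_ae_mem (s := {k | k ≠ 0}) h] at this

theorem qjq_nuc {D : Tri n} {d : ℕ} (nu : NuP D d) {ν : Measure (E n)} (hν : ∀ᵐ k ∂ν, k ≠ 0)
    (hac : (volume : Measure (E n)) ≪ ν) (ρ : E n → ℝ) (hi : Integrable ρ ν)
    (hp : ∀ k, k ≠ 0 → 0 < ρ k) (hm : ∫ k, ρ k ∂ν = 1) (a b : E n → E n)
    (ha : ContinuousOn a {k | k ≠ 0}) (hb : ContinuousOn b {k | k ≠ 0})
    (hu : ∀ k, k ≠ 0 → ‖a k‖ = 1 ∧ ‖b k‖ = 1) (P J : E n →L[ℝ] E n)
    (hP : ∀ w, P w = ∫ k, ρ k • D (a k) (a k) w ∂ν)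
    (hJ : ∀ w, J w + P (J w) = ((n : ℝ) + d) • ∫ k, ρ k • ⟪b k, w⟫ • a k ∂ν) :
    |J.det| ≤ 1 ∧ (1 ≤ |J.det| → ∀ k, k ≠ 0 → J (b k) = a k) := by
  have hρ : AEMeasurable (fun k => ENNReal.ofReal (ρ k)) ν := hi.1.aemeasurable.ennreal_ofReal
  have h0 : 0 ≤ᵐ[ν] ρ := hν.mono fun k hk => (hp k hk).le
  have : IsProbabilityMeasure (ν.withDensity fun k => ENNReal.ofReal (ρ k)) := ⟨by
    rw [withDensity_apply _ MeasurableSet.univ, Measure.restrict_univ,
      ← ofReal_integral_eq_lintegral_ofReal hi h0, hm, ENNReal.ofReal_one]⟩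
  have hμ : ∀ᵐ k ∂ν.withDensity fun k => ENNReal.ofReal (ρ k), k ≠ 0 :=
    withDensity_absolutelyContinuous _ _ hν
  have key : ∀ f : E n → E n, ∫ k, f k ∂ν.withDensity (fun k => ENNReal.ofReal (ρ k)) =
      ∫ k, ρ k • f k ∂ν := fun f => by
    rw [integral_withDensity_eq_integral_toReal_smul₀ hρ
      (.of_forall fun _ => ENNReal.ofReal_lt_top)]
    exact integral_congr_ae (hν.mono fun k hk => by
      simp only [ENNReal.toReal_ofReal (hp k hk).le])
  obtain ⟨h1, h2⟩ := nu (ν.withDensity fun k => ENNReal.ofReal (ρ k)) a b P J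
    (qjq_meas hμ ha) (qjq_meas hμ hb) (hμ.mono hu) (fun w => by rw [key, hP])
    fun w => by rw [key, hJ]
  refine ⟨h1, fun h => ?_⟩
  have h3 : ∀ᵐ k ∂ν, J (b k) = a k := by
    filter_upwards [(ae_withDensity_iff' hρ).1 (h2 h), hν] with k hk hk0
    exact hk (ENNReal.ofReal_pos.2 (hp k hk0)).ne'
  exact Measure.eqOn_open_of_ae_eq (μ := volume) (f := fun k => J (b k)) (U := {k | k ≠ 0})
    (ae_restrict_of_ae (hac h3)) isOpen_ne (J.continuous.comp_continuousOn hb) ha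

/-- The middle component. -/
noncomputable def qjq_w (n : ℕ) : J3 n →L[ℝ] E n :=
  (ContinuousLinearMap.fst ℝ (E n) (E n →L[ℝ] E n)).comp
    (ContinuousLinearMap.snd ℝ ℝ (E n × (E n →L[ℝ] E n)))

/-- The last component, applied to a vector. -/
noncomputable def qjq_s (w : E n) : J3 n →L[ℝ] E n :=
  (ContinuousLinearMap.apply ℝ (E n) w).comp
    ((ContinuousLinearMap.snd ℝ (E n) (E n →L[ℝ] E n)).comp
      (ContinuousLinearMap.snd ℝ ℝ (E n × (E n →L[ℝ] E n))))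

theorem qjq_std {g : Met n} {D : Tri n} {d : ℕ} {β : E n → E n → ℝ} {v : E n → E n → E n}
    (nu : NuP D d) (A : AnP g D d β v) (x : E n) (R : E n ≃L[ℝ] E n)
    (hR : ∀ a b, g x (R a) (R b) = ⟪a, b⟫) (L : E n →L[ℝ] E n)
    (hL : ∀ u, (Y2 D d β x).1 • L u + (Y2 D d β x).2.2 (L u) = (fderiv ℝ (Y2 D d β) x u).2.1) :
    |(L.comp (R : E n →L[ℝ] E n)).det| ≤ 1 ∧ (1 ≤ |(L.comp (R : E n →L[ℝ] E n)).det| →
      ∀ k, k ≠ 0 → L (v x k) = ‖k‖⁻¹ • k) := by
  have a0 : 0 < (Y2 D d β x).1 := (A.ma x).1.pos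
  have ne := A.yb.ne
  have hv : ContinuousOn (fun k => v x k) {k | k ≠ 0} :=
    A.wd.cv.comp (f := fun k => (x, k)) (by fun_prop) fun _ hk => hk
  have hb : ContinuousOn (fun k => R.symm (v x k)) {k | k ≠ 0} :=
    R.symm.continuous.comp_continuousOn hv
  have ub : ∀ k, k ≠ 0 → ‖R.symm (v x k)‖ = 1 := fun k hk => by
    have := hR (R.symm (v x k)) (R.symm (v x k))
    rw [R.apply_symm_apply, A.wd.unit x k hk, real_inner_self_eq_norm_sq] at this
    exact (pow_eq_one_iff_of_nonneg (norm_nonneg _) two_ne_zero).1 this.symm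
  have e : ∀ k w, g x (v x k) (R w) = ⟪R.symm (v x k), w⟫ := fun k w => by
    rw [← hR, R.apply_symm_apply]
  have i1 : Integrable (fun k : E n => Real.exp (-β x k) * ‖k‖ ^ 2) (nd n d) :=
    (ContinuousLinearMap.fst ℝ ℝ _).integrable_comp (A.mo.int x)
  have e1 : ∫ k, Real.exp (-β x k) * ‖k‖ ^ 2 ∂nd n d = (Y2 D d β x).1 :=
    (ContinuousLinearMap.fst ℝ ℝ _).integral_comp_comm (A.mo.int x)
  have e2 : ∀ w, ∫ k, Real.exp (-β x k) • D k k w ∂nd n d = (Y2 D d β x).2.2 w := fun w =>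
    (qjq_s w).integral_comp_comm (A.mo.int x)
  have i2 : Integrable (fun k : E n => Real.exp (-β x k) • ‖k‖ • k) (nd n d) :=
    (qjq_w n).integrable_comp (A.mo.int x)
  have i3 : ∀ u, Integrable (fun k : E n =>
      (β x k * Real.exp (-β x k) * g x (v x k) u) • ‖k‖ • k) (nd n d) := fun u =>
    (qjq_w n).integrable_comp (A.mo.int' x u)
  have e3 : ∀ u, ∫ k, (β x k * Real.exp (-β x k) * g x (v x k) u) • ‖k‖ • k ∂nd n d =
      (fderiv ℝ (Y2 D d β) x u).2.1 := fun u => by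
    rw [A.mo.der]
    exact (qjq_w n).integral_comp_comm (A.mo.int' x u)
  have i4 : ∀ w, Integrable (fun k : E n =>
      ⟪R.symm (v x k), w⟫ • Real.exp (-β x k) • ‖k‖ • k) (nd n d) := fun w =>
    i2.bdd_smul (φ := fun k => ⟪R.symm (v x k), w⟫) ‖w‖
      (qjq_meas ne (hb.inner continuousOn_const)) (ne.mono fun k hk => by
        simpa [ub k hk] using norm_inner_le_norm (𝕜 := ℝ) (R.symm (v x k)) w)
  have e4 : ∀ w, (fderiv ℝ (Y2 D d β) x (R w)).2.1 = ((n : ℝ) + d) •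
      ∫ k, ⟪R.symm (v x k), w⟫ • Real.exp (-β x k) • ‖k‖ • k ∂nd n d := fun w => by
    refine ext_inner_left ℝ fun z => ?_
    rw [← e3, real_inner_smul_right, ← integral_inner (i3 _), ← integral_inner (i4 _)]
    have := A.ho x (fun k => ⟪R.symm (v x k), w⟫ * (‖k‖ * ⟪z, k⟫))
      ((hb.inner continuousOn_const).mul (by fun_prop)) fun k t hk ht => by
        simp only [(A.wd.hom x k t hk ht).2, norm_smul, real_inner_smul_right, Real.norm_eq_abs,
          abs_of_pos ht]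
        ring
    simp only [real_inner_smul_right, e]
    refine (integral_congr_ae (.of_forall fun k => ?_)).trans (this.trans ?_)
    · ring
    · congr 1
      exact integral_congr_ae (.of_forall fun k => by ring)
  generalize Y2 D d β x = Y at a0 e1 e2 hL
  obtain ⟨h1, h2⟩ := qjq_nuc nu ne A.yb.ac (fun k => Y.1⁻¹ * (Real.exp (-β x k) * ‖k‖ ^ 2))
    (i1.const_mul _) (fun k hk => mul_pos (inv_pos.2 a0)
      (mul_pos (Real.exp_pos _) (pow_pos (norm_pos_iff.2 hk) 2)))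
    (by rw [integral_const_mul, e1, inv_mul_cancel₀ a0.ne']) (fun k => ‖k‖⁻¹ • k)
    (fun k => R.symm (v x k))
    ((continuous_norm.continuousOn.inv₀ fun k hk => norm_ne_zero_iff.2 hk).smul continuousOn_id) hb
    (fun k hk => ⟨norm_smul_inv_norm hk, ub k hk⟩) (Y.1⁻¹ • Y.2.2)
    (L.comp (R : E n →L[ℝ] E n)) (fun w => by
      rw [smul_apply, ← e2, ← integral_smul]
      refine integral_congr_ae (ne.mono fun k hk => ?_)
      have := norm_ne_zero_iff.2 hk
      simp only [map_smul, smul_apply, smul_smul]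
      congr 1
      field_simp) fun w => by
      have h3 : L (R w) + Y.1⁻¹ • Y.2.2 (L (R w)) =
          Y.1⁻¹ • (Y.1 • L (R w) + Y.2.2 (L (R w))) := by
        rw [smul_add, inv_smul_smul₀ a0.ne']
      refine h3.trans ?_
      rw [hL, e4, smul_comm, ← integral_smul]
      congr 1
      refine integral_congr_ae (ne.mono fun k hk => ?_)
      have := norm_ne_zero_iff.2 hk
      simp only [smul_smul]
      congr 1
      field_simp
  refine ⟨h1, fun h k hk => ?_⟩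
  simpa using h2 h k hk

theorem qjq (hf : SFRAME) : SJQ := by
  intro n g D d h Γ _ _ T₀ a₀ β v m u X H nu wf an ws fr x
  obtain ⟨T, a, T', a', S, hT⟩ := H.tra (Fb D d β x)
  obtain ⟨L, hL, hE⟩ := fr x T a T' a' S hT
  obtain ⟨R, hR⟩ := hf n g x H.riem
  obtain ⟨h1, h2⟩ := qjq_std nu (an _ _ (ws β v T a T' a' H.wd S).1) x R hR L hE
  have w1 := wf g x R hR
  have w2 := wf h (T 0) (fderiv ℝ T 0) fun p q => by
    rw [S.fw.iso, H.sd.sym]
    simp
  have b0 : volume (Metric.closedBall (0 : E n) 1) ≠ 0 :=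
    (Metric.measure_closedBall_pos _ _ one_pos).ne'
  have b1 : volume (Metric.closedBall (0 : E n) 1) ≠ ⊤ := measure_closedBall_lt_top.ne
  have r0 : ENNReal.ofReal |(R : E n →L[ℝ] E n).det| ≠ 0 := fun h0 => by
    rw [h0, mul_zero] at w1
    exact b0 w1.symm
  have g0 : W g x ≠ 0 := fun h0 => by
    rw [h0, zero_mul] at w1
    exact b0 w1.symm
  have g1 : W g x ≠ ⊤ := fun h0 => by
    rw [h0, ENNReal.top_mul r0] at w1
    exact b1 w1.symm
  have dc : ∀ p q : E n →L[ℝ] E n, ENNReal.ofReal |(p.comp q).det| =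
      ENNReal.ofReal |p.det| * ENNReal.ofReal |q.det| := fun p q => by
    rw [← ENNReal.ofReal_mul (abs_nonneg _), ← abs_mul]
    congr 2
    exact LinearMap.det_comp (p : E n →ₗ[ℝ] E n) (q : E n →ₗ[ℝ] E n)
  have j : I2 h (Fb D d β) x = ENNReal.ofReal |(L.comp (R : E n →L[ℝ] E n)).det| * W g x := by
    rw [I2, hL, dc, dc, ← hT, mul_assoc _ _ (W g x), mul_comm _ (W g x), w1, ← w2]
    ring
  rw [j]
  refine ⟨mul_le_of_le_one_left' (ENNReal.ofReal_le_one.2 h1), fun hh k hk => ?_⟩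
  have h3 : 1 ≤ ENNReal.ofReal |(L.comp (R : E n →L[ℝ] E n)).det| :=
    (ENNReal.mul_le_mul_iff_left g0 g1).1 (by rwa [one_mul])
  have k0 := S.bw.ne k hk
  have h4 := h2 (ENNReal.one_le_ofReal.1 h3) (a' k) k0
  have h5 := H.mod.equi T a S.fw 0 (a' k) k0
  rw [S.ar, hT, H.mod.zero _ k0] at h5
  simp only [S.ar] at h4
  rw [hL, ContinuousLinearMap.comp_apply, h4, h5]

end Pool.Agent.MP_3ee8cb_gt.CR
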