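import Pool.Agent.MP_3ee8cb_gt.RS.SpecD

/-! The moment of the boundary measure is positive and its pairing attains a minimum. -/

namespace Pool.Agent.MP_3ee8cb_gt.CR

open Set MeasureTheory
open scoped RealInnerProductSpace

variable {n : ℕ}

/-- A family of linear functionals on the Veronese space. -/
noncomputable def qmaL (α : ℝ) (p a b : E n) : J3 n →L[ℝ] ℝ :=
  α • ContinuousLinearMap.fst ℝ ℝ (E n × (E n →L[ℝ] E n)) +
    (innerSL ℝ p).comp ((ContinuousLinearMap.fst ℝ (E n) (E n →L[ℝ] E n)).comp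
      (ContinuousLinearMap.snd ℝ ℝ (E n × (E n →L[ℝ] E n)))) +
    (innerSL ℝ b).comp ((ContinuousLinearMap.apply ℝ (E n) a).comp
      ((ContinuousLinearMap.snd ℝ (E n) (E n →L[ℝ] E n)).comp
        (ContinuousLinearMap.snd ℝ ℝ (E n × (E n →L[ℝ] E n)))))

theorem qma_L (α : ℝ) (p a b : E n) (z : J3 n) :
    qmaL α p a b z = α * z.1 + ⟪p, z.2.1⟫ + ⟪b, z.2.2 a⟫ := rfl

theorem qma_int {D : Tri n} {d : ℕ} {β : E n → E n → ℝ} {x : E n}
    (hi : Integrable (fun k => Real.exp (-β x k) • ver D ‖k‖ k) (nd n d))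
    (L : J3 n →L[ℝ] ℝ) :
    L (Y2 D d β x) = ∫ k, Real.exp (-β x k) * L (ver D ‖k‖ k) ∂nd n d ∧
      Integrable (fun k => Real.exp (-β x k) * L (ver D ‖k‖ k)) (nd n d) := by
  constructor
  · unfold Y2
    rw [← L.integral_comp_comm hi]
    simp only [map_smul, smul_eq_mul]
  · have := L.integrable_comp hi
    simpa only [map_smul, smul_eq_mul] using this

theorem qma_nonneg {D : Tri n} {d : ℕ} {β : E n → E n → ℝ} {x : E n}
    (hi : Integrable (fun k => Real.exp (-β x k) • ver D ‖k‖ k) (nd n d))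
    (L : J3 n →L[ℝ] ℝ) (h : ∀ k, 0 ≤ L (ver D ‖k‖ k)) : 0 ≤ L (Y2 D d β x) := by
  rw [(qma_int hi L).1]
  exact integral_nonneg fun k => mul_nonneg (Real.exp_pos _).le (h k)

theorem qma_strict {D : Tri n} {d : ℕ} {β : E n → E n → ℝ} {x : E n}
    (hi : Integrable (fun k => Real.exp (-β x k) • ver D ‖k‖ k) (nd n d))
    (ac : (volume : Measure (E n)) ≪ nd n d) (e : E n) (he : e ≠ 0) :
    ⟪e, (Y2 D d β x).2.1⟫ < ‖e‖ * (Y2 D d β x).1 := by
  have hv : ∀ k : E n, qmaL ‖e‖ (-e) 0 0 (ver D ‖k‖ k) = ‖k‖ * (‖e‖ * ‖k‖ - ⟪e, k⟫) := by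
    intro k
    rw [qma_L]
    simp only [ver, inner_neg_left, inner_smul_right, inner_zero_left]
    ring
  have h0 : ∀ k : E n, 0 ≤ qmaL ‖e‖ (-e) 0 0 (ver D ‖k‖ k) := by
    intro k
    rw [hv]
    exact mul_nonneg (norm_nonneg _) (sub_nonneg.2 (real_inner_le_norm e k))
  obtain ⟨h1, h2⟩ := qma_int hi (qmaL ‖e‖ (-e) 0 0)
  have h3 : 0 < qmaL ‖e‖ (-e) 0 0 (Y2 D d β x) := by
    rw [h1, integral_pos_iff_support_of_nonneg
      (fun k => mul_nonneg (Real.exp_pos _).le (h0 k)) h2]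
    have hU : IsOpen {k : E n | ⟪e, k⟫ < 0} :=
      isOpen_lt (continuous_const.inner continuous_id) continuous_const
    have hne : ({k : E n | ⟪e, k⟫ < 0}).Nonempty := by
      refine ⟨-e, ?_⟩
      show ⟪e, -e⟫ < 0
      simp only [inner_neg_right, real_inner_self_eq_norm_sq]
      have := norm_pos_iff.2 he
      nlinarith
    have hp : 0 < nd n d {k : E n | ⟪e, k⟫ < 0} := by
      rw [pos_iff_ne_zero]
      intro hz
      exact (hU.measure_pos volume hne).ne' (ac hz)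
    refine hp.trans_le (measure_mono fun k hk => ?_)
    have hk' : ⟪e, k⟫ < 0 := hk
    have hk0 : k ≠ 0 := by
      rintro rfl
      simp at hk'
    have h4 : 0 < ‖k‖ := norm_pos_iff.2 hk0
    have h5 : 0 ≤ ‖e‖ * ‖k‖ := mul_nonneg (norm_nonneg _) (norm_nonneg _)
    refine Function.mem_support.2 (mul_pos (Real.exp_pos _) ?_).ne'
    rw [hv]
    exact mul_pos h4 (by linarith)
  rw [qma_L] at h3
  simp only [inner_neg_left, inner_zero_left] at h3
  linarith

theorem qma_gap {D : Tri n} {d : ℕ} {β : E n → E n → ℝ} {x : E n} (hn : 0 < n)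
    (hi : Integrable (fun k => Real.exp (-β x k) • ver D ‖k‖ k) (nd n d))
    (ac : (volume : Measure (E n)) ≪ nd n d) : ‖(Y2 D d β x).2.1‖ < (Y2 D d β x).1 := by
  by_cases hw : (Y2 D d β x).2.1 = 0
  · have he : (EuclideanSpace.single (⟨0, hn⟩ : Fin n) (1 : ℝ) : E n) ≠ 0 := by
      intro h
      have := congrArg norm h
      simp at this
    have h1 := qma_strict hi ac _ he
    rw [hw, inner_zero_right] at h1
    rw [hw, norm_zero]
    exact (pos_iff_pos_of_mul_pos h1).1 (norm_pos_iff.2 he)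
  · have h1 := qma_strict hi ac _ hw
    rw [real_inner_self_eq_norm_sq] at h1
    have h2 := norm_pos_iff.2 hw
    nlinarith

theorem qma_up (y : E n) : (up y).1 ^ 2 = 1 + ‖y‖ ^ 2 ∧ ‖y‖ ≤ (up y).1 := by
  have h : (0 : ℝ) ≤ 1 + ‖y‖ ^ 2 := by positivity
  refine ⟨Real.sq_sqrt h, ?_⟩
  exact Real.le_sqrt_of_sq_le (by linarith)

theorem qma_low {D : Tri n} {d : ℕ} {β : E n → E n → ℝ} {x : E n} (alg : AlgP D d)
    (hi : Integrable (fun k => Real.exp (-β x k) • ver D ‖k‖ k) (nd n d)) (y : E n) :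
    2 * ((Y2 D d β x).1 - ‖(Y2 D d β x).2.1‖) * ‖y‖ - (Y2 D d β x).1 ≤
      pr (Y2 D d β x) y ∨ (Y2 D d β x).1 < 0 := by
  obtain ⟨h1, h2⟩ := qma_up y
  have h3 := qma_nonneg hi (qmaL (((up y).1 - 1) ^ 2) ((2 - 2 * (up y).1) • y) y y) (by
    intro k
    rw [qma_L]
    have h4 := alg.rlo k y
    simp only [ver, RR, inner_smul_left, inner_smul_right, conj_trivial] at h4 ⊢
    rw [real_inner_comm y (D k k y), real_inner_comm y k] at h4
    nlinarith [sq_nonneg (((up y).1 - 1) * ‖k‖ - ⟪y, k⟫)])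
  rw [qma_L] at h3
  simp only [inner_smul_left, conj_trivial] at h3
  by_cases hz : (Y2 D d β x).1 < 0
  · exact Or.inr hz
  left
  push Not at hz
  unfold pr
  rw [← h1, real_inner_comm y (Y2 D d β x).2.1, real_inner_comm y ((Y2 D d β x).2.2 y)]
  have h5 := real_inner_le_norm y (Y2 D d β x).2.1
  have h6 := mul_le_mul_of_nonneg_left h2 hz
  nlinarith

theorem qma_cont (z : J3 n) : Continuous (pr z) := by
  unfold pr up
  fun_prop

theorem qma : SMA := by
  intro n g h D d β v sd alg bas wd yb mo x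
  have hi := mo.int x
  have hg := qma_gap sd.pos hi yb.ac
  have hp : 0 < (Y2 D d β x).1 := (norm_nonneg _).trans_lt hg
  refine ⟨⟨hp, fun a b => ?_, fun a => ?_⟩, ?_⟩
  · have h1 := (qma_int hi (qmaL 0 0 a b)).1
    have h2 := (qma_int hi (qmaL 0 0 b a)).1
    have h3 : ∀ k, qmaL 0 0 a b (ver D ‖k‖ k) = qmaL 0 0 b a (ver D ‖k‖ k) := by
      intro k
      rw [qma_L, qma_L]
      simp only [ver]
      rw [← alg.ops k k a b, real_inner_comm b]
    simp only [h3] at h1
    rw [← h2, qma_L, qma_L] at h1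
    rw [real_inner_comm b]
    linarith
  · have h1 := qma_nonneg hi (qmaL 0 0 a a) (by
      intro k
      rw [qma_L]
      have h4 := alg.rlo k a
      simp only [ver, RR, inner_zero_left] at h4 ⊢
      rw [real_inner_comm a (D k k a)] at h4
      nlinarith [sq_nonneg ⟪k, a⟫])
    rw [qma_L] at h1
    simp only [inner_zero_left] at h1
    rw [real_inner_comm a]
    linarith
  · refine (qma_cont _).exists_forall_le ?_
    have hc : 0 < 2 * ((Y2 D d β x).1 - ‖(Y2 D d β x).2.1‖) := by linarith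
    have ht : Filter.Tendsto (fun y : E n => 2 * ((Y2 D d β x).1 - ‖(Y2 D d β x).2.1‖) * ‖y‖ -
        (Y2 D d β x).1) (Filter.cocompact (E n)) Filter.atTop :=
      Filter.tendsto_atTop_add_const_right _ _
        (tendsto_norm_cocompact_atTop.const_mul_atTop hc)
    refine Filter.tendsto_atTop_mono (fun y => ?_) ht
    rcases qma_low alg hi y with h1 | h1
    · exact h1
    · linarith

end Pool.Agent.MP_3ee8cb_gt.CR
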