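import Pool.Agent.MP_3ee8cb_gt.RS.SpecD

/-! The barycentre is the unique critical point. -/

namespace Pool.Agent.MP_3ee8cb_gt.CR

theorem qmb : SMB := by
  intro n D d h _ hP hT g hA hW β v hwd x y
  have hmin : ∀ y', pr (Y2 D d β x) (Fb D d β x) ≤ pr (Y2 D d β x) y' :=
    Classical.epsilon_spec ((hA β v hwd).ma x).2
  constructor
  · rintro rfl
    exact IsLocalMin.fderiv_eq_zero (Filter.Eventually.of_forall hmin)
  · intro hy
    obtain ⟨T, a, T', a', hS, rfl⟩ := hT y
    obtain ⟨hwd', he⟩ := hW β v T a T' a' hwd hS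
    have hc : pr (Y2 D d (fun x k => β x (a k)) x) = pr (Y2 D d β x) ∘ T :=
      funext fun y => (he x y).symm
    have h0 : fderiv ℝ (pr (Y2 D d (fun x k => β x (a k)) x)) 0 = 0 := by
      rw [hc, fderiv_comp 0 ((hP.smooth _).differentiable one_ne_zero _)
        (hS.fw.smT.differentiable one_ne_zero _), hy, ContinuousLinearMap.zero_comp]
    by_contra hne
    have hne' : T' (Fb D d β x) ≠ 0 := fun h' => hne (by rw [← hS.tr (Fb D d β x), h'])
    have hlt := hP.min _ ((hA _ _ hwd').ma x).1 (hP.crit _ h0) _ hne'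
    rw [← he, ← he, hS.tr] at hlt
    exact absurd (hmin (T 0)) (not_le.2 hlt)

end Pool.Agent.MP_3ee8cb_gt.CR
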