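import Pool.Agent.MP_3ee8cb_gt.RS.SpecD
import Pool.Agent.MP_3ee8cb_gt.CR.RYD

/-! Differentiation of the moment integral. -/

namespace Pool.Agent.MP_3ee8cb_gt.CR

open Set MeasureTheory

variable {n : ℕ}

section Gen

variable {U : Type} [NormedAddCommGroup U] [NormedSpace ℝ U]

/-- The derivative of the integrand. -/
noncomputable def qmoD (f : E n → U) (g : Met n) (β : E n → E n → ℝ) (v : E n → E n → E n)
    (x k : E n) : E n →L[ℝ] U :=
  (β x k * Real.exp (-β x k)) • ContinuousLinearMap.smulRightL ℝ (E n) U (g x (v x k)) (f k)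

theorem qmo_app (f : E n → U) (g : Met n) (β : E n → E n → ℝ) (v : E n → E n → E n)
    (x k u : E n) :
    qmoD f g β v x k u = (β x k * Real.exp (-β x k) * g x (v x k) u) • f k := by
  simp [qmoD, smul_smul]

theorem qmo_gen [CompleteSpace U] {g : Met n} {β : E n → E n → ℝ} {v : E n → E n → E n} {d : ℕ}
    (hb : WD g β v) (Ya : YbP d β) (f : E n → U) (hf : Continuous f) (C₀ : ℝ) (hC₀ : 0 ≤ C₀)
    (hfb : ∀ k, ‖f k‖ ≤ C₀ * ‖k‖ ^ 2) :
    (∀ x, Integrable (fun k => Real.exp (-β x k) • f k) (nd n d)) ∧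
    (∀ x u, Integrable
      (fun k => (β x k * Real.exp (-β x k) * g x (v x k) u) • f k) (nd n d)) ∧
    ContDiff ℝ 1 (fun x => ∫ k, Real.exp (-β x k) • f k ∂nd n d) ∧
    ∀ x u, fderiv ℝ (fun x => ∫ k, Real.exp (-β x k) • f k ∂nd n d) x u =
      ∫ k, (β x k * Real.exp (-β x k) * g x (v x k) u) • f k ∂nd n d := by
  have hg := hb.riem
  have int : ∀ x, Integrable (fun k => Real.exp (-β x k) • f k) (nd n d) := by
    intro x
    obtain ⟨c, hc, hl⟩ := Ya.low ‖x‖
    have h0 : ContinuousOn (fun k => β x k) {k | k ≠ 0} :=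
      hb.cb.comp (f := fun k => (x, k)) (continuous_const.prodMk continuous_id).continuousOn
        fun k hk => hk
    have h1 : ContinuousOn (fun k => Real.exp (-β x k) • f k) {k | k ≠ 0} :=
      (Real.continuous_exp.comp_continuousOn h0.neg).smul hf.continuousOn
    have h2 := h1.aestronglyMeasurable (μ := nd n d) isOpen_ne.measurableSet
    rw [Measure.restrict_eq_self_of_ae_mem (s := {k : E n | k ≠ 0}) Ya.ne] at h2
    refine ((Ya.dom c 0 hc).const_mul C₀).mono' h2 (Ya.ne.mono fun k hk => ?_)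
    have h4 : Real.exp (-β x k) ≤ Real.exp (-(c * ‖k‖)) :=
      Real.exp_le_exp.2 (by linarith [(hl x k le_rfl hk).1])
    rw [norm_smul, Real.norm_of_nonneg (Real.exp_pos _).le]
    calc Real.exp (-β x k) * ‖f k‖ ≤ Real.exp (-(c * ‖k‖)) * (C₀ * ‖k‖ ^ 2) :=
          mul_le_mul h4 (hfb k) (norm_nonneg _) (Real.exp_pos _).le
      _ = _ := by ring
  have der : ∀ x k, k ≠ 0 →
      HasFDerivAt (fun x => Real.exp (-β x k) • f k) (qmoD f g β v x k) x := by
    intro x k hk
    obtain ⟨C, hC⟩ := hb.tay (‖x‖ + 1)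
    have h1 : HasFDerivAt (fun x => Real.log (β x k)) (-(g x (v x k))) x := by
      refine yd_quad (C := C) ?_
      filter_upwards [yd_ball x] with x' hx'
      have := hC x x' k (by linarith) hx' hk
      rw [neg_apply, sub_neg_eq_add]
      exact this
    have h2 : HasFDerivAt (fun x => β x k) (β x k • -(g x (v x k))) x := by
      have h3 := h1.exp
      have e : (fun x => Real.exp (Real.log (β x k))) = fun x => β x k :=
        funext fun x => Real.exp_log (hb.pos x k hk)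
      rw [e, Real.exp_log (hb.pos x k hk)] at h3
      exact h3
    have h4 := (h2.neg.exp).smul_const (f k)
    refine h4.congr_fderiv ?_
    refine ContinuousLinearMap.ext fun u => ?_
    rw [qmo_app]
    simp only [ContinuousLinearMap.smulRight_apply, smul_apply,
      neg_apply, smul_eq_mul, Pi.neg_apply]
    congr 1
    ring
  have jc : ContinuousOn (fun w : E n × E n => qmoD f g β v w.1 w.2) {w | w.2 ≠ 0} := by
    have g1 : ContinuousOn (fun w : E n × E n => g w.1 (v w.1 w.2)) {w | w.2 ≠ 0} :=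
      ((hg.smooth.continuous.comp continuous_fst).continuousOn).clm_apply hb.cv
    have g2 : ContinuousOn (fun w : E n × E n =>
        ContinuousLinearMap.smulRightL ℝ (E n) U (g w.1 (v w.1 w.2)) (f w.2))
        {w | w.2 ≠ 0} :=
      ((ContinuousLinearMap.smulRightL ℝ (E n) U).continuous.comp_continuousOn g1).clm_apply
        (hf.comp continuous_snd).continuousOn
    exact (hb.cb.mul (Real.continuous_exp.comp_continuousOn hb.cb.neg)).smul g2
  have me : ∀ x, AEStronglyMeasurable (qmoD f g β v x) (nd n d) := by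
    intro x
    have h1 : ContinuousOn (qmoD f g β v x) {k | k ≠ 0} :=
      jc.comp (f := fun k => (x, k)) (continuous_const.prodMk continuous_id).continuousOn
        fun k hk => hk
    have h2 := h1.aestronglyMeasurable (μ := nd n d) isOpen_ne.measurableSet
    rwa [Measure.restrict_eq_self_of_ae_mem (s := {k : E n | k ≠ 0}) Ya.ne] at h2
  have bd : ∀ R : ℝ, ∃ b : E n → ℝ, Integrable b (nd n d) ∧
      ∀ k, k ≠ 0 → ∀ x, ‖x‖ ≤ R → ‖qmoD f g β v x k‖ ≤ b k := by
    intro R
    obtain ⟨c, hc, hl⟩ := Ya.low R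
    obtain ⟨M, hM⟩ := (isCompact_closedBall (0 : E n) R).exists_bound_of_continuousOn
      (E := E n →L[ℝ] E n →L[ℝ] ℝ) (f := g) hg.smooth.continuous.continuousOn
    refine ⟨fun k => (c⁻¹ * (M + 1) * C₀) * (‖k‖ ^ (1 + 2) * Real.exp (-(c * ‖k‖))),
      (Ya.dom c 1 hc).const_mul _, fun k hk x hx => ?_⟩
    have hMx : ‖g x‖ ≤ M := hM x (by simpa using hx)
    have hM0 : 0 ≤ M := ((g x).opNorm_nonneg).trans hMx
    have h1 := yd_norm hg x (v x k) (hb.unit x k hk) hMx
    obtain ⟨h2, h3⟩ := hl x k hx hk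
    have hp := hb.pos x k hk
    have h4 : Real.exp (-β x k) ≤ Real.exp (-(c * ‖k‖)) := Real.exp_le_exp.2 (by linarith)
    refine ContinuousLinearMap.opNorm_le_bound _ (by positivity) fun u => ?_
    rw [qmo_app, norm_smul, norm_mul, Real.norm_of_nonneg (by positivity)]
    have h5 : ‖g x (v x k) u‖ ≤ (M + 1) * ‖u‖ :=
      ((g x (v x k)).le_opNorm u).trans (mul_le_mul_of_nonneg_right h1 (norm_nonneg _))
    have h6 := hfb k
    calc β x k * Real.exp (-β x k) * ‖g x (v x k) u‖ * ‖f k‖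
        ≤ (c⁻¹ * ‖k‖) * Real.exp (-(c * ‖k‖)) * ((M + 1) * ‖u‖) * (C₀ * ‖k‖ ^ 2) := by gcongr
      _ = _ := by ring
  have hD : ∀ x, HasFDerivAt (fun x => ∫ k, Real.exp (-β x k) • f k ∂nd n d)
      (∫ k, qmoD f g β v x k ∂nd n d) x := by
    intro x
    obtain ⟨b, hbi, hbb⟩ := bd (‖x‖ + 1)
    exact hasFDerivAt_integral_of_dominated_of_fderiv_le
      (F := fun x k => Real.exp (-β x k) • f k) (F' := qmoD f g β v) (bound := b) (yd_ball x)
      (Filter.Eventually.of_forall fun y => (int y).aestronglyMeasurable) (int x) (me x)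
      (Ya.ne.mono fun k hk y hy => hbb k hk y hy) hbi (Ya.ne.mono fun k hk y _ => der y k hk)
  have hC : Continuous fun x => ∫ k, qmoD f g β v x k ∂nd n d := by
    refine continuous_iff_continuousAt.2 fun x => ?_
    obtain ⟨b, hbi, hbb⟩ := bd (‖x‖ + 1)
    refine continuousAt_of_dominated (bound := b) (Filter.Eventually.of_forall me)
      ((yd_ball x).mono fun y hy => Ya.ne.mono fun k hk => hbb k hk y hy) hbi
      (Ya.ne.mono fun k hk => ?_)
    have h1 : Continuous fun y => qmoD f g β v y k :=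
      jc.comp_continuous (f := fun y => (y, k)) (continuous_id.prodMk continuous_const)
        fun _ => hk
    exact h1.continuousAt
  have hi : ∀ x, Integrable (qmoD f g β v x) (nd n d) := by
    intro x
    obtain ⟨b, hbi, hbb⟩ := bd ‖x‖
    exact hbi.mono' (me x) (Ya.ne.mono fun k hk => hbb k hk x le_rfl)
  refine ⟨int, fun x u => ?_, contDiff_one_iff_hasFDerivAt.2 ⟨_, hC, hD⟩, fun x u => ?_⟩
  · have h1 := (hi x).apply_continuousLinearMap u
    simp only [qmo_app] at h1
    exact h1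
  · rw [(hD x).fderiv, ContinuousLinearMap.integral_apply (hi x)]
    simp only [qmo_app]

end Gen

theorem qmo_cont (D : Tri n) : Continuous fun k : E n => ver D ‖k‖ k :=
  (continuous_norm.pow 2).prodMk ((continuous_norm.smul continuous_id).prodMk
    (D.continuous.clm_apply continuous_id))

theorem qmo_bil {F : Type} [NormedAddCommGroup F] [NormedSpace ℝ F]
    (D : E n →L[ℝ] E n →L[ℝ] F) : ∃ C : ℝ, 0 ≤ C ∧ ∀ k : E n, ‖D k k‖ ≤ C * ‖k‖ ^ 2 := by
  refine ⟨‖D‖, D.opNorm_nonneg, fun k => ?_⟩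
  have h2 := D.le_opNorm₂ k k
  rwa [mul_assoc, ← sq] at h2

theorem qmo_bound (D : Tri n) : ∃ C : ℝ, 0 ≤ C ∧ ∀ k : E n, ‖ver D ‖k‖ k‖ ≤ C * ‖k‖ ^ 2 := by
  obtain ⟨C, h0, hC⟩ := qmo_bil (F := E n →L[ℝ] E n) D
  refine ⟨1 + C, by linarith, fun k => ?_⟩
  have h1 : 0 ≤ C * ‖k‖ ^ 2 := mul_nonneg h0 (sq_nonneg _)
  rw [ver, Prod.norm_def, Prod.norm_def]
  refine max_le ?_ (max_le ?_ ?_)
  · rw [norm_pow, norm_norm]
    linarith
  · rw [norm_smul, norm_norm, ← sq]
    linarith
  · have h2 := hC k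
    have h3 := sq_nonneg ‖k‖
    show ‖D k k‖ ≤ _
    linarith

theorem qmo : SMO := by
  intro n g h D d β v _ _ _ hw Ya
  obtain ⟨C, hC, hb⟩ := qmo_bound D
  obtain ⟨h1, h2, h3, h4⟩ := qmo_gen hw Ya (fun k => ver D ‖k‖ k) (qmo_cont D) C hC hb
  exact ⟨h1, h2, h3, h4⟩

end Pool.Agent.MP_3ee8cb_gt.CR
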