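import Pool.Agent.MP_3ee8cb_gt.RS.SpecC
import Pool.Agent.MP_3ee8cb_gt.CR.RUNI

/-! The unit vector field that points to a boundary vector. -/

namespace Pool.Agent.MP_3ee8cb_gt.CR

open Set
open scoped RealInnerProductSpace

variable {n : ℕ} {D : Tri n} {d : ℕ} {h : Met n}

/-- The vector field. -/
noncomputable def qmod_u (D : Tri n) (h : Met n) (y k : E n) : E n :=
  (h y).inverse (-(el D y k)⁻¹ • (fderiv ℝ (fun w : E n × E n => el D w.1 w.2) (y, k)).comp
    (ContinuousLinearMap.inl ℝ (E n) (E n)))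

theorem qmod_open : IsOpen {w : E n × E n | w.2 ≠ 0} :=
  isOpen_ne_fun continuous_snd continuous_const

theorem qmod_inj (hr : Riem h) (y : E n) {u v : E n} (e : ∀ w, h y u w = h y v w) : u = v := by
  rw [← uni_cancel hr y u, ← uni_cancel hr y v, ContinuousLinearMap.ext e]

theorem qmod_der (hb : BasP D) (hr : Riem h) (y k : E n) (hk : k ≠ 0) :
    HasFDerivAt (fun y => el D y k) (-(el D y k) • h y (qmod_u D h y k)) y := by
  have h1 : DifferentiableAt ℝ (fun w : E n × E n => el D w.1 w.2) (y, k) :=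
    (hb.c2.contDiffAt (qmod_open.mem_nhds hk)).differentiableAt (by norm_num)
  have h2 := h1.hasFDerivAt.comp y (hasFDerivAt_prodMk_left (𝕜 := ℝ) y k)
  obtain ⟨e, he⟩ := uni_inv hr y
  have h3 : ∀ φ : E n →L[ℝ] ℝ, h y ((h y).inverse φ) = φ := fun φ => by
    rw [← he]
    simp
  rw [qmod_u, h3, smul_smul, neg_mul_neg, mul_inv_cancel₀ (hb.pos y k hk).ne', one_smul]
  exact h2

theorem qmod_char (hb : BasP D) (hr : Riem h) {y k w : E n} (hk : k ≠ 0) {L : E n →L[ℝ] ℝ}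
    (h1 : HasFDerivAt (fun y => el D y k) L y) (h2 : ∀ v, L v = -(el D y k) * h y w v) :
    qmod_u D h y k = w := qmod_inj hr y fun v => by
  have h3 := h2 v
  rw [h1.unique (qmod_der hb hr y k hk), smul_apply, smul_eq_mul] at h3
  exact mul_left_cancel₀ (neg_ne_zero.2 (hb.pos y k hk).ne') h3

theorem qmod_cont (hb : BasP D) (hr : Riem h) :
    ContinuousOn (fun w : E n × E n => qmod_u D h w.1 w.2) {w | w.2 ≠ 0} := by
  have h2 : Continuous fun x => (h x).inverse := by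
    rw [continuous_iff_continuousAt]
    intro x
    obtain ⟨e, he⟩ := uni_inv hr x
    have h3 : ContDiffAt ℝ 1 ContinuousLinearMap.inverse (h x) := he ▸ contDiffAt_map_inverse e
    exact h3.continuousAt.comp hr.smooth.continuous.continuousAt
  have h4 := hb.c2.continuousOn_fderiv_of_isOpen qmod_open (by norm_num)
  exact (h2.comp continuous_fst).continuousOn.clm_apply
    ((hb.cont.continuousOn.inv₀ fun w hw => (hb.pos _ _ hw).ne').neg.smul
      (h4.clm_comp continuousOn_const))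

theorem qmod_form (ha : AlgP D d) (hb : BasP D) (hr : Riem h) (y k : E n) (hk : k ≠ 0) (w : E n) :
    -(el D y k) ^ 2 * h y (qmod_u D h y k) w = ‖k‖ ^ 2 * ⟪y, w⟫ -
      (⟪y, w⟫ / (up y).1 * (‖k‖ * ⟪k, y⟫) + (up y).1 * (‖k‖ * ⟪k, w⟫)) + ⟪D k k y, w⟫ := by
  have p0 : 0 < 1 + ‖y‖ ^ 2 := by positivity
  have l : HasDerivAt (fun t : ℝ => y + t • w) w 0 := by
    simpa using ((hasDerivAt_id (0 : ℝ)).smul_const w).const_add y
  have e0 : y + (0 : ℝ) • w = y := by simp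
  have h1 := ((e0 ▸ qmod_der hb hr y k hk : HasFDerivAt _ _ (y + (0 : ℝ) • w)).comp_hasDerivAt
    (0 : ℝ) l).pow 2
  have n1 := (l.norm_sq).const_add 1
  have n2 := n1.sqrt (by rw [e0]; exact p0.ne')
  have n3 := (hasDerivAt_const (0 : ℝ) (‖k‖ • k)).inner ℝ l
  have n4 := ((D k k).hasFDerivAt.comp_hasDerivAt (0 : ℝ) l).inner ℝ l
  have h2 := ((n1.const_mul (‖k‖ ^ 2)).sub ((n2.const_mul 2).mul n3)).add n4
  have h3 := h1.unique (h2.congr_of_eventuallyEq (Filter.Eventually.of_forall fun t => by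
    simp only [Pi.pow_apply, Function.comp_apply, hb.sq]
    rfl))
  simp only [Function.comp_apply, e0, smul_apply, smul_eq_mul, inner_zero_left, add_zero,
    real_inner_smul_left, ha.ops k k w y, real_inner_comm (D k k y) w] at h3
  have s0 : (up y).1 ≠ 0 := (Real.sqrt_pos.2 p0).ne'
  change _ = _ - (_ / √(1 + ‖y‖ ^ 2) * _ + √(1 + ‖y‖ ^ 2) * _) + _
  have e1 : 2 * ⟪y, w⟫ / (2 * √(1 + ‖y‖ ^ 2)) = ⟪y, w⟫ / √(1 + ‖y‖ ^ 2) :=
    mul_div_mul_left _ _ two_ne_zero
  rw [e1] at h3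
  push_cast at h3
  linarith

theorem qmod_h0 (S : SD D d h) (u v : E n) : h 0 u v = ⟪u, v⟫ := by
  rw [S.sym]
  simp

theorem qmod_zero (S : SD D d h) (ha : AlgP D d) (hb : BasP D) (hr : Riem h) (k : E n)
    (hk : k ≠ 0) : qmod_u D h 0 k = ‖k‖⁻¹ • k := qmod_inj hr 0 fun w => by
  have h1 := qmod_form ha hb hr 0 k hk w
  have k0 : ‖k‖ ≠ 0 := norm_ne_zero_iff.2 hk
  rw [hb.zero] at h1
  simp only [up, norm_zero, inner_zero_left, inner_zero_right, map_zero, ne_eq, OfNat.ofNat_ne_zero,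
    not_false_eq_true, zero_pow, add_zero, Real.sqrt_one, mul_zero, zero_add, one_mul,
    zero_sub] at h1
  rw [qmod_h0 S (‖k‖⁻¹ • k), real_inner_smul_left]
  field_simp at h1 ⊢
  linarith

theorem qmod_rad (S : SD D d h) (ha : AlgP D d) (hb : BasP D) (hr : Riem h) (θ : E n) (t : ℝ)
    (hθ : ‖θ‖ = 1) : el D (Real.sinh t • θ) θ = Real.exp (-t) ∧
      qmod_u D h (Real.sinh t • θ) θ = Real.cosh t • θ := by
  have k0 : θ ≠ 0 := norm_ne_zero_iff.1 (by rw [hθ]; exact one_ne_zero)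
  have c0 := Real.cosh_pos t
  have a1 : ‖Real.sinh t • θ‖ ^ 2 = Real.sinh t ^ 2 := by
    rw [norm_smul, hθ, mul_one, Real.norm_eq_abs, sq_abs]
  have a2 : 1 + Real.sinh t ^ 2 = Real.cosh t ^ 2 := by rw [Real.cosh_sq']
  have a3 : (up (Real.sinh t • θ)).1 = Real.cosh t := by
    change √(1 + _) = _
    rw [a1, a2, Real.sqrt_sq c0.le]
  have a4 : D θ θ θ = θ := by rw [S.hopf.self, hθ]; simp
  have a5 : ⟪θ, θ⟫ = 1 := by rw [real_inner_self_eq_norm_sq, hθ]; simp
  have a6 : el D (Real.sinh t • θ) θ ^ 2 = (Real.cosh t - Real.sinh t) ^ 2 := by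
    rw [hb.sq, pr, a1, a3]
    simp only [ver, hθ, map_smul, a4, real_inner_smul_left, real_inner_smul_right, a5]
    rw [a2]
    ring
  refine ⟨?_, qmod_inj hr (Real.sinh t • θ) fun w => ?_⟩
  · rw [Real.cosh_sub_sinh] at a6
    exact (pow_left_inj₀ (hb.pos _ _ k0).le (Real.exp_pos _).le two_ne_zero).1 a6
  · have h1 := qmod_form ha hb hr (Real.sinh t • θ) θ k0 w
    have a7 : (Real.cosh t - Real.sinh t) ^ 2 ≠ 0 := by
      rw [Real.cosh_sub_sinh]
      positivity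
    rw [a6, a3] at h1
    rw [S.sym _ (Real.cosh t • θ), a1, a2]
    simp only [hθ, map_smul, smul_apply, a4, real_inner_smul_left, real_inner_smul_right, a5]
      at h1 ⊢
    refine mul_left_cancel₀ (neg_ne_zero.2 a7) (h1.trans ?_)
    field_simp
    linear_combination (-⟪θ, w⟫ * (Real.cosh t - Real.sinh t) ^ 2) * a2

theorem qmod_onto (hr : Riem h) {T a : E n → E n} (hs : Sym D d h T a) (y : E n) :
    Function.Bijective (fderiv ℝ T y) := by
  have h1 : Function.Injective (fderiv ℝ T y : E n →ₗ[ℝ] E n) := by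
    rw [injective_iff_map_eq_zero]
    intro v hv
    by_contra h0
    have h2 := hr.pos y v h0
    rw [← hs.iso, show fderiv ℝ T y v = 0 from hv] at h2
    simp at h2
  exact ⟨h1, LinearMap.injective_iff_surjective.1 h1⟩

theorem qmod_equi (hb : BasP D) (hr : Riem h) {T a : E n → E n} (hs : Sym D d h T a) (y k : E n)
    (hk : k ≠ 0) : qmod_u D h (T y) (a k) = fderiv ℝ T y (qmod_u D h y k) := by
  have h1 := (qmod_der hb hr (T y) (a k) (hs.ne k hk)).comp y
    (hs.smT.differentiable one_ne_zero y).hasFDerivAt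
  have h2 := h1.unique ((qmod_der hb hr y k hk).congr_of_eventuallyEq
    (Filter.Eventually.of_forall fun z => hs.el z k))
  refine qmod_inj hr (T y) fun w => ?_
  obtain ⟨v, rfl⟩ := (qmod_onto hr hs y).2 w
  have h3 := DFunLike.congr_fun h2 v
  simp only [ContinuousLinearMap.comp_apply, smul_apply, smul_eq_mul, hs.el] at h3
  rw [hs.iso]
  exact mul_left_cancel₀ (neg_ne_zero.2 (hb.pos y k hk).ne') h3

theorem qmod : SMOD := by
  intro n D d h S ha hb hr ht
  have key : ∀ {T a T' a' : E n → E n}, Sy2 D d h T a T' a' → ∀ k, k ≠ 0 →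
      qmod_u D h (T 0) k = fderiv ℝ T 0 (‖a' k‖⁻¹ • a' k) := fun {T a T' a'} hs k hk => by
    rw [← qmod_zero S ha hb hr _ (hs.bw.ne k hk), ← qmod_equi hb hr hs.fw 0 _ (hs.bw.ne k hk),
      hs.ar]
  refine ⟨qmod_u D h, qmod_der hb hr, fun y k hk => ?_, qmod_cont hb hr, fun y k t hk t0 => ?_,
    fun y k k' hk hk' e => ?_, fun y w hw => ?_, qmod_zero S ha hb hr,
    fun T a hs => qmod_equi hb hr hs, qmod_rad S ha hb hr⟩
  · obtain ⟨T, a, T', a', hs, rfl⟩ := ht y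
    have k0 : ‖a' k‖ ≠ 0 := norm_ne_zero_iff.2 (hs.bw.ne k hk)
    rw [key hs k hk, hs.fw.iso, qmod_h0 S, real_inner_self_eq_norm_sq, norm_smul, norm_inv,
      norm_norm, inv_mul_cancel₀ k0, one_pow]
  · refine qmod_char hb hr (smul_ne_zero t0.ne' hk) (((qmod_der hb hr y k hk).const_mul
      t).congr_of_eventuallyEq (Filter.Eventually.of_forall fun z => hb.hom z k t t0.le))
      fun v => ?_
    simp only [smul_apply, smul_eq_mul, hb.hom y k t t0.le]
    ring
  · obtain ⟨T, a, T', a', hs, rfl⟩ := ht y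
    have k0 : 0 < ‖a' k‖ := norm_pos_iff.2 (hs.bw.ne k hk)
    have k1 : 0 < ‖a' k'‖ := norm_pos_iff.2 (hs.bw.ne k' hk')
    rw [key hs k hk, key hs k' hk'] at e
    have e1 := (qmod_onto hr hs.fw 0).1 e
    have e2 : a' k' = (‖a' k'‖ * ‖a' k‖⁻¹) • a' k := by
      rw [mul_smul, e1, smul_inv_smul₀ k1.ne']
    refine ⟨‖a' k'‖ * ‖a' k‖⁻¹, by positivity, ?_⟩
    rw [← hs.ar k, ← hs.fw.hom _ _ (by rw [hs.al]; positivity), hs.al, ← e2, hs.ar]
  · obtain ⟨T, a, T', a', hs, rfl⟩ := ht y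
    obtain ⟨θ, rfl⟩ := (qmod_onto hr hs.fw 0).2 w
    rw [hs.fw.iso, qmod_h0 S, real_inner_self_eq_norm_sq] at hw
    have h1 : ‖θ‖ = 1 := (pow_eq_one_iff_of_nonneg (norm_nonneg _) two_ne_zero).1 hw
    have k0 : θ ≠ 0 := norm_ne_zero_iff.1 (by rw [h1]; exact one_ne_zero)
    refine ⟨a θ, hs.fw.ne θ k0, ?_⟩
    rw [key hs _ (hs.fw.ne θ k0), hs.al, h1, inv_one, one_smul]

end Pool.Agent.MP_3ee8cb_gt.CR
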