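import Pool.Agent.MP_3ee8cb_gt.RS.SpecC

/-! Normal form of a pair of boundary vectors. -/

namespace Pool.Agent.MP_3ee8cb_gt.CR

open scoped RealInnerProductSpace
open Filter

variable {n : ℕ} {D : Tri n} {d : ℕ}

theorem qnf_up (y : E n) : ‖y‖ ≤ (up y).1 ∧ 1 ≤ (up y).1 := by
  constructor
  · exact Real.le_sqrt_of_sq_le (by linarith)
  · exact Real.le_sqrt_of_sq_le (by nlinarith [sq_nonneg ‖y‖])

theorem qnf_nn {k m : E n} (h : lD D k m = 2) : NN D ‖k‖ k ‖m‖ m = 4 := by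
  have := Real.sqrt_eq_iff_mul_self_eq_of_pos (x := NN D ‖k‖ k ‖m‖ m) (y := 2) two_pos
  have h2 := this.1 h
  linarith

theorem qnf_lt (A : AlgP D d) {k m : E n} (h : lD D k m = 2) :
    0 < ‖k‖ * ‖m‖ ∧ ⟪k, m⟫ < ‖k‖ * ‖m‖ := by
  have h1 := qnf_nn h
  have h2 := A.rup k m
  rw [NN] at h1
  have h3 : 0 < ‖k‖ * ‖m‖ * (‖k‖ * ‖m‖ - ⟪k, m⟫) := by nlinarith
  have h4 : 0 ≤ ‖k‖ * ‖m‖ := by positivity
  have h5 : 0 < ‖k‖ * ‖m‖ := by
    rcases h4.eq_or_lt with h0 | h0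
    · rw [← h0, zero_mul] at h3
      exact absurd h3 (lt_irrefl _)
    · exact h0
  exact ⟨h5, sub_pos.1 ((mul_pos_iff_of_pos_left h5).1 h3)⟩

theorem qnf_min (A : AlgP D d) (B : BasP D) {k m : E n} (h : lD D k m = 2) :
    ∃ z, ∀ y, el D z k ^ 2 + el D z m ^ 2 ≤ el D y k ^ 2 + el D y m ^ 2 := by
  obtain ⟨h1, h2⟩ := qnf_lt A h
  set v : E n := ‖m‖ • k + ‖k‖ • m with hv
  have h3 : ‖v‖ < 2 * (‖k‖ * ‖m‖) := by
    refine lt_of_pow_lt_pow_left₀ 2 (by positivity) ?_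
    rw [hv, norm_add_sq_real, norm_smul, norm_smul, real_inner_smul_left, real_inner_smul_right,
      norm_norm, norm_norm]
    nlinarith
  set δ := 2 * (‖k‖ * ‖m‖) - ‖v‖ with hδ
  have hδ0 : 0 < δ := sub_pos.2 h3
  have hk : 0 < ‖k‖ := lt_of_le_of_ne (norm_nonneg k) fun e => by
    rw [← e, zero_mul] at h1
    exact lt_irrefl _ h1
  have hs : 0 < ‖k‖ ^ 2 + ‖m‖ ^ 2 := by positivity
  have key : ∀ y : E n, δ ^ 2 / (‖k‖ ^ 2 + ‖m‖ ^ 2) * ‖y‖ ^ 2 ≤ el D y k ^ 2 + el D y m ^ 2 := by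
    intro y
    have a1 := mul_le_mul_of_nonneg_left (B.low y k) (norm_nonneg m)
    have a2 := mul_le_mul_of_nonneg_left (B.low y m) (norm_nonneg k)
    have a3 : ‖m‖ * ⟪y, k⟫ + ‖k‖ * ⟪y, m⟫ ≤ ‖y‖ * ‖v‖ := by
      have := real_inner_le_norm y v
      rwa [hv, inner_add_right, real_inner_smul_right, real_inner_smul_right] at this
    have a4 := mul_le_mul_of_nonneg_right (qnf_up y).1 h1.le
    have a5 : δ * ‖y‖ ≤ ‖m‖ * el D y k + ‖k‖ * el D y m := by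
      rw [hδ]
      linarith
    have a6 : (δ * ‖y‖) ^ 2 ≤ (‖m‖ * el D y k + ‖k‖ * el D y m) ^ 2 :=
      pow_le_pow_left₀ (by positivity) a5 2
    rw [div_mul_eq_mul_div, div_le_iff₀ hs]
    nlinarith [sq_nonneg (‖k‖ * el D y k - ‖m‖ * el D y m)]
  have c1 : ∀ p : E n, Continuous fun y => el D y p := fun p =>
    Continuous.comp (g := fun w : E n × E n => el D w.1 w.2) (f := fun y : E n => (y, p))
      B.cont (continuous_id.prodMk continuous_const)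
  refine Continuous.exists_forall_le (f := fun y => el D y k ^ 2 + el D y m ^ 2)
    (((c1 k).pow 2).add ((c1 m).pow 2)) ?_
  refine tendsto_atTop_mono key ?_
  exact Tendsto.const_mul_atTop (by positivity)
    ((tendsto_pow_atTop two_ne_zero).comp tendsto_norm_cocompact_atTop)

theorem qnf_crit (A : AlgP D d) (B : BasP D) {k m : E n} (hk : k ≠ 0)
    (h : ∀ y, el D 0 k ^ 2 + el D 0 m ^ 2 ≤ el D y k ^ 2 + el D y m ^ 2) : m = -k := by
  have hk0 : 0 < ‖k‖ := norm_pos_iff.2 hk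
  set w : E n := ‖k‖ • k + ‖m‖ • m with hw
  set α := ‖k‖ ^ 2 + ‖m‖ ^ 2 with hα
  have hα0 : 0 < α := by positivity
  have h1 : ∀ y : E n, (up y).1 * ⟪w, y⟫ ≤ α * ‖y‖ ^ 2 := by
    intro y
    have a1 := h y
    rw [B.zero, B.zero, B.sq, B.sq] at a1
    have a2 := A.rup k y
    have a3 := A.rup m y
    simp only [pr, ver, RR] at a1 a2 a3
    rw [hw, inner_add_left, hα]
    nlinarith
  have h2 : w = 0 := by
    have a1 := h1 ((2 * α)⁻¹ • w)
    have a2 := (qnf_up ((2 * α)⁻¹ • w)).2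
    rw [real_inner_smul_right, real_inner_self_eq_norm_sq, norm_smul, Real.norm_eq_abs,
      abs_of_pos (by positivity)] at a1
    have a3 : (2 * α)⁻¹ * ‖w‖ ^ 2 ≤ α * ((2 * α)⁻¹ * ‖w‖) ^ 2 :=
      le_trans (le_mul_of_one_le_left (by positivity) a2) a1
    have a4 : α * ((2 * α)⁻¹ * ‖w‖) ^ 2 = (2 * α)⁻¹ * ‖w‖ ^ 2 / 2 := by field_simp
    have a5 : (2 * α)⁻¹ * ‖w‖ ^ 2 ≤ 0 := by linarith
    have a6 : ‖w‖ ^ 2 ≤ 0 := by
      by_contra a7
      exact absurd a5 (not_le.2 (mul_pos (by positivity) (not_le.1 a7)))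
    exact norm_eq_zero.1 (pow_eq_zero_iff two_ne_zero |>.1 (le_antisymm a6 (by positivity)))
  have h3 : ‖m‖ • m = -(‖k‖ • k) := eq_neg_of_add_eq_zero_right h2
  have h4 : ‖m‖ = ‖k‖ := by
    have := congrArg norm h3
    rw [norm_neg, norm_smul, norm_smul, norm_norm, norm_norm] at this
    exact (mul_self_inj_of_nonneg (norm_nonneg _) (norm_nonneg _)).1 this
  rw [h4, ← smul_neg] at h3
  exact smul_right_injective _ hk0.ne' h3

theorem qnf_one (A : AlgP D d) {k : E n} (h : lD D k (-k) = 2) : ‖k‖ = 1 := by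
  have h1 := qnf_nn h
  have h2 := A.rup k (-k)
  have h3 := A.rlo k (-k)
  rw [NN] at h1
  rw [norm_neg] at h1 h2
  rw [inner_neg_right, real_inner_self_eq_norm_sq] at h1 h3
  have h4 : ‖k‖ ^ 4 = 1 := by nlinarith
  exact (pow_eq_one_iff_of_nonneg (norm_nonneg _) (by norm_num)).1 h4

theorem qnf : SNF := by
  intro n D d h _ A B Tr k m hl
  obtain ⟨z, hz⟩ := qnf_min A B hl
  obtain ⟨T, a, T', a', S, hT⟩ := Tr z
  have hk : k ≠ 0 := by
    rintro rfl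
    have := (qnf_lt A hl).1
    simp at this
  have e : ∀ y p, el D y (a' p) = el D (T y) p := fun y p => by rw [← S.fw.el, S.ar]
  have h1 : a' m = -a' k := qnf_crit A B (S.bw.ne k hk) fun y => by
    rw [e, e, e, e, hT]
    exact hz _
  refine ⟨T, a, T', a', a' k, S, qnf_one A ?_, S.ar k, ?_⟩
  · rw [← h1, S.bw.ll, hl]
  · rw [← h1, S.ar]

end Pool.Agent.MP_3ee8cb_gt.CR
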