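import Pool.Agent.MP_3ee8cb_gt.RS.SpecD
import Pool.Agent.MP_3ee8cb_gt.CR.RNUC

/-! The determinant bound for the barycentre. -/

namespace Pool.Agent.MP_3ee8cb_gt.CR

open Set MeasureTheory
open scoped RealInnerProductSpace

variable {n : ℕ}

noncomputable def qnu_dg (e : OrthonormalBasis (Fin n) ℝ (E n)) (l : Fin n → ℝ) :
    E n →L[ℝ] E n := ∑ i, l i • (innerSL ℝ (e i)).smulRight (e i)

theorem qnu_app (e : OrthonormalBasis (Fin n) ℝ (E n)) (l : Fin n → ℝ) (w : E n) :
    qnu_dg e l w = ∑ i, (l i * ⟪e i, w⟫) • e i := by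
  simp [qnu_dg, smul_smul]

theorem qnu_co (e : OrthonormalBasis (Fin n) ℝ (E n)) (l : Fin n → ℝ) (w : E n) (j : Fin n) :
    ⟪e j, qnu_dg e l w⟫ = l j * ⟪e j, w⟫ := by
  rw [qnu_app, e.orthonormal.inner_right_fintype]

theorem qnu_ext (e : OrthonormalBasis (Fin n) ℝ (E n)) {u w : E n}
    (h : ∀ j, ⟪e j, u⟫ = ⟪e j, w⟫) : u = w := by
  rw [← e.sum_repr' u, ← e.sum_repr' w]
  exact Finset.sum_congr rfl fun j _ => by rw [h j]

theorem qnu_e (e : OrthonormalBasis (Fin n) ℝ (E n)) (l : Fin n → ℝ) (j : Fin n) :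
    qnu_dg e l (e j) = l j • e j := by
  refine qnu_ext e fun i => ?_
  rw [qnu_co, real_inner_smul_right, e.inner_eq_ite]
  split_ifs with h
  · rw [h]
  · simp

theorem qnu_det (e : OrthonormalBasis (Fin n) ℝ (E n)) (l : Fin n → ℝ) :
    (qnu_dg e l).det = ∏ i, l i := by
  let L : E n →ₗ[ℝ] E n := qnu_dg e l
  have h1 : e.toBasis.det (L ∘ e.toBasis) = (qnu_dg e l).det := by
    rw [Module.Basis.det_comp, Module.Basis.det_self, mul_one]
  have h2 : (L ∘ e.toBasis) = fun i => l i • e.toBasis i := funext fun i => qnu_e e l i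
  rw [← h1, h2, AlternatingMap.map_smul_univ, smul_eq_mul]
  rw [show e.toBasis.det (fun i => e.toBasis i) = 1 from Module.Basis.det_self _, mul_one]

theorem qnu_in (e : OrthonormalBasis (Fin n) ℝ (E n)) (l : Fin n → ℝ) (u w : E n) :
    ⟪qnu_dg e l u, w⟫ = ∑ i, l i * (⟪e i, u⟫ * ⟪e i, w⟫) := by
  rw [qnu_app, sum_inner]
  exact Finset.sum_congr rfl fun i _ => by rw [real_inner_smul_left]; ring

theorem qnu_am (s : Fin n → ℝ) (hn : 0 < n) (hs : ∀ i, 0 < s i) (r : ℝ) (h : ∑ i, s i ≤ n * r) :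
    ∏ i, s i ≤ r ^ n := by
  have hn' : (0 : ℝ) < n := by exact_mod_cast hn
  have : Nonempty (Fin n) := ⟨⟨0, hn⟩⟩
  have hr : 0 < r := by
    have := Finset.sum_pos (fun i (_ : i ∈ Finset.univ) => hs i) Finset.univ_nonempty
    by_contra h0
    nlinarith [not_lt.1 h0]
  have h1 : ∑ i, Real.log (s i / r) ≤ ∑ i, (s i / r - 1) :=
    Finset.sum_le_sum fun i _ => Real.log_le_sub_one_of_pos (div_pos (hs i) hr)
  have h2 : ∑ i, (s i / r - 1) ≤ 0 := by
    rw [Finset.sum_sub_distrib, ← Finset.sum_div]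
    simp only [Finset.sum_const, Finset.card_univ, Fintype.card_fin, nsmul_eq_mul, mul_one]
    rw [sub_nonpos, div_le_iff₀ hr]
    exact h
  rw [← Real.log_prod fun i _ => (div_pos (hs i) hr).ne'] at h1
  have h3 := (Real.log_nonpos_iff (Finset.prod_nonneg fun i _ => (div_pos (hs i) hr).le)).1
    (h1.trans h2)
  rw [Finset.prod_div_distrib, div_le_one (Finset.prod_pos fun _ _ => hr)] at h3
  simpa using h3

theorem qnu (hn : SNUC) (hs : SSCA) : SNU := by
  intro n D d h S al tk μ _ a b P J ha hb hab hP hJ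
  have n0 : (0 : ℝ) < n := by exact_mod_cast S.pos
  have d0 : (0 : ℝ) < d := by exact_mod_cast al.one
  have cD : Continuous fun x : E n => D x x :=
    D.continuous₂.comp (continuous_id.prodMk continuous_id)
  have iD : ∀ w, Integrable (fun x => D (a x) (a x) w) μ := fun w => by
    have c2 : Continuous fun x : E n => D x x w := cD.clm_apply continuous_const
    refine Integrable.of_bound (c2.comp_aestronglyMeasurable ha) ‖w‖ ?_
    filter_upwards [hab] with x hx
    have h1 := al.rup (a x) w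
    have h2 := al.ops (a x) (a x) (D (a x) (a x) w) w
    rw [al.idem, hx.1, real_inner_self_eq_norm_sq] at h2
    rw [RR, hx.1] at h1
    simp only [one_pow, one_smul, one_mul] at h1 h2
    exact abs_le_of_sq_le_sq' (h2 ▸ h1) (norm_nonneg _) |>.2
  have hPi : ∀ u w, ⟪u, P w⟫ = ∫ x, ⟪u, D (a x) (a x) w⟫ ∂μ := fun u w => by
    rw [hP, integral_inner (iD w)]
  have iD' : ∀ u w, Integrable (fun x => ⟪u, D (a x) (a x) w⟫) μ := fun u w =>
    (iD w).const_inner u
  have sP : (P : E n →ₗ[ℝ] E n).IsSymmetric := fun u w => by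
    change ⟪P u, w⟫ = ⟪u, P w⟫
    rw [real_inner_comm, hPi, hPi]
    refine integral_congr_ae (Filter.Eventually.of_forall fun x => ?_)
    beta_reduce
    rw [real_inner_comm, al.ops]
  have hf : Module.finrank ℝ (E n) = n := by simp
  let e := sP.eigenvectorBasis hf
  let p : Fin n → ℝ := sP.eigenvalues hf
  have hpe : ∀ i, P (e i) = p i • e i := fun i => sP.apply_eigenvectorBasis hf i
  have hp : ∀ i, p i = ∫ x, ⟪e i, D (a x) (a x) (e i)⟫ ∂μ := fun i => by
    rw [← hPi, hpe, real_inner_smul_right, real_inner_self_eq_norm_sq, e.orthonormal.1 i]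
    ring
  have hp1 : ∀ i, 0 ≤ p i ∧ p i ≤ 1 := fun i => by
    rw [hp]
    constructor
    · refine integral_nonneg fun x => ?_
      have := al.rlo (a x) (e i)
      exact (sq_nonneg _).trans (this.trans_eq (real_inner_comm _ _))
    · calc _ ≤ ∫ _, (1 : ℝ) ∂μ := by
            refine integral_mono_ae (iD' _ _) (integrable_const _) ?_
            filter_upwards [hab] with x hx
            have := al.rup (a x) (e i)
            rw [RR, real_inner_comm, hx.1, e.orthonormal.1 i] at this
            simpa using this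
        _ = 1 := by simp
  have hsum : ∑ i, p i = d := by
    simp only [hp]
    rw [← integral_finsetSum _ fun i _ => iD' _ _]
    calc _ = ∫ _, (d : ℝ) ∂μ := by
          refine integral_congr_ae ?_
          filter_upwards [hab] with x hx
          have := S.hopf.tr (a x)
          rw [LinearMap.trace_eq_sum_inner _ e, hx.1] at this
          simpa using this
      _ = d := by simp
  have q0 : ∀ i, 0 < 1 + p i := fun i => by linarith [(hp1 i).1]
  have hPc : ∀ w j, ⟪e j, P w⟫ = p j * ⟪e j, w⟫ := fun w j => by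
    have := sP (e j) w
    change ⟪P (e j), w⟫ = ⟪e j, P w⟫ at this
    rw [← this, hpe, real_inner_smul_left]
  have hK : ∀ w, qnu_dg e (fun i => 1 + p i) w = w + P w := fun w =>
    qnu_ext e fun j => by rw [qnu_co, inner_add_right, hPc]; ring
  obtain ⟨s1, s2⟩ := hs n d p S.pos d0 hp1 hsum
  set τ : ℝ := (d : ℝ)⁻¹ * ∑ i, p i / (1 + p i) with hτ
  have τ0 : 0 < τ := by
    refine mul_pos (inv_pos.2 d0) ?_
    have : ∑ i, p i / 2 ≤ ∑ i, p i / (1 + p i) := Finset.sum_le_sum fun i _ =>
      div_le_div_of_nonneg_left (hp1 i).1 (q0 i) (by linarith [(hp1 i).2])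
    rw [← Finset.sum_div, hsum] at this
    linarith
  have hM : ∀ u : E n, Integrable (fun x => ⟪b x, u⟫ • a x) μ := fun u => by
    have hm : AEStronglyMeasurable (fun x => ⟪b x, u⟫) μ := hb.inner aestronglyMeasurable_const
    refine Integrable.of_bound (hm.smul ha) ‖u‖ ?_
    filter_upwards [hab] with x hx
    rw [norm_smul, hx.1, mul_one]
    exact (norm_inner_le_norm _ _).trans (by rw [hx.2, one_mul])
  let Ki := qnu_dg e fun i => (1 + p i)⁻¹
  have key : ∀ x : E n, ‖x‖ = 1 →
      ⟪Ki x, x⟫ ≤ (d : ℝ)⁻¹ * ∑ i, (1 + p i)⁻¹ * ⟪e i, D x x (e i)⟫ := by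
    intro x hx
    have := tk (qnu_dg e fun i => 1 + p i) Ki
      (fun u w => by
        rw [qnu_in, real_inner_comm, qnu_in]
        exact Finset.sum_congr rfl fun i _ => by ring)
      (fun u => by
        rw [qnu_in]
        exact Finset.sum_nonneg fun i _ => mul_nonneg (q0 i).le (mul_self_nonneg _))
      (fun u => qnu_ext e fun j => by
        rw [qnu_co, qnu_co, ← mul_assoc, mul_inv_cancel₀ (q0 j).ne', one_mul])
      (fun u z hz hu => by
        have h1 := al.same u z hu hz
        rw [hK, hK, inner_add_left, inner_add_left, real_inner_self_eq_norm_sq,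
          real_inner_self_eq_norm_sq, real_inner_comm z, real_inner_comm u, hPi, hPi, mul_add,
          mul_add, ← integral_const_mul, ← integral_const_mul]
        congr 1
        · ring
        · refine integral_congr_ae (Filter.Eventually.of_forall fun y => ?_)
          have h2 := congrArg (fun L : E n →L[ℝ] E n => ⟪L (a y), a y⟫) h1
          simp only [smul_apply, real_inner_smul_left] at h2
          have h3 := al.rsy (a y) z
          have h4 := al.rsy (a y) u
          simp only [RR] at h3 h4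
          beta_reduce
          rw [real_inner_comm _ z, real_inner_comm _ u, h3, h4, h2]) x hx
    rw [LinearMap.trace_eq_sum_inner _ e] at this
    rw [le_inv_mul_iff₀ d0]
    refine this.trans (le_of_eq (Finset.sum_congr rfl fun i _ => ?_))
    exact qnu_co e _ _ i
  have main : (∏ i, (1 + p i)) * J.det ^ 2 ≤ (((n + d) / n) ^ 2 * τ) ^ n := by
    by_cases h0 : J.det = 0
    · rw [h0]
      simp only [ne_eq, OfNat.ofNat_ne_zero, not_false_eq_true, zero_pow, mul_zero]
      positivity
    let Q := qnu_dg e fun i => √(1 + p i)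
    let R := qnu_dg e fun i => (√(1 + p i))⁻¹
    have r0 : ∀ i, 0 < √(1 + p i) := fun i => Real.sqrt_pos.2 (q0 i)
    have hdet : (Q.comp J).det = (∏ i, √(1 + p i)) * J.det := by
      rw [← qnu_det e]
      exact LinearMap.det_comp (Q : E n →ₗ[ℝ] E n) (J : E n →ₗ[ℝ] E n)
    obtain ⟨u, f, s, hs0, huf, hd⟩ := nuc_svd (Q.comp J)
      (by rw [hdet]; exact mul_ne_zero (Finset.prod_pos fun i _ => r0 i).ne' h0)
    have hQ : ∀ w, Q (J w) = R (J w + P (J w)) := fun w => qnu_ext e fun j => by
      rw [qnu_co, qnu_co, inner_add_right, hPc]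
      have := Real.mul_self_sqrt (q0 j).le
      field_simp [(r0 j).ne']
      rw [sq, this]
    have iR : ∀ i, Integrable (fun x => ⟪f i, R (⟪b x, u i⟫ • a x)⟫) μ := fun i =>
      (R.integrable_comp (hM _)).const_inner _
    have hsi : ∀ i, s i = (n + d) * ∫ x, ⟪f i, R (⟪b x, u i⟫ • a x)⟫ ∂μ := fun i => by
      rw [integral_inner (R.integrable_comp (hM _)), R.integral_comp_comm (hM _),
        ← real_inner_smul_right, ← map_smul, ← hJ, ← hQ]
      change _ = ⟪f i, (Q.comp J) (u i)⟫
      rw [huf, real_inner_smul_right, real_inner_self_eq_norm_sq, f.orthonormal.1 i]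
      ring
    have t0 : 0 < √τ := Real.sqrt_pos.2 τ0
    have hb2 : ∫ x, ∑ i, ⟪f i, R (⟪b x, u i⟫ • a x)⟫ ∂μ ≤
        ∫ x, (√τ / 2 + (2 * √τ)⁻¹ * ((d : ℝ)⁻¹ *
          ∑ i, (1 + p i)⁻¹ * ⟪e i, D (a x) (a x) (e i)⟫)) ∂μ := by
      refine integral_mono_ae (integrable_finsetSum _ fun i _ => iR i) ((integrable_const _).add
        (((integrable_finsetSum _ fun i _ => (iD' _ _).const_mul _).const_mul _).const_mul _)) ?_
      filter_upwards [hab] with x hx
      have h1 := u.sum_sq_inner_right (b x)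
      have h2 := f.sum_sq_inner_right (R (a x))
      have h3 : ‖R (a x)‖ ^ 2 = ⟪Ki (a x), a x⟫ := by
        rw [← e.sum_sq_inner_right, qnu_in]
        refine Finset.sum_congr rfl fun i _ => ?_
        rw [qnu_co, mul_pow, inv_pow, Real.sq_sqrt (q0 i).le, sq]
      have h4 : ∑ i, ⟪f i, R (⟪b x, u i⟫ • a x)⟫ ≤
          ∑ i, (√τ / 2 * ⟪u i, b x⟫ ^ 2 + (2 * √τ)⁻¹ * ⟪f i, R (a x)⟫ ^ 2) := by
        refine Finset.sum_le_sum fun i _ => ?_
        rw [map_smul, real_inner_smul_right, real_inner_comm (u i)]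
        have : √τ / 2 * ⟪u i, b x⟫ ^ 2 + (2 * √τ)⁻¹ * ⟪f i, R (a x)⟫ ^ 2 -
            ⟪u i, b x⟫ * ⟪f i, R (a x)⟫ =
            (2 * √τ)⁻¹ * (√τ * ⟪u i, b x⟫ - ⟪f i, R (a x)⟫) ^ 2 := by
          field_simp
          ring
        have h5 : 0 ≤ (2 * √τ)⁻¹ * (√τ * ⟪u i, b x⟫ - ⟪f i, R (a x)⟫) ^ 2 := by positivity
        linarith
      rw [Finset.sum_add_distrib, ← Finset.mul_sum, ← Finset.mul_sum, h1, h2, h3, hx.2] at h4
      refine h4.trans ?_
      have := key (a x) hx.1
      simp only [one_pow, mul_one]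
      gcongr
    rw [integral_add (integrable_const _)
      (((integrable_finsetSum _ fun i _ => (iD' _ _).const_mul _).const_mul _).const_mul _),
      integral_const_mul, integral_const_mul,
      integral_finsetSum _ fun i _ => (iD' _ _).const_mul _,
      integral_finsetSum _ fun i _ => iR i] at hb2
    simp only [integral_const_mul, ← hp, integral_const, probReal_univ, one_smul] at hb2
    have h6 : (d : ℝ)⁻¹ * ∑ i, (1 + p i)⁻¹ * p i = √τ * √τ := by
      rw [Real.mul_self_sqrt τ0.le, hτ]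
      congr 1
      exact Finset.sum_congr rfl fun i _ => by rw [div_eq_inv_mul]
    rw [h6] at hb2
    have h7 : √τ / 2 + (2 * √τ)⁻¹ * (√τ * √τ) = √τ := by field_simp; ring
    rw [h7] at hb2
    have h8 : ∑ i, s i ≤ n * ((n + d) / n * √τ) := by
      simp only [hsi]
      rw [← Finset.mul_sum]
      calc _ ≤ (n + d) * √τ := by gcongr
        _ = _ := by field_simp
    have h9 := qnu_am s S.pos hs0 _ h8
    rw [← hd, hdet] at h9
    have h10 := pow_le_pow_left₀ (abs_nonneg _) h9 2
    rw [sq_abs, mul_pow, ← Finset.prod_pow, ← pow_mul, mul_comm n 2, pow_mul, mul_pow,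
      Real.sq_sqrt τ0.le] at h10
    simpa only [Real.sq_sqrt (q0 _).le] using h10
  have k0 : 0 < ∏ i, (1 + p i) := Finset.prod_pos fun i _ => q0 i
  refine ⟨?_, fun h1 => ?_⟩
  · rw [← sq_le_one_iff_abs_le_one]
    have := main.trans s1
    nlinarith
  · have h2 : 1 ≤ J.det ^ 2 := by rw [← sq_abs]; nlinarith
    have h3 := s2 (le_trans (by nlinarith) main)
    have h4 : ∀ w, J w = ∫ x, ⟪b x, w⟫ • a x ∂((n : NNReal) • μ) := fun w => by
      rw [integral_smul_nnreal_measure]
      refine qnu_ext e fun j => ?_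
      have := congrArg (fun z => ⟪e j, z⟫) (hJ w)
      simp only [inner_add_right, hPc, h3, real_inner_smul_right] at this
      rw [NNReal.smul_def, real_inner_smul_right]
      have h5 : (0 : ℝ) < n + d := by positivity
      push_cast
      field_simp at this
      nlinarith
    have h5 := (hn n (E n) ((n : NNReal) • μ) a b J (ha.smul_measure _) (hb.smul_measure _)
      (Measure.ae_smul_measure hab _) (by simp) h4).2 h1
    exact (Measure.ae_smul_measure_iff (by exact_mod_cast S.pos.ne')).1 h5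

end Pool.Agent.MP_3ee8cb_gt.CR
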