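import Pool.Agent.MP_3ee8cb_gt.RS.SpecC

namespace Pool.Agent.MP_3ee8cb_gt.CR

open Set Filter Topology
open scoped RealInnerProductSpace

variable {n : ℕ} {D : Tri n} {d : ℕ} {h : Met n} {u : E n → E n → E n}

/-- `k` is the normalised boundary vector seen from `y` in the direction `w`. -/
def qphi_Ch (D : Tri n) (u : E n → E n → E n) (y w k : E n) : Prop :=
  k ≠ 0 ∧ el D y k = 1 ∧ u y k = w

theorem qphi_ex (hb : BasP D) (hm : ModP D d h u) {y w : E n} (hw : h y w w = 1) :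
    ∃ k, qphi_Ch D u y w k := by
  obtain ⟨k, hk, hu⟩ := hm.onto y w hw
  have hp := hb.pos y k hk
  refine ⟨(el D y k)⁻¹ • k, smul_ne_zero (inv_ne_zero hp.ne') hk, ?_, ?_⟩
  · rw [hb.hom y k _ (inv_pos.2 hp).le, inv_mul_cancel₀ hp.ne']
  · rw [hm.hom y k _ hk (inv_pos.2 hp), hu]

theorem qphi_uniq (hb : BasP D) (hm : ModP D d h u) {y w k k' : E n}
    (h1 : qphi_Ch D u y w k) (h2 : qphi_Ch D u y w k') : k = k' := by
  obtain ⟨t, ht, rfl⟩ := hm.inj y k k' h1.1 h2.1 (h1.2.2.trans h2.2.2.symm)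
  have h3 := h2.2.1
  rw [hb.hom y k t ht.le, h1.2.1, mul_one] at h3
  rw [h3, one_smul]

theorem qphi_tr (hm : ModP D d h u) {T a : E n → E n} (hs : Sym D d h T a) {y w k : E n}
    (h1 : qphi_Ch D u y w k) : qphi_Ch D u (T y) (fderiv ℝ T y w) (a k) :=
  ⟨hs.ne k h1.1, by rw [hs.el, h1.2.1], by rw [hm.equi T a hs y k h1.1, h1.2.2]⟩

theorem qphi_zero (hb : BasP D) (hm : ModP D d h u) {w k : E n} (h1 : qphi_Ch D u 0 w k) :
    ‖k‖ = 1 ∧ k = w := by
  have h2 : ‖k‖ = 1 := by rw [← hb.zero, h1.2.1]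
  refine ⟨h2, ?_⟩
  rw [← h1.2.2, hm.zero k h1.1, h2, inv_one, one_smul]

theorem qphi_zero' (hb : BasP D) (hm : ModP D d h u) {θ : E n} (h1 : ‖θ‖ = 1) :
    qphi_Ch D u 0 θ θ := by
  have h0 : θ ≠ 0 := by
    rintro rfl
    simp at h1
  exact ⟨h0, by rw [hb.zero, h1], by rw [hm.zero θ h0, h1, inv_one, one_smul]⟩

theorem qphi_up (y : E n) : ‖y‖ ≤ (up y).1 ∧ 1 ≤ (up y).1 ∧ (up y).1 ^ 2 = 1 + ‖y‖ ^ 2 := by
  have h1 : (up y).1 ^ 2 = 1 + ‖y‖ ^ 2 := Real.sq_sqrt (by positivity)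
  have h0 : 0 ≤ (up y).1 := Real.sqrt_nonneg _
  refine ⟨?_, ?_, h1⟩
  · exact abs_le_of_sq_le_sq' (by nlinarith) h0 |>.2
  · exact abs_le_of_sq_le_sq' (by nlinarith [sq_nonneg ‖y‖]) h0 |>.2

theorem qphi_nf (hb : BasP D) (ht : TraP D d h) (hm : ModP D d h u) {y w k m : E n}
    (h1 : qphi_Ch D u y w k) (h2 : qphi_Ch D u y (-w) m) :
    lD D k m = 2 ∧ ∀ y', el D y' k = 1 → el D y' m = 1 → y' = y := by
  obtain ⟨T, a, T', a', hs, hT⟩ := ht y
  have hy : T' y = 0 := by rw [← hT, hs.tl]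
  have h3 := qphi_tr hm hs.bw h1
  have h4 := qphi_tr hm hs.bw h2
  rw [hy] at h3 h4
  obtain ⟨h5, h6⟩ := qphi_zero hb hm h3
  obtain ⟨-, h7⟩ := qphi_zero hb hm h4
  rw [map_neg, ← h6] at h7
  refine ⟨?_, fun y' e1 e2 => ?_⟩
  · rw [← hs.bw.ll, h7, hb.bd.neg, h5]; norm_num
  · have f1 := hb.low (T' y') (a' k)
    have f2 := hb.low (T' y') (a' m)
    rw [hs.bw.el, e1, h5] at f1
    rw [hs.bw.el, e2, h7, norm_neg, h5, inner_neg_right] at f2
    obtain ⟨-, g2, g3⟩ := qphi_up (T' y')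
    have g4 : (up (T' y')).1 = 1 := by linarith
    rw [g4] at g3
    have g5 : ‖T' y'‖ = 0 := by nlinarith [norm_nonneg (T' y')]
    rw [← hs.tr y', norm_eq_zero.1 g5, hT]

theorem qphi_el0 (hb : BasP D) (y : E n) : el D y 0 = 0 := by
  have := hb.hom y 0 0 le_rfl
  rwa [zero_smul, zero_mul] at this

theorem qphi_cont (hb : BasP D) (hm : ModP D d h u) {X : Type} [TopologicalSpace X]
    {Y W κ : X → E n} (hY : Continuous Y) (hW : Continuous W)
    (hκ : ∀ x, qphi_Ch D u (Y x) (W x) (κ x)) : Continuous κ := by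
  rw [continuous_iff_continuousAt]
  intro x
  have hbd : ∀ x', ‖κ x'‖ ≤ 2 * (1 + ‖Y x'‖) := by
    intro x'
    have f1 := hb.low (Y x') (κ x')
    rw [(hκ x').2.1] at f1
    obtain ⟨g1, g2, g3⟩ := qphi_up (Y x')
    have g4 := real_inner_le_norm (Y x') (κ x')
    have g5 : ((up (Y x')).1 - ‖Y x'‖) * ‖κ x'‖ ≤ 1 := by linarith
    have g6 : 0 ≤ (up (Y x')).1 + ‖Y x'‖ := by positivity
    have g7 := mul_le_mul_of_nonneg_left g5 g6
    have g8 : (up (Y x')).1 ≤ 1 + ‖Y x'‖ :=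
      abs_le_of_sq_le_sq' (by nlinarith [norm_nonneg (Y x')]) (by positivity) |>.2
    have g9 : ((up (Y x')).1 + ‖Y x'‖) * (((up (Y x')).1 - ‖Y x'‖) * ‖κ x'‖) = ‖κ x'‖ := by
      have : ((up (Y x')).1 + ‖Y x'‖) * ((up (Y x')).1 - ‖Y x'‖) = 1 := by nlinarith
      rw [← mul_assoc, this, one_mul]
    linarith
  refine (isCompact_closedBall (0 : E n) (2 * (1 + (‖Y x‖ + 1)))).tendsto_nhds_of_unique_mapClusterPt
    ?_ ?_
  · have : ∀ᶠ x' in 𝓝 x, ‖Y x'‖ < ‖Y x‖ + 1 :=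
      (hY.norm.tendsto x).eventually (gt_mem_nhds (by linarith))
    filter_upwards [this] with x' hx'
    rw [mem_closedBall_zero_iff]
    linarith [hbd x']
  · intro k _ hk
    obtain ⟨U, hU, hk⟩ := mapClusterPt_iff_ultrafilter.1 hk
    have hp : Tendsto (fun x' => (Y x', κ x')) U (𝓝 (Y x, k)) :=
      ((hY.tendsto x).mono_left hU).prodMk_nhds hk
    have e1 : el D (Y x) k = 1 := by
      have := (hb.cont.tendsto (Y x, k)).comp hp
      refine tendsto_nhds_unique this (tendsto_const_nhds.congr fun x' => ?_)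
      exact (hκ x').2.1.symm
    have e0 : k ≠ 0 := by
      rintro rfl
      rw [qphi_el0 hb] at e1
      exact zero_ne_one e1
    have e2 : u (Y x) k = W x := by
      have hc : ContinuousAt (fun w : E n × E n => u w.1 w.2) (Y x, k) :=
        hm.cont.continuousAt ((isOpen_ne_fun continuous_snd continuous_const).mem_nhds e0)
      have := hc.tendsto.comp hp
      refine tendsto_nhds_unique this (((hW.tendsto x).mono_left hU).congr fun x' => ?_)
      exact (hκ x').2.2.symm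
    exact qphi_uniq hb hm ⟨e0, e1, e2⟩ (hκ x)

theorem qphi_gap (hb : BasP D) {k m : E n} (hl : lD D k m = 2) : ‖k + m‖ < ‖k‖ + ‖m‖ := by
  refine lt_of_le_of_ne (norm_add_le _ _) fun he => ?_
  have h0 : ∀ b, lD D 0 b = 0 := fun b => by
    have := hb.bd.hom 0 0 b le_rfl
    rwa [zero_smul, zero_mul] at this
  rcases sameRay_iff_norm_add.2 he with rfl | rfl | ⟨r, s, hr, hs, e⟩
  · rw [h0] at hl; norm_num at hl
  · rw [hb.bd.symm, h0] at hl; norm_num at hl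
  · have e1 := hb.bd.hom r k m hr.le
    rw [e, hb.bd.hom s m m hs.le, hb.bd.self, hl] at e1
    linarith

theorem qphi_icont (hb : BasP D) (ht : TraP D d h) (hm : ModP D d h u) {Y W : E n × E n → E n}
    (h1 : ∀ w : E n × E n, lD D w.1 w.2 = 2 → qphi_Ch D u (Y w) (W w) w.1 ∧
      qphi_Ch D u (Y w) (-W w) w.2) : ContinuousOn Y {w | lD D w.1 w.2 = 2} := by
  intro w hw
  have hg : Continuous fun w : E n × E n => ‖w.1‖ + ‖w.2‖ - ‖w.1 + w.2‖ := by fun_prop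
  have hδ : 0 < ‖w.1‖ + ‖w.2‖ - ‖w.1 + w.2‖ := sub_pos.2 (qphi_gap hb hw)
  set δ := ‖w.1‖ + ‖w.2‖ - ‖w.1 + w.2‖ with hδ'
  refine (isCompact_closedBall (0 : E n) (4 / δ)).tendsto_nhds_of_unique_mapClusterPt ?_ ?_
  · have : ∀ᶠ w' in 𝓝 w, δ / 2 < ‖w'.1‖ + ‖w'.2‖ - ‖w'.1 + w'.2‖ :=
      (hg.tendsto w).eventually (lt_mem_nhds (by linarith))
    filter_upwards [this.filter_mono nhdsWithin_le_nhds, self_mem_nhdsWithin] with w' hw' hl
    rw [mem_closedBall_zero_iff, le_div_iff₀ hδ]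
    obtain ⟨c1, c2⟩ := h1 w' hl
    have f1 := hb.low (Y w') w'.1
    have f2 := hb.low (Y w') w'.2
    rw [c1.2.1] at f1
    rw [c2.2.1] at f2
    obtain ⟨g1, g2, -⟩ := qphi_up (Y w')
    have g4 := real_inner_le_norm (Y w') (w'.1 + w'.2)
    rw [inner_add_right] at g4
    have g5 := mul_le_mul_of_nonneg_right g1 (norm_nonneg (w'.1 + w'.2))
    have g6 : (up (Y w')).1 * (‖w'.1‖ + ‖w'.2‖ - ‖w'.1 + w'.2‖) ≤ 2 := by linarith
    have g7 := mul_le_mul_of_nonneg_left hw'.le (by linarith : 0 ≤ (up (Y w')).1)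
    have g8 := mul_le_mul_of_nonneg_right g1 hδ.le
    linarith
  · intro y _ hy
    obtain ⟨U, hU, hy⟩ := mapClusterPt_iff_ultrafilter.1 hy
    have hw' : Tendsto (fun w' : E n × E n => w') U (𝓝 w) :=
      tendsto_id.mono_left (hU.trans nhdsWithin_le_nhds)
    have hs : ∀ᶠ w' in (U : Filter (E n × E n)), lD D w'.1 w'.2 = 2 := hU self_mem_nhdsWithin
    obtain ⟨c1, c2⟩ := h1 w hw
    refine (qphi_nf hb ht hm c1 c2).2 y ?_ ?_
    · have := (hb.cont.tendsto (y, w.1)).comp (hy.prodMk_nhds hw'.fst_nhds)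
      refine tendsto_nhds_unique this (tendsto_const_nhds.congr' ?_)
      filter_upwards [hs] with w' hl
      exact (h1 w' hl).1.2.1.symm
    · have := (hb.cont.tendsto (y, w.2)).comp (hy.prodMk_nhds hw'.snd_nhds)
      refine tendsto_nhds_unique this (tendsto_const_nhds.congr' ?_)
      filter_upwards [hs] with w' hl
      exact (h1 w' hl).2.2.1.symm

theorem qphi : SPHI := by
  intro n D d h hsd hb _ ht hnf u hm
  have hex : ∀ p : UT h, ∃ w : E n × E n, qphi_Ch D u p.1.1 p.1.2 w.1 ∧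
      qphi_Ch D u p.1.1 (-p.1.2) w.2 := by
    intro p
    obtain ⟨k, hk⟩ := qphi_ex hb hm p.2
    obtain ⟨m, hm'⟩ := qphi_ex hb hm (y := p.1.1) (w := -p.1.2) (by simpa using p.2)
    exact ⟨(k, m), hk, hm'⟩
  choose φ h1 h2 using hex
  have hch : ∀ (p : UT h) (w : E n × E n), qphi_Ch D u p.1.1 p.1.2 w.1 →
      qphi_Ch D u p.1.1 (-p.1.2) w.2 → φ p = w := fun p w a b =>
    Prod.ext (qphi_uniq hb hm (h1 p) a) (qphi_uniq hb hm (h2 p) b)
  have hinj : Function.Injective φ := by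
    intro p q hpq
    have a1 := h1 q
    have a2 := h2 q
    rw [← hpq] at a1 a2
    have e := (qphi_nf hb ht hm (h1 p) (h2 p)).2 q.1.1 a1.2.1 a2.2.1
    refine Subtype.ext (Prod.ext e.symm ?_)
    rw [← a1.2.2, e, (h1 p).2.2]
  have hsur : ∀ w : E n × E n, lD D w.1 w.2 = 2 → ∃ p, φ p = w := by
    intro w hw
    obtain ⟨T, a, T', a', θ, hs, hθ, e1, e2⟩ := hnf w.1 w.2 hw
    have c1 := qphi_tr hm hs.fw (qphi_zero' hb hm hθ)
    have c2 := qphi_tr hm hs.fw (qphi_zero' hb hm (θ := -θ) (by rwa [norm_neg]))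
    rw [e1] at c1
    rw [e2, map_neg] at c2
    have hu := hm.unit (T 0) w.1 c1.1
    rw [c1.2.2] at hu
    exact ⟨⟨(T 0, fderiv ℝ T 0 θ), hu⟩, hch _ w c1 c2⟩
  have hne : Nonempty (UT h) := by
    have e0 : (EuclideanSpace.single (⟨0, hsd.pos⟩ : Fin n) (1 : ℝ) : E n) ≠ 0 := by
      rw [← norm_ne_zero_iff]; simp
    exact ⟨⟨(0, u 0 _), hm.unit 0 _ e0⟩⟩
  have hr : ∀ w : E n × E n, lD D w.1 w.2 = 2 → φ (Function.invFun φ w) = w :=
    fun w hw => Function.invFun_eq (hsur w hw)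
  have hc : ∀ w : E n × E n, lD D w.1 w.2 = 2 →
      qphi_Ch D u (Function.invFun φ w).1.1 (Function.invFun φ w).1.2 w.1 ∧
      qphi_Ch D u (Function.invFun φ w).1.1 (-(Function.invFun φ w).1.2) w.2 := by
    intro w hw
    have a1 := h1 (Function.invFun φ w)
    have a2 := h2 (Function.invFun φ w)
    rw [hr w hw] at a1 a2
    exact ⟨a1, a2⟩
  refine ⟨φ, Function.invFun φ, ?_, fun p => (qphi_nf hb ht hm (h1 p) (h2 p)).1, ?_,
    Function.leftInverse_invFun hinj, hr, fun p k m => ⟨?_, ?_⟩⟩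
  · have hY : Continuous fun p : UT h => p.1.1 := by fun_prop
    have hW : Continuous fun p : UT h => p.1.2 := by fun_prop
    exact (qphi_cont hb hm hY hW h1).prodMk (qphi_cont hb hm hY hW.neg h2)
  · have hY := qphi_icont hb ht hm hc
    rw [Topology.IsInducing.subtypeVal.continuousOn_iff]
    have hW : ContinuousOn (fun w : E n × E n => u (Function.invFun φ w).1.1 w.1)
        {w | lD D w.1 w.2 = 2} :=
      hm.cont.comp (hY.prodMk continuousOn_fst) fun w hw => (hc w hw).1.1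
    refine (hY.prodMk hW).congr fun w hw => ?_
    exact Prod.ext rfl (hc w hw).1.2.2.symm
  · intro e
    have a1 := h1 p
    have a2 := h2 p
    rw [e] at a1 a2
    exact ⟨a1.1, a2.1, a1.2.1, a2.2.1, a1.2.2, a2.2.2⟩
  · rintro ⟨b1, b2, b3, b4, b5, b6⟩
    exact hch p (k, m) ⟨b1, b3, b5⟩ ⟨b2, b4, b6⟩

end Pool.Agent.MP_3ee8cb_gt.CR
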