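import Pool.Agent.MP_3ee8cb_gt.RS.SpecD

/-! Row PR: the pairing with the Veronese point. -/

namespace Pool.Agent.MP_3ee8cb_gt.CR

open scoped RealInnerProductSpace

variable {n : ℕ}

theorem qpr_sq : ContDiff ℝ 1 fun y : E n => 1 + ‖y‖ ^ 2 :=
  contDiff_const.add (contDiff_norm_sq ℝ)

theorem qpr_rt : ContDiff ℝ 1 fun y : E n => √(1 + ‖y‖ ^ 2) :=
  qpr_sq.sqrt fun y => by positivity

theorem qpr_smooth (z : J3 n) : ContDiff ℝ 1 (pr z) := by
  unfold pr up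
  exact ((contDiff_const.mul qpr_sq).sub ((contDiff_const.mul qpr_rt).mul
    (contDiff_const.inner ℝ contDiff_id))).add (z.2.2.contDiff.inner ℝ contDiff_id)

theorem qpr_crit (z : J3 n) (h : fderiv ℝ (pr z) 0 = 0) : z.2.1 = 0 := by
  set w := z.2.1 with hw
  have hd : HasFDerivAt (pr z) (0 : E n →L[ℝ] ℝ) ((0 : ℝ) • w) := by
    rw [zero_smul, ← h]
    exact ((qpr_smooth z).differentiable one_ne_zero 0).hasFDerivAt
  have hl : HasDerivAt (fun t : ℝ => t • w) w 0 := by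
    simpa using (hasDerivAt_id (0 : ℝ)).smul_const w
  have h1 : HasDerivAt (fun t : ℝ => pr z (t • w)) ((0 : E n →L[ℝ] ℝ) w) 0 := by
    have h0 := HasFDerivAt.comp_hasDerivAt (f := fun t : ℝ => t • w) (0 : ℝ) hd hl
    exact h0
  have hr : DifferentiableAt ℝ (fun t : ℝ => √(1 + ‖t • w‖ ^ 2)) 0 :=
    ((qpr_rt.differentiable one_ne_zero) _).comp (0 : ℝ) hl.differentiableAt
  have hs : HasDerivAt (fun t : ℝ => t ^ 2) 0 0 := by simpa using hasDerivAt_pow 2 (0 : ℝ)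
  have h2 := (((hs.mul_const (‖w‖ ^ 2)).const_add 1).const_mul z.1).sub
    ((hr.hasDerivAt.const_mul 2).mul ((hasDerivAt_id (0 : ℝ)).mul_const (‖w‖ ^ 2)))
  have h3 := h2.add (hs.mul_const ⟪z.2.2 w, w⟫)
  have e : (fun t : ℝ => pr z (t • w)) = fun t : ℝ => z.1 * (1 + t ^ 2 * ‖w‖ ^ 2) -
      2 * √(1 + ‖t • w‖ ^ 2) * (t * ‖w‖ ^ 2) + t ^ 2 * ⟪z.2.2 w, w⟫ := by
    funext t
    simp only [pr, up, ← hw, map_smul, real_inner_smul_left, real_inner_smul_right,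
      real_inner_self_eq_norm_sq]
    rw [norm_smul, mul_pow, Real.norm_eq_abs, sq_abs]
    ring
  rw [e] at h1
  have h4 := h1.unique h3
  simp at h4
  exact h4

theorem qpr_min (z : J3 n) (hz : Ps z) (h : z.2.1 = 0) (y : E n) (hy : y ≠ 0) :
    pr z 0 < pr z y := by
  have h1 := hz.psd y
  have h2 : 0 < z.1 * ‖y‖ ^ 2 := mul_pos hz.pos (by positivity)
  simp only [pr, h, inner_zero_left, inner_zero_right, norm_zero]
  nlinarith

theorem qpr : SPR := fun _ => ⟨qpr_smooth, qpr_crit, qpr_min⟩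

end Pool.Agent.MP_3ee8cb_gt.CR
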