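import Pool.Agent.MP_3ee8cb_gt.RS.SpecC

namespace Pool.Agent.MP_3ee8cb_gt.CR

open Set
open scoped RealInnerProductSpace

variable {n : ℕ}

/-- Half the gradient of `NN D s a ‖k‖ k` in `k`. -/
noncomputable def qqa_G (D : Tri n) (s : ℝ) (a k : E n) : E n :=
  s ^ 2 • k - s • (‖k‖ • a + (⟪a, k⟫ / ‖k‖) • k) + D a a k

theorem qqa_in (D : Tri n) (s : ℝ) (a k v : E n) : ⟪qqa_G D s a k, v⟫ =
    s ^ 2 * ⟪k, v⟫ - s * (‖k‖ * ⟪a, v⟫ + ⟪a, k⟫ / ‖k‖ * ⟪k, v⟫) + ⟪D a a k, v⟫ := by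
  simp only [qqa_G, inner_add_left, inner_sub_left, real_inner_smul_left]

theorem qqa_norm {k : E n} (hk : k ≠ 0) :
    HasFDerivAt (fun x : E n => ‖x‖) (innerSL ℝ (‖k‖⁻¹ • k)) k := by
  have h0 : ‖k‖ ≠ 0 := norm_ne_zero_iff.2 hk
  have h := (hasStrictFDerivAt_norm_sq k).hasFDerivAt.sqrt (pow_ne_zero 2 h0)
  simp only [Real.sqrt_sq (norm_nonneg _)] at h
  refine h.congr_fderiv ?_
  ext v
  simp
  field_simp

theorem qqa_grad {D : Tri n} {d : ℕ} (al : AlgP D d) (s : ℝ) (a : E n) {k : E n} (hk : k ≠ 0)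
    (h : 0 < √(NN D s a ‖k‖ k)) : gradient (fun x => √(NN D s a ‖x‖ x)) k =
      (√(NN D s a ‖k‖ k))⁻¹ • qqa_G D s a k := by
  have h0 : ‖k‖ ≠ 0 := norm_ne_zero_iff.2 hk
  have h1 := (qqa_norm hk).const_mul s
  have h2 : HasFDerivAt (fun x : E n => ⟪a, x⟫) (innerSL ℝ a) k := (innerSL ℝ a).hasFDerivAt
  have h3 := (D a a).hasFDerivAt.inner ℝ (hasFDerivAt_id k)
  have h4 := (((h1.pow 2).sub ((h1.const_mul 2).mul h2)).add h3).sqrt (Real.sqrt_pos.1 h).ne'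
  refine HasGradientAt.gradient (hasGradientAt_iff_hasFDerivAt.2 (h4.congr_fderiv ?_))
  ext v
  have e : ⟪D a a v, k⟫ = ⟪D a a k, v⟫ := by rw [al.ops, real_inner_comm]
  rw [InnerProductSpace.toDual_apply_apply, real_inner_smul_left, qqa_in]
  change 1 / (2 * √(NN D s a ‖k‖ k)) * _ = _
  simp [e]
  field_simp
  ring

theorem qqa_q {D : Tri n} {d : ℕ} (al : AlgP D d) (ba : BasP D) {k m : E n} (hk : k ≠ 0)
    (h : 0 < lD D k m) : qD D k m = (2 * lD D k m)⁻¹ • qqa_G D ‖m‖ m k := by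
  have e : ∀ x, lD D x m = √(NN D ‖m‖ m ‖x‖ x) := fun x => by rw [lD, ba.nsy]
  rw [qD, funext e, qqa_grad al _ _ hk (e k ▸ h), ← e, smul_smul, mul_inv]
  norm_num

theorem qqa_sq {D : Tri n} (ba : BasP D) (k m : E n) : lD D k m ^ 2 =
    (‖k‖ * ‖m‖ - ⟪m, k⟫) ^ 2 + (⟪D m m k, k⟫ - ⟪m, k⟫ * ⟪m, k⟫) := by
  rw [lD, Real.sq_sqrt ((sq_nonneg _).trans (ba.nlo _ _ _ _)), ba.nsy, NN, RR]
  ring

theorem qqa_cs {D : Tri n} {d : ℕ} (al : AlgP D d) (ba : BasP D) (k m k' : E n) :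
    (‖k‖ * ‖m‖ - ⟪m, k⟫) * (‖k'‖ * ‖m‖ - ⟪m, k'⟫) + (⟪D m m k, k'⟫ - ⟪m, k⟫ * ⟪m, k'⟫) ≤
      lD D k m * lD D k' m := by
  have e : ⟪D m m k', k⟫ = ⟪D m m k, k'⟫ := by rw [al.ops, real_inner_comm]
  have h := discrim_le_zero (a := lD D k' m ^ 2) (c := lD D k m ^ 2) (b := 2 *
    ((‖k‖ * ‖m‖ - ⟪m, k⟫) * (‖k'‖ * ‖m‖ - ⟪m, k'⟫) + (⟪D m m k, k'⟫ - ⟪m, k⟫ * ⟪m, k'⟫)))
    fun t => by
      have h1 := al.rlo m (k + t • k')
      simp only [RR, map_add, map_smul, inner_add_left, inner_add_right, real_inner_smul_left,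
        real_inner_smul_right, e] at h1
      rw [qqa_sq ba, qqa_sq ba]
      nlinarith [sq_nonneg (‖k‖ * ‖m‖ - ⟪m, k⟫ + t * (‖k'‖ * ‖m‖ - ⟪m, k'⟫))]
  refine abs_le_of_sq_le_sq' ?_ (mul_nonneg (ba.bd.nonneg _ _) (ba.bd.nonneg _ _)) |>.2
  rw [discrim] at h
  nlinarith

theorem qqa_neg {D : Tri n} {d : ℕ} (ho : Hopf D d) (al : AlgP D d) (ba : BasP D) (k : E n)
    (c : ℝ) (hk : k ≠ 0) (hc : 0 < c) : qD D k (-(c • k)) = c • k := by
  have h0 : 0 < ‖k‖ := norm_pos_iff.2 hk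
  have hl : lD D k (-(c • k)) = c * (2 * ‖k‖ ^ 2) := by
    rw [← smul_neg, ba.bd.symm, ba.bd.hom c _ _ hc.le, ba.bd.symm, ba.bd.neg]
  rw [qqa_q al ba hk (by rw [hl]; positivity), hl, qqa_G]
  simp only [map_neg, map_smul, neg_apply, smul_apply, ho.self, norm_neg, norm_smul,
    Real.norm_eq_abs, abs_of_pos hc, inner_neg_left, real_inner_smul_left,
    real_inner_self_eq_norm_sq]
  match_scalars
  field_simp
  ring

theorem qqa : SQA := by
  intro n D d h sd al ba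
  have ho := sd.hopf
  refine ⟨?_, fun k m k' hk hl => ?_, fun k m hk hl => ?_, qqa_neg ho al ba,
    fun k m c hk hl hq => ?_, fun k c hk hc => ?_⟩
  · refine ContinuousOn.congr (f := fun w : E n × E n =>
      (2 * lD D w.1 w.2)⁻¹ • qqa_G D ‖w.2‖ w.2 w.1) ?_ fun w hw => qqa_q al ba hw.1 hw.2
    refine ((continuous_const.mul ba.bd.cont).continuousOn.inv₀ fun w hw =>
      (mul_pos two_pos hw.2).ne').smul ?_
    have h1 : ContinuousOn (fun w : E n × E n => ⟪w.2, w.1⟫ / ‖w.1‖)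
        {w | w.1 ≠ 0 ∧ 0 < lD D w.1 w.2} :=
      ContinuousOn.div (by fun_prop) (by fun_prop) fun w hw => norm_ne_zero_iff.2 hw.1
    unfold qqa_G
    fun_prop
  · have h0 : 0 < ‖k‖ := norm_pos_iff.2 hk
    have h1 := qqa_cs al ba k m k'
    have h2 : 0 ≤ ‖k‖ * ‖m‖ - ⟪m, k⟫ := by
      rw [mul_comm]; exact sub_nonneg.2 (real_inner_le_norm _ _)
    have h3 : ⟪k, k'⟫ / ‖k‖ ≤ ‖k'‖ := by
      rw [div_le_iff₀ h0, mul_comm]; exact real_inner_le_norm _ _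
    have h4 := mul_le_mul_of_nonneg_left (mul_le_mul_of_nonneg_right h3 (norm_nonneg m)) h2
    have h5 : ⟪qqa_G D ‖m‖ m k, k'⟫ = (‖k‖ * ‖m‖ - ⟪m, k⟫) * (⟪k, k'⟫ / ‖k‖ * ‖m‖) -
        ‖m‖ * ‖k‖ * ⟪m, k'⟫ + ⟪D m m k, k'⟫ := by
      rw [qqa_in]; field_simp; ring
    rw [qqa_q al ba hk hl, real_inner_smul_left, mul_inv, ← mul_assoc, ← mul_assoc,
      mul_inv_cancel₀ two_ne_zero, one_mul, inv_mul_le_iff₀ hl, h5]
    linarith
  · have h0 : 0 < ‖k‖ := norm_pos_iff.2 hk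
    rw [qqa_q al ba hk hl, real_inner_smul_left, mul_inv, ← mul_assoc, ← mul_assoc,
      mul_inv_cancel₀ two_ne_zero, one_mul, inv_mul_eq_iff_eq_mul₀ hl.ne', ← sq, qqa_sq ba, qqa_in,
      real_inner_self_eq_norm_sq]
    field_simp
    ring
  · have h0 : 0 < ‖k‖ := norm_pos_iff.2 hk
    have hm : 0 < ‖m‖ := by
      refine norm_pos_iff.2 ?_
      rintro rfl
      have := ba.bd.hom 0 0 k le_rfl
      rw [smul_zero, zero_mul, ba.bd.symm] at this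
      exact hl.ne' this
    have h1 : qqa_G D ‖m‖ m k = (2 * lD D k m * c) • k := by
      rw [mul_smul, ← hq, qqa_q al ba hk hl, smul_inv_smul₀ (mul_pos two_pos hl).ne']
    obtain ⟨γ, hγ⟩ : ∃ γ : ℝ, D m m k = γ • k + (‖m‖ * ‖k‖) • m :=
      ⟨2 * lD D k m * c - ‖m‖ ^ 2 + ‖m‖ * (⟪m, k⟫ / ‖k‖), by
        rw [qqa_G] at h1
        linear_combination (norm := module) h1⟩
    have h2 := al.idem m k
    by_cases hg : γ = 0
    · exfalso
      rw [hg, zero_smul, zero_add] at hγ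
      have h3 := al.ops m m k m
      rw [ho.self, hγ, real_inner_smul_left, real_inner_smul_right, real_inner_self_eq_norm_sq,
        real_inner_comm, mul_comm] at h3
      have h4 := mul_left_cancel₀ (pow_ne_zero 2 hm.ne') h3
      have h5 := qqa_sq ba k m
      rw [hγ, real_inner_smul_left, ← h4] at h5
      nlinarith
    · have h3 : γ • D m m k = γ • ‖m‖ ^ 2 • k := by
        rw [hγ, map_add, map_smul, map_smul, ho.self] at h2
        linear_combination (norm := module) h2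
      have h4 := smul_right_injective _ hg h3
      obtain ⟨t, rfl⟩ : ∃ t : ℝ, m = -(t • k) := by
        refine ⟨(‖m‖ * ‖k‖)⁻¹ * (γ - ‖m‖ ^ 2), ?_⟩
        rw [mul_smul, ← smul_neg, eq_inv_smul_iff₀ (mul_pos hm h0).ne']
        linear_combination (norm := module) h4 - hγ
      have ht : 0 < t := by
        by_contra ht
        rw [← neg_smul, ba.bd.symm, ba.bd.hom _ _ _ (by linarith), ba.bd.self, mul_zero] at hl
        exact hl.false
      rw [← hq, qqa_neg ho al ba k t hk ht]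
  · have h0 : 0 < ‖k‖ := norm_pos_iff.2 hk
    obtain ⟨t, ht⟩ : ∃ t : ℝ, √(1 + t ^ 2) = t + c * ‖k‖ := by
      refine ⟨((c * ‖k‖)⁻¹ - c * ‖k‖) / 2, ?_⟩
      rw [Real.sqrt_eq_iff_mul_self_eq (by positivity)]
      · field_simp; ring
      · have : 0 < (c * ‖k‖)⁻¹ + c * ‖k‖ := by positivity
        linarith
    have hu : (up ((t / ‖k‖) • k)).1 = t + c * ‖k‖ := by
      rw [← ht, up, norm_smul, mul_pow, Real.norm_eq_abs, sq_abs]
      field_simp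
    have he : el D ((t / ‖k‖) • k) k = c * ‖k‖ ^ 2 := by
      rw [el, hu, ← Real.sqrt_sq (x := c * ‖k‖ ^ 2) (by positivity), NN, RR]
      simp only [map_smul, smul_apply, ho.self, real_inner_smul_left, real_inner_self_eq_norm_sq]
      congr 1
      field_simp
      ring
    refine ⟨(t / ‖k‖) • k, ?_, he⟩
    have hp : 0 < el D ((t / ‖k‖) • k) k := ba.pos _ _ hk
    refine (qqa_grad al _ _ hk hp).trans ?_
    change (el D ((t / ‖k‖) • k) k)⁻¹ • _ = _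
    rw [he, hu, qqa_G]
    simp only [map_smul, smul_apply, ho.self, real_inner_smul_left, real_inner_self_eq_norm_sq]
    match_scalars
    field_simp
    ring

end Pool.Agent.MP_3ee8cb_gt.CR
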