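import Pool.Agent.MP_3ee8cb_gt.RS.SpecC

/-! Equivariance of the supporting covectors of the model space. -/

namespace Pool.Agent.MP_3ee8cb_gt.CR

open Set
open scoped RealInnerProductSpace

variable {n : ℕ}

lemma qqe_chain {f : E n → ℝ} {a' : E n → E n} {x : E n} (hf : DifferentiableAt ℝ f (a' x))
    (ha : DifferentiableAt ℝ a' x) :
    gradient (fun z => f (a' z)) x =
      ContinuousLinearMap.adjoint (fderiv ℝ a' x) (gradient f (a' x)) := by
  refine ext_inner_right ℝ fun v => ?_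
  rw [ContinuousLinearMap.adjoint_inner_left, gradient, gradient,
    InnerProductSpace.toDual_symm_apply, InnerProductSpace.toDual_symm_apply,
    fderiv_fun_comp x hf ha]
  rfl

lemma qqe_swap {D : Tri n} {d : ℕ} {h : Met n} {T a T' a' : E n → E n}
    (s : Sy2 D d h T a T' a') : Sy2 D d h T' a' T a :=
  ⟨s.bw, s.fw, s.tr, s.tl, s.ar, s.al⟩

lemma qqe_da {D : Tri n} {d : ℕ} {h : Met n} {T a : E n → E n} (s : Sym D d h T a) {k : E n}
    (hk : k ≠ 0) : DifferentiableAt ℝ a k :=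
  (s.sma.contDiffAt (isOpen_ne.mem_nhds hk)).differentiableAt one_ne_zero

lemma qqe_eq {D : Tri n} {d : ℕ} {h : Met n} (bs : BasP D) {T a T' a' : E n → E n}
    (s : Sy2 D d h T a T' a') (k m : E n) (hk : k ≠ 0) (hl : 0 < lD D k m) :
    cot2 a a' (k, qD D k m) = (a k, qD D (a k) (a m)) := by
  have ho : IsOpen {w : E n × E n | 0 < lD D w.1 w.2} := isOpen_lt continuous_const bs.bd.cont
  have hm : (k, m) ∈ {w : E n × E n | 0 < lD D w.1 w.2} := hl
  have h1 : DifferentiableAt ℝ (fun w : E n × E n => lD D w.1 w.2) (k, m) :=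
    (bs.dl.contDiffAt (ho.mem_nhds hm)).differentiableAt one_ne_zero
  have h2 : DifferentiableAt ℝ (fun k' => lD D k' m) (a' (a k)) := by
    rw [s.al]
    exact DifferentiableAt.comp (g := fun w : E n × E n => lD D w.1 w.2)
      (f := fun k' : E n => (k', m)) k h1 (differentiableAt_id.prodMk (differentiableAt_const m))
  have h3 := qqe_chain h2 (qqe_da s.bw (s.fw.ne k hk))
  have h4 : (fun z => lD D (a' z) m) = fun z => lD D z (a m) := by
    funext z
    rw [← s.fw.ll, s.ar]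
  rw [h4, s.al] at h3
  simp only [cot2, qD, map_smul, h3]

lemma qqe_ep {D : Tri n} {d : ℕ} {h : Met n} (bs : BasP D) {T a T' a' : E n → E n}
    (s : Sy2 D d h T a T' a') (y k : E n) (hk : k ≠ 0) :
    cot2 a a' (k, gradient (el D y) k) = (a k, gradient (el D (T y)) (a k)) := by
  have h1 : DifferentiableAt ℝ (fun w : E n × E n => el D w.1 w.2) (y, k) :=
    (bs.c2.contDiffAt ((isOpen_ne.preimage continuous_snd).mem_nhds hk)).differentiableAt
      two_ne_zero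
  have h2 : DifferentiableAt ℝ (el D y) (a' (a k)) := by
    rw [s.al]
    exact h1.comp k ((differentiableAt_const y).prodMk differentiableAt_id)
  have h3 := qqe_chain h2 (qqe_da s.bw (s.fw.ne k hk))
  have h4 : (fun z => el D y (a' z)) = el D (T y) := by
    funext z
    rw [← s.fw.el, s.ar]
  rw [h4, s.al] at h3
  simp only [cot2, h3]

/-- The normal form of a pair. -/
lemma qqe_nf {D : Tri n} {d : ℕ} {h : Met n} (bs : BasP D) (nf : NfP D d h) {k m : E n}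
    (hl : 0 < lD D k m) : ∃ (T a T' a' : E n → E n) (k₁ : E n) (c : ℝ), Sy2 D d h T a T' a' ∧
      k₁ ≠ 0 ∧ 0 < c ∧ a k₁ = k ∧ a (-(c • k₁)) = m ∧ 2 * (c * ‖k₁‖ ^ 2) = lD D k m := by
  have hb : 0 < lD D k m / 2 := by linarith
  have h2 : lD D ((lD D k m / 2)⁻¹ • k) m = 2 := by
    rw [bs.bd.hom _ _ _ (inv_pos.2 hb).le]
    field_simp
  obtain ⟨T, a, T', a', θ, s, hθ, h3, h4⟩ := nf _ _ h2
  have hθ0 : θ ≠ 0 := by
    rintro rfl
    simp at hθ
  refine ⟨T, a, T', a', (lD D k m / 2) • θ, (lD D k m / 2)⁻¹, s, smul_ne_zero hb.ne' hθ0,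
    inv_pos.2 hb, ?_, ?_, ?_⟩
  · rw [s.fw.hom _ _ hb, h3, smul_inv_smul₀ hb.ne']
  · rw [inv_smul_smul₀ hb.ne', h4]
  · rw [norm_smul, hθ, mul_one, Real.norm_of_nonneg hb.le]
    field_simp

theorem qqe : SQE := by
  intro n D d h _ bs qa nf
  refine ⟨⟨qa.cont, qa.sup, qa.tou, fun k m m' hk hl hl' he => ?_⟩,
    fun T a T' a' s => qqe_eq bs s, fun T a T' a' s => qqe_ep bs s, fun k m _ hl => ?_⟩
  · obtain ⟨T, a, T', a', k₁, c, s, hk₁, hc, h1, h2, -⟩ := qqe_nf bs nf hl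
    have h3 := qqe_eq bs (qqe_swap s) k m hk hl
    have h4 := qqe_eq bs (qqe_swap s) k m' hk hl'
    have h5 : a' k = k₁ := by rw [← h1, s.al]
    have h6 : a' m = -(c • k₁) := by rw [← h2, s.al]
    rw [he, h4, h5, h6, qa.neg k₁ c hk₁ hc] at h3
    have h7 := qa.inj k₁ (a' m') c hk₁ (by rw [← h5, s.bw.ll]; exact hl') (Prod.ext_iff.1 h3).2
    rw [← h2, ← h7, s.ar]
  · obtain ⟨T, a, T', a', k₁, c, s, hk₁, hc, h1, h2, h3⟩ := qqe_nf bs nf hl
    obtain ⟨y, hy1, hy2⟩ := qa.rad k₁ c hk₁ hc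
    have h4 := qqe_ep bs s y k₁ hk₁
    have h5 := qqe_eq bs s k₁ (-(c • k₁)) hk₁ (by rw [← s.fw.ll, h1, h2]; exact hl)
    rw [qa.neg k₁ c hk₁ hc, ← hy1, h4, hy1, h1, h2] at h5
    refine ⟨T y, (Prod.ext_iff.1 h5).2, ?_⟩
    rw [← h3, ← hy2, ← h1, s.fw.el]

end Pool.Agent.MP_3ee8cb_gt.CR
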