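import Pool.Agent.MP_3ee8cb_gt.RS.SpecC

/-! The radial geodesics of the model space. -/

namespace Pool.Agent.MP_3ee8cb_gt.CR

open Set
open scoped RealInnerProductSpace

variable {n : ℕ} {D : Tri n} {d : ℕ} {h : Met n}

theorem qrad_fd (hH : Hopf D d) (hh : IsSym 1 D h) (hr : Riem h) (x w u : E n) :
    fderiv ℝ h x w u u = 2 * ⟪D u u x, w⟫ + 2 * ⟪x, w⟫ / (1 + ⟪x, x⟫) ^ 2 * ⟪x, u⟫ ^ 2 -
      (1 + (1 + ⟪x, x⟫)⁻¹) * (2 * ⟪x, u⟫ * ⟪w, u⟫) := by
  have hl : HasDerivAt (fun t : ℝ => x + t • w) w 0 := by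
    simpa using ((hasDerivAt_id (0 : ℝ)).smul_const w).const_add x
  have hd : Differentiable ℝ h := hr.smooth.differentiable (by norm_num)
  have h0 := ((hd x).hasFDerivAt.clm_apply (hasFDerivAt_const u x)).clm_apply
    (hasFDerivAt_const u x)
  have h2 : HasDerivAt (fun t : ℝ => h (x + t • w) u u) (fderiv ℝ h x w u u) 0 := by
    simpa [Function.comp_def] using h0.comp_hasDerivAt_of_eq 0 hl (by simp)
  have e : (fun t : ℝ => h (x + t • w) u u) = fun t : ℝ =>
      ⟪u, u⟫ + ⟪D u u (x + t • w), x + t • w⟫ -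
        (1 + (1 + ⟪x + t • w, x + t • w⟫)⁻¹) * (⟪x + t • w, u⟫ * ⟪x + t • w, u⟫) := by
    funext t
    rw [hh, one_mul, real_inner_self_eq_norm_sq (x + t • w), hH.pair]
  have ha := hl.inner ℝ (hasDerivAt_const (0 : ℝ) u)
  have hN := (hl.inner ℝ hl).const_add 1
  have hp : (1 : ℝ) + ⟪x, x⟫ ≠ 0 := by
    have := real_inner_self_nonneg (x := x)
    positivity
  have hD : HasDerivAt (fun t : ℝ => D u u (x + t • w)) (D u u w) 0 :=
    (D u u).hasFDerivAt.comp_hasDerivAt 0 hl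
  have h3 := ((hD.inner ℝ hl).const_add ⟪u, u⟫).sub
    (((hN.inv (by simpa using hp)).const_add 1).mul (ha.mul ha))
  rw [e] at h2
  rw [h2.unique h3]
  have hs : ⟪D u u w, x⟫ = ⟪D u u x, w⟫ := by
    rw [hH.pair, hH.symm w x, ← hH.pair]
  simp only [zero_smul, add_zero, inner_zero_right, zero_add, Pi.mul_apply, Pi.inv_apply,
    real_inner_comm x w, hs]
  field_simp
  ring

theorem qrad_geo (hH : Hopf D d) (hh : IsSym 1 D h) (hr : Riem h) (θ : E n) (hθ : ‖θ‖ = 1)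
    (a b : ℝ) : GeoOn h (fun t => Real.sinh t • θ) (fun t => Real.cosh t • θ) a b := by
  intro t _
  have h1 : ⟪θ, θ⟫ = (1 : ℝ) := by rw [real_inner_self_eq_norm_sq, hθ]; norm_num
  have hD : D θ θ θ = θ := by rw [hH.self, hθ]; simp
  refine ⟨((Real.hasDerivAt_sinh t).smul_const θ).hasDerivWithinAt,
    fun w => HasDerivAt.hasDerivWithinAt ?_⟩
  have e : (fun s => h (Real.sinh s • θ) (Real.cosh s • θ) w) =
      fun s => (Real.cosh s)⁻¹ * ⟪θ, w⟫ := by
    funext s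
    have hc := (Real.cosh_pos s).ne'
    have hK : 1 + Real.sinh s * Real.sinh s = Real.cosh s ^ 2 := by
      rw [Real.cosh_sq s]; ring
    rw [hh, ← real_inner_self_eq_norm_sq]
    simp only [map_smul, smul_apply, hD, real_inner_smul_left,
      real_inner_smul_right, h1, mul_one, hK]
    field_simp
    linear_combination (-⟪θ, w⟫) * hK
  have hc := (Real.cosh_pos t).ne'
  have hK : 1 + Real.sinh t * Real.sinh t = Real.cosh t ^ 2 := by
    rw [Real.cosh_sq t]; ring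
  rw [e, qrad_fd hH hh hr]
  refine (((Real.hasDerivAt_cosh t).inv hc).mul_const ⟪θ, w⟫).congr_deriv ?_
  simp only [map_smul, smul_apply, hD, real_inner_smul_left,
    real_inner_smul_right, h1, mul_one, hK, real_inner_comm θ w]
  field_simp
  linear_combination (-Real.sinh t * ⟪θ, w⟫) * hK

theorem qrad_pos {Ψ : ℝ → UT h → UT h} (hH : Hopf D d) (hh : IsSym 1 D h) (hr : Riem h)
    (hf : IsFlow h Ψ) (hu : UniP h) (q : UT h) (hq : q.1.1 = 0) (t : ℝ) (ht : 0 ≤ t) :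
    (Ψ t q).1 = (Real.sinh t • q.1.2, Real.cosh t • q.1.2) := by
  have hθ : ‖q.1.2‖ = 1 := by
    have h1 := q.2
    rw [hq, hh] at h1
    simp only [map_zero, zero_apply, inner_zero_left, mul_zero, add_zero,
      sub_zero, one_mul, real_inner_self_eq_norm_sq] at h1
    have h2 := norm_nonneg q.1.2
    nlinarith
  have h1 : GeoOn h (fun s => (Ψ s q).1.1) (fun s => (Ψ s q).1.2) 0 t := fun s _ =>
    ⟨(hf.vel q s).hasDerivWithinAt, fun w => (hf.geo q s w).hasDerivWithinAt⟩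
  have h2 := hu _ _ _ _ 0 t h1 (qrad_geo hH hh hr q.1.2 hθ 0 t) (by simp [hf.zero, hq])
    (by simp [hf.zero]) t ⟨ht, le_rfl⟩
  exact Prod.ext h2.1 h2.2

theorem qrad : SRAD := by
  intro n D d h S _ hr Ψ hf hu hl q hq t
  rcases le_total 0 t with ht | ht
  · exact qrad_pos S.hopf S.sym hr hf hu q hq t ht
  · have e : ng (ng q) = q := Subtype.ext (by simp [ng])
    have h1 := hl.rev t (ng q)
    have h2 := qrad_pos S.hopf S.sym hr hf hu (ng q) hq (-t) (by linarith)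
    rw [e] at h1
    rw [h1]
    change ((Ψ (-t) (ng q)).1.1, -(Ψ (-t) (ng q)).1.2) = _
    rw [h2]
    simp [ng]

end Pool.Agent.MP_3ee8cb_gt.CR
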