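import Pool.Agent.MP_3ee8cb_gt.RS.SpecD

/-! The fibre integral of the mixed Hessian is at most the volume of the dual ball. -/

namespace Pool.Agent.MP_3ee8cb_gt.CR

open Set MeasureTheory Filter
open scoped RealInnerProductSpace Topology

variable {n : ℕ}

/-- The vector that represents the restriction of a covector along `i`. -/
noncomputable def qri_R (i : E n →L[ℝ] E n × E n) : (E n × E n →L[ℝ] ℝ) →L[ℝ] E n :=
  LinearMap.toContinuousLinearMap
    ((InnerProductSpace.toDual ℝ (E n)).symm.toLinearEquiv.toLinearMap ∘ₗ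
      (ContinuousLinearMap.precomp ℝ i : (E n × E n →L[ℝ] ℝ) →L[ℝ] E n →L[ℝ] ℝ).toLinearMap)

theorem qri_R_apply (i : E n →L[ℝ] E n × E n) (φ : E n × E n →L[ℝ] ℝ) :
    qri_R i φ = (InnerProductSpace.toDual ℝ (E n)).symm (φ.comp i) := rfl

theorem qri_R_inner (i : E n →L[ℝ] E n × E n) (φ : E n × E n →L[ℝ] ℝ) (w : E n) :
    ⟪qri_R i φ, w⟫ = φ (i w) := by
  rw [qri_R_apply, InnerProductSpace.toDual_symm_apply]
  rfl

/-- Mixed partial derivatives are adjoint. -/
theorem qri_mix (f : E n × E n → ℝ) (y k : E n) (hf : ContDiffAt ℝ 2 f (y, k)) :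
    HasFDerivAt (fun k' => gradient (fun y' => f (y', k')) y)
      (ContinuousLinearMap.adjoint
        (fderiv ℝ (fun y' => gradient (fun k' => f (y', k')) k) y)) k := by
  have h2 : HasFDerivAt (fderiv ℝ f) (fderiv ℝ (fderiv ℝ f) (y, k)) (y, k) :=
    ((hf.fderiv_right (m := 1) le_rfl).differentiableAt one_ne_zero).hasFDerivAt
  have hev : ∀ᶠ p in 𝓝 (y, k), DifferentiableAt ℝ f p :=
    (hf.eventually (by simp)).mono fun p hp => hp.differentiableAt (by norm_num)
  have hA : HasFDerivAt (fun y' => gradient (fun k' => f (y', k')) k)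
      ((qri_R (ContinuousLinearMap.inr ℝ (E n) (E n))).comp
        ((fderiv ℝ (fderiv ℝ f) (y, k)).comp (ContinuousLinearMap.inl ℝ (E n) (E n)))) y := by
    have h3 := (qri_R (ContinuousLinearMap.inr ℝ (E n) (E n))).hasFDerivAt.comp y
      (HasFDerivAt.comp y (f := fun y' : E n => (y', k)) h2 (hasFDerivAt_prodMk_left y k))
    refine h3.congr_of_eventuallyEq ?_
    have h4 : Tendsto (fun y' : E n => (y', k)) (𝓝 y) (𝓝 (y, k)) :=
      (Continuous.prodMk_left k).tendsto y
    filter_upwards [h4.eventually hev] with y' hy'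
    have h5 := HasFDerivAt.comp k (f := fun k' : E n => (y', k')) hy'.hasFDerivAt
      (hasFDerivAt_prodMk_right y' k)
    change _ = qri_R _ (fderiv ℝ f (y', k))
    rw [qri_R_apply, ← h5.fderiv]
    rfl
  have hB : HasFDerivAt (fun k' => gradient (fun y' => f (y', k')) y)
      ((qri_R (ContinuousLinearMap.inl ℝ (E n) (E n))).comp
        ((fderiv ℝ (fderiv ℝ f) (y, k)).comp (ContinuousLinearMap.inr ℝ (E n) (E n)))) k := by
    have h3 := (qri_R (ContinuousLinearMap.inl ℝ (E n) (E n))).hasFDerivAt.comp k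
      (HasFDerivAt.comp k (f := fun k' : E n => (y, k')) h2 (hasFDerivAt_prodMk_right y k))
    refine h3.congr_of_eventuallyEq ?_
    have h4 : Tendsto (fun k' : E n => (y, k')) (𝓝 k) (𝓝 (y, k)) :=
      (Continuous.prodMk_right y).tendsto k
    filter_upwards [h4.eventually hev] with k' hk'
    have h5 := HasFDerivAt.comp y (f := fun y' : E n => (y', k')) hk'.hasFDerivAt
      (hasFDerivAt_prodMk_left y k')
    change _ = qri_R _ (fderiv ℝ f (y, k'))
    rw [qri_R_apply, ← h5.fderiv]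
    rfl
  have heq : (qri_R (ContinuousLinearMap.inl ℝ (E n) (E n))).comp
      ((fderiv ℝ (fderiv ℝ f) (y, k)).comp (ContinuousLinearMap.inr ℝ (E n) (E n))) =
      ContinuousLinearMap.adjoint ((qri_R (ContinuousLinearMap.inr ℝ (E n) (E n))).comp
        ((fderiv ℝ (fderiv ℝ f) (y, k)).comp (ContinuousLinearMap.inl ℝ (E n) (E n)))) := by
    rw [ContinuousLinearMap.eq_adjoint_iff]
    intro a b
    rw [real_inner_comm _ a]
    simp only [ContinuousLinearMap.comp_apply, qri_R_inner]
    exact (hf.isSymmSndFDerivAt (by simp)).eq _ _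
  rw [hA.fderiv, ← heq]
  exact hB

theorem qri_det (L : E n →L[ℝ] E n) : (ContinuousLinearMap.adjoint L).det = L.det := by
  let b := EuclideanSpace.basisFun (Fin n) ℝ
  have h : ((ContinuousLinearMap.adjoint L : E n →L[ℝ] E n) : E n →ₗ[ℝ] E n) =
      LinearMap.adjoint (L : E n →ₗ[ℝ] E n) := by
    rw [LinearMap.eq_adjoint_iff]
    intro x y
    exact ContinuousLinearMap.adjoint_inner_left L y x
  change LinearMap.det _ = LinearMap.det _
  rw [h, ← LinearMap.det_toMatrix b.toBasis, LinearMap.toMatrix_adjoint, Matrix.det_conjTranspose,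
    LinearMap.det_toMatrix, star_trivial]

theorem qri_main (e : E n → E n → ℝ) (h : Met n) (u : E n → E n) (y : E n) (hr : Riem h)
    (hc : Continuous (e y))
    (c2 : ContDiffOn ℝ 2 (fun w : E n × E n => e w.1 w.2) {w | w.2 ≠ 0})
    (pos : ∀ k, k ≠ 0 → 0 < e y k) (hom : ∀ k (t : ℝ), 0 ≤ t → e y (t • k) = t * e y k)
    (der : ∀ k, k ≠ 0 → HasFDerivAt (fun y => e y k) (-(e y k) • h y (u k)) y)
    (unit : ∀ k, k ≠ 0 → h y (u k) (u k) = 1)
    (inj : ∀ k k', k ≠ 0 → k' ≠ 0 → u k = u k' → ∃ t : ℝ, 0 < t ∧ k' = t • k) :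
    ∫⁻ k in {k : E n | k ≠ 0 ∧ e y k ≤ 1},
      ENNReal.ofReal |(fderiv ℝ (fun y => gradient (e y) k) y).det| ≤ W h y := by
  set s := {k : E n | k ≠ 0 ∧ e y k ≤ 1} with hs
  have hsm : MeasurableSet s := (measurableSet_singleton (0 : E n)).compl.inter
    (isClosed_le hc continuous_const).measurableSet
  obtain ⟨P, hPd⟩ : ∃ P : E n → E n, P = fun k => gradient (fun y' => e y' k) y := ⟨_, rfl⟩
  have hP : ∀ k, k ≠ 0 → ∀ w, ⟪P k, w⟫ = h y (-(e y k) • u k) w := by
    intro k hk w
    rw [hPd]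
    change ⟪(InnerProductSpace.toDual ℝ (E n)).symm (fderiv ℝ (fun y' => e y' k) y), w⟫ = _
    rw [InnerProductSpace.toDual_symm_apply, (der k hk).fderiv, map_smul]
  have hsq : ∀ k, k ≠ 0 → h y (-(e y k) • u k) (-(e y k) • u k) = e y k ^ 2 := by
    intro k hk
    simp only [map_smul, smul_apply, smul_eq_mul, unit k hk]
    ring
  have hder : ∀ k ∈ s, HasFDerivWithinAt P (ContinuousLinearMap.adjoint
      (fderiv ℝ (fun y' => gradient (e y') k) y)) s k := by
    intro k hk
    have ho : IsOpen {w : E n × E n | w.2 ≠ 0} := isOpen_ne.preimage continuous_snd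
    have h0 := qri_mix (fun w => e w.1 w.2) y k (c2.contDiffAt (ho.mem_nhds hk.1))
    rw [hPd]
    exact h0.hasFDerivWithinAt
  have hinj : InjOn P s := by
    intro k hk k' hk' q
    have h1 : -(e y k) • u k = -(e y k') • u k' := by
      by_contra hne
      have h2 := hr.pos y _ (sub_ne_zero.2 hne)
      have h8 : ∀ a b w : E n, h y (a - b) w = h y a w - h y b w := fun a b w => by
        rw [map_sub, sub_apply]
      rw [h8, ← hP k hk.1, ← hP k' hk'.1, q, sub_self] at h2
      exact lt_irrefl _ h2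
    have h3 : e y k = e y k' := by
      have h4 := hsq k hk.1
      rw [h1, hsq k' hk'.1] at h4
      exact ((sq_eq_sq₀ (pos k' hk'.1).le (pos k hk.1).le).1 h4).symm
    rw [h3] at h1
    have h5 : u k = u k' := smul_right_injective _ (neg_ne_zero.2 (pos k' hk'.1).ne') h1
    obtain ⟨t, ht, rfl⟩ := inj k k' hk.1 hk'.1 h5
    rw [hom k t ht.le] at h3
    have h6 : t = 1 := by
      have h7 := (pos k hk.1).ne'
      exact mul_right_cancel₀ h7 (by rw [← h3, one_mul])
    rw [h6, one_smul]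
  have h9 := lintegral_abs_det_fderiv_eq_addHaar_image volume hsm hder hinj
  simp only [qri_det] at h9
  rw [h9]
  refine measure_mono ?_
  rintro _ ⟨k, hk, rfl⟩
  refine ⟨_, ?_, hP k hk.1⟩
  rw [hsq k hk.1]
  exact pow_le_one₀ (pos k hk.1).le hk.2

theorem qri : SRI := by
  intro n D d h _ hb hr u hm y
  have hc : Continuous ((fun w : E n × E n => el D w.1 w.2) ∘ fun k : E n => (y, k)) :=
    hb.cont.comp (Continuous.prodMk_right y)
  exact qri_main (el D) h (u y) y hr hc hb.c2 (hb.pos y) (hb.hom y) (hm.der y) (hm.unit y)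
    (hm.inj y)

end Pool.Agent.MP_3ee8cb_gt.CR
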