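import Pool.Agent.MP_3ee8cb_gt.RS.SpecD

/-! The volume of the image of the ball bundle is at most the integral of the Jacobian. -/

namespace Pool.Agent.MP_3ee8cb_gt.CR

open Set MeasureTheory
open scoped RealInnerProductSpace

variable {n : ℕ}

theorem qrj_diff {D : Tri n} (hB : BasP D) (y k : E n) (hk : k ≠ 0) :
    DifferentiableAt ℝ (fun w : E n × E n => gradient (el D w.1) w.2) (y, k) := by
  have ho : IsOpen {w : E n × E n | w.2 ≠ 0} := isOpen_ne_fun continuous_snd continuous_const
  have h1 : ContDiffAt ℝ 2 (fun w : E n × E n => el D w.1 w.2) (y, k) :=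
    hB.c2.contDiffAt (ho.mem_nhds hk)
  have h2 : ContDiffAt ℝ 2 (Function.uncurry fun (w : E n × E n) (k : E n) => el D w.1 k)
      ((y, k), k) :=
    ContDiffAt.comp (g := fun w : E n × E n => el D w.1 w.2)
      (f := fun z : (E n × E n) × E n => (z.1.1, z.2)) ((y, k), k) h1 (by fun_prop)
  have h3 : ContDiffAt ℝ 1 (fun w : E n × E n => fderiv ℝ (el D w.1) w.2) (y, k) :=
    ContDiffAt.fderiv (f := fun (w : E n × E n) (k : E n) => el D w.1 k) (g := Prod.snd) h2
      contDiffAt_snd (by norm_num)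
  exact (InnerProductSpace.toDual ℝ (E n)).symm.toContinuousLinearEquiv.differentiableAt.comp _
    (h3.differentiableAt one_ne_zero)

theorem qrj_der {D : Tri n} (hB : BasP D) (F : E n → E n) (hF : ContDiff ℝ 1 F) (x k : E n)
    (hk : k ≠ 0) : ∃ (f : E n × E n →L[ℝ] E n × E n) (N : E n →L[ℝ] E n),
      HasFDerivAt (fun a : E n × E n => (a.2, gradient (el D (F a.1)) a.2)) f (x, k) ∧
      ∀ a, f a = (ContinuousLinearMap.id ℝ (E n) a.2, N a.2 +
        ((fderiv ℝ (fun y => gradient (el D y) k) (F x)).comp (fderiv ℝ F x)) a.1) := by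
  have h1 := (qrj_diff hB (F x) k hk).hasFDerivAt
  set H := fderiv ℝ (fun w : E n × E n => gradient (el D w.1) w.2) (F x, k) with hH
  have h2 : HasFDerivAt (fun y => gradient (el D y) k)
      (H.comp (ContinuousLinearMap.inl ℝ (E n) (E n))) (F x) :=
    HasFDerivAt.comp (F x) (g := fun w : E n × E n => gradient (el D w.1) w.2)
      (f := fun y => (y, k)) h1 (hasFDerivAt_prodMk_left (F x) k)
  have h3 : HasFDerivAt (fun a : E n × E n => (F a.1, a.2))
      (((fderiv ℝ F x).comp (ContinuousLinearMap.fst ℝ (E n) (E n))).prod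
        (ContinuousLinearMap.snd ℝ (E n) (E n))) (x, k) :=
    (HasFDerivAt.comp (x, k) (f := Prod.fst) (g := F)
      (hF.differentiable one_ne_zero x).hasFDerivAt hasFDerivAt_fst).prodMk hasFDerivAt_snd
  have h4 := HasFDerivAt.comp (x, k) (g := fun w : E n × E n => gradient (el D w.1) w.2)
    (f := fun a : E n × E n => (F a.1, a.2)) h1 h3
  refine ⟨_, H.comp (ContinuousLinearMap.inr ℝ (E n) (E n)),
    (hasFDerivAt_snd (p := (x, k))).prodMk h4, fun a => ?_⟩
  rw [h2.fderiv]
  refine Prod.ext rfl ?_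
  change H (fderiv ℝ F x a.1, a.2) = H (0, a.2) + H (fderiv ℝ F x a.1, 0)
  rw [← map_add]
  simp

theorem qrj_fib {D : Tri n} (hB : BasP D) (y : E n) :
    MeasurableSet {k : E n | k ≠ 0 ∧ el D y k ≤ 1} := by
  refine MeasurableSet.inter (measurableSet_singleton (0 : E n)).compl ?_
  have hc : Continuous fun k : E n => el D y k :=
    hB.cont.comp (f := fun k : E n => (y, k)) (by fun_prop)
  exact (isClosed_le hc continuous_const).measurableSet

theorem qrj (hb : SBLK) : SRJ := by
  intro n D d h _ hB hR F S' hF hD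
  have hS : MeasurableSet {a : E n × E n | a.1 ∈ S' ∧ a.2 ≠ 0 ∧ el D (F a.1) a.2 ≤ 1} := by
    refine (measurable_fst hD).inter (MeasurableSet.inter ?_ ?_)
    · exact measurable_snd (measurableSet_singleton (0 : E n)).compl
    · have h0 := hF.continuous
      have hc : Continuous fun a : E n × E n => el D (F a.1) a.2 :=
        hB.cont.comp (f := fun a : E n × E n => (F a.1, a.2)) (by fun_prop)
      exact (isClosed_le hc continuous_const).measurableSet
  set S := {a : E n × E n | a.1 ∈ S' ∧ a.2 ≠ 0 ∧ el D (F a.1) a.2 ≤ 1} with hSd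
  set Ψ := fun a : E n × E n => (a.2, gradient (el D (F a.1)) a.2) with hΨ
  set J := fun a : E n × E n => ENNReal.ofReal |(fderiv ℝ F a.1).det| *
    ENNReal.ofReal |(fderiv ℝ (fun y => gradient (el D y) a.2) (F a.1)).det| with hJ
  have key : ∀ a ∈ S, HasFDerivAt Ψ (fderiv ℝ Ψ a) a ∧
      ENNReal.ofReal |(fderiv ℝ Ψ a).det| = J a := by
    intro a ha
    obtain ⟨f, N, hf, hN⟩ := qrj_der hB F hF a.1 a.2 ha.2.1
    have hf' : HasFDerivAt Ψ f a := hf
    rw [hf'.fderiv]
    refine ⟨hf', ?_⟩
    rw [(hb n f _ _ N).2 hN]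
    have h1 : (ContinuousLinearMap.id ℝ (E n)).det = 1 := LinearMap.det_id
    have h2 : ∀ A B : E n →L[ℝ] E n, (A.comp B).det = A.det * B.det := fun A B =>
      LinearMap.det_comp (A : E n →ₗ[ℝ] E n) (B : E n →ₗ[ℝ] E n)
    rw [h1, abs_one, one_mul, h2, abs_mul, mul_comm, ENNReal.ofReal_mul (abs_nonneg _)]
  have hH : Measure.IsAddHaarMeasure (volume : Measure (E n × E n)) := by
    rw [Measure.volume_eq_prod]
    infer_instance
  calc volume (E3 D F S') ≤ ∫⁻ a in S, ENNReal.ofReal |(fderiv ℝ Ψ a).det| :=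
        addHaar_image_le_lintegral_abs_det_fderiv volume hS
          fun a ha => (key a ha).1.hasFDerivWithinAt
    _ = ∫⁻ a in S, J a := setLIntegral_congr_fun hS fun a ha => (key a ha).2
    _ = ∫⁻ a, S.indicator J a ∂(volume.prod volume) := by
        rw [lintegral_indicator hS, Measure.volume_eq_prod]
    _ ≤ ∫⁻ x, ∫⁻ k, S.indicator J (x, k) := lintegral_prod_le _
    _ ≤ ∫⁻ x, S'.indicator (I2 h F) x := by
        refine lintegral_mono fun x => ?_
        by_cases hx : x ∈ S'
        · rw [indicator_of_mem hx, I2]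
          refine le_trans (le_of_eq ?_) (mul_le_mul_right (hR (F x)) _)
          rw [← lintegral_const_mul' _ _ ENNReal.ofReal_ne_top,
            ← lintegral_indicator (qrj_fib hB (F x))]
          refine lintegral_congr fun k => ?_
          by_cases hk : k ∈ {k : E n | k ≠ 0 ∧ el D (F x) k ≤ 1}
          · rw [indicator_of_mem hk, indicator_of_mem (show (x, k) ∈ S from ⟨hx, hk⟩)]
          · rw [indicator_of_notMem hk,
              indicator_of_notMem (show (x, k) ∉ S from fun h => hk h.2)]
        · rw [indicator_of_notMem hx]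
          refine ((lintegral_congr fun k => ?_).trans lintegral_zero).le
          exact indicator_of_notMem (show (x, k) ∉ S from fun h => hx h.1) _
    _ = ∫⁻ x in S', I2 h F x := lintegral_indicator hD _

end Pool.Agent.MP_3ee8cb_gt.CR
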