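import Pool.Agent.MP_3ee8cb_gt.RS.SpecD
import Pool.Agent.MP_3ee8cb_gt.CR.RSCALE

/-! Reduction to the normalized symmetric metric by scaling both metrics. -/

namespace Pool.Agent.MP_3ee8cb_gt.CR

theorem qsc : SSC2 := by
  intro H c hc n D d g h Γ Λ _ _ _ _ Φ Ψ f hn hD hg hh hΓ hΛ hΦ hΨ hf
  have ha : √c ≠ 0 := (Real.sqrt_pos.2 hc).ne'
  have hcc : √c * √c = c := Real.mul_self_sqrt hc.le
  obtain ⟨F, ρ, h1, h2, h3, h4⟩ := H n D d (scale_m √c g) (scale_m √c h) Γ Λ (scale_f ha Φ)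
    (scale_f ha Ψ) ((scale_q ha g Γ).trans (f.trans (scale_q ha h Λ).symm)) hn hD
    (scale_riem ha hg) (fun x u v => by
      rw [scale_app, hh, hcc, ← mul_assoc, inv_mul_cancel₀ hc.ne']) (scale_deck _ hΓ)
    (scale_deck _ hΛ) (scale_flow ha hΦ) (scale_flow ha hΨ) (fun t p q e => by
      simp only [Homeomorph.trans_apply, Homeomorph.symm_apply_eq, scale_q_mk] at e ⊢
      simp only [scale_f, Homeomorph.apply_symm_apply]
      exact hf _ _ _ e)
  refine ⟨F, ρ, h1, h2, fun x u v => ?_, h4⟩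
  have h5 := h3 x u v
  rw [scale_app, scale_app] at h5
  exact mul_left_cancel₀ (inv_ne_zero (mul_ne_zero ha ha)) h5

end Pool.Agent.MP_3ee8cb_gt.CR
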