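import Pool.Agent.MP_3ee8cb_gt.RS.SpecD

namespace Pool.Agent.MP_3ee8cb_gt.CR

theorem qsca_lt {x : ℝ} (hx : 0 < x) (h1 : x ≠ 1) : Real.exp (1 - x⁻¹) < x := by
  have h := Real.add_one_lt_exp (x := x⁻¹ - 1) (sub_ne_zero.2 fun e => h1 (inv_eq_one.1 e))
  rw [sub_add_cancel] at h
  rw [← neg_sub, Real.exp_neg, inv_lt_comm₀ (Real.exp_pos _) hx]
  exact h

theorem qsca_le {x : ℝ} (hx : 0 < x) : Real.exp (1 - x⁻¹) ≤ x := by
  rcases eq_or_ne x 1 with rfl | h
  · simp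
  · exact (qsca_lt hx h).le

theorem qsca : SSCA := by
  intro n d p hn hd hp hs
  have hn' : (0 : ℝ) < n := Nat.cast_pos.2 hn
  have hdn : d ≤ n := by
    rw [← hs]
    simpa using Finset.sum_le_card_nsmul Finset.univ p 1 fun i _ => (hp i).2
  obtain ⟨κ, hκ⟩ : ∃ κ : ℝ, κ = (n + d) / n := ⟨_, rfl⟩
  have κ0 : 0 < κ := by rw [hκ]; positivity
  have κ1 : n * κ = n + d := by rw [hκ]; field_simp
  have q0 : ∀ i, 0 < 1 + p i := fun i => by linarith [(hp i).1]
  have x0 : ∀ i, 0 < (1 + p i) / κ := fun i => div_pos (q0 i) κ0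
  have s1 : ∑ i, (1 + p i) / κ = n := by
    rw [← Finset.sum_div, Finset.sum_add_distrib, hs, div_eq_iff κ0.ne', κ1]
    simp
  obtain ⟨S, hS⟩ : ∃ S : ℝ, S = ∑ i, (1 - ((1 + p i) / κ)⁻¹) := ⟨_, rfl⟩
  have S0 : S ≤ 0 := by
    have : S ≤ ∑ i, ((1 + p i) / κ - 1) := by
      rw [hS]
      refine Finset.sum_le_sum fun i _ => ?_
      have h1 := x0 i
      generalize (1 + p i) / κ = x at h1
      have : x - 1 - (1 - x⁻¹) = (x - 1) ^ 2 / x := by field_simp
      have h2 : 0 ≤ (x - 1) ^ 2 / x := by positivity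
      linarith
    rw [Finset.sum_sub_distrib, s1] at this
    simpa using this
  have e1 : κ * ∑ i, p i / (1 + p i) = d + S := by
    have : ∀ i, κ * (p i / (1 + p i)) = (κ - 1) + (1 - ((1 + p i) / κ)⁻¹) := fun i => by
      have := (q0 i).ne'
      field_simp
      ring
    rw [Finset.mul_sum, Finset.sum_congr rfl fun i _ => this i, Finset.sum_add_distrib, ← hS]
    simp only [Finset.sum_const, Finset.card_univ, Fintype.card_fin, nsmul_eq_mul]
    linarith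
  have t0 : 0 ≤ κ ^ 2 * (d⁻¹ * ∑ i, p i / (1 + p i)) :=
    mul_nonneg (sq_nonneg _) (mul_nonneg (inv_pos.2 hd).le
      (Finset.sum_nonneg fun i _ => div_nonneg (hp i).1 (q0 i).le))
  have t1 : κ ^ 2 * (d⁻¹ * ∑ i, p i / (1 + p i)) ≤ κ * Real.exp (S / n) := by
    have e2 : κ ^ 2 * (d⁻¹ * ∑ i, p i / (1 + p i)) = κ * (S / d + 1) := by
      have : κ ^ 2 * (d⁻¹ * ∑ i, p i / (1 + p i)) = κ * (d⁻¹ * (κ * ∑ i, p i / (1 + p i))) := by
        ring
      rw [this, e1]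
      field_simp
      ring
    rw [e2]
    refine mul_le_mul_of_nonneg_left (le_trans ?_ (Real.add_one_le_exp _)) κ0.le
    have := div_le_div_of_nonneg_left (neg_nonneg.2 S0) hd hdn
    rw [neg_div, neg_div] at this
    linarith
  have t2 : (κ ^ 2 * (d⁻¹ * ∑ i, p i / (1 + p i))) ^ n ≤
      κ ^ n * ∏ i, Real.exp (1 - ((1 + p i) / κ)⁻¹) := by
    refine (pow_le_pow_left₀ t0 t1 n).trans (le_of_eq ?_)
    rw [mul_pow, ← Real.exp_nat_mul, mul_div_cancel₀ _ hn'.ne', hS, Real.exp_sum]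
  have e3 : ∏ i, (1 + p i) = κ ^ n * ∏ i, (1 + p i) / κ := by
    rw [Finset.prod_div_distrib]
    simp only [Finset.prod_const, Finset.card_univ, Fintype.card_fin]
    field_simp
  rw [← hκ, e3]
  refine ⟨t2.trans (mul_le_mul_of_nonneg_left (Finset.prod_le_prod
    (fun i _ => (Real.exp_pos _).le) fun i _ => qsca_le (x0 i)) (pow_pos κ0 n).le), fun h i => ?_⟩
  by_contra hi
  have h1 : (1 + p i) / κ ≠ 1 := fun e => hi (by
    rw [div_eq_one_iff_eq κ0.ne'] at e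
    rw [eq_div_iff hn'.ne']
    linear_combination n * e + κ1)
  have := Finset.prod_lt_prod (s := Finset.univ) (fun i _ => Real.exp_pos (1 - ((1 + p i) / κ)⁻¹))
    (fun i _ => qsca_le (x0 i)) ⟨i, Finset.mem_univ i, qsca_lt (x0 i) h1⟩
  exact absurd (h.trans t2) (not_le.2 (mul_lt_mul_of_pos_left this (pow_pos κ0 n)))

end Pool.Agent.MP_3ee8cb_gt.CR
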