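import Pool.Agent.MP_3ee8cb_gt.RS.SpecD

/-! An equivariant map to a rank one symmetric space is onto. -/

namespace Pool.Agent.MP_3ee8cb_gt.CR

open Set
open scoped RealInnerProductSpace

variable {n : ℕ}

theorem qsu_bound {g : Met n} {D : Tri n} {d : ℕ} {h : Met n} {Γ : Type} [Group Γ]
    [MulAction Γ (E n)] {T a : Γ → E n → E n} {β : E n → E n → ℝ} {v m u : E n → E n → E n}
    {X : E n × E n → E n} (H : KD g D d h T a β v m u X) (hY : YbP d β) {F : E n → E n}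
    (hF : EqG T F) : ∃ C : ℝ,
    ∀ x k, k ≠ 0 → β x k = 1 → el D (F x) k + el D (F x) (m x k) ≤ C := by
  obtain ⟨K, hK, hcov⟩ := H.deck.cpt
  obtain ⟨R, hR⟩ := hK.isBounded.exists_norm_le
  obtain ⟨c, hc, hlow⟩ := hY.low R
  have hS : IsCompact (Metric.closedBall (0 : E n) c⁻¹ \ Metric.ball 0 c) :=
    (isCompact_closedBall _ _).diff Metric.isOpen_ball
  have hm : ContinuousOn (fun w : E n × E n => m w.1 w.2)
      (K ×ˢ (Metric.closedBall (0 : E n) c⁻¹ \ Metric.ball 0 c)) :=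
    H.bd.cm.mono fun w hw h0 => hw.2.2 (by rw [h0]; exact Metric.mem_ball_self hc)
  have hFc : Continuous fun w : E n × E n => F w.1 := hF.smooth.continuous.comp continuous_fst
  have hel := H.bas.cont
  have hcont : ContinuousOn (fun w : E n × E n => el D (F w.1) w.2 + el D (F w.1) (m w.1 w.2))
      (K ×ˢ (Metric.closedBall (0 : E n) c⁻¹ \ Metric.ball 0 c)) := by
    generalize el D = L at hel
    exact (hel.comp (hFc.prodMk continuous_snd)).continuousOn.add
      (hel.comp_continuousOn (hFc.continuousOn.prodMk hm))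
  obtain ⟨C, hC⟩ := (hK.prod hS).bddAbove_image hcont
  refine ⟨C, fun x k hk hβ => ?_⟩
  obtain ⟨γ, hγ⟩ := hcov x
  obtain ⟨e1, e2⟩ := H.bd.equi γ x k hk
  obtain ⟨l1, l2⟩ := hlow (γ • x) (a γ k) (hR _ hγ) (H.act.ne γ k hk)
  rw [e1, hβ] at l1 l2
  have hmem : (γ • x, a γ k) ∈ K ×ˢ (Metric.closedBall (0 : E n) c⁻¹ \ Metric.ball 0 c) := by
    refine ⟨hγ, ?_, ?_⟩
    · rw [mem_closedBall_zero_iff, ← one_div, le_div_iff₀ hc]
      linarith
    · rw [mem_ball_zero_iff, not_lt]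
      rwa [inv_mul_eq_div, le_div_iff₀ hc, one_mul] at l2
  have := hC (mem_image_of_mem _ hmem)
  simp only at this
  rwa [e2, hF.equi, (H.sy γ).fw.el, (H.sy γ).fw.el] at this

theorem qsu_key {D : Tri n} {d : ℕ} {h : Met n} {u : E n → E n → E n} (hb : BasP D)
    (ht : TraP D d h) (hm : ModP D d h u) (y z k m : E n) (C : ℝ) (hk : k ≠ 0) (hm0 : m ≠ 0)
    (e1 : el D y k = 1) (e2 : el D y m = 1) (e3 : u y m = -u y k)
    (hC : el D z k + el D z m ≤ C) : -B (up z) (up y) ≤ C / 2 := by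
  obtain ⟨T, a, T', a', hs, h0⟩ := ht y
  have hy : T' y = 0 := by rw [← h0, hs.tl]
  have n1 : ‖a' k‖ = 1 := by rw [← hb.zero, ← hy, hs.bw.el, e1]
  have n2 : ‖a' m‖ = 1 := by rw [← hb.zero, ← hy, hs.bw.el, e2]
  have u1 := hm.equi T' a' hs.bw y k hk
  have u2 := hm.equi T' a' hs.bw y m hm0
  rw [hy, hm.zero _ (hs.bw.ne k hk), n1, inv_one, one_smul] at u1
  rw [hy, hm.zero _ (hs.bw.ne m hm0), n2, inv_one, one_smul, e3, map_neg, ← u1] at u2
  have l1 := hb.low (T' z) (a' k)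
  have l2 := hb.low (T' z) (a' m)
  rw [hs.bw.el, n1] at l1
  rw [hs.bw.el, n2, u2, inner_neg_right] at l2
  have l3 : (up (T' z)).1 ≤ C / 2 := by linarith
  have l4 : 0 ≤ (up (T' z)).1 := Real.sqrt_nonneg _
  have c1 := hs.bw.cc z y
  rw [hy] at c1
  have c2 : CC D (T' z) 0 = (up (T' z)).1 ^ 2 := by
    simp [CC, NN, RR, up]
  have c3 := hb.nlo (up z).1 z (up y).1 y
  have c4 : ((up z).1 * (up y).1 - ⟪z, y⟫) ^ 2 ≤ (up (T' z)).1 ^ 2 := by
    rw [← c2, c1]
    exact c3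
  have c5 := (abs_le_of_sq_le_sq' c4 l4).2
  have c6 : -B (up z) (up y) = (up z).1 * (up y).1 - ⟪z, y⟫ := by
    simp only [B, up]
    ring
  linarith

theorem qsu (hb : SBRW) : SSU := by
  intro n g D d h Γ _ _ T a β v m u X H hY φ ψ hφ F hF
  let e : E n := EuclideanSpace.single ⟨0, H.sd.pos⟩ 1
  have he : e ≠ 0 := by
    intro h
    have := congrArg (fun z : E n => z ⟨0, H.sd.pos⟩) h
    simp [e] at this
  let p : E n → UT h := fun y => ⟨(y, u y e), H.mod.unit y e he⟩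
  have pc : Continuous p := by
    refine Continuous.subtype_mk (continuous_id.prodMk ?_) _
    exact H.mod.cont.comp_continuous (continuous_id.prodMk continuous_const) fun _ => he
  obtain ⟨C, hC⟩ := qsu_bound H hY hF
  have hX : Continuous fun y => X (φ (p y)) :=
    H.bd.cX.comp_continuous (hφ.cont.comp pc) fun y => hφ.mem _
  refine Function.Surjective.of_comp (g := fun y => X (φ (p y)))
    (hb n (fun y => F (X (φ (p y)))) (C / 2) (hF.smooth.continuous.comp hX) fun y => ?_)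
  have h1 := hφ.mem (p y)
  obtain ⟨h3, h3', e1, e2, e3, e4⟩ := (hφ.char (p y) (φ (p y)).1 (φ (p y)).2).1 rfl
  have h4 := H.bd.mX _ h1
  have h5 := H.bd.tou (X (φ (p y))) _ h3
  rw [h4, h1] at h5
  have h6 := hC (X (φ (p y))) _ h3 (by linarith)
  rw [h4] at h6
  exact qsu_key H.bas H.tra H.mod y _ _ _ C h3 h3' e1 e2 (by rw [← e3] at e4; exact e4) h6

end Pool.Agent.MP_3ee8cb_gt.CR
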