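import Pool.Agent.MP_3ee8cb_gt.RS.SpecC

namespace Pool.Agent.MP_3ee8cb_gt.CR

open Set Filter Topology
open scoped RealInnerProductSpace

variable {n : ℕ}

/-- The second order quotient of `CC`. -/
noncomputable def qti_F (D : Tri n) (y : E n) (a : E n × E n) : ℝ :=
  ((1 + ‖y‖ ^ 2) * ‖a.2‖ ^ 2 - ⟪y, a.2⟫ ^ 2) /
      ((up y).1 * (up (y + a.1)).1 + ⟪y, y + a.1⟫ + 1) *
    ((up y).1 * (up (y + a.1)).1 - ⟪y, y + a.1⟫ + 1) + ⟪D y y a.2, a.2⟫ - ⟪y, a.2⟫ ^ 2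

theorem qti_sq (y : E n) : (up y).1 ^ 2 = 1 + ‖y‖ ^ 2 := Real.sq_sqrt (by positivity)

theorem qti_le (y : E n) : ‖y‖ ≤ (up y).1 := Real.le_sqrt_of_sq_le (by linarith)

theorem qti_pos (y z : E n) : 0 < (up y).1 * (up z).1 + ⟪y, z⟫ + 1 := by
  have h1 := abs_real_inner_le_norm y z
  have h2 := mul_le_mul (qti_le y) (qti_le z) (norm_nonneg _) ((norm_nonneg _).trans (qti_le y))
  have h3 := neg_abs_le ⟪y, z⟫
  linarith

theorem qti_cont (D : Tri n) (y : E n) : Continuous (qti_F D y) := by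
  have hu : Continuous fun a : E n × E n => (up (y + a.1)).1 := by
    unfold up
    fun_prop
  unfold qti_F
  refine ((Continuous.mul (Continuous.div (by fun_prop) (by fun_prop) fun a =>
    (qti_pos y _).ne') (by fun_prop)).add (by fun_prop)).sub (by fun_prop)

theorem qti_id {D : Tri n} {d : ℕ} (H : Hopf D d) (A : AlgP D d) (y w : E n) (t : ℝ) :
    CC D y (y + t • w) - 1 = t ^ 2 * qti_F D y (t • w, w) := by
  have h0 := (qti_pos y (y + t • w)).ne'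
  have h1 := qti_sq y
  have h2 := qti_sq (y + t • w)
  have h3 : ‖y + t • w‖ ^ 2 = ‖y‖ ^ 2 + 2 * t * ⟪y, w⟫ + t ^ 2 * ‖w‖ ^ 2 := by
    rw [norm_add_sq_real, inner_smul_right, norm_smul, mul_pow, Real.norm_eq_abs, sq_abs]
    ring
  have h4 : ⟪y, y + t • w⟫ = ‖y‖ ^ 2 + t * ⟪y, w⟫ := by
    rw [inner_add_right, real_inner_smul_right, real_inner_self_eq_norm_sq]
  have h5 : RR D y (y + t • w) =
      ‖y‖ ^ 2 * ‖y‖ ^ 2 + 2 * t * ‖y‖ ^ 2 * ⟪y, w⟫ + t ^ 2 * ⟪D y y w, w⟫ := by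
    have e1 : ⟪D y y w, y⟫ = ‖y‖ ^ 2 * ⟪y, w⟫ := by
      rw [A.ops, H.self, real_inner_smul_right, real_inner_comm]
    unfold RR
    rw [map_add, map_smul, H.self]
    simp only [inner_add_left, inner_add_right, real_inner_smul_left, real_inner_smul_right, e1,
      real_inner_self_eq_norm_sq]
    ring
  unfold CC NN qti_F
  simp only
  rw [h5]
  rw [h3] at h2
  rw [h4] at h0 ⊢
  generalize (up y).1 = s at *
  generalize (up (y + t • w)).1 = s' at *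
  have h6 : (s * s') ^ 2 = (1 + ‖y‖ ^ 2) * (1 + (‖y‖ ^ 2 + 2 * t * ⟪y, w⟫ + t ^ 2 * ‖w‖ ^ 2)) := by
    rw [mul_pow, h1, h2]
  generalize s * s' = P at *
  have h7 : t ^ 2 * ((1 + ‖y‖ ^ 2) * ‖w‖ ^ 2 - ⟪y, w⟫ ^ 2) =
      (P - (‖y‖ ^ 2 + t * ⟪y, w⟫) - 1) * (P + (‖y‖ ^ 2 + t * ⟪y, w⟫) + 1) := by
    linear_combination (-1 : ℝ) * h6
  have h8 : t ^ 2 * (((1 + ‖y‖ ^ 2) * ‖w‖ ^ 2 - ⟪y, w⟫ ^ 2) / (P + (‖y‖ ^ 2 + t * ⟪y, w⟫) + 1)) =
      P - (‖y‖ ^ 2 + t * ⟪y, w⟫) - 1 := by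
    rw [← mul_div_assoc, h7, mul_div_cancel_right₀ _ h0]
  linear_combination (-(P - (‖y‖ ^ 2 + t * ⟪y, w⟫) + 1)) * h8

theorem qti_zero {D : Tri n} {h : Met n} (S : IsSym 1 D h) (y w : E n) :
    qti_F D y (0, w) = h y w w := by
  have h1 := qti_sq y
  have h2 : (1 + ‖y‖ ^ 2) ≠ 0 := by positivity
  have h3 : (1 + ‖y‖ ^ 2 + ‖y‖ ^ 2 + 1) ≠ 0 := by positivity
  unfold qti_F
  simp only [add_zero]
  rw [S, ← sq, h1, real_inner_self_eq_norm_sq, real_inner_self_eq_norm_sq]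
  field_simp
  ring

theorem qti_lim {D : Tri n} {d : ℕ} {h : Met n} (S : SD D d h) (A : AlgP D d) {c : ℝ → E n}
    {w : E n} (hc : HasDerivAt c w 0) :
    Tendsto (fun t : ℝ => (CC D (c 0) (c t) - 1) / t ^ 2) (𝓝[≠] 0) (𝓝 (h (c 0) w w)) := by
  have h1 : Tendsto (fun t : ℝ => t⁻¹ • (c t - c 0)) (𝓝[≠] 0) (𝓝 w) := by
    simpa using hasDerivAt_iff_tendsto_slope_zero.1 hc
  have h2 : Tendsto (fun t : ℝ => c t - c 0) (𝓝[≠] 0) (𝓝 0) := by
    have := (hc.continuousAt.tendsto.sub_const (c 0)).mono_left (nhdsWithin_le_nhds (s := {0}ᶜ))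
    simpa using this
  have h3 := ((qti_cont D (c 0)).tendsto (0, w)).comp (h2.prodMk_nhds h1)
  rw [qti_zero S.sym] at h3
  refine h3.congr' (eventually_nhdsWithin_of_forall fun t ht => ?_)
  have ht' : t ≠ 0 := ht
  have e := qti_id S.hopf A (c 0) (t⁻¹ • (c t - c 0)) t
  rw [smul_inv_smul₀ ht', add_sub_cancel] at e
  simp only [Function.comp]
  rw [e, mul_div_cancel_left₀ _ (pow_ne_zero 2 ht')]

theorem qti : STI := by
  intro n D d h S A T hT hC y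
  have hd : ∀ u, h (T y) (fderiv ℝ T y u) (fderiv ℝ T y u) = h y u u := by
    intro u
    have l1 : HasDerivAt (fun t : ℝ => y + t • u) u 0 := by
      simpa using ((hasDerivAt_id (0 : ℝ)).smul_const u).const_add y
    have l2 : HasDerivAt (fun t : ℝ => T (y + t • u)) (fderiv ℝ T y u) 0 := by
      have e : HasFDerivAt T (fderiv ℝ T y) (y + (0 : ℝ) • u) := by
        simpa using (hT.differentiable one_ne_zero y).hasFDerivAt
      exact e.comp_hasDerivAt (0 : ℝ) l1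
    have a1 := qti_lim S A l1
    have a2 := qti_lim S A l2
    simp only [hC] at a2
    have := tendsto_nhds_unique a2 a1
    simpa using this
  have hs : ∀ z u v, h z u v = h z v u := fun z u v => by
    rw [S.sym, S.sym, A.ops, real_inner_comm u v, real_inner_comm u (D z z v)]
    ring
  intro u v
  have e := hd (u + v)
  simp only [map_add, add_apply] at e
  rw [hd u, hd v, hs y v u, hs (T y) (fderiv ℝ T y v) (fderiv ℝ T y u)] at e
  linarith

end Pool.Agent.MP_3ee8cb_gt.CR
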