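import Pool.Agent.MP_3ee8cb_gt.RS.SpecD

/-! The inverse of an operator that is scalar on lines. -/

namespace Pool.Agent.MP_3ee8cb_gt.CR

open scoped RealInnerProductSpace

theorem qtk_one {n : ℕ} {D : Tri n} {d : ℕ} (al : AlgP D d) (K Ki : E n →L[ℝ] E n)
    (hs : ∀ a b, ⟪K a, b⟫ = ⟪a, K b⟫) (hp : ∀ a, 0 ≤ ⟪K a, a⟫) (hi : ∀ a, K (Ki a) = a)
    (hl : ∀ e z, D e e z = ‖e‖ ^ 2 • z → e ≠ 0 → ‖e‖ ^ 2 * ⟪K z, z⟫ = ‖z‖ ^ 2 * ⟪K e, e⟫)
    {a a' : E n} (ha : ‖a‖ = 1) (ha' : ‖a'‖ = 1) (h : D a a a' = a') :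
    ⟪Ki a, a⟫ ≤ ⟪Ki a', a'⟫ := by
  have var : ∀ w, 2 * ⟪w, a'⟫ - ⟪K w, w⟫ ≤ ⟪Ki a', a'⟫ := fun w => by
    have := hp (w - Ki a')
    rw [map_sub, hi, inner_sub_left, inner_sub_right, inner_sub_right, hs w (Ki a'), hi,
      real_inner_comm w a', real_inner_comm (Ki a') a'] at this
    linarith
  have a0 : a ≠ 0 := fun h0 => by simp [h0] at ha
  set u := Ki a with hu
  have hKu : K u = a := hi a
  have u0 : u ≠ 0 := fun h0 => a0 (by rw [← hKu, h0, map_zero])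
  have nu : 0 < ‖u‖ := norm_pos_iff.2 u0
  have e1 : D a' a' = D a a := by
    have := al.same a a' a0 (by rw [ha, h]; simp)
    simpa [ha, ha'] using this
  have e2 : ⟪u, a⟫ ^ 2 ≤ RR D u a' := by
    rw [al.rsy, RR, e1, real_inner_comm]
    exact al.rlo a u
  have e3 : ‖D u u a'‖ ^ 2 = ‖u‖ ^ 2 * RR D u a' := by
    rw [← real_inner_self_eq_norm_sq, ← al.ops, al.idem, real_inner_smul_left, RR]
  by_cases h0 : D u u a' = 0
  · have : RR D u a' = 0 := by rw [RR, h0, inner_zero_left]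
    have h1 : ⟪u, a⟫ = 0 := by nlinarith [sq_nonneg ⟪u, a⟫]
    have := var 0
    simp only [inner_zero_left, map_zero] at this
    linarith
  have nz : 0 < ‖D u u a'‖ := norm_pos_iff.2 h0
  set c := ‖u‖ / ‖D u u a'‖ with hc
  have c0 : 0 < c := div_pos nu nz
  have f1 : ‖c • D u u a'‖ = ‖u‖ := by
    rw [norm_smul, Real.norm_of_nonneg c0.le, hc, div_mul_cancel₀ _ nz.ne']
  have f2 := hl u (c • D u u a') (by rw [map_smul, al.idem, smul_comm]) u0
  rw [f1] at f2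
  have f3 := mul_left_cancel₀ (pow_pos nu 2).ne' f2
  have f4 := var (c • D u u a')
  rw [f3, hKu, real_inner_smul_left, real_inner_comm u a] at f4
  have f5 : (c * RR D u a') ^ 2 = RR D u a' := by
    have r0 : RR D u a' = ‖D u u a'‖ ^ 2 / ‖u‖ ^ 2 := by rw [e3]; field_simp
    rw [r0, hc]
    field_simp
  have f6 : ⟪u, a⟫ ≤ c * RR D u a' :=
    (abs_le_of_sq_le_sq' (e2.trans f5.ge) (mul_nonneg c0.le ((sq_nonneg _).trans e2))).2
  rw [RR] at f6
  linarith

theorem qtk : STK := by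
  intro n D d h S al K Ki hs hp hi hl a ha
  have sP : (D a a : E n →ₗ[ℝ] E n).IsSymmetric := fun u w => al.ops a a u w
  have hf : Module.finrank ℝ (E n) = n := by simp
  let e := sP.eigenvectorBasis hf
  let p : Fin n → ℝ := sP.eigenvalues hf
  have hpe : ∀ i, D a a (e i) = p i • e i := fun i => sP.apply_eigenvectorBasis hf i
  have ht := S.hopf.tr a
  rw [LinearMap.trace_eq_sum_inner _ e, ha] at ht
  rw [LinearMap.trace_eq_sum_inner _ e]
  simp only [one_pow, mul_one] at ht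
  rw [← ht, Finset.sum_mul]
  refine Finset.sum_le_sum fun i _ => ?_
  change ⟪e i, D a a (e i)⟫ * _ ≤ ⟪e i, Ki (D a a (e i))⟫
  have h1 := al.idem a (e i)
  rw [ha, hpe, map_smul, hpe, smul_smul, smul_smul] at h1
  have h2 : p i * p i = 1 ^ 2 * p i := smul_left_injective ℝ (e.orthonormal.ne_zero i) h1
  rw [hpe, map_smul, real_inner_smul_right, real_inner_smul_right, real_inner_self_eq_norm_sq,
    e.orthonormal.1 i]
  by_cases h0 : p i = 0
  · simp [h0]
  have h3 : p i = 1 := by simpa using mul_right_cancel₀ h0 h2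
  have := qtk_one al K Ki hs hp hi hl ha (e.orthonormal.1 i) (by rw [hpe, h3, one_smul])
  rw [h3, real_inner_comm (Ki (e i))]
  simpa using this

end Pool.Agent.MP_3ee8cb_gt.CR
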