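import Pool.Agent.MP_3ee8cb_gt.RS.SpecD

/-! Weak Busemann data and the moment vector under a symmetry of the model space. -/

namespace Pool.Agent.MP_3ee8cb_gt.CR

open Set MeasureTheory
open scoped RealInnerProductSpace

variable {n : ℕ}

theorem qws_lin (y : E n) : ∃ L : J3 n →L[ℝ] ℝ, ∀ z, L z = pr z y := by
  refine ⟨LinearMap.toContinuousLinearMap
    { toFun := fun z => pr z y, map_add' := fun z w => ?_, map_smul' := fun c z => ?_ },
    fun _ => rfl⟩
  · simp only [pr, Prod.fst_add, Prod.snd_add, ContinuousLinearMap.add_apply, inner_add_left]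
    ring
  · simp only [pr, Prod.smul_fst, Prod.smul_snd, ContinuousLinearMap.smul_apply,
      real_inner_smul_left, smul_eq_mul, RingHom.id_apply]
    ring

theorem qws_pr {D : Tri n} {d : ℕ} {β : E n → E n → ℝ} (hb : BasP D) (x y : E n)
    (hi : Integrable (fun k => Real.exp (-β x k) • ver D ‖k‖ k) (nd n d)) :
    Integrable (fun k => Real.exp (-β x k) * el D y k ^ 2) (nd n d) ∧
      pr (Y2 D d β x) y = ∫ k, Real.exp (-β x k) * el D y k ^ 2 ∂nd n d := by
  obtain ⟨L, hL⟩ := qws_lin y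
  have h1 : (fun k => Real.exp (-β x k) * el D y k ^ 2) =
      fun k => L (Real.exp (-β x k) • ver D ‖k‖ k) := by
    funext k
    rw [map_smul, hL, hb.sq, smul_eq_mul]
  rw [h1]
  exact ⟨L.integrable_comp hi, by rw [← hL, L.integral_comp_comm hi, Y2]⟩

theorem qws_wd {g h : Met n} {D : Tri n} {d : ℕ} {β : E n → E n → ℝ} {v : E n → E n → E n}
    {T a : E n → E n} (hw : WD g β v) (hs : Sym D d h T a) :
    WD g (fun x k => β x (a k)) fun x k => v x (a k) := by
  have hc : ContinuousOn (fun w : E n × E n => (w.1, a w.2)) {w | w.2 ≠ 0} :=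
    continuousOn_fst.prodMk (hs.sma.continuousOn.comp continuousOn_snd fun _ hw => hw)
  have hm : MapsTo (fun w : E n × E n => (w.1, a w.2)) {w | w.2 ≠ 0} {w | w.2 ≠ 0} :=
    fun w hw => hs.ne w.2 hw
  refine ⟨hw.riem, fun x k hk => hw.pos x _ (hs.ne k hk), fun x k t hk ht => ?_, hw.cb.comp hc hm,
    hw.cv.comp hc hm, fun x k hk => hw.unit x _ (hs.ne k hk), fun R => ?_⟩
  · rw [hs.hom t k ht]
    exact hw.hom x _ t (hs.ne k hk) ht
  · obtain ⟨C, hC⟩ := hw.tay R
    exact ⟨C, fun x x' k hx hx' hk => hC x x' _ hx hx' (hs.ne k hk)⟩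

theorem qws : SWS := by
  intro n D d h _ hb hco g han β v T a T' a' hw hs
  have hw' := qws_wd hw hs.fw
  refine ⟨hw', fun x y => ?_⟩
  obtain ⟨i1, e1⟩ := qws_pr hb x (T y) ((han β v hw).mo.int x)
  obtain ⟨-, e2⟩ := qws_pr (β := fun x k => β x (a k)) hb x y ((han _ _ hw').mo.int x)
  have hm := hco T a T' a' hs
  have h1 := integral_map hm.measurable.aemeasurable
    (f := fun k => Real.exp (-β x k) * el D (T y) k ^ 2)
    (by rw [hm.map_eq]; exact i1.aestronglyMeasurable)
  rw [hm.map_eq] at h1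
  rw [e1, e2, h1]
  simp only [hs.fw.el]

end Pool.Agent.MP_3ee8cb_gt.CR
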