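import Pool.Agent.MP_3ee8cb_gt.CR.All
import Pool.Agent.MP_3ee8cb_gt.RS.FinC
import Pool.Agent.MP_3ee8cb_gt.RS.Bridge
import Pool.Agent.MP_3ee8cb_gt.RS.QALG
import Pool.Agent.MP_3ee8cb_gt.RS.QBAS
import Pool.Agent.MP_3ee8cb_gt.RS.QQA
import Pool.Agent.MP_3ee8cb_gt.RS.QHRS
import Pool.Agent.MP_3ee8cb_gt.RS.QBO
import Pool.Agent.MP_3ee8cb_gt.RS.QBN
import Pool.Agent.MP_3ee8cb_gt.RS.QBJ
import Pool.Agent.MP_3ee8cb_gt.RS.QTI
import Pool.Agent.MP_3ee8cb_gt.RS.QTRA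
import Pool.Agent.MP_3ee8cb_gt.RS.QGR
import Pool.Agent.MP_3ee8cb_gt.RS.QMOD
import Pool.Agent.MP_3ee8cb_gt.RS.QNF
import Pool.Agent.MP_3ee8cb_gt.RS.QQE
import Pool.Agent.MP_3ee8cb_gt.RS.QCT
import Pool.Agent.MP_3ee8cb_gt.RS.QCO
import Pool.Agent.MP_3ee8cb_gt.RS.QPHI
import Pool.Agent.MP_3ee8cb_gt.RS.QRAD
import Pool.Agent.MP_3ee8cb_gt.RS.QISF
import Pool.Agent.MP_3ee8cb_gt.RS.QISO
import Pool.Agent.MP_3ee8cb_gt.RS.QCONJ
import Pool.Agent.MP_3ee8cb_gt.RS.QYB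
import Pool.Agent.MP_3ee8cb_gt.RS.QMO
import Pool.Agent.MP_3ee8cb_gt.RS.QHO
import Pool.Agent.MP_3ee8cb_gt.RS.QMA
import Pool.Agent.MP_3ee8cb_gt.RS.QWS
import Pool.Agent.MP_3ee8cb_gt.RS.QPR
import Pool.Agent.MP_3ee8cb_gt.RS.QMB
import Pool.Agent.MP_3ee8cb_gt.RS.QIF
import Pool.Agent.MP_3ee8cb_gt.RS.QFB
import Pool.Agent.MP_3ee8cb_gt.RS.QSCA
import Pool.Agent.MP_3ee8cb_gt.RS.QTK
import Pool.Agent.MP_3ee8cb_gt.RS.QNU
import Pool.Agent.MP_3ee8cb_gt.RS.QWF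
import Pool.Agent.MP_3ee8cb_gt.RS.QJQ
import Pool.Agent.MP_3ee8cb_gt.RS.QRI
import Pool.Agent.MP_3ee8cb_gt.RS.QRJ
import Pool.Agent.MP_3ee8cb_gt.RS.QSU
import Pool.Agent.MP_3ee8cb_gt.RS.QCV
import Pool.Agent.MP_3ee8cb_gt.RS.QGD
import Pool.Agent.MP_3ee8cb_gt.RS.QEN
import Pool.Agent.MP_3ee8cb_gt.RS.QSC
import Pool.Agent.MP_3ee8cb_gt.RS.QINJ
import Pool.Agent.MP_3ee8cb_gt.RS.QINI

/-! The theorem for rank one symmetric targets. -/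

namespace Pool.Agent.MP_3ee8cb_gt.CR

theorem allc_main (c : ℝ) (hc : 0 < c) : Main2 c :=
  qsc (finc_main all_rp all_bd
    (finc_kd qyb qmo qho qma fd w (left sv) qqa qnf qqe qct qco qws qpr qmb qif qfb qtk
      (qnu nuc qsca) qwf (qjq frame) qri (qrj blk) (qsu brw) (qcv pack) qgd qen)
    len dbr lift qalg qbas qhrs qbo qbn qbj qti qtra qgr qmod qnf qphi qrad qisf qiso qconj) c hc

theorem allc_riem {n : ℕ} (hn : 0 < n) {c : ℝ} (hc : 0 < c) {D : Tri n} {d : ℕ} {h : Met n}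
    (hD : Hopf D d) (hs : IsSym c D h) : Riem h := by
  have S : SD D d fun x => c⁻¹ • h x := ⟨hn, hD, fun y u v => by
    simp only [smul_apply, smul_eq_mul, hs y u v]
    field_simp⟩
  have R := qhrs n D d _ S (qalg n D d _ S)
  have e : ∀ x u v, h x u v = c * (c⁻¹ • h x) u v := fun x u v => by
    simp only [smul_apply, smul_eq_mul]
    field_simp
  refine ⟨contDiff_clm_apply_iff.2 fun u => contDiff_clm_apply_iff.2 fun v => ?_,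
    fun x u v => ?_, fun x v hv => ?_⟩
  · simp only [e]
    exact contDiff_const.mul ((R.smooth.clm_apply contDiff_const).clm_apply contDiff_const)
  · rw [e, e x v, R.symm]
  · rw [e]
    exact mul_pos hc (R.pos x v hv)

end Pool.Agent.MP_3ee8cb_gt.CR
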