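import Pool.Agent.MP_3ee8cb_gt.CR.Defs

namespace Pool.Agent.MP_3ee8cb_gt.CR

open scoped RealInnerProductSpace

variable {n : ℕ}

/-- Trilinear maps. -/
abbrev Tri (n : ℕ) := E n →L[ℝ] E n →L[ℝ] E n →L[ℝ] E n

/-- `D w w` is `‖w‖²` times the orthogonal projection on the `K`-line (of real dimension `d`)
through `w`, for `K` the real, complex, quaternion or Cayley numbers. -/
structure Hopf (D : Tri n) (d : ℕ) : Prop where
  symm : ∀ a b, D a b = D b a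
  pair : ∀ a b c e, ⟪D a b c, e⟫ = ⟪D c e a, b⟫
  self : ∀ w, D w w w = ‖w‖ ^ 2 • w
  line : ∀ w p, D w (D w w p) = ⟪w, p⟫ • D w w
  tr : ∀ w, LinearMap.trace ℝ (E n) (D w w : E n →ₗ[ℝ] E n) = d * ‖w‖ ^ 2

/-- `h` is `c` times the metric of the `K`-hyperbolic space, in the coordinate
`y = sinh r • θ` (`r`, `θ` geodesic polar coordinates). -/
def IsSym (c : ℝ) (D : Tri n) (h : Met n) : Prop := ∀ y u v,
  h y u v = c * (⟪u, v⟫ + ⟪D y y u, v⟫ - (1 + (1 + ‖y‖ ^ 2)⁻¹) * (⟪y, u⟫ * ⟪y, v⟫))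

end Pool.Agent.MP_3ee8cb_gt.CR
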