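import Pool.Agent.MP_3ee8cb_gt.CR.Defs

namespace Pool.Agent.MP_3ee8cb_gt.CR

open scoped RealInnerProductSpace

variable {n : ℕ}

/-- `P y u v` is `‖y‖²` times the inner product of the projections of `u`, `v` on the `K`-line
through `y`. First case: `K` real, complex or quaternionic (`k = 0, 1, 3` imaginary units `J`).
Second case: the Cayley plane (a `Spin(9)` structure `I` on `ℝ¹⁶`). -/
def KLine (P : E n → E n → E n → ℝ) : Prop :=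
  (∃ (k : ℕ) (J : Fin k → E n →L[ℝ] E n), (∀ i u v, ⟪J i u, v⟫ = -⟪u, J i v⟫) ∧
    (∀ i u, J i (J i u) = -u) ∧ (∀ i j u, i ≠ j → J i (J j u) = -J j (J i u) ∧
      J i (J j u) ∈ Submodule.span ℝ (Set.range fun l => J l u)) ∧
    ∀ y u v, P y u v = ⟪y, u⟫ * ⟪y, v⟫ + ∑ i, ⟪J i y, u⟫ * ⟪J i y, v⟫) ∨
  (n = 16 ∧ ∃ I : Fin 9 → E n →L[ℝ] E n, (∀ i u v, ⟪I i u, v⟫ = ⟪u, I i v⟫) ∧
    (∀ i u, I i (I i u) = u) ∧ (∀ i j u, i ≠ j → I i (I j u) = -I j (I i u)) ∧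
    (∀ w, ∑ i, ⟪I i w, w⟫ ^ 2 = ‖w‖ ^ 4) ∧
    ∀ y u v, P y u v = (‖y‖ ^ 2 * ⟪u, v⟫ + ∑ i, ⟪I i y, y⟫ * ⟪I i u, v⟫) / 2)

/-- `h` is the metric of a rank one symmetric space of noncompact type, at any scale, in the
coordinate `y = sinh r • θ` (`r`, `θ` geodesic polar coordinates). -/
def RankOne (h : Met n) : Prop := ∃ (c : ℝ) (P : E n → E n → E n → ℝ), 0 < c ∧ KLine P ∧
  ∀ y u v, h y u v = c * (⟪u, v⟫ + P y u v - (1 + (1 + ‖y‖ ^ 2)⁻¹) * (⟪y, u⟫ * ⟪y, v⟫))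

end Pool.Agent.MP_3ee8cb_gt.CR
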