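import Pool.Agent.MP_3ee8cb_gt.RS.SpecD

/-! The Clifford system of the Cayley plane. -/

namespace Pool.Agent.MP_3ee8cb_gt.CR

open scoped RealInnerProductSpace

theorem qino_sum (f : Fin 16 → ℝ) : ∑ r, f r = f 0 + f 1 + f 2 + f 3 + f 4 + f 5 + f 6 + f 7 +
    f 8 + f 9 + f 10 + f 11 + f 12 + f 13 + f 14 + f 15 := by
  simp only [Fin.sum_univ_succ, Fin.sum_univ_zero]
  change f 0 + (f 1 + (f 2 + (f 3 + (f 4 + (f 5 + (f 6 + (f 7 + (f 8 + (f 9 + (f 10 + (f 11 +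
    (f 12 + (f 13 + (f 14 + (f 15 + 0))))))))))))))) = _
  ring

theorem qino_sum9 (f : Fin 9 → ℝ) : ∑ r, f r = f 0 + f 1 + f 2 + f 3 + f 4 + f 5 + f 6 + f 7 +
    f 8 := by
  simp only [Fin.sum_univ_succ, Fin.sum_univ_zero]
  change f 0 + (f 1 + (f 2 + (f 3 + (f 4 + (f 5 + (f 6 + (f 7 + (f 8 + 0)))))))) = _
  ring

/-- The permutations. -/
def qinoP : Fin 9 → Fin 16 → Fin 16 :=
  ![![0, 1, 2, 3, 4, 5, 6, 7, 8, 9, 10, 11, 12, 13, 14, 15],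
    ![8, 9, 10, 11, 12, 13, 14, 15, 0, 1, 2, 3, 4, 5, 6, 7],
    ![9, 8, 11, 10, 13, 12, 15, 14, 1, 0, 3, 2, 5, 4, 7, 6],
    ![10, 11, 8, 9, 14, 15, 12, 13, 2, 3, 0, 1, 6, 7, 4, 5],
    ![11, 10, 9, 8, 15, 14, 13, 12, 3, 2, 1, 0, 7, 6, 5, 4],
    ![12, 13, 14, 15, 8, 9, 10, 11, 4, 5, 6, 7, 0, 1, 2, 3],
    ![13, 12, 15, 14, 9, 8, 11, 10, 5, 4, 7, 6, 1, 0, 3, 2],
    ![14, 15, 12, 13, 10, 11, 8, 9, 6, 7, 4, 5, 2, 3, 0, 1],
    ![15, 14, 13, 12, 11, 10, 9, 8, 7, 6, 5, 4, 3, 2, 1, 0]]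

/-- The signs. -/
def qinoS : Fin 9 → Fin 16 → ℤ :=
  ![![1, 1, 1, 1, 1, 1, 1, 1, -1, -1, -1, -1, -1, -1, -1, -1],
    ![1, 1, 1, 1, 1, 1, 1, 1, 1, 1, 1, 1, 1, 1, 1, 1],
    ![-1, 1, -1, 1, -1, 1, 1, -1, 1, -1, 1, -1, 1, -1, -1, 1],
    ![-1, 1, 1, -1, -1, -1, 1, 1, 1, -1, -1, 1, 1, 1, -1, -1],
    ![-1, -1, 1, 1, -1, 1, -1, 1, 1, 1, -1, -1, 1, -1, 1, -1],
    ![-1, 1, 1, 1, 1, -1, -1, -1, 1, -1, -1, -1, -1, 1, 1, 1],
    ![-1, -1, 1, -1, 1, 1, 1, -1, 1, 1, -1, 1, -1, -1, -1, 1],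
    ![-1, -1, -1, 1, 1, -1, 1, 1, 1, 1, 1, -1, -1, 1, -1, -1],
    ![-1, 1, -1, -1, 1, 1, -1, 1, 1, -1, 1, 1, -1, -1, 1, -1]]

theorem qino_q0 (w : Fin 16 → ℝ) : ∑ r, (qinoS 0 r : ℝ) * w (qinoP 0 r) * w r =
    w 0 ^ 2 + w 1 ^ 2 + w 2 ^ 2 + w 3 ^ 2 + w 4 ^ 2 + w 5 ^ 2 + w 6 ^ 2 + w 7 ^ 2 -
      (w 8 ^ 2 + w 9 ^ 2 + w 10 ^ 2 + w 11 ^ 2 + w 12 ^ 2 + w 13 ^ 2 + w 14 ^ 2 + w 15 ^ 2) := by
  rw [qino_sum]
  simp only [qinoS, qinoP, Matrix.cons_val]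
  push_cast
  ring

theorem qino_q1 (w : Fin 16 → ℝ) : ∑ r, (qinoS 1 r : ℝ) * w (qinoP 1 r) * w r =
    2 * (w 0 * w 8 + w 1 * w 9 + w 2 * w 10 + w 3 * w 11
      + w 4 * w 12 + w 5 * w 13 + w 6 * w 14 + w 7 * w 15) := by
  rw [qino_sum]
  simp only [qinoS, qinoP, Matrix.cons_val]
  push_cast
  ring

theorem qino_q2 (w : Fin 16 → ℝ) : ∑ r, (qinoS 2 r : ℝ) * w (qinoP 2 r) * w r =
    2 * (-(w 0 * w 9) + w 1 * w 8 - w 2 * w 11 + w 3 * w 10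
      - w 4 * w 13 + w 5 * w 12 + w 6 * w 15 - w 7 * w 14) := by
  rw [qino_sum]
  simp only [qinoS, qinoP, Matrix.cons_val]
  push_cast
  ring

theorem qino_q3 (w : Fin 16 → ℝ) : ∑ r, (qinoS 3 r : ℝ) * w (qinoP 3 r) * w r =
    2 * (-(w 0 * w 10) + w 1 * w 11 + w 2 * w 8 - w 3 * w 9
      - w 4 * w 14 - w 5 * w 15 + w 6 * w 12 + w 7 * w 13) := by
  rw [qino_sum]
  simp only [qinoS, qinoP, Matrix.cons_val]
  push_cast
  ring

theorem qino_q4 (w : Fin 16 → ℝ) : ∑ r, (qinoS 4 r : ℝ) * w (qinoP 4 r) * w r =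
    2 * (-(w 0 * w 11) - w 1 * w 10 + w 2 * w 9 + w 3 * w 8
      - w 4 * w 15 + w 5 * w 14 - w 6 * w 13 + w 7 * w 12) := by
  rw [qino_sum]
  simp only [qinoS, qinoP, Matrix.cons_val]
  push_cast
  ring

theorem qino_q5 (w : Fin 16 → ℝ) : ∑ r, (qinoS 5 r : ℝ) * w (qinoP 5 r) * w r =
    2 * (-(w 0 * w 12) + w 1 * w 13 + w 2 * w 14 + w 3 * w 15
      + w 4 * w 8 - w 5 * w 9 - w 6 * w 10 - w 7 * w 11) := by
  rw [qino_sum]
  simp only [qinoS, qinoP, Matrix.cons_val]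
  push_cast
  ring

theorem qino_q6 (w : Fin 16 → ℝ) : ∑ r, (qinoS 6 r : ℝ) * w (qinoP 6 r) * w r =
    2 * (-(w 0 * w 13) - w 1 * w 12 + w 2 * w 15 - w 3 * w 14
      + w 4 * w 9 + w 5 * w 8 + w 6 * w 11 - w 7 * w 10) := by
  rw [qino_sum]
  simp only [qinoS, qinoP, Matrix.cons_val]
  push_cast
  ring

theorem qino_q7 (w : Fin 16 → ℝ) : ∑ r, (qinoS 7 r : ℝ) * w (qinoP 7 r) * w r =
    2 * (-(w 0 * w 14) - w 1 * w 15 - w 2 * w 12 + w 3 * w 13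
      + w 4 * w 10 - w 5 * w 11 + w 6 * w 8 + w 7 * w 9) := by
  rw [qino_sum]
  simp only [qinoS, qinoP, Matrix.cons_val]
  push_cast
  ring

theorem qino_q8 (w : Fin 16 → ℝ) : ∑ r, (qinoS 8 r : ℝ) * w (qinoP 8 r) * w r =
    2 * (-(w 0 * w 15) + w 1 * w 14 - w 2 * w 13 - w 3 * w 12
      + w 4 * w 11 + w 5 * w 10 - w 6 * w 9 + w 7 * w 8) := by
  rw [qino_sum]
  simp only [qinoS, qinoP, Matrix.cons_val]
  push_cast
  ring

theorem qino_pp : ∀ i r, qinoP i (qinoP i r) = r := by decide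

theorem qino_sp : ∀ i r, qinoS i (qinoP i r) = qinoS i r := by decide

theorem qino_ss : ∀ i r, qinoS i r * qinoS i r = 1 := by decide

theorem qino_ap : ∀ i j r, qinoP j (qinoP i r) = qinoP i (qinoP j r) := by decide

theorem qino_as : ∀ i j r, i ≠ j →
    qinoS i r * qinoS j (qinoP i r) = -(qinoS j r * qinoS i (qinoP j r)) := by decide

/-- The operators. -/
noncomputable def qinoI (i : Fin 9) : E 16 →L[ℝ] E 16 :=
  LinearMap.toContinuousLinearMap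
    { toFun := fun w => WithLp.toLp 2 fun r => (qinoS i r : ℝ) * w (qinoP i r)
      map_add' := fun a b => by
        ext r
        simp [mul_add]
      map_smul' := fun c a => by
        ext r
        simp [mul_left_comm] }

theorem qino_apply (i : Fin 9) (w : E 16) (r : Fin 16) :
    qinoI i w r = (qinoS i r : ℝ) * w (qinoP i r) := rfl

theorem qino_inner (a b : E 16) : ⟪a, b⟫ = ∑ r, a r * b r := by
  rw [PiLp.inner_apply]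
  exact Finset.sum_congr rfl fun r _ => by simp [mul_comm]

theorem qino : SINO := by
  refine ⟨qinoI, fun i u v => ?_, fun i u => ?_, fun i j u hij => ?_, fun w => ?_⟩
  · rw [qino_inner, qino_inner]
    simp only [qino_apply]
    rw [← Equiv.sum_comp (Function.Involutive.toPerm (qinoP i) (qino_pp i))]
    refine Finset.sum_congr rfl fun r _ => ?_
    rw [Function.Involutive.coe_toPerm, qino_pp, qino_sp]
    ring
  · ext r
    rw [qino_apply, qino_apply, qino_pp, qino_sp, ← mul_assoc, ← Int.cast_mul, qino_ss]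
    simp
  · ext r
    rw [PiLp.neg_apply, qino_apply, qino_apply, qino_apply, qino_apply, ← mul_assoc, ← mul_assoc,
      ← Int.cast_mul, ← Int.cast_mul, qino_as i j r hij, qino_ap i j r]
    push_cast
    ring
  · have h1 : ‖w‖ ^ 4 = (∑ r, w r * w r) ^ 2 := by
      rw [← qino_inner, real_inner_self_eq_norm_sq]
      ring
    rw [h1, qino_sum9, qino_sum]
    simp only [qino_inner, qino_apply]
    rw [qino_q0 w.ofLp, qino_q1 w.ofLp, qino_q2 w.ofLp, qino_q3 w.ofLp, qino_q4 w.ofLp,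
      qino_q5 w.ofLp, qino_q6 w.ofLp, qino_q7 w.ofLp, qino_q8 w.ofLp]
    ring

end Pool.Agent.MP_3ee8cb_gt.CR
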