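import Pool.Agent.MP_3ee8cb_gt.RS.SpecC

/-! The boosts act transitively on the model space. -/

namespace Pool.Agent.MP_3ee8cb_gt.CR

open scoped RealInnerProductSpace

variable {n : ℕ}

section Ex

variable {U : Type} [NormedAddCommGroup U] [NormedSpace ℝ U] [CompleteSpace U]

theorem qtra_inv (X : U →L[ℝ] U) {s t : ℝ} (hst : s + t = 0) (z : U) :
    ex1 X s (ex1 X t z) = z := by
  have hr := NormedSpace.expSeries_radius_eq_top ℝ (U →L[ℝ] U)
  have h1 := NormedSpace.exp_add_of_commute_of_mem_ball (𝕂 := ℝ)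
    (((Commute.refl X).smul_left s).smul_right t) (hr.symm ▸ edist_lt_top _ _)
    (hr.symm ▸ edist_lt_top _ _)
  rw [← add_smul, hst, zero_smul, NormedSpace.exp_zero] at h1
  change (NormedSpace.exp (s • X) * NormedSpace.exp (t • X)) z = z
  rw [← h1]
  rfl

omit [CompleteSpace U] in
theorem qtra_one (X : U →L[ℝ] U) (z : U) : ex1 X 0 z = z := by
  simp only [ex1, zero_smul, NormedSpace.exp_zero]
  rfl

/-- Uniqueness for the linear equation. -/
theorem qtra_ode (X : U →L[ℝ] U) (z : ℝ → U) (hz : ∀ t, HasDerivAt z (X (z t)) t) (t : ℝ) :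
    ex1 X t (z 0) = z t := by
  have e : ∀ u : ℝ, ex1 (-X) u = ex1 X (-u) := fun u => by
    simp only [ex1, smul_neg, neg_smul]
  have h1 : ∀ u, HasDerivAt (fun u => ex1 (-X) u (z u)) 0 u := fun u => by
    have h2 : HasDerivAt (fun u => ex1 (-X) u) (ex1 (-X) u * (-X)) u :=
      hasDerivAt_exp_smul_const (-X) u
    have h3 := h2.clm_apply (hz u)
    have h4 : (ex1 (-X) u * (-X)) (z u) + ex1 (-X) u (X (z u)) = 0 := by
      change ex1 (-X) u (-(X (z u))) + _ = 0
      rw [map_neg, neg_add_cancel]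
    rwa [h4] at h3
  have h5 := is_const_of_deriv_eq_zero (fun u => (h1 u).differentiableAt)
    (fun u => (h1 u).deriv) 0 t
  simp only [qtra_one] at h5
  rw [h5, e]
  exact qtra_inv X (add_neg_cancel t) _

end Ex

variable {D : Tri n} {d : ℕ} {h : Met n}

theorem qtra_bo {p : E n} {t s s' : ℝ} {a a' : E n} (hs : 0 < s')
    (e : GG D p t (ver D s a) = ver D s' a') : bo D p t s a = a' := by
  rw [bo, e]
  simp only [ver]
  rw [Real.sqrt_sq hs.le, smul_smul, inv_mul_cancel₀ hs.ne', one_smul]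

theorem qtra_up (y : E n) : 0 < (up y).1 := Real.sqrt_pos.2 (by positivity)

theorem qtra_le (y : E n) : ‖y‖ ≤ (up y).1 := Real.le_sqrt_of_sq_le (by linarith)

theorem qtra_sq (y : E n) : (up y).1 ^ 2 = 1 + ‖y‖ ^ 2 := Real.sq_sqrt (by positivity)

theorem qtra_pt (hb : BoP D) (p : E n) (t : ℝ) (y : E n) :
    GG D p t (ver D (up y).1 y) =
      ver D (up (bo D p t (up y).1 y)).1 (bo D p t (up y).1 y) := by
  obtain ⟨s', a', h1, h2, h3⟩ := hb p t _ y (qtra_up y) (qtra_le y)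
  rw [qtra_bo h1 h3, h3]
  congr 1
  rw [qtra_sq] at h2
  exact (pow_left_inj₀ h1.le (qtra_up a').le two_ne_zero).1 (by rw [qtra_sq]; linarith)

theorem qtra_bd (hb : BoP D) (p : E n) (t : ℝ) {k : E n} (hk : k ≠ 0) :
    0 < ‖bo D p t ‖k‖ k‖ ∧
      GG D p t (ver D ‖k‖ k) = ver D ‖bo D p t ‖k‖ k‖ (bo D p t ‖k‖ k) := by
  obtain ⟨s', a', h1, h2, h3⟩ := hb p t _ k (norm_pos_iff.2 hk) le_rfl
  have e : s' = ‖a'‖ :=
    (pow_left_inj₀ h1.le (norm_nonneg a') two_ne_zero).1 (by linarith)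
  rw [qtra_bo h1 h3, h3, ← e]
  exact ⟨h1, rfl⟩

theorem qtra_zero (p : E n) (t : ℝ) : bo D p t ‖(0 : E n)‖ 0 = 0 := by
  have : ver D ‖(0 : E n)‖ 0 = 0 := by
    simp only [ver, norm_zero, map_zero, smul_zero, ne_eq, OfNat.ofNat_ne_zero,
      not_false_eq_true, zero_pow]
    rfl
  rw [bo, this, map_zero]
  exact smul_zero _

theorem qtra_smul (c s : ℝ) (a : E n) : ver D (c * s) (c • a) = c ^ 2 • ver D s a := by
  simp only [ver, map_smul, smul_apply, smul_smul, Prod.smul_mk, smul_eq_mul]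
  refine Prod.ext (by simp only; ring) (Prod.ext ?_ ?_)
  · simp only
    congr 1
    ring
  · simp only
    congr 1
    ring

theorem qtra_n0 (s : ℝ) (a : E n) : NN D s a ‖(0 : E n)‖ 0 = 0 := by
  simp [NN, RR]

theorem qtra_n1 (s : ℝ) (a : E n) : NN D ‖(0 : E n)‖ 0 s a = 0 := by
  simp [NN, RR]

theorem qtra_cd (p : E n) (t : ℝ) {s : E n → ℝ} {y : E n} (hs : ContDiffAt ℝ 1 s y)
    (h0 : 0 < (GG D p t (ver D (s y) y)).1) :
    ContDiffAt ℝ 1 (fun y => bo D p t (s y) y) y := by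
  have h1 : ContDiffAt ℝ 1 (fun y => ver D (s y) y) y :=
    (hs.pow 2).prodMk ((hs.smul contDiffAt_id).prodMk
      (D.contDiff.contDiffAt.clm_apply contDiffAt_id))
  have h2 : ContDiffAt ℝ 1 (fun y => GG D p t (ver D (s y) y)) y :=
    (GG D p t).contDiff.contDiffAt.comp y h1
  exact ((h2.fst.sqrt h0.ne').inv (Real.sqrt_pos.2 h0).ne').smul h2.snd.fst

theorem qtra_sym (hb : BoP D) (hn : BnP D) (hj : BjP D d) (hi : TiP D h) (p : E n) (t : ℝ) :
    Sym D d h (fun y => bo D p t (up y).1 y) fun k => bo D p t ‖k‖ k := by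
  have sm : ContDiff ℝ 1 fun y => bo D p t (up y).1 y := by
    refine contDiff_iff_contDiffAt.2 fun y => qtra_cd p t (s := fun y => (up y).1) ?_ ?_
    · exact (contDiffAt_const.add (contDiff_norm_sq ℝ).contDiffAt).sqrt (by positivity)
    · rw [qtra_pt hb]
      exact pow_pos (qtra_up _) 2
  have cc : ∀ y y', CC D (bo D p t (up y).1 y) (bo D p t (up y').1 y') = CC D y y' :=
    fun y y' => hn p t _ _ _ _ _ _ _ _ (qtra_up y) (qtra_le y) (qtra_up y') (qtra_le y')
      (qtra_up _) (qtra_up _) (qtra_pt hb p t y) (qtra_pt hb p t y')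
  refine ⟨sm, hi _ sm cc, fun k hk => ?_, qtra_zero p t, fun k hk => ?_, fun c k hc => ?_,
    fun k k' => ?_, fun y k => ?_, cc, hj p t⟩
  · refine (qtra_cd p t (s := fun y => ‖y‖) (contDiffAt_norm ℝ hk) ?_).contDiffWithinAt
    rw [(qtra_bd hb p t hk).2]
    exact pow_pos (qtra_bd hb p t hk).1 2
  · exact norm_pos_iff.1 (qtra_bd hb p t hk).1
  · rcases eq_or_ne k 0 with rfl | hk
    · rw [smul_zero, qtra_zero, smul_zero]
    · obtain ⟨h1, h2⟩ := qtra_bd hb p t hk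
      refine qtra_bo (mul_pos hc h1) ?_
      rw [norm_smul, Real.norm_of_nonneg hc.le, qtra_smul, qtra_smul, map_smul, h2]
  · rcases eq_or_ne k 0 with rfl | hk
    · simp only [lD, qtra_zero, qtra_n1]
    rcases eq_or_ne k' 0 with rfl | hk'
    · simp only [lD, qtra_zero, qtra_n0]
    obtain ⟨h1, h2⟩ := qtra_bd hb p t hk
    obtain ⟨h3, h4⟩ := qtra_bd hb p t hk'
    exact congrArg _ (hn p t _ _ _ _ _ _ _ _ (norm_pos_iff.2 hk) le_rfl (norm_pos_iff.2 hk')
      le_rfl h1 h3 h2 h4)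
  · rcases eq_or_ne k 0 with rfl | hk
    · simp only [el, qtra_zero, qtra_n0]
    obtain ⟨h1, h2⟩ := qtra_bd hb p t hk
    exact congrArg _ (hn p t _ _ _ _ _ _ _ _ (qtra_up y) (qtra_le y) (norm_pos_iff.2 hk)
      le_rfl (qtra_up _) h1 (qtra_pt hb p t y) h2)

theorem qtra_tl (hb : BoP D) (p : E n) {s t : ℝ} (hst : s + t = 0) (y : E n) :
    bo D p s (up (bo D p t (up y).1 y)).1 (bo D p t (up y).1 y) = y := by
  refine qtra_bo (qtra_up y) ?_
  rw [← qtra_pt hb]
  exact qtra_inv _ hst _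

theorem qtra_al (hb : BoP D) (p : E n) {s t : ℝ} (hst : s + t = 0) (k : E n) :
    bo D p s ‖bo D p t ‖k‖ k‖ (bo D p t ‖k‖ k) = k := by
  rcases eq_or_ne k 0 with rfl | hk
  · rw [qtra_zero, qtra_zero]
  refine qtra_bo (norm_pos_iff.2 hk) ?_
  rw [← (qtra_bd hb p t hk).2]
  exact qtra_inv _ hst _

theorem qtra_orb (hD : Hopf D d) {p : E n} (hp : ‖p‖ = 1) (t : ℝ) :
    GG D p t (ver D 1 0) = ver D (Real.cosh t) (Real.sinh t • p) := by
  let z : ℝ → J3 n := fun t =>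
    (Real.cosh t ^ 2, (Real.cosh t * Real.sinh t) • p, Real.sinh t ^ 2 • D p p)
  have e : ∀ t, ver D (Real.cosh t) (Real.sinh t • p) = z t := fun t => by
    simp only [ver, z, map_smul, smul_apply, smul_smul, sq]
  have e0 : ver D 1 0 = z 0 := by
    rw [← e, Real.cosh_zero, Real.sinh_zero, zero_smul]
  rw [e, e0]
  refine qtra_ode (XX D p) z (fun u => ?_) t
  have h1 := ((Real.hasDerivAt_cosh u).pow 2).prodMk
    ((((Real.hasDerivAt_cosh u).mul (Real.hasDerivAt_sinh u)).smul_const p).prodMk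
      (((Real.hasDerivAt_sinh u).pow 2).smul_const (D p p)))
  refine HasDerivAt.congr_deriv h1 ?_
  rw [XX_apply]
  simp only [z, inner_smul_right, real_inner_self_eq_norm_sq, hp, smul_apply, hD.self, map_smul,
    smul_smul, one_pow, mul_one, ← add_smul]
  refine Prod.ext (by simp [mul_assoc]) (Prod.ext ?_ ?_)
  · simp only
    congr 1
    ring
  · simp only
    congr 1
    norm_num
    ring

theorem qtra : STRA := by
  intro n D d h sd _ hb hn hj hi y
  have key : ∃ (p : E n) (t : ℝ), bo D p t 1 0 = y := by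
    rcases eq_or_ne y 0 with rfl | hy
    · refine ⟨0, 0, qtra_bo one_pos ?_⟩
      exact qtra_one _ _
    · have h1 : 0 < ‖y‖ := norm_pos_iff.2 hy
      refine ⟨‖y‖⁻¹ • y, Real.arsinh ‖y‖, ?_⟩
      have h2 : ‖‖y‖⁻¹ • y‖ = 1 := by
        rw [norm_smul, norm_inv, norm_norm, inv_mul_cancel₀ h1.ne']
      rw [qtra_bo (Real.cosh_pos _) (qtra_orb sd.hopf h2 _),
        Real.sinh_arsinh, smul_smul, mul_inv_cancel₀ h1.ne', one_smul]
  obtain ⟨p, t, hp⟩ := key
  refine ⟨_, _, _, _, ⟨qtra_sym hb hn hj hi p t, qtra_sym hb hn hj hi p (-t),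
    qtra_tl hb p (neg_add_cancel t), qtra_tl hb p (add_neg_cancel t),
    qtra_al hb p (neg_add_cancel t), qtra_al hb p (add_neg_cancel t)⟩, ?_⟩
  have : (up (0 : E n)).1 = 1 := by simp [up]
  simp only [this, hp]

end Pool.Agent.MP_3ee8cb_gt.CR
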