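import Pool.Agent.MP_3ee8cb_gt.RS.SpecD
import Pool.Agent.MP_3ee8cb_gt.CR.RJA

namespace Pool.Agent.MP_3ee8cb_gt.CR

open Set MeasureTheory
open scoped RealInnerProductSpace

theorem qwf : SWF := by
  intro n g x R hR
  have hi : Function.Injective (R : E n →ₗ[ℝ] E n) := by
    refine (injective_iff_map_eq_zero _).2 fun a ha => ?_
    have h := hR a a
    rw [show R a = 0 from ha, map_zero] at h
    exact inner_self_eq_zero.1 h.symm
  let R' : E n ≃L[ℝ] E n := (LinearEquiv.ofInjectiveEndo _ hi).toContinuousLinearEquiv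
  have e : (R' : E n →L[ℝ] E n) = R := ContinuousLinearMap.ext fun _ => rfl
  have h0 : 0 < |R.det| := abs_pos.2 (e ▸ ja_det_ne R')
  rw [ja_W g x R' hR, e, mul_right_comm, ← ENNReal.ofReal_mul (inv_pos.2 h0).le,
    inv_mul_cancel₀ h0.ne', ENNReal.ofReal_one, one_mul]

end Pool.Agent.MP_3ee8cb_gt.CR
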