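import Pool.Agent.MP_3ee8cb_gt.RS.SpecD
import Pool.Agent.MP_3ee8cb_gt.CR.RYA

/-! Bounds and integrability for the barycentre integrals, rank one symmetric case. -/

namespace Pool.Agent.MP_3ee8cb_gt.CR

open Set MeasureTheory

variable {n : ℕ}

theorem qyb_ne (hn : 0 < n) (d : ℕ) : ∀ᵐ k ∂nd n d, k ≠ 0 := by
  have : Nonempty (Fin n) := ⟨⟨0, hn⟩⟩
  refine (withDensity_absolutelyContinuous _ _).ae_le ?_
  exact compl_mem_ae_iff.2 (measure_singleton (0 : E n))

theorem qyb_ac (hn : 0 < n) (d : ℕ) : (volume : Measure (E n)) ≪ nd n d := by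
  have : Nonempty (Fin n) := ⟨⟨0, hn⟩⟩
  refine withDensity_absolutelyContinuous' (by fun_prop) ?_
  have : ∀ᵐ k ∂(volume : Measure (E n)), k ≠ 0 := by
    simp [ae_iff]
  filter_upwards [this] with k hk
  have h : 0 < ‖k‖ := norm_pos_iff.2 hk
  exact (ENNReal.ofReal_pos.2 (by positivity)).ne'

theorem qyb_dom (d : ℕ) (c : ℝ) (j : ℕ) (hc : 0 < c) :
    Integrable (fun k : E n => ‖k‖ ^ (j + 2) * Real.exp (-(c * ‖k‖))) (nd n d) := by
  unfold nd
  rw [integrable_withDensity_iff (by fun_prop) (ae_of_all _ fun _ => ENNReal.ofReal_lt_top)]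
  refine (ya_poly c (j + d) hc).mono' (Measurable.aestronglyMeasurable (by fun_prop))
    (ae_of_all _ fun k => ?_)
  have ht : 0 ≤ ‖k‖ := norm_nonneg k
  generalize ‖k‖ = t at ht
  rw [ENNReal.toReal_ofReal (by positivity), Real.norm_of_nonneg (by positivity)]
  rcases ht.eq_or_lt with rfl | h
  · rw [zero_pow (show (2 : ℕ) ≠ 0 by norm_num), div_zero, mul_zero]
    positivity
  · exact le_of_eq (by field_simp; ring)

theorem qyb : SYB := by
  intro n g h D d β v H _ _ W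
  exact ⟨ya_low W.pos (fun x k t hk ht => (W.hom x k t hk ht).1) W.cb, qyb_ne H.pos d,
    qyb_ac H.pos d, qyb_dom d⟩

end Pool.Agent.MP_3ee8cb_gt.CR
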