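import Pool.Agent.MP_3ee8cb_gt.CR.SpecB
import Pool.Agent.MP_3ee8cb_gt.RS.Defs

/-! Rank one symmetric targets: the model space. Definitions and statements of the rows. -/

namespace Pool.Agent.MP_3ee8cb_gt.CR

open Set MeasureTheory
open scoped RealInnerProductSpace

variable {n : ℕ}

/-- The squared modulus of the Hermitian product. -/
noncomputable def RR (D : Tri n) (a b : E n) : ℝ := ⟪D a a b, b⟫

/-- The squared modulus of the indefinite Hermitian product of `(s, a)` and `(t, b)`. -/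
noncomputable def NN (D : Tri n) (s : ℝ) (a : E n) (t : ℝ) (b : E n) : ℝ :=
  (s * t) ^ 2 - 2 * (s * t) * ⟪a, b⟫ + RR D a b

noncomputable def lD (D : Tri n) (a b : E n) : ℝ := √(NN D ‖a‖ a ‖b‖ b)

/-- The exponential of the Busemann function. -/
noncomputable def el (D : Tri n) (y k : E n) : ℝ := √(NN D (up y).1 y ‖k‖ k)

/-- The squared hyperbolic cosine of the distance. -/
noncomputable def CC (D : Tri n) (y y' : E n) : ℝ := NN D (up y).1 y (up y').1 y'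

/-- The invariant measure on boundary vectors. -/
noncomputable def nd (n d : ℕ) : Measure (E n) :=
  volume.withDensity fun k => ENNReal.ofReal (‖k‖ ^ d / ‖k‖ ^ 2)

/-- The space of the Veronese embedding. -/
abbrev J3 (n : ℕ) := ℝ × E n × (E n →L[ℝ] E n)

noncomputable def ver (D : Tri n) (s : ℝ) (a : E n) : J3 n := (s ^ 2, s • a, D a a)

noncomputable def pr (z : J3 n) (y : E n) : ℝ :=
  z.1 * (1 + ‖y‖ ^ 2) - 2 * (up y).1 * ⟪z.2.1, y⟫ + ⟪z.2.2 y, y⟫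

noncomputable def qD (D : Tri n) (k m : E n) : E n :=
  (1 / 2 : ℝ) • gradient (fun k' => lD D k' m) k

/-- The generator of the boosts. -/
noncomputable def XX (D : Tri n) (p : E n) : J3 n →L[ℝ] J3 n :=
  let w : J3 n →L[ℝ] E n := (ContinuousLinearMap.fst ℝ (E n) (E n →L[ℝ] E n)).comp
    (ContinuousLinearMap.snd ℝ ℝ (E n × (E n →L[ℝ] E n)))
  let S : J3 n →L[ℝ] E n →L[ℝ] E n := (ContinuousLinearMap.snd ℝ (E n) (E n →L[ℝ] E n)).comp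
    (ContinuousLinearMap.snd ℝ ℝ (E n × (E n →L[ℝ] E n)))
  ((2 : ℝ) • (innerSL ℝ p).comp w).prod
    (((ContinuousLinearMap.fst ℝ ℝ (E n × (E n →L[ℝ] E n))).smulRight p +
      (ContinuousLinearMap.apply ℝ (E n) p).comp S).prod ((2 : ℝ) • (D p).comp w))

theorem XX_apply (D : Tri n) (p : E n) (z : J3 n) :
    XX D p z = (2 * ⟪p, z.2.1⟫, z.1 • p + z.2.2 p, (2 : ℝ) • D p z.2.1) := rfl

/-- The linear flow of an operator. -/
noncomputable def ex1 {U : Type} [NormedAddCommGroup U] [NormedSpace ℝ U] (X : U →L[ℝ] U)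
    (t : ℝ) : U →L[ℝ] U := NormedSpace.exp (t • X)

noncomputable def GG (D : Tri n) (p : E n) (t : ℝ) : J3 n →L[ℝ] J3 n := ex1 (XX D p) t

/-- The boost in coordinates. -/
noncomputable def bo (D : Tri n) (p : E n) (t s : ℝ) (a : E n) : E n :=
  (√(GG D p t (ver D s a)).1)⁻¹ • (GG D p t (ver D s a)).2.1

/-- The model space. -/
structure SD (D : Tri n) (d : ℕ) (h : Met n) : Prop where
  pos : 0 < n
  hopf : Hopf D d
  sym : IsSym 1 D h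

structure AlgP (D : Tri n) (d : ℕ) : Prop where
  ops : ∀ a b c e, ⟪D a b c, e⟫ = ⟪c, D a b e⟫
  rsy : ∀ a b, RR D a b = RR D b a
  idem : ∀ w p, D w w (D w w p) = ‖w‖ ^ 2 • D w w p
  rlo : ∀ a b, ⟪a, b⟫ ^ 2 ≤ RR D a b
  rup : ∀ a b, RR D a b ≤ ‖a‖ ^ 2 * ‖b‖ ^ 2
  full : ∀ a b c, D a b c + D b c a + D c a b = ⟪a, b⟫ • c + ⟪b, c⟫ • a + ⟪c, a⟫ • b
  same : ∀ e z, e ≠ 0 → D e e z = ‖e‖ ^ 2 • z → ‖e‖ ^ 2 • D z z = ‖z‖ ^ 2 • D e e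
  one : 1 ≤ d
  le : d ≤ n
  trc : ∀ (k p : E n) (L : E n →L[ℝ] E n), (∀ u, L u = D k u p) →
    2 * LinearMap.trace ℝ (E n) (L : E n →ₗ[ℝ] E n) = (n + 2 - d) * ⟪k, p⟫

structure BasP (D : Tri n) : Prop where
  bd : Bd (lD D)
  nlo : ∀ s a t b, (s * t - ⟪a, b⟫) ^ 2 ≤ NN D s a t b
  nsy : ∀ s a t b, NN D s a t b = NN D t b s a
  low : ∀ y k, (up y).1 * ‖k‖ - ⟪y, k⟫ ≤ el D y k
  upp : ∀ y k, el D y k ≤ 2 * (up y).1 * ‖k‖
  pos : ∀ y k, k ≠ 0 → 0 < el D y k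
  hom : ∀ y k (t : ℝ), 0 ≤ t → el D y (t • k) = t * el D y k
  sq : ∀ y k, el D y k ^ 2 = pr (ver D ‖k‖ k) y
  zero : ∀ k, el D 0 k = ‖k‖
  cont : Continuous fun w : E n × E n => el D w.1 w.2
  c2 : ContDiffOn ℝ 2 (fun w : E n × E n => el D w.1 w.2) {w | w.2 ≠ 0}
  dl : ContDiffOn ℝ 1 (fun w : E n × E n => lD D w.1 w.2) {w | 0 < lD D w.1 w.2}
  det : ∀ k k', (∀ y, el D y k = el D y k') → k = k'

structure QaP (D : Tri n) : Prop where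
  cont : ContinuousOn (fun w : E n × E n => qD D w.1 w.2) {w | w.1 ≠ 0 ∧ 0 < lD D w.1 w.2}
  sup : ∀ k m k', k ≠ 0 → 0 < lD D k m → 2 * ⟪qD D k m, k'⟫ ≤ lD D k' m
  tou : ∀ k m, k ≠ 0 → 0 < lD D k m → 2 * ⟪qD D k m, k⟫ = lD D k m
  neg : ∀ (k : E n) (c : ℝ), k ≠ 0 → 0 < c → qD D k (-(c • k)) = c • k
  inj : ∀ (k m : E n) (c : ℝ), k ≠ 0 → 0 < lD D k m → qD D k m = c • k → m = -(c • k)
  rad : ∀ (k : E n) (c : ℝ), k ≠ 0 → 0 < c →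
    ∃ y, gradient (el D y) k = c • k ∧ el D y k = c * ‖k‖ ^ 2

/-- A symmetry: a map of points and a map of boundary vectors. -/
structure Sym (D : Tri n) (d : ℕ) (h : Met n) (T a : E n → E n) : Prop where
  smT : ContDiff ℝ 1 T
  iso : ∀ y u v, h (T y) (fderiv ℝ T y u) (fderiv ℝ T y v) = h y u v
  sma : ContDiffOn ℝ 1 a {k | k ≠ 0}
  zero : a 0 = 0
  ne : ∀ k, k ≠ 0 → a k ≠ 0
  hom : ∀ (t : ℝ) k, 0 < t → a (t • k) = t • a k
  ll : ∀ k k', lD D (a k) (a k') = lD D k k'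
  el : ∀ y k, el D (T y) (a k) = el D y k
  cc : ∀ y y', CC D (T y) (T y') = CC D y y'
  det : ∀ k, k ≠ 0 → |(fderiv ℝ a k).det| * (‖a k‖ ^ d / ‖a k‖ ^ 2) = ‖k‖ ^ d / ‖k‖ ^ 2

/-- A symmetry with its inverse. -/
structure Sy2 (D : Tri n) (d : ℕ) (h : Met n) (T a T' a' : E n → E n) : Prop where
  fw : Sym D d h T a
  bw : Sym D d h T' a'
  tl : ∀ y, T' (T y) = y
  tr : ∀ y, T (T' y) = y
  al : ∀ k, a' (a k) = k
  ar : ∀ k, a (a' k) = k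

def BoP (D : Tri n) : Prop := ∀ (p : E n) (t s : ℝ) (a : E n), 0 < s → ‖a‖ ≤ s →
  ∃ s' a', 0 < s' ∧ s' ^ 2 - ‖a'‖ ^ 2 = s ^ 2 - ‖a‖ ^ 2 ∧ GG D p t (ver D s a) = ver D s' a'

def BnP (D : Tri n) : Prop := ∀ (p : E n) (t s s' r r' : ℝ) (a a' b b' : E n), 0 < s → ‖a‖ ≤ s →
  0 < r → ‖b‖ ≤ r → 0 < s' → 0 < r' → GG D p t (ver D s a) = ver D s' a' →
  GG D p t (ver D r b) = ver D r' b' → NN D s' a' r' b' = NN D s a r b

def BjP (D : Tri n) (d : ℕ) : Prop := ∀ (p : E n) (t : ℝ) (k : E n), k ≠ 0 →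
  |(fderiv ℝ (fun k => bo D p t ‖k‖ k) k).det| *
    (‖bo D p t ‖k‖ k‖ ^ d / ‖bo D p t ‖k‖ k‖ ^ 2) = ‖k‖ ^ d / ‖k‖ ^ 2

def TiP (D : Tri n) (h : Met n) : Prop := ∀ T : E n → E n, ContDiff ℝ 1 T →
  (∀ y y', CC D (T y) (T y') = CC D y y') →
    ∀ y u v, h (T y) (fderiv ℝ T y u) (fderiv ℝ T y v) = h y u v

def TraP (D : Tri n) (d : ℕ) (h : Met n) : Prop :=
  ∀ y : E n, ∃ T a T' a', Sy2 D d h T a T' a' ∧ T 0 = y

structure GrP (D : Tri n) (d : ℕ) (h : Met n) : Prop where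
  comp : ∀ T a T' a' S b S' b', Sy2 D d h T a T' a' → Sy2 D d h S b S' b' →
    Sy2 D d h (T ∘ S) (a ∘ b) (S' ∘ T') (b' ∘ a')
  orth : ∀ O : E n ≃ₗᵢ[ℝ] E n, (∀ y u, RR D (O y) (O u) = RR D y u) →
    Sy2 D d h O O O.symm O.symm

/-- The unit vector at `y` that points to `k`. -/
structure ModP (D : Tri n) (d : ℕ) (h : Met n) (u : E n → E n → E n) : Prop where
  der : ∀ y k, k ≠ 0 → HasFDerivAt (fun y => el D y k) (-(el D y k) • h y (u y k)) y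
  unit : ∀ y k, k ≠ 0 → h y (u y k) (u y k) = 1
  cont : ContinuousOn (fun w : E n × E n => u w.1 w.2) {w | w.2 ≠ 0}
  hom : ∀ y k (t : ℝ), k ≠ 0 → 0 < t → u y (t • k) = u y k
  inj : ∀ y k k', k ≠ 0 → k' ≠ 0 → u y k = u y k' → ∃ t : ℝ, 0 < t ∧ k' = t • k
  onto : ∀ y w, h y w w = 1 → ∃ k, k ≠ 0 ∧ u y k = w
  zero : ∀ k, k ≠ 0 → u 0 k = ‖k‖⁻¹ • k
  equi : ∀ T a, Sym D d h T a → ∀ y k, k ≠ 0 → u (T y) (a k) = fderiv ℝ T y (u y k)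
  rad : ∀ (θ : E n) (t : ℝ), ‖θ‖ = 1 → el D (Real.sinh t • θ) θ = Real.exp (-t) ∧
    u (Real.sinh t • θ) θ = Real.cosh t • θ

def NfP (D : Tri n) (d : ℕ) (h : Met n) : Prop := ∀ k m : E n, lD D k m = 2 →
  ∃ T a T' a' θ, Sy2 D d h T a T' a' ∧ ‖θ‖ = 1 ∧ a θ = k ∧ a (-θ) = m

/-- The cotangent lift of `a`, with inverse `a'`. -/
noncomputable def cot2 (a a' : E n → E n) (w : E n × E n) : E n × E n :=
  (a w.1, ContinuousLinearMap.adjoint (fderiv ℝ a' (a w.1)) w.2)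

structure QeP (D : Tri n) (d : ℕ) (h : Met n) : Prop where
  qd : Qd (lD D) (qD D)
  eq : ∀ T a T' a', Sy2 D d h T a T' a' → ∀ k m, k ≠ 0 → 0 < lD D k m →
    cot2 a a' (k, qD D k m) = (a k, qD D (a k) (a m))
  ep : ∀ T a T' a', Sy2 D d h T a T' a' → ∀ y k, k ≠ 0 →
    cot2 a a' (k, gradient (el D y) k) = (a k, gradient (el D (T y)) (a k))
  cov : ∀ k m, k ≠ 0 → 0 < lD D k m →
    ∃ y, gradient (el D y) k = qD D k m ∧ 2 * el D y k = lD D k m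

def CtP (n : ℕ) : Prop := ∀ a a' : E n → E n, ContDiffOn ℝ 1 a {k | k ≠ 0} →
  ContDiffOn ℝ 1 a' {k | k ≠ 0} → (∀ k, k ≠ 0 → a k ≠ 0 ∧ a' (a k) = k) →
  (∀ k, k ≠ 0 → a' k ≠ 0 ∧ a (a' k) = k) → MeasurePreserving (cot2 a a') volume volume

def CoP (D : Tri n) (d : ℕ) (h : Met n) : Prop :=
  ∀ T a T' a', Sy2 D d h T a T' a' → MeasurePreserving a (nd n d) (nd n d)

structure PhiP (D : Tri n) (h : Met n) (u : E n → E n → E n) (φ : UT h → E n × E n)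
    (ψ : E n × E n → UT h) : Prop where
  cont : Continuous φ
  mem : ∀ p, lD D (φ p).1 (φ p).2 = 2
  icont : ContinuousOn ψ {w | lD D w.1 w.2 = 2}
  left : ∀ p, ψ (φ p) = p
  right : ∀ w : E n × E n, lD D w.1 w.2 = 2 → φ (ψ w) = w
  char : ∀ (p : UT h) (k m : E n), φ p = (k, m) ↔ k ≠ 0 ∧ m ≠ 0 ∧ el D p.1.1 k = 1 ∧
    el D p.1.1 m = 1 ∧ u p.1.1 k = p.1.2 ∧ u p.1.1 m = -p.1.2

def RadP (h : Met n) (Ψ : ℝ → UT h → UT h) : Prop := ∀ q : UT h, q.1.1 = 0 → ∀ t : ℝ,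
  (Ψ t q).1 = (Real.sinh t • q.1.2, Real.cosh t • q.1.2)

def IsfP (h : Met n) (Ψ : ℝ → UT h → UT h) : Prop := ∀ T T' : E n → E n, ContDiff ℝ 1 T →
  ContDiff ℝ 1 T' → (∀ y, T' (T y) = y) → (∀ y, T (T' y) = y) →
  (∀ y u v, h (T y) (fderiv ℝ T y u) (fderiv ℝ T y v) = h y u v) →
  (∀ y u v, h (T' y) (fderiv ℝ T' y u) (fderiv ℝ T' y v) = h y u v) →
  ∀ (q : UT h) (θ : E n), ‖θ‖ = 1 → q.1 = (T 0, fderiv ℝ T 0 θ) → ∀ t : ℝ,
    (Ψ t q).1 = (T (Real.sinh t • θ), fderiv ℝ T (Real.sinh t • θ) (Real.cosh t • θ))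

/-- A statement about the model space. -/
def OnSD (P : ∀ (n : ℕ) (_ : Tri n) (_ : ℕ) (_ : Met n), Prop) : Prop :=
  ∀ (n : ℕ) (D : Tri n) (d : ℕ) (h : Met n), SD D d h → P n D d h

def SALG : Prop := OnSD fun _ D d _ => AlgP D d
def SBAS : Prop := OnSD fun _ D d _ => AlgP D d → BasP D
def SQA : Prop := OnSD fun _ D d _ => AlgP D d → BasP D → QaP D
def SHRS : Prop := OnSD fun _ D d h => AlgP D d → Riem h
def SBO : Prop := OnSD fun _ D d _ => AlgP D d → BoP D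
def SBN : Prop := OnSD fun _ D d _ => AlgP D d → BoP D → BnP D
def SBJ : Prop := OnSD fun _ D d _ => AlgP D d → BoP D → BjP D d
def STI : Prop := OnSD fun _ D d h => AlgP D d → TiP D h
def STRA : Prop := OnSD fun _ D d h => AlgP D d → BoP D → BnP D → BjP D d → TiP D h → TraP D d h
def SGR : Prop := OnSD fun _ D d h => AlgP D d → TiP D h → GrP D d h
def SMOD : Prop := OnSD fun _ D d h => AlgP D d → BasP D → Riem h → TraP D d h →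
  ∃ u, ModP D d h u
def SNF : Prop := OnSD fun _ D d h => AlgP D d → BasP D → TraP D d h → NfP D d h
def SQE : Prop := OnSD fun _ D d h => BasP D → QaP D → NfP D d h → QeP D d h
def SCT : Prop := ∀ n : ℕ, 0 < n → CtP n
def SCO : Prop := OnSD fun _ D d h => CoP D d h
def SPHI : Prop := OnSD fun _ D d h => BasP D → Riem h → TraP D d h → NfP D d h →
  ∀ u, ModP D d h u → ∃ φ ψ, PhiP D h u φ ψ
def SRAD : Prop := OnSD fun _ D d h => AlgP D d → Riem h → ∀ Ψ : ℝ → UT h → UT h, IsFlow h Ψ →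
  UniP h → FlP h Ψ → RadP h Ψ
def SISF : Prop := OnSD fun n _ _ h => ∀ (Λ : Type) [Group Λ] [MulAction Λ (E n)]
  (Ψ : ℝ → UT h → UT h), RP h Λ Ψ → LenP h → DbrP h → RadP h Ψ → IsfP h Ψ
def SISO2 : Prop := OnSD fun n D d h => ∀ (Λ : Type) [Group Λ] [MulAction Λ (E n)]
  (Ψ : ℝ → UT h → UT h), BasP D → TraP D d h → GrP D d h → Deck h Λ → RadP h Ψ → IsfP h Ψ →
  ∃ a : Λ → E n → E n, Act (lD D) a ∧
    ∀ γ : Λ, Sy2 D d h (fun y => γ • y) (a γ) (fun y => γ⁻¹ • y) (a γ⁻¹)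
def SCONJ2 : Prop := OnSD fun n D d h => ∀ (g : Met n) (Γ Λ : Type) [Group Γ] [Group Λ]
  [MulAction Γ (E n)] [MulAction Λ (E n)] (Φ : ℝ → UT g → UT g) (Ψ : ℝ → UT h → UT h)
  (a : Λ → E n → E n) (ρ : Γ ≃* Λ) (F : UT g ≃ₜ UT h) (u : E n → E n → E n)
  (φ : UT h → E n × E n) (ψ : E n × E n → UT h), BasP D → Riem h → TraP D d h → ModP D d h u →
  PhiP D h u φ ψ → IsfP h Ψ → Act (lD D) a →
  (∀ γ : Λ, Sy2 D d h (fun y => γ • y) (a γ) (fun y => γ⁻¹ • y) (a γ⁻¹)) →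
  (∀ t p, F (Φ t p) = Ψ t (F p)) →
  (∀ (γ : Γ) (p q : UT g), q.1 = tm γ p.1 → (F q).1 = tm (ρ γ) (F p).1) →
  Conj g Φ (lD D) (fun γ => a (ρ γ)) (fun p => φ (F p)) fun w => F.symm (ψ w)

end Pool.Agent.MP_3ee8cb_gt.CR
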